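import Pool.Agent.NUTP.Gas.MatchO

/-!
# The function `OE` of the gas as a function of its occupied line

`a ^ (N + 1) * OE I J a b` is a polynomial in `a ^ 2` (off the literal poles).
-/

set_option autoImplicit false

open Polynomial

noncomputable section

namespace NUTP.Gas

open NUTG (Kd nf df vf wm mo curc LP Sp)

namespace Oo

variable {θ χ : ℂ}

/-! ### functions which are polynomials off the literal poles -/

/-- `a ^ n * F a` is a polynomial in `a ^ 2` for `a` off the literal poles with respect to `S` -/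
def PG (θ : ℂ) (S : List ℂ) (n : ℕ) (F : ℂ → ℂ) : Prop :=
  ∃ P : ℂ[X], ∀ a, Gd θ a S → a ^ n * F a = P.eval (a ^ 2)

namespace PG

variable {S : List ℂ} {n : ℕ} {F F' : ℂ → ℂ}

lemma zero : PG θ S n fun _ => 0 := ⟨0, fun a _ => by simp⟩

lemma add (h : PG θ S n F) (h' : PG θ S n F') : PG θ S n fun a => F a + F' a := by
  obtain ⟨P, hP⟩ := h
  obtain ⟨Q, hQ⟩ := h'
  exact ⟨P + Q, fun a ha => by rw [eval_add, mul_add, hP a ha, hQ a ha]⟩

lemma cmul (c : ℂ) (h : PG θ S n F) : PG θ S n fun a => c * F a := by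
  obtain ⟨P, hP⟩ := h
  exact ⟨C c * P, fun a ha => by rw [eval_mul, eval_C, ← hP a ha]; ring⟩

lemma congr (h : PG θ S n F) (e : ∀ a, Gd θ a S → F' a = F a) : PG θ S n F' := by
  obtain ⟨P, hP⟩ := h
  exact ⟨P, fun a ha => by rw [e a ha, hP a ha]⟩

lemma lsum {ι : Type*} (l : List ι) {F : ι → ℂ → ℂ} (h : ∀ i ∈ l, PG θ S n (F i)) :
    PG θ S n fun a => (l.map fun i => F i a).sum := by
  induction l with
  | nil => exact zero.congr fun a _ => by simp
  | cons i l ih =>
    refine ((h i List.mem_cons_self).add (ih fun j hj => h j (List.mem_cons_of_mem _ hj))).congr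
      fun a _ => by simp

lemma sm (X : List (ℂ × Ty)) {F : Cf → ℂ → ℂ} (h : ∀ e, Cmp X e → PG θ S n (F e)) :
    PG θ S n fun a => Gas.sm X fun e => F e a := by
  induction X generalizing F with
  | nil => exact h [] List.Forall₂.nil
  | cons t X ih =>
    simp only [sm_cons]
    exact lsum _ fun k hk => ih fun e he => h _ (List.Forall₂.cons ⟨rfl, hk⟩ he)

/-- the states of unmarked full lines -/
def UF (k : K) : Prop := k = .p ∨ k = .z ∨ k = .n

lemma usm (I : List ℂ) {F : Cf → ℂ → ℂ}
    (h : ∀ e : Cf, e.map Prod.fst = I → (∀ c ∈ e, UF c.2) → PG θ S n (F e)) :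
    PG θ S n fun a => Gas.usm (fl I) fun e => F e a := by
  induction I generalizing F with
  | nil => exact h [] rfl (by simp)
  | cons x I ih =>
    have e1 : fl (x :: I) = (x, Ty.F) :: fl I := rfl
    rw [e1]
    simp only [Gas.usm]
    refine lsum _ fun k hk => ih fun e he hu => h _ ?_ ?_
    · rw [List.map_cons, he]
    · intro c hc
      rcases List.mem_cons.1 hc with rfl | hc
      · simpa [Ty.us, UF] using hk
      · exact hu c hc

end PG

/-! ### the objects -/

lemma kf_ne {k : K} (h : PG.UF k) : ∃ κ, kf k = some κ := by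
  rcases h with rfl | rfl | rfl <;> exact ⟨_, rfl⟩

lemma ob_map_snd {g : K → Option Kd} {e : Cf} (h : ∀ c ∈ e, ∃ κ, g c.2 = some κ) :
    (ob g e).map Prod.snd = e.map Prod.fst := by
  induction e with
  | nil => rfl
  | cons c e ih =>
    obtain ⟨κ, hκ⟩ := h c List.mem_cons_self
    unfold ob at ih ⊢
    rw [List.filterMap_cons_some (by rw [hκ]; rfl)]
    simp only [List.map_cons]
    rw [ih fun c hc => h c (List.mem_cons_of_mem _ hc)]

lemma ob_sublist (g : K → Option Kd) (e : Cf) : ((ob g e).map Prod.snd).Sublist (e.map Prod.fst) := by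
  induction e with
  | nil => exact List.Sublist.refl _
  | cons c e ih =>
    unfold ob at ih ⊢
    rcases hx : g c.2 with _ | κ
    · rw [List.filterMap_cons_none (by rw [hx]; rfl)]
      exact ih.trans (List.sublist_cons_self _ _)
    · rw [List.filterMap_cons_some (by rw [hx]; rfl)]
      simpa using ih

lemma kg_F {k : K} (h : k ∈ Ty.F.st) : ∃ κ, kg k = some κ := by
  simp only [Ty.st, List.mem_cons, List.not_mem_nil, or_false] at h
  rcases h with rfl | rfl | rfl | rfl | rfl <;> exact ⟨_, rfl⟩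

lemma kf_R (k : K) (κ : Kd) (h : kf k = some κ) : κ ≠ .R := by
  rintro rfl
  cases k <;> simp [kf] at h

lemma kg_R (k : K) (κ : Kd) (h : kg k = some κ) : κ ≠ .R := by
  rintro rfl
  cases k <;> simp [kg] at h

lemma obs_R {e f : Cf} {o : Kd × ℂ} (ho : o ∈ obs e f) : o.1 ≠ .R := by
  unfold obs at ho
  rcases List.mem_append.1 ho with h | h
  · obtain ⟨c, _, hc, _⟩ := mem_ob.1 h
    exact kf_R _ _ hc
  · obtain ⟨c, _, hc, _⟩ := mem_ob.1 h
    exact kg_R _ _ hc

/-! ### neutrality -/

lemma two_kf {k : K} (h : PG.UF k) : 2 * (kf k).elim 0 NUTG.ch = ch k + mk k := by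
  rcases h with rfl | rfl | rfl <;> decide

lemma two_kg {k : K} (h : k ∈ Ty.F.st) : 2 * (kg k).elim 0 NUTG.ch = -ch k + mk k := by
  simp only [Ty.st, List.mem_cons, List.not_mem_nil, or_false] at h
  rcases h with rfl | rfl | rfl | rfl | rfl <;> decide

lemma sum_kf {e : Cf} (h : ∀ c ∈ e, PG.UF c.2) :
    2 * ((ob kf e).map fun o => NUTG.ch o.1).sum = tt ch e + tt mk e := by
  rw [sum_ob]
  induction e with
  | nil => simp [tt]
  | cons c e ih =>
    rw [List.map_cons, List.sum_cons, mul_add, two_kf (h c List.mem_cons_self),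
      ih fun c hc => h c (List.mem_cons_of_mem _ hc), tt_cons, tt_cons]
    ring

lemma sum_kg {J : List ℂ} {f : Cf} (h : Cmp (fl J) f) :
    2 * ((ob kg f).map fun o => NUTG.ch o.1).sum = -tt ch f + tt mk f := by
  rw [sum_ob]
  induction J generalizing f with
  | nil =>
    cases h
    simp [tt]
  | cons y J ih =>
    obtain ⟨c, f', hc, hf', rfl⟩ : ∃ c f', (c.1 = y ∧ c.2 ∈ Ty.F.st) ∧ Cmp (fl J) f' ∧ f = c :: f' := by
      cases h with
      | cons h1 h2 => exact ⟨_, _, h1, h2, rfl⟩
    rw [List.map_cons, List.sum_cons, mul_add, two_kg hc.2, ih hf', tt_cons, tt_cons]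
    ring

/-- world `g` -/
lemma split_En {τ : Bool} {q g : ℂ} {J : List ℂ} {f : Cf} (h : Cmp (En τ q g ++ fl J) f) :
    ∃ k1 k2 f', f = (q, k1) :: (g, k2) :: f' ∧ Cmp (fl J) f' ∧
      (∃ κ, kg k1 = some κ) ∧ kg k2 = none ∧
      2 * ((kg k1).elim 0 NUTG.ch + (kg k2).elim 0 NUTG.ch) =
        -(ch k1 + ch k2) + (mk k1 + mk k2) - 1 := by
  cases τ
  · simp only [En, Bool.false_eq_true, if_false, List.cons_append, List.nil_append] at h
    cases h with
    | @cons _ c1 _ f1 h1 h2 =>
      cases h2 with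
      | @cons _ c2 _ f2 h3 h4 =>
        obtain ⟨x1, k1⟩ := c1
        obtain ⟨x2, k2⟩ := c2
        obtain ⟨rfl, m1⟩ := h1
        obtain ⟨rfl, m2⟩ := h3
        refine ⟨k1, k2, f2, rfl, h4, ?_⟩
        simp only [Ty.st, List.mem_cons, List.not_mem_nil, or_false] at m1 m2
        subst m2
        rcases m1 with rfl | rfl
        · exact ⟨⟨_, rfl⟩, rfl, by decide⟩
        · exact ⟨⟨_, rfl⟩, rfl, by decide⟩
  · simp only [En, if_true, List.cons_append, List.nil_append] at h
    cases h with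
    | @cons _ c1 _ f1 h1 h2 =>
      cases h2 with
      | @cons _ c2 _ f2 h3 h4 =>
        obtain ⟨x1, k1⟩ := c1
        obtain ⟨x2, k2⟩ := c2
        obtain ⟨rfl, m1⟩ := h1
        obtain ⟨rfl, m2⟩ := h3
        refine ⟨k1, k2, f2, rfl, h4, ?_⟩
        simp only [Ty.st, List.mem_cons, List.not_mem_nil, or_false] at m1 m2
        subst m1
        rcases m2 with rfl | rfl
        · exact ⟨⟨_, rfl⟩, rfl, by decide⟩
        · exact ⟨⟨_, rfl⟩, rfl, by decide⟩

lemma fst_fl {J : List ℂ} {f : Cf} (h : Cmp (fl J) f) : f.map Prod.fst = J := by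
  rw [h.fst]
  unfold fl
  rw [List.map_map]
  simp [Function.comp_def]

/-- the objects seen by the right current: positions -/
lemma obs_snd {τ : Bool} {q g : ℂ} {I J : List ℂ} {e f : Cf} (he : e.map Prod.fst = I)
    (hu : ∀ c ∈ e, PG.UF c.2) (hf : Cmp (En τ q g ++ fl J) f) :
    (obs e f).map Prod.snd = I ++ q :: J := by
  obtain ⟨k1, k2, f', rfl, hf', ⟨κ, hκ⟩, h2, -⟩ := split_En hf
  unfold obs
  rw [List.map_append, ob_map_snd fun c hc => kf_ne (hu c hc), he]
  congr 1
  have h3 : ob kg ((q, k1) :: (g, k2) :: f') = (κ, q) :: ob kg f' := by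
    unfold ob
    rw [List.filterMap_cons_some (by rw [hκ]; rfl), List.filterMap_cons_none (by rw [h2]; rfl)]
  rw [h3, List.map_cons]
  congr 1
  rw [ob_map_snd, fst_fl hf']
  intro c hc
  obtain ⟨t, ht, _, h5⟩ := hf'.mem hc
  unfold fl at ht
  obtain ⟨y, _, rfl⟩ := List.mem_map.1 ht
  exact kg_F h5

lemma obs_ch {τ : Bool} {q g : ℂ} {J : List ℂ} {e f : Cf} (hu : ∀ c ∈ e, PG.UF c.2)
    (hf : Cmp (En τ q g ++ fl J) f) :
    2 * ((obs e f).map fun o => NUTG.ch o.1).sum = tt ch e + tt mk e - tt ch f + tt mk f - 1 := by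
  obtain ⟨k1, k2, f', rfl, hf', -, -, h3⟩ := split_En hf
  unfold obs
  rw [List.map_append, List.sum_append, mul_add, sum_kf hu]
  have h4 : ((ob kg ((q, k1) :: (g, k2) :: f')).map fun o => NUTG.ch o.1).sum =
      ((kg k1).elim 0 NUTG.ch + (kg k2).elim 0 NUTG.ch) + ((ob kg f').map fun o => NUTG.ch o.1).sum := by
    rw [sum_ob, sum_ob, List.map_cons, List.map_cons, List.sum_cons, List.sum_cons, add_assoc]
  rw [h4, mul_add, h3, sum_kg hf']
  simp only [tt_cons]
  ring

lemma df_Gd {a : ℂ} {S : List ℂ} (h : Gd θ a S) {o : Kd × ℂ} (ho : o.2 ∈ S) :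
    df θ o.1 o.2 a ≠ 0 := by
  obtain ⟨h0, h1⟩ := h.2 _ ho
  obtain ⟨κ, c⟩ := o
  cases κ <;> simp only [df, ne_eq, one_ne_zero, not_false_eq_true] <;> assumption

/-- one term -/
lemma term_PG (hθ : θ ^ 8 = -1) {τ : Bool} {q g : ℂ} {I J : List ℂ} {b : ℂ}
    (hG : G θ (b :: q :: g :: (I ++ J))) {e f : Cf} (he : e.map Prod.fst = I)
    (hu : ∀ c ∈ e, PG.UF c.2) (hf : Cmp (En τ q g ++ fl J) f) :
    PG θ (b :: q :: g :: (I ++ J)) (I.length + J.length + 1) fun a =>
      tm θ χ 1 0 0 (-1) ((b, .re) :: e) f * curc θ (mo θ) ((Kd.R, b) :: obs e f) a := by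
  by_cases h : (1 : ℤ) + tt mk ((b, K.re) :: e) = 0 ∧ (0 : ℤ) + tt mk f = 0 ∧
      (0 : ℤ) + tt ch ((b, K.re) :: e) = tt ch f
  swap
  · refine PG.zero.congr fun a _ => ?_
    unfold tm
    rw [if_neg h, zero_mul]
  refine PG.cmul _ ?_
  obtain ⟨h1, h2, h3⟩ := h
  rw [tt_cons] at h1 h3
  have hsnd := obs_snd he hu hf
  have hch : ((obs e f).map fun o => NUTG.ch o.1).sum = -1 := by
    have h4 := obs_ch hu hf
    have e1 : mk K.re = -1 := rfl
    have e2 : ch K.re = 1 := rfl
    simp only [e1, e2] at h1 h3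
    omega
  have hmem : ∀ o ∈ ((Kd.R, b) :: obs e f), o.2 ∈ b :: q :: g :: (I ++ J) := by
    intro o ho
    rcases List.mem_cons.1 ho with rfl | ho
    · exact List.mem_cons_self
    · have : o.2 ∈ (obs e f).map Prod.snd := List.mem_map_of_mem ho
      rw [hsnd] at this
      simp only [List.mem_append, List.mem_cons] at this ⊢
      tauto
  have h0 : ∀ o ∈ ((Kd.R, b) :: obs e f), o.2 ≠ 0 := by
    intro o ho
    have := hG.1 (o.2 ^ 2) (List.mem_map_of_mem (hmem o ho))
    intro h5
    apply this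
    rw [h5]; ring
  have hs : ((Kd.R, b) :: obs e f).Pairwise fun o o' => Sp θ o.2 o'.2 := by
    have h6 : (((Kd.R, b) :: obs e f).map Prod.snd).Pairwise (Sp θ) := by
      rw [List.map_cons, hsnd]
      have h7 : (b :: q :: (I ++ J)).Pairwise (Sp θ) := by
        have h8 := hG.2
        rw [List.pairwise_map] at h8
        exact h8.sublist (by
          refine List.Sublist.cons_cons _ (List.Sublist.cons_cons _ ?_)
          exact List.sublist_cons_self _ _)
      refine (List.Perm.pairwise_iff (fun {_ _} h => Sp.symm hθ h) ?_).1 h7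
      exact List.Perm.cons _ List.perm_middle.symm
    rwa [List.pairwise_map] at h6
  obtain ⟨F, ⟨P, -, hP⟩, hF⟩ := NUTG.cur_o hθ h0 hs (fun o ho => obs_R ho) hch
  have hlen : (obs e f).length = I.length + J.length + 1 := by
    rw [← List.length_map (f := Prod.snd), hsnd, List.length_append, List.length_cons]
    ring
  refine ⟨P, fun a ha => ?_⟩
  have := hP a ha.1
  rw [hlen] at this
  rw [hF a ha.1 fun o ho => df_Gd ha (hmem o ho), this]

end Oo

open Oo

variable {θ χ : ℂ}

/-- **`OE` as a function of the occupied line** -/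
theorem polOEo (hθ : θ ^ 8 = -1) (τ : Bool) (q g : ℂ) (I J : List ℂ) (b : ℂ)
    (hG : G θ (b :: q :: g :: (I ++ J))) : ∃ P : ℂ[X],
    ∀ a, Gd θ a (b :: q :: g :: (I ++ J)) →
      a ^ (I.length + J.length + 1) * (gasF θ χ τ q g).OE I J a b = P.eval (a ^ 2) := by
  have key : PG θ (b :: q :: g :: (I ++ J)) (I.length + J.length + 1) fun a =>
      (gasF θ χ τ q g).OE I J a b := by
    refine (PG.cmul (sn θ 1 1) (PG.usm I (F := fun e a => sm (En τ q g ++ fl J) fun f =>
      tm θ χ 1 0 0 (-1) ((b, .re) :: e) f * curc θ (mo θ) ((Kd.R, b) :: obs e f) a) fun e he hu =>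
      PG.sm _ fun f hf => term_PG hθ hG he hu hf)).congr fun a ha => ?_
    have hsp := hG.2
    rw [List.pairwise_map] at hsp
    have h0 : ∀ x ∈ b :: q :: g :: (I ++ J), x ≠ 0 := by
      intro x hx h5
      apply hG.1 (x ^ 2) (List.mem_map_of_mem hx)
      rw [h5]; ring
    have hY : Sg (En τ q g ++ fl J) := by
      intro t ht
      rcases List.mem_append.1 ht with ht | ht
      · cases τ <;> simp only [En, Bool.false_eq_true, if_false, if_true, List.mem_cons,
          List.not_mem_nil, or_false] at ht <;> rcases ht with rfl | rfl <;> simp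
      · unfold fl at ht
        obtain ⟨y, _, rfl⟩ := List.mem_map.1 ht
        exact Or.inl rfl
    have hYp : ∀ t ∈ En τ q g ++ fl J, t.1 ∈ q :: g :: J := by
      intro t ht
      rcases List.mem_append.1 ht with ht | ht
      · cases τ <;> simp only [En, Bool.false_eq_true, if_false, if_true, List.mem_cons,
          List.not_mem_nil, or_false] at ht <;> rcases ht with rfl | rfl <;> simp
      · unfold fl at ht
        obtain ⟨y, hy, rfl⟩ := List.mem_map.1 ht
        simp [hy]
    have hperm : (b :: q :: g :: (I ++ J)).Perm ((b :: I) ++ (q :: g :: J)) := by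
      rw [List.cons_append]
      refine List.Perm.cons _ ?_
      exact ((List.perm_middle).trans (List.Perm.cons _ List.perm_middle)).symm
    have h1 := (List.Perm.pairwise_iff (fun {_ _} h => Sp.symm hθ h) hperm).1 hsp
    rw [List.pairwise_append] at h1
    exact gas_rb hθ a b I hY (h0 b (by simp)) (fun x hx => h0 x (by simp [hx]))
      (fun t ht => h0 _ (by
        have := hYp t ht
        simp only [List.mem_cons, List.mem_append] at this ⊢
        tauto)) h1.1 (fun x hx t ht => h1.2.2 x hx _ (hYp t ht))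
  exact key

end NUTP.Gas

end
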