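import Pool.Agent.NUTP.Gas.Base

/-!
# The mirror image of the gas
-/

set_option autoImplicit false

noncomputable section

namespace NUTP.Gas

variable {θ χ : ℂ}

/-- mirror image of a type -/
def tmir : Ty → Ty
  | .F => .F | .ro => .lo | .rb => .lb | .re => .le | .lo => .ro | .lb => .rb | .le => .re

/-- number of occupied ended lines of a type -/
def no : Ty → ℤ
  | .ro => 1 | .rb => 1 | .lo => 1 | .lb => 1
  | _ => 0

lemma mir_mir (k : K) : mir (mir k) = k := by cases k <;> rfl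

lemma mk_mir (k : K) : mk (mir k) = mk k := by cases k <;> rfl

lemma ch_mir (k : K) : ch (mir k) = -ch k := by cases k <;> rfl

lemma nl_mir {t : Ty} {k : K} (h : k ∈ t.st) : nl (mir k) = no t - nl k := by
  cases t <;> fin_cases h <;> rfl

lemma sn_mm (hθ : θ ^ 8 = -1) (k : ℕ) (u : ℂ) : sn θ⁻¹ k u⁻¹ = sn θ k u := by
  rw [sn_th_inv hθ, inv_inv]

lemma sn_m1 (hθ : θ ^ 8 = -1) (k : ℕ) : sn θ⁻¹ k 1 = sn θ k 1 := by
  rw [sn_th_inv hθ, inv_one]

lemma w1_mir (hθ : θ ^ 8 = -1) (k : K) : w1 θ⁻¹ (mir k) = w1 θ k := by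
  cases k <;> simp only [w1, mir, sn_m1 hθ]

lemma ff_mm (hθ : θ ^ 8 = -1) (k l : K) (u : ℂ) : ff θ⁻¹ k l u⁻¹ = ff θ k l u := by
  cases k <;> cases l <;> simp only [ff, sn_mm hθ]

lemma ef_mm (hθ : θ ^ 8 = -1) (k l : K) (u : ℂ) : ef θ⁻¹ k l u⁻¹ = ef θ k l u := by
  cases k <;> cases l <;> simp only [ef, sn_mm hθ, sn_m1 hθ]

lemma ee_mm (hθ : θ ^ 8 = -1) (k l : K) (u : ℂ) : ee θ⁻¹ k l u⁻¹ = ee θ k l u := by
  cases k <;> cases l <;> simp only [ee, sn_mm hθ, sn_m1 hθ]

lemma xf_mm (hθ : θ ^ 8 = -1) (k l : K) (u : ℂ) : xf θ⁻¹ k l u⁻¹ = xf θ k l u := by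
  cases k <;> cases l <;> simp only [xf, sn_mm hθ]

lemma xx_mir (hθ : θ ^ 8 = -1) (k l : K) (u : ℂ) : xx θ⁻¹ (mir k) (mir l) u⁻¹ = xx θ k l u := by
  cases k <;> cases l <;> simp only [xx, isM, mir, sn_mm hθ]

set_option linter.unusedSimpArgs false in
lemma ff_mir (hθ : θ ^ 8 = -1) {k l : K} (hk : cls k = .f) (hl : cls l = .f) (u : ℂ) :
    ff θ⁻¹ (mir k) (mir l) u = ff θ k l u := by
  cases k <;> (first | (cases hk; done) | skip) <;> cases l <;> (first | (cases hl; done) | skip) <;>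
    simp only [ff, mir, sn_th_inv hθ, sn_inv0 hθ, sn_inv1 hθ, sn_inv2 hθ, sn_inv3 hθ, sn_inv5 hθ,
      sn_inv6 hθ, sn_inv7 hθ] <;> ring

set_option linter.unusedSimpArgs false in
lemma gg_mir (hθ : θ ^ 8 = -1) {k l : K} (hk : cls k = .f) (hl : cls l = .f) (u : ℂ) :
    gg θ⁻¹ (mir k) (mir l) u = gg θ k l u := by
  cases k <;> (first | (cases hk; done) | skip) <;> cases l <;> (first | (cases hl; done) | skip) <;>
    simp only [gg, mir, sn_th_inv hθ, sn_inv0 hθ, sn_inv1 hθ, sn_inv2 hθ, sn_inv3 hθ, sn_inv4 hθ,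
      sn_inv5 hθ, sn_inv6 hθ, sn_inv7 hθ] <;> ring

lemma cls_mir (k : K) : cls (mir k) = match cls k with | .f => .f | .r => .l | .l => .r := by
  cases k <;> rfl

lemma own_mir (hθ : θ ^ 8 = -1) (k l : K) (u : ℂ) : own θ⁻¹ (mir k) (mir l) u = own θ k l u := by
  unfold own
  rw [cls_mir, cls_mir]
  rcases hk : cls k <;> rcases hl : cls l <;> simp only [mir_mir]
  · exact ff_mir hθ hk hl u
  · have := ef_mm hθ l k u⁻¹; rwa [inv_inv] at this
  · have := ef_mm hθ (mir l) (mir k) u; rw [← this]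
  · exact ef_mm hθ k l u
  · have := ee_mm hθ k l u; rw [← this]
  · have := ef_mm hθ (mir k) (mir l) u⁻¹; rwa [inv_inv] at this
  · have := ee_mm hθ (mir k) (mir l) u⁻¹; rwa [inv_inv] at this

lemma crs_mir (hθ : θ ^ 8 = -1) (k l : K) (u : ℂ) : crs θ⁻¹ (mir k) (mir l) u = crs θ k l u := by
  unfold crs
  rw [cls_mir, cls_mir]
  rcases hk : cls k <;> rcases hl : cls l <;> simp only [mir_mir]
  · exact gg_mir hθ hk hl u
  · have := xf_mm hθ l k u; rw [← this]
  · have := xf_mm hθ (mir l) (mir k) u⁻¹; rwa [inv_inv] at this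
  · have := xf_mm hθ k l u⁻¹; rwa [inv_inv] at this
  · exact xx_mir hθ k l u
  · have := xf_mm hθ (mir k) (mir l) u; rw [← this]
  · have := xx_mir hθ k l u⁻¹; rwa [inv_inv] at this

/-- mirror image of an object -/
def mt (t : ℂ × Ty) : ℂ × Ty := (t.1, tmir t.2)
def mc (c : ℂ × K) : ℂ × K := (c.1, mir c.2)

lemma st_mir (t : Ty) : (tmir t).st.Perm (t.st.map mir) := by
  cases t <;> decide

lemma sm_mir {M : Type*} [AddCommMonoid M] (X : List (ℂ × Ty)) (φ : Cf → M) :
    sm (X.map mt) φ = sm X fun e => φ (e.map mc) := by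
  induction X generalizing φ with
  | nil => rfl
  | cons t X ih =>
    rw [List.map_cons, sm_cons, sm_cons]
    change (List.map _ (tmir t.2).st).sum = _
    rw [((st_mir t.2).map _).sum_eq, List.map_map]
    congr 1
    exact List.map_congr_left fun k _ => ih _

lemma tt_mir (p r : K → ℤ) (h : ∀ k, p (mir k) = r k) (e : Cf) : tt p (e.map mc) = tt r e := by
  unfold tt
  rw [List.map_map]
  congr 1
  exact List.map_congr_left fun c _ => h c.2

lemma tt_nl_mir {X : List (ℂ × Ty)} {e : Cf} (h : Cmp X e) :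
    tt nl (e.map mc) = (X.map fun t => no t.2).sum - tt nl e := by
  induction h with
  | nil => rfl
  | cons h _ ih =>
    rw [List.map_cons, tt_cons, tt_cons, List.map_cons, List.sum_cons, ih]
    have := nl_mir h.2
    change nl (mir _) + _ = _
    rw [this]; ring

lemma ow_mir (hθ : θ ^ 8 = -1) (e : Cf) : ow θ⁻¹ (e.map mc) = ow θ e := by
  induction e with
  | nil => rfl
  | cons c e ih =>
    rw [List.map_cons]
    simp only [ow]
    rw [ih]
    congr 2
    · exact w1_mir hθ c.2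
    · unfold ow1
      rw [List.map_map]
      congr 1
      exact List.map_congr_left fun d _ => own_mir hθ c.2 d.2 _

lemma cr_mir (hθ : θ ^ 8 = -1) (e f : Cf) : cr θ⁻¹ (e.map mc) (f.map mc) = cr θ e f := by
  unfold cr
  rw [List.map_map]
  congr 1
  refine List.map_congr_left fun c _ => ?_
  change cr1 θ⁻¹ c.1 (mir c.2) (f.map mc) = cr1 θ c.1 c.2 f
  unfold cr1
  rw [List.map_map]
  congr 1
  exact List.map_congr_left fun d _ => crs_mir hθ c.2 d.2 _

/-- **the mirror image** -/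
theorem gas_mir (hθ : θ ^ 8 = -1) {X Y : List (ℂ × Ty)}
    (h : (X.map fun t => no t.2).sum + (Y.map fun t => no t.2).sum = 2) :
    gas θ⁻¹ χ⁻¹ (X.map mt) (Y.map mt) = gas θ χ X Y := by
  unfold gas
  rw [sm_mir, sn_m1 hθ]
  congr 1
  refine sm_congr fun e he => ?_
  rw [sm_mir]
  refine sm_congr fun f hf => ?_
  have hm := tt_mir mk mk mk_mir
  have hc := tt_mir ch (fun k => -ch k) ch_mir
  have hn : ∀ e : Cf, tt (fun k => -ch k) e = -tt ch e := fun e => by
    induction e with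
    | nil => rfl
    | cons c e ih => rw [tt_cons, tt_cons, ih]; ring
  unfold tm
  rw [hm, hm, hc, hc, hn, hn, tt_nl_mir he, tt_nl_mir hf, ow_mir hθ, ow_mir hθ, cr_mir hθ]
  by_cases h1 : 0 + tt mk e = 0 ∧ 0 + tt mk f = 0 ∧ 0 + tt ch e = tt ch f
  · rw [if_pos h1, if_pos ⟨h1.1, h1.2.1, by linarith [h1.2.2]⟩]
    congr 1
    rw [inv_zpow', show -(-1 + -tt ch f + ((X.map fun t => no t.2).sum - tt nl e) +
      ((Y.map fun t => no t.2).sum - tt nl f)) = -1 + tt ch f + tt nl e + tt nl f by linarith]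
  · rw [if_neg h1, if_neg (fun h2 => h1 ⟨h2.1, h2.2.1, by linarith [h2.2.2]⟩)]

lemma fl_mir (L : List ℂ) : (fl L).map mt = fl L := by
  unfold fl; rw [List.map_map]; rfl

lemma no_fl (L : List ℂ) : ((fl L).map fun t => no t.2).sum = 0 := by
  unfold fl; rw [List.map_map]
  exact List.sum_eq_zero (by simp [no])

lemma En_mir (τ : Bool) (q g : ℂ) : ((En τ q g).map mt).Perm (En (!τ) g q) := by
  cases τ
  · exact List.Perm.swap _ _ _
  · exact List.Perm.swap _ _ _

lemma no_En (τ : Bool) (q g : ℂ) : ((En τ q g).map fun t => no t.2).sum = 1 := by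
  cases τ <;> rfl

lemma gas_mirE (hθ : θ ^ 8 = -1) (τ : Bool) (q g : ℂ) {X X' : List (ℂ × Ty)} (J : List ℂ)
    (h : (X.map fun t => no t.2).sum = 1) (hX : (X.map mt).Perm X') :
    gas θ⁻¹ χ⁻¹ X' (En (!τ) g q ++ fl J) = gas θ χ X (En τ q g ++ fl J) := by
  have hθ' : θ⁻¹ ^ 8 = -1 := by rw [inv_pow, hθ]; norm_num
  rw [← gas_mir hθ (X := X) (Y := En τ q g ++ fl J) (by
    rw [List.map_append, List.sum_append, no_En, no_fl, h]; norm_num)]
  refine gas_perm hθ' hX.symm ?_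
  rw [List.map_append, fl_mir]
  exact (En_mir τ q g).symm.append_right _

/-- **the mirror family** -/
theorem gasF_mir (hθ : θ ^ 8 = -1) (τ : Bool) (q g : ℂ) :
    (gasF θ χ τ q g).mir = gasF θ⁻¹ χ⁻¹ (!τ) g q := by
  have n1 : ∀ (t : ℂ × Ty) (L : List ℂ), no t.2 = 1 →
      ((t :: fl L).map fun t => no t.2).sum = 1 := fun t L h => by
    rw [List.map_cons, List.sum_cons, no_fl, h, add_zero]
  have n2 : ∀ (t s : ℂ × Ty) (L : List ℂ), no t.2 + no s.2 = 1 →
      ((t :: s :: fl L).map fun t => no t.2).sum = 1 := fun t s L h => by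
    rw [List.map_cons, List.sum_cons, List.map_cons, List.sum_cons, no_fl, add_zero, h]
  unfold gasF Fam.mir
  simp only [Fam.mk.injEq]
  refine ⟨?_, ?_, ?_, ?_, ?_, ?_, ?_, ?_⟩ <;> funext I J
  · funext p
    exact (gas_mirE hθ τ q g J (n1 _ _ rfl) (by rw [List.map_cons, fl_mir]; exact List.Perm.refl _)).symm
  · funext p
    exact (gas_mirE hθ τ q g J (n1 _ _ rfl) (by rw [List.map_cons, fl_mir]; exact List.Perm.refl _)).symm
  · funext a b
    exact (gas_mirE hθ τ q g J (n2 _ _ _ rfl) (by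
      rw [List.map_cons, List.map_cons, fl_mir]; exact List.Perm.refl _)).symm
  · funext a b
    exact (gas_mirE hθ τ q g J (n2 _ _ _ rfl) (by
      rw [List.map_cons, List.map_cons, fl_mir]; exact List.Perm.refl _)).symm
  · funext a b
    exact (gas_mirE hθ τ q g J (n2 _ _ _ rfl) (by
      rw [List.map_cons, List.map_cons, fl_mir]; exact List.Perm.refl _)).symm
  · funext a b
    exact (gas_mirE hθ τ q g J (n2 _ _ _ rfl) (by
      rw [List.map_cons, List.map_cons, fl_mir]; exact List.Perm.refl _)).symm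
  · funext a b
    exact (gas_mirE hθ τ q g J (n2 _ _ _ rfl) (by
      rw [List.map_cons, List.map_cons, fl_mir]; exact List.Perm.swap _ _ _)).symm
  · funext a b
    exact (gas_mirE hθ τ q g J (n2 _ _ _ rfl) (by
      rw [List.map_cons, List.map_cons, fl_mir]; exact List.Perm.swap _ _ _)).symm

end NUTP.Gas

end
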