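import Pool.Agent.NUTP.Gas.Asm
import Pool.Agent.NUTP.Gas.Mirror

/-!
# The up-down reflection: reduction to `R`, `OE`, `ER`
-/

set_option autoImplicit false

noncomputable section

namespace NUTP.Gas.As

variable {θ χ : ℂ}

/-- the core statements of the reflection -/
structure UDc (θ χ : ℂ) (τ : Bool) (q g : ℂ) : Prop where
  uR : ∀ (I J : List ℂ) (p : ℂ), G θ (p :: q :: g :: (I ++ J)) →
    (gasF θ χ τ q g).R I J p = (gasF θ⁻¹ χ⁻¹ τ q g).R J I p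
  uOE : ∀ (I J : List ℂ) (a b : ℂ), G θ (a :: b :: q :: g :: (I ++ J)) →
    (gasF θ χ τ q g).OE I J a b = (gasF θ⁻¹ χ⁻¹ τ q g).EO J I b a
  uER : ∀ (I J : List ℂ) (r h : ℂ), G θ (r :: h :: q :: g :: (I ++ J)) →
    (gasF θ χ τ q g).ER I J r h = (gasF θ⁻¹ χ⁻¹ τ q g).ER J I r h

variable {τ : Bool} {q g : ℂ}

lemma mir_R (F : Fam) : F.mir.R = F.L := rfl
lemma mir_EO (F : Fam) : F.mir.EO = F.EO' := rfl
lemma mir_OE (F : Fam) : F.mir.OE = F.OE' := rfl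
lemma mir_ER (F : Fam) (I J : List ℂ) (a b : ℂ) : F.mir.ER I J a b = F.RE I J b a := rfl

/-- the four other statements -/
theorem UDc.rest (hθ : θ ^ 8 = -1) (hi : UDc θ⁻¹ χ⁻¹ τ q g)
    (hm : UDc θ⁻¹ χ⁻¹ (!τ) g q) :
    (∀ (I J : List ℂ) (p : ℂ), G θ (p :: q :: g :: (I ++ J)) →
      (gasF θ χ τ q g).L I J p = (gasF θ⁻¹ χ⁻¹ τ q g).L J I p) ∧
    (∀ (I J : List ℂ) (a b : ℂ), G θ (a :: b :: q :: g :: (I ++ J)) →
      (gasF θ χ τ q g).EO I J a b = (gasF θ⁻¹ χ⁻¹ τ q g).OE J I b a) ∧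
    (∀ (I J : List ℂ) (a b : ℂ), G θ (a :: b :: q :: g :: (I ++ J)) →
      (gasF θ χ τ q g).OE' I J a b = (gasF θ⁻¹ χ⁻¹ τ q g).EO' J I b a) ∧
    (∀ (I J : List ℂ) (a b : ℂ), G θ (a :: b :: q :: g :: (I ++ J)) →
      (gasF θ χ τ q g).RE I J a b = (gasF θ⁻¹ χ⁻¹ τ q g).RE J I a b) := by
  have hθ' := th_inv8 hθ
  have m1 := gasF_mir (χ := χ) hθ τ q g
  have m2 := gasF_mir (χ := χ⁻¹) hθ' τ q g
  rw [inv_inv, inv_inv] at m2
  refine ⟨fun I J p hG => ?_, fun I J a b hG => ?_, fun I J a b hG => ?_, fun I J a b hG => ?_⟩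
  · rw [← mir_R, ← mir_R, m1, m2]
    have := hm.uR I J p (G.inv hθ (hG.perm hθ ((List.Perm.swap _ _ _).cons _)))
    rwa [inv_inv, inv_inv] at this
  · have h1 : G θ⁻¹ (b :: a :: q :: g :: (J ++ I)) := G.inv hθ (hG.perm hθ
      ((List.Perm.swap _ _ _).trans
        ((((List.perm_append_comm.cons _).cons _).cons _).cons _)))
    have := hi.uOE J I b a h1
    rw [inv_inv, inv_inv] at this
    exact this.symm
  · rw [← mir_OE, ← mir_EO, m1, m2]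
    have := hm.uOE I J a b (G.inv hθ (hG.perm hθ (((List.Perm.swap _ _ _).cons _).cons _)))
    rwa [inv_inv, inv_inv] at this
  · rw [← mir_ER, ← mir_ER, m1, m2]
    have := hm.uER I J b a (G.inv hθ (hG.perm hθ ((((List.Perm.swap _ _ _).cons _).cons _).trans
      (List.Perm.swap _ _ _))))
    rwa [inv_inv, inv_inv] at this

end NUTP.Gas.As

end
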