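import Pool.Agent.NUTP.Gas.UDi
import Pool.Agent.NUTP.Gas.UDred

/-!
# The up-down reflection of the gas
-/

set_option autoImplicit false

noncomputable section

namespace NUTP.Gas

open UD

variable {θ χ : ℂ}

/-- states of the ends at the second puncture -/
def EE (τ : Bool) (q g : ℂ) : Cf := if τ then [(q, .ro), (g, .le)] else [(q, .re), (g, .lo)]

lemma EE_E (τ : Bool) (q g : ℂ) : ∀ c ∈ EE τ q g, isE c.2 := by
  cases τ <;> simp [EE, isE]

lemma EE_ty (τ : Bool) (q g : ℂ) : tE (EE τ q g) = En τ q g := by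
  cases τ <;> rfl

lemma EE_nem (τ : Bool) (q g : ℂ) (J : List ℂ) : nem (En τ q g ++ fl J) = 1 := by
  have h : nem (fl J) = 0 := by
    unfold nem fl
    rw [List.map_map]
    exact List.sum_eq_zero (by simp [UD.em])
  have e : nem (En τ q g ++ fl J) = nem (En τ q g) + nem (fl J) := by simp [nem]
  rw [e, h]
  cases τ <;> rfl

lemma fl_nem (J : List ℂ) : nem (fl J) = 0 := by
  unfold nem fl
  rw [List.map_map]
  exact List.sum_eq_zero (by simp [UD.em])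

lemma fit_fl (b : Bool) (J : List ℂ) : Fit b (fl J) := by
  intro t ht
  obtain ⟨x, -, rfl⟩ := List.mem_map.1 ht
  cases b <;> rfl

lemma EE_fit (τ : Bool) (q g : ℂ) (J : List ℂ) : Fit (!τ) (En τ q g ++ fl J) := by
  intro t ht
  rcases List.mem_append.1 ht with ht | ht
  · cases τ
    · rcases List.mem_cons.1 ht with rfl | ht
      · rfl
      · rw [List.mem_singleton.1 ht]; rfl
    · rcases List.mem_cons.1 ht with rfl | ht
      · rfl
      · rw [List.mem_singleton.1 ht]; rfl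
  · exact fit_fl _ J t ht

lemma EE_nmz (τ : Bool) (q g : ℂ) : nmz true (sE (EE τ q g)) = EE τ q g := by
  cases τ <;> rfl

lemma EE_GE (τ : Bool) (q g : ℂ) : GE (!τ) (EE τ q g) := by
  refine ⟨fun c hc => ⟨EE_E τ q g c hc, ?_⟩, ?_⟩
  · cases τ
    · rcases List.mem_cons.1 hc with rfl | hc
      · simp [mb]
      · rw [List.mem_singleton.1 hc]; simp [mb]
    · rcases List.mem_cons.1 hc with rfl | hc
      · simp [mb, mir]
      · rw [List.mem_singleton.1 hc]; simp [mb, mir]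
  · cases τ <;> simp [EE, mb, mir, Okp]

lemma EE_Pn (τ : Bool) (q g : ℂ) : ∀ c ∈ sE (EE τ q g), ∀ d ∈ sE (EE τ q g), Pn c.2 d.2 := by
  cases τ <;> simp [EE, sE, sw, Pn]

lemma EE_rb (τ : Bool) (q g : ℂ) : ∀ c ∈ sE (EE τ q g), mb (!τ) c.2 ≠ .rb := by
  cases τ <;> simp [EE, sE, sw, mb, mir]

lemma EE_nn (τ : Bool) (q g : ℂ) : tt nn (EE τ q g) = 2 := by cases τ <;> rfl
lemma EE_eb (τ : Bool) (q g : ℂ) : tt (eb (!τ)) (EE τ q g) = 1 := by
  cases τ <;> simp [EE, tt, eb, mb, mir]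
lemma EE_ch (τ : Bool) (q g : ℂ) : tt ch (EE τ q g) = 0 := by cases τ <;> rfl
lemma EE_nl (τ : Bool) (q g : ℂ) : sh (!τ) + 2 * tt nl (EE τ q g) = 1 := by cases τ <;> rfl

/-- lines -/
lemma EE_lines {I J : List ℂ} {E : Cf} {τ : Bool} {q g : ℂ} {e f : Cf}
    (he : e.map Prod.fst = I) (hf : f.map Prod.fst = J) :
    ((E ++ e ++ (EE τ q g ++ f)).map Prod.fst).Perm (E.map Prod.fst ++ (q :: g :: (I ++ J))) := by
  have e1 : (EE τ q g).map Prod.fst = [q, g] := by cases τ <;> rfl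
  simp only [List.map_append, he, hf, e1, List.append_assoc]
  refine List.Perm.append_left _ ?_
  refine (List.perm_append_comm (l₁ := I)).trans ?_
  rw [List.append_assoc]
  exact List.Perm.append_left [q, g] List.perm_append_comm

theorem ud_R (hθ : θ ^ 8 = -1) (τ : Bool) (q g : ℂ) (I J : List ℂ) (p : ℂ)
    (hG : G θ (p :: q :: g :: (I ++ J))) :
    (gasF θ χ τ q g).R I J p = (gasF θ⁻¹ χ⁻¹ τ q g).R J I p := by
  have hE : ∀ c ∈ ([(p, K.ro)] : Cf), isE c.2 := by simp [isE]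
  change gas θ χ (tE [(p, K.ro)] ++ fl I) (En τ q g ++ fl J) =
    gas θ⁻¹ χ⁻¹ (tE [(p, K.ro)] ++ fl J) (En τ q g ++ fl I)
  have n1 : ∀ I : List ℂ, nem (tE [(p, K.ro)] ++ fl I) = 0 := by
    intro I
    have : nem (tE [(p, K.ro)] ++ fl I) = 0 + nem (fl I) := rfl
    rw [this, fl_nem]; rfl
  rw [gas_1 hθ (n1 I) (EE_nem τ q g J) (EE_fit τ q g J),
    gas_1 (th_inv8 hθ) (n1 J) (EE_nem τ q g I) (EE_fit τ q g I), sn11 hθ, ← EE_ty]
  congr 1
  refine assemble hE (EE_E τ q g) hE (EE_E τ q g) I J fun e f he hf => ?_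
  obtain ⟨he1, he2⟩ := Cmu_F he
  obtain ⟨hf1, hf2⟩ := Cmu_F hf
  have hG' := hG.perm hθ (EE_lines (E := [(p, K.ro)]) (τ := τ) (q := q) (g := g) he2 hf2).symm
  have key := T1_refl (χ := χ) hθ (b := !τ) (w := true) (w' := true) hE (EE_E τ q g) he1 hf1 hG'
    (EE_GE τ q g) (by rw [EE_nmz]; exact EE_GE τ q g) (fun _ => by simp [sE, sw, Pn])
    (fun _ => EE_Pn τ q g) (fun _ => EE_rb τ q g) (by rw [EE_nn]; rfl) (EE_eb τ q g)
    (by
      have h1 := EE_nl τ q g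
      have h2 := EE_ch τ q g
      have h3 : tt ch [(p, K.ro)] = 1 := rfl
      have h4 : tt nl [(p, K.ro)] = 0 := rfl
      rw [h2, h3, h4]; linarith)
  rw [EE_nmz] at key
  exact key

theorem ud_OE (hθ : θ ^ 8 = -1) (τ : Bool) (q g : ℂ) (I J : List ℂ) (a b : ℂ)
    (hG : G θ (a :: b :: q :: g :: (I ++ J))) :
    (gasF θ χ τ q g).OE I J a b = (gasF θ⁻¹ χ⁻¹ τ q g).EO J I b a := by
  have hE : ∀ c ∈ ([(a, K.rb), (b, K.re)] : Cf), isE c.2 := by simp [isE]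
  have hE' : ∀ c ∈ ([(a, K.ro), (b, K.re)] : Cf), isE c.2 := by simp [isE]
  change gas θ χ (tE [(a, K.rb), (b, K.re)] ++ fl I) (En τ q g ++ fl J) =
    gas θ⁻¹ χ⁻¹ ((b, Ty.re) :: (a, Ty.ro) :: fl J) (En τ q g ++ fl I)
  have hsw : gas θ⁻¹ χ⁻¹ ((b, Ty.re) :: (a, Ty.ro) :: fl J) (En τ q g ++ fl I) =
      gas θ⁻¹ χ⁻¹ (tE [(a, K.ro), (b, K.re)] ++ fl J) (En τ q g ++ fl I) :=
    gas_perm (th_inv8 hθ) (List.Perm.swap (a, Ty.ro) (b, Ty.re) (fl J)) (List.Perm.refl _)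
  rw [hsw]
  have n1 : ∀ I : List ℂ, nem (tE [(a, K.rb), (b, K.re)] ++ fl I) = 1 := by
    intro I
    have : nem (tE [(a, K.rb), (b, K.re)] ++ fl I) = 0 + (1 + nem (fl I)) := rfl
    rw [this, fl_nem]; rfl
  have n2 : ∀ I : List ℂ, nem (tE [(a, K.ro), (b, K.re)] ++ fl I) = 1 := by
    intro I
    have : nem (tE [(a, K.ro), (b, K.re)] ++ fl I) = 0 + (1 + nem (fl I)) := rfl
    rw [this, fl_nem]; rfl
  have f1 : ∀ I : List ℂ, Fit true (tE [(a, K.rb), (b, K.re)] ++ fl I) := by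
    intro I t ht
    rcases List.mem_append.1 ht with ht | ht
    · rcases List.mem_cons.1 ht with rfl | ht
      · rfl
      · rw [List.mem_singleton.1 ht]; rfl
    · exact fit_fl _ I t ht
  have f2 : ∀ I : List ℂ, Fit true (tE [(a, K.ro), (b, K.re)] ++ fl I) := by
    intro I t ht
    rcases List.mem_append.1 ht with ht | ht
    · rcases List.mem_cons.1 ht with rfl | ht
      · rfl
      · rw [List.mem_singleton.1 ht]; rfl
    · exact fit_fl _ I t ht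
  rw [gas_2 hθ (n1 I) (EE_nem τ q g J) (f1 I) (EE_fit τ q g J),
    gas_2 (th_inv8 hθ) (n2 J) (EE_nem τ q g I) (f2 J) (EE_fit τ q g I), sn11 hθ, ← EE_ty]
  congr 1
  refine assemble hE (EE_E τ q g) hE' (EE_E τ q g) I J fun e f he hf => ?_
  obtain ⟨he1, he2⟩ := Cmu_F he
  obtain ⟨hf1, hf2⟩ := Cmu_F hf
  have hG' := hG.perm hθ (EE_lines (E := [(a, K.rb), (b, K.re)]) (τ := τ) (q := q) (g := g)
    he2 hf2).symm
  have key := T2_refl (χ := χ) hθ (b := !τ) (w := false) (w' := true) hE (EE_E τ q g) he1 hf1 hG'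
    (EE_GE τ q g) (by rw [EE_nmz]; exact EE_GE τ q g)
    (by refine ⟨?_, ?_⟩ <;> simp [isE, mb, Okp])
    (by refine ⟨?_, ?_⟩ <;> simp [isE, mb, Okp, nmz, sE, sw, gw])
    (fun h => absurd h (by simp))
    (fun _ => EE_Pn τ q g) (fun h => absurd h (by simp)) (fun _ => EE_rb τ q g)
    (by rw [EE_nn]; rfl) (by simp [tt, eb, mb]) (EE_eb τ q g)
    (by
      have h1 := EE_nl τ q g
      have h2 := EE_ch τ q g
      have h3 : tt ch [(a, K.rb), (b, K.re)] = 2 := rfl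
      have h4 : tt nl [(a, K.rb), (b, K.re)] = 0 := rfl
      rw [h2, h3, h4]; linarith)
  rw [EE_nmz] at key
  exact key

theorem ud_ER (hθ : θ ^ 8 = -1) (τ : Bool) (q g : ℂ) (I J : List ℂ) (r h : ℂ)
    (hG : G θ (r :: h :: q :: g :: (I ++ J))) :
    (gasF θ χ τ q g).ER I J r h = (gasF θ⁻¹ χ⁻¹ τ q g).ER J I r h := by
  have hE : ∀ c ∈ ([(r, K.re), (h, K.lo)] : Cf), isE c.2 := by simp [isE]
  change gas θ χ (tE [(r, K.re), (h, K.lo)] ++ fl I) (En τ q g ++ fl J) =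
    gas θ⁻¹ χ⁻¹ (tE [(r, K.re), (h, K.lo)] ++ fl J) (En τ q g ++ fl I)
  have n1 : ∀ I : List ℂ, nem (tE [(r, K.re), (h, K.lo)] ++ fl I) = 1 := by
    intro I
    have : nem (tE [(r, K.re), (h, K.lo)] ++ fl I) = 1 + (0 + nem (fl I)) := rfl
    rw [this, fl_nem]; rfl
  have f1 : ∀ I : List ℂ, Fit true (tE [(r, K.re), (h, K.lo)] ++ fl I) := by
    intro I t ht
    rcases List.mem_append.1 ht with ht | ht
    · rcases List.mem_cons.1 ht with rfl | ht
      · rfl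
      · rw [List.mem_singleton.1 ht]; rfl
    · exact fit_fl _ I t ht
  rw [gas_2 hθ (n1 I) (EE_nem τ q g J) (f1 I) (EE_fit τ q g J),
    gas_2 (th_inv8 hθ) (n1 J) (EE_nem τ q g I) (f1 J) (EE_fit τ q g I), sn11 hθ, ← EE_ty]
  congr 1
  refine assemble hE (EE_E τ q g) hE (EE_E τ q g) I J fun e f he hf => ?_
  obtain ⟨he1, he2⟩ := Cmu_F he
  obtain ⟨hf1, hf2⟩ := Cmu_F hf
  have hG' := hG.perm hθ (EE_lines (E := [(r, K.re), (h, K.lo)]) (τ := τ) (q := q) (g := g)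
    he2 hf2).symm
  have key := T2_refl (χ := χ) hθ (b := !τ) (w := true) (w' := true) hE (EE_E τ q g) he1 hf1 hG'
    (EE_GE τ q g) (by rw [EE_nmz]; exact EE_GE τ q g)
    (by refine ⟨?_, ?_⟩ <;> simp [isE, mb, Okp])
    (by refine ⟨?_, ?_⟩ <;> simp [isE, mb, Okp, nmz, sE, sw, gw, nb])
    (fun _ => by simp [sE, sw, Pn])
    (fun _ => EE_Pn τ q g) (fun _ => by simp [sE, sw]) (fun _ => EE_rb τ q g)
    (by rw [EE_nn]; rfl) (by simp [tt, eb, mb]) (EE_eb τ q g)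
    (by
      have h1 := EE_nl τ q g
      have h2 := EE_ch τ q g
      have h3 : tt ch [(r, K.re), (h, K.lo)] = 0 := rfl
      have h4 : tt nl [(r, K.re), (h, K.lo)] = 1 := rfl
      rw [h2, h3, h4]; linarith)
  rw [EE_nmz] at key
  exact key

/-- **the core of the reflection** -/
theorem udCore (hθ : θ ^ 8 = -1) (τ : Bool) (q g : ℂ) : As.UDc θ χ τ q g :=
  ⟨ud_R hθ τ q g, ud_OE hθ τ q g, ud_ER hθ τ q g⟩

end NUTP.Gas

end
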