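import Pool.Agent.NUTP.Gas.Main
import Pool.Agent.NUTP.Gas.PolOEo
import Pool.Agent.NUTP.Gas.UD

/-!
# The gas has all the properties `Data`
-/

set_option autoImplicit false

noncomputable section

namespace NUTP.Gas

/-- **the gas satisfies the whole list** -/
theorem gas_data {θ χ : ℂ} (hθ : θ ^ 8 = -1) (hχ : χ ≠ 0) (q g : ℂ) :
    Data θ χ q g (gasF θ χ true q g) :=
  data_of (fun _ _ τ q g hθ _ I J b hG => polOEo hθ τ q g I J b hG)
    (fun _ _ τ q g hθ _ => udCore hθ τ q g) hθ hχ q g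

end NUTP.Gas

end
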