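import Pool.Agent.NUTP.Data

/-!
# The gas of the two-point functions with ended lines (near form)

Variables of `NUTP.Data`: a line is `a = e ^ (i z)`, `sn θ k (a / c) = sin (z_a - z_c + k λ)`.

Objects with states.  World `f`: the lines `I` and the lines ended at the first puncture; world `g`: the lines `J` and
the lines ended at the second puncture.  States of a full line: charge `+`, `0`, `-` (`p`, `z`, `n`) or marked
(`a`, `b`: the extra current sits on it).  States of an ended line on the right: `ro` = occupied, `rb` = occupied and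
below the empty line of the same side and puncture, `rB` = the same, marked, `re` = empty, `rE` = empty and marked;
`lo`, `lb`, `lB`, `le`, `lE` = the same on the left.
The gas = sum over the states with one mark in each world which contains an empty ended line and with equal charges,
weight = product of all pair couplings `own` (inside a world), `crs` (between the worlds), functions of the quotient
of the two lines.  (All tables checked mod p against the verified near form, all end types.)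
-/

set_option autoImplicit false

noncomputable section

namespace NUTP.Gas

/-- states of the objects -/
inductive K
  | p | z | n | a | b
  | ro | rb | rB | re | rE
  | lo | lb | lB | le | lE
  deriving DecidableEq

/-- types of the objects -/
inductive Ty
  | F | ro | rb | re | lo | lb | le
  deriving DecidableEq

/-- the states of a type -/
def Ty.st : Ty → List K
  | .F => [.p, .z, .n, .a, .b]
  | .ro => [.ro]
  | .rb => [.rb, .rB]
  | .re => [.re, .rE]
  | .lo => [.lo]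
  | .lb => [.lb, .lB]
  | .le => [.le, .lE]

/-- mirror image of a state -/
def mir : K → K
  | .p => .n | .z => .z | .n => .p | .a => .b | .b => .a
  | .ro => .lo | .rb => .lb | .rB => .lB | .re => .le | .rE => .lE
  | .lo => .ro | .lb => .rb | .lB => .rB | .le => .re | .lE => .rE

/-- full line, right, left -/
inductive Cl
  | f | r | l
  deriving DecidableEq

def cls : K → Cl
  | .p => .f | .z => .f | .n => .f | .a => .f | .b => .f
  | .ro => .r | .rb => .r | .rB => .r | .re => .r | .rE => .r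
  | .lo => .l | .lb => .l | .lB => .l | .le => .l | .lE => .l

/-- number of marks minus number of empty ended lines -/
def mk : K → ℤ
  | .a => 1 | .b => 1 | .rB => 1 | .lB => 1 | .re => -1 | .le => -1
  | _ => 0

/-- charge -/
def ch : K → ℤ
  | .p => 2 | .z => 0 | .n => -2 | .a => 1 | .b => -1
  | .ro => 1 | .rb => 1 | .rB => 0 | .re => 1 | .rE => 0
  | .lo => -1 | .lb => -1 | .lB => 0 | .le => -1 | .lE => 0

/-- number of occupied ended lines on the left -/
def nl : K → ℤ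
  | .lo => 1 | .lb => 1 | .lB => 1
  | _ => 0

/-- weight of one object -/
def w1 (θ : ℂ) : K → ℂ
  | .p => sn θ 1 1 | .n => sn θ 1 1 | .a => sn θ 1 1 | .b => sn θ 1 1
  | _ => 1

/-- two full lines of one world, `u = x / x'` -/
def ff (θ : ℂ) : K → K → ℂ → ℂ
  | .p, .p, u => sn θ 2 u * sn θ 3 u * sn θ 5 u * sn θ 6 u
  | .n, .n, u => sn θ 2 u * sn θ 3 u * sn θ 5 u * sn θ 6 u
  | .z, .z, u => sn θ 2 u * sn θ 3 u * sn θ 5 u * sn θ 6 u / (sn θ 1 u * sn θ 7 u)
  | .z, .p, u => sn θ 2 u * sn θ 3 u * sn θ 5 u / sn θ 0 u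
  | .n, .z, u => sn θ 2 u * sn θ 3 u * sn θ 5 u / sn θ 0 u
  | .p, .z, u => -(sn θ 3 u * sn θ 5 u * sn θ 6 u / sn θ 0 u)
  | .z, .n, u => -(sn θ 3 u * sn θ 5 u * sn θ 6 u / sn θ 0 u)
  | .n, .p, u => -(sn θ 2 u * sn θ 3 u / (sn θ 0 u * sn θ 7 u))
  | .p, .n, u => sn θ 5 u * sn θ 6 u / (sn θ 0 u * sn θ 1 u)
  | .a, .p, u => sn θ 2 u * sn θ 3 u * sn θ 5 u * sn θ 6 u / sn θ 0 u
  | .a, .z, u => -(sn θ 2 u * sn θ 3 u * sn θ 5 u * sn θ 6 u / (sn θ 0 u * sn θ 1 u))
  | .a, .n, u => sn θ 3 u * sn θ 5 u * sn θ 6 u / (sn θ 0 u * sn θ 1 u)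
  | .b, .p, u => -(sn θ 2 u * sn θ 3 u * sn θ 5 u / (sn θ 0 u * sn θ 7 u))
  | .b, .z, u => sn θ 2 u * sn θ 3 u * sn θ 5 u * sn θ 6 u / (sn θ 0 u * sn θ 7 u)
  | .b, .n, u => -(sn θ 2 u * sn θ 3 u * sn θ 5 u * sn θ 6 u / sn θ 0 u)
  | .p, .a, u => -(sn θ 2 u * sn θ 3 u * sn θ 5 u * sn θ 6 u / sn θ 0 u)
  | .z, .a, u => sn θ 2 u * sn θ 3 u * sn θ 5 u * sn θ 6 u / (sn θ 0 u * sn θ 7 u)
  | .n, .a, u => -(sn θ 2 u * sn θ 3 u * sn θ 5 u / (sn θ 0 u * sn θ 7 u))
  | .p, .b, u => sn θ 3 u * sn θ 5 u * sn θ 6 u / (sn θ 0 u * sn θ 1 u)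
  | .z, .b, u => -(sn θ 2 u * sn θ 3 u * sn θ 5 u * sn θ 6 u / (sn θ 0 u * sn θ 1 u))
  | .n, .b, u => sn θ 2 u * sn θ 3 u * sn θ 5 u * sn θ 6 u / sn θ 0 u
  | _, _, _ => 1

/-- line ended on the right and full line of its world, `u` = ended / full -/
def ef (θ : ℂ) : K → K → ℂ → ℂ
  | .ro, .p, u => sn θ 2 u * sn θ 3 u
  | .ro, .z, u => sn θ 3 u
  | .ro, .a, u => sn θ 3 u
  | .rb, .p, u => sn θ 2 u * sn θ 3 u
  | .rb, .z, u => sn θ 3 u
  | .rb, .a, u => -(sn θ 2 u * sn θ 3 u / sn θ 0 u)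
  | .rb, .b, u => -(sn θ 3 u / sn θ 1 u)
  | .re, .p, u => sn θ 2 u * sn θ 3 u
  | .re, .z, u => sn θ 3 u
  | .re, .a, u => -(sn θ 2 1 * sn θ 3 u / sn θ 0 u)
  | .re, .b, u => -(sn θ 2 1 / sn θ 1 u)
  | .rB, .p, u => sn θ 2 u * sn θ 3 u / sn θ 0 u
  | .rB, .z, u => sn θ 2 u * sn θ 3 u / sn θ 1 u
  | .rB, .n, u => sn θ 3 u
  | .rE, .p, u => sn θ 2 u * sn θ 3 u / sn θ 0 u
  | .rE, .z, u => sn θ 2 u * sn θ 3 u / sn θ 1 u
  | .rE, .n, u => sn θ 3 u
  | _, _, _ => 1

/-- two lines ended on the right at the same puncture, `u` = first / second -/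
def ee (θ : ℂ) : K → K → ℂ → ℂ
  | .re, .rb, u => sn θ 2 u * sn θ 3 u
  | .rE, .rb, u => sn θ 2 u * sn θ 3 u / sn θ 0 u
  | .re, .rB, u => -(sn θ 2 1 * sn θ 3 u / sn θ 0 u)
  | .re, .ro, u => sn θ 5 u * sn θ 6 u
  | .rE, .ro, u => sn θ 5 u
  | .rb, .re, u => sn θ 5 u * sn θ 6 u
  | .rb, .rE, u => -(sn θ 5 u * sn θ 6 u / sn θ 0 u)
  | .rB, .re, u => sn θ 2 1 * sn θ 5 u / sn θ 0 u
  | .ro, .re, u => sn θ 2 u * sn θ 3 u
  | .ro, .rE, u => sn θ 3 u
  | _, _, _ => 1

/-- two objects of one world, `u` = first / second -/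
def own (θ : ℂ) (k l : K) (u : ℂ) : ℂ :=
  match cls k, cls l with
  | .f, .f => ff θ k l u
  | .r, .f => ef θ k l u
  | .f, .r => ef θ l k u⁻¹
  | .l, .f => ef θ (mir k) (mir l) u⁻¹
  | .f, .l => ef θ (mir l) (mir k) u
  | .r, .r => ee θ k l u
  | .l, .l => ee θ (mir k) (mir l) u⁻¹
  | .r, .l => 1
  | .l, .r => 1

/-- two full lines of different worlds, `u` = (world `f`) / (world `g`) -/
def gg (θ : ℂ) : K → K → ℂ → ℂ
  | .z, .z, u => sn θ 4 u ^ 2
  | .z, .p, u => sn θ 3 u ^ 2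
  | .n, .z, u => sn θ 3 u ^ 2
  | .p, .z, u => sn θ 5 u ^ 2
  | .z, .n, u => sn θ 5 u ^ 2
  | .n, .p, u => (sn θ 2 u * sn θ 3 u) ^ 2
  | .p, .n, u => (sn θ 5 u * sn θ 6 u) ^ 2
  | .a, .p, u => sn θ 3 u
  | .a, .z, u => sn θ 4 u * sn θ 5 u
  | .a, .n, u => sn θ 5 u ^ 2 * sn θ 6 u
  | .b, .p, u => sn θ 2 u * sn θ 3 u ^ 2
  | .b, .z, u => sn θ 3 u * sn θ 4 u
  | .b, .n, u => sn θ 5 u
  | .p, .a, u => sn θ 5 u
  | .z, .a, u => sn θ 3 u * sn θ 4 u
  | .n, .a, u => sn θ 2 u * sn θ 3 u ^ 2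
  | .p, .b, u => sn θ 5 u ^ 2 * sn θ 6 u
  | .z, .b, u => sn θ 4 u * sn θ 5 u
  | .n, .b, u => sn θ 3 u
  | .a, .a, u => sn θ 4 u
  | .b, .b, u => sn θ 4 u
  | .a, .b, u => sn θ 5 u ^ 2
  | .b, .a, u => sn θ 3 u ^ 2
  | _, _, _ => 1

/-- line ended on the right and full line of the other world, `u` = full / ended -/
def xf (θ : ℂ) : K → K → ℂ → ℂ
  | .ro, .z, u => sn θ 3 u
  | .ro, .a, u => sn θ 3 u
  | .ro, .n, u => sn θ 2 u * sn θ 3 u
  | .ro, .b, u => sn θ 2 u * sn θ 3 u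
  | .rb, .z, u => sn θ 3 u
  | .rb, .a, u => sn θ 3 u
  | .rb, .n, u => sn θ 2 u * sn θ 3 u
  | .rb, .b, u => sn θ 2 u * sn θ 3 u
  | .re, .z, u => sn θ 3 u
  | .re, .a, u => sn θ 3 u
  | .re, .n, u => sn θ 2 u * sn θ 3 u
  | .re, .b, u => sn θ 2 u * sn θ 3 u
  | .rB, .p, u => sn θ 5 u
  | .rB, .z, u => sn θ 4 u
  | .rB, .a, u => sn θ 4 u
  | .rB, .n, u => sn θ 3 u
  | .rB, .b, u => sn θ 3 u
  | .rE, .p, u => sn θ 5 u
  | .rE, .z, u => sn θ 4 u
  | .rE, .a, u => sn θ 4 u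
  | .rE, .n, u => sn θ 3 u
  | .rE, .b, u => sn θ 3 u
  | _, _, _ => 1

/-- marked ended line -/
def isM : K → Bool
  | .rB => true | .rE => true | .lB => true | .lE => true
  | _ => false

/-- two lines ended on the right at different punctures, `u` = first / second -/
def xx (θ : ℂ) (k l : K) (u : ℂ) : ℂ :=
  match isM k, isM l with
  | true, true => sn θ 4 u
  | true, false => sn θ 3 u
  | false, true => sn θ 5 u
  | false, false => 1

/-- two objects of different worlds, `u` = first / second -/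
def crs (θ : ℂ) (k l : K) (u : ℂ) : ℂ :=
  match cls k, cls l with
  | .f, .f => gg θ k l u
  | .r, .f => xf θ k l u⁻¹
  | .f, .r => xf θ l k u
  | .l, .f => xf θ (mir k) (mir l) u
  | .f, .l => xf θ (mir l) (mir k) u⁻¹
  | .r, .r => xx θ k l u
  | .l, .l => xx θ k l u⁻¹
  | .r, .l => 1
  | .l, .r => 1

/-- a configuration of a world: lines and states -/
abbrev Cf := List (ℂ × K)

/-- sum over the states -/
def sm {M : Type*} [AddCommMonoid M] : List (ℂ × Ty) → (Cf → M) → M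
  | [], φ => φ []
  | t :: X, φ => (t.2.st.map fun k => sm X fun e => φ ((t.1, k) :: e)).sum

/-- sum of an integer over the states -/
def tt (q : K → ℤ) (e : Cf) : ℤ := (e.map fun c => q c.2).sum

/-- product of the couplings of one object with the objects of its world -/
def ow1 (θ x : ℂ) (k : K) (e : Cf) : ℂ := (e.map fun c => own θ k c.2 (x / c.1)).prod

/-- product of the couplings of one object with the objects of the other world -/
def cr1 (θ x : ℂ) (k : K) (e : Cf) : ℂ := (e.map fun c => crs θ k c.2 (x / c.1)).prod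

/-- all factors of a world -/
def ow (θ : ℂ) : Cf → ℂ
  | [] => 1
  | c :: e => w1 θ c.2 * ow1 θ c.1 c.2 e * ow θ e

/-- all factors between the worlds -/
def cr (θ : ℂ) (e f : Cf) : ℂ := (e.map fun c => cr1 θ c.1 c.2 f).prod

/-- one term of the gas; `i`, `j` = marks (minus empty lines), `q` = charge of world `f` minus charge of world `g`,
`m` = exponent, all four of the objects which have been split off -/
def tm (θ χ : ℂ) (i j q m : ℤ) (e f : Cf) : ℂ :=
  if i + tt mk e = 0 ∧ j + tt mk f = 0 ∧ q + tt ch e = tt ch f then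
    χ ^ (m + tt ch f + tt nl e + tt nl f) * (ow θ e * ow θ f * cr θ e f) else 0

/-- the gas -/
def gas (θ χ : ℂ) (X Y : List (ℂ × Ty)) : ℂ :=
  sn θ 1 1 * sm X fun e => sm Y fun f => tm θ χ 0 0 0 (-1) e f

/-- full lines -/
def fl (L : List ℂ) : List (ℂ × Ty) := L.map fun x => (x, Ty.F)

/-- the ends at the second puncture: `q` on the right, `g` on the left; `τ`: `q` is the occupied one -/
def En (τ : Bool) (q g : ℂ) : List (ℂ × Ty) :=
  if τ then [(q, .ro), (g, .le)] else [(q, .re), (g, .lo)]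

/-- the eight functions -/
def gasF (θ χ : ℂ) (τ : Bool) (q g : ℂ) : Fam where
  R I J p := gas θ χ ((p, .ro) :: fl I) (En τ q g ++ fl J)
  L I J h := gas θ χ ((h, .lo) :: fl I) (En τ q g ++ fl J)
  OE I J a b := gas θ χ ((a, .rb) :: (b, .re) :: fl I) (En τ q g ++ fl J)
  EO I J a b := gas θ χ ((a, .re) :: (b, .ro) :: fl I) (En τ q g ++ fl J)
  OE' I J a b := gas θ χ ((a, .lb) :: (b, .le) :: fl I) (En τ q g ++ fl J)
  EO' I J a b := gas θ χ ((a, .le) :: (b, .lo) :: fl I) (En τ q g ++ fl J)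
  RE I J p h := gas θ χ ((p, .ro) :: (h, .le) :: fl I) (En τ q g ++ fl J)
  ER I J r h := gas θ χ ((r, .re) :: (h, .lo) :: fl I) (En τ q g ++ fl J)

end NUTP.Gas

end
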