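import Pool.Agent.NUTP.Gas.Defs

/-!
# The gas: sums over states, permutations, splitting off one object
-/

set_option autoImplicit false

noncomputable section

namespace NUTP.Gas

variable {θ χ : ℂ}

/-- `r` is not a (literal) pole with respect to the lines `L` -/
def Gd (θ r : ℂ) (L : List ℂ) : Prop :=
  r ≠ 0 ∧ ∀ c ∈ L, sn θ 0 (r / c) ≠ 0 ∧ sn θ 1 (r / c) ≠ 0

/-! ### shifts -/

lemma th0 (hθ : θ ^ 8 = -1) : θ ≠ 0 := by rintro rfl; norm_num at hθ

lemma sn_pow (k m : ℕ) (u : ℂ) : sn θ k (θ ^ m * u) = sn θ (k + m) u := by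
  unfold sn; rw [← mul_assoc, ← pow_add]

lemma sn_add8 (hθ : θ ^ 8 = -1) (k : ℕ) (u : ℂ) : sn θ (k + 8) u = -sn θ k u := by
  unfold sn
  rw [pow_add, hθ, show θ ^ k * -1 * u = -(θ ^ k * u) by ring, inv_neg]
  ring

lemma sn_add16 (hθ : θ ^ 8 = -1) (k : ℕ) (u : ℂ) : sn θ (k + 16) u = sn θ k u := by
  rw [show k + 16 = k + 8 + 8 from rfl, sn_add8 hθ, sn_add8 hθ, neg_neg]

lemma sn_inv' (hθ : θ ^ 8 = -1) {j k : ℕ} (h : j + k = 8) (u : ℂ) : sn θ k u⁻¹ = sn θ j u := by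
  have h0 := th0 hθ
  have e : θ ^ j = -(θ ^ k)⁻¹ := by
    rw [eq_neg_iff_add_eq_zero, ← mul_left_inj' (pow_ne_zero k h0), add_mul, ← pow_add, h, hθ,
      inv_mul_cancel₀ (pow_ne_zero k h0)]
    ring
  unfold sn
  rw [e]
  simp only [neg_mul, inv_neg, mul_inv, inv_inv]
  ring

lemma sn_inv0 (hθ : θ ^ 8 = -1) (u : ℂ) : sn θ 0 u⁻¹ = -sn θ 0 u := by
  rw [sn_inv' hθ (j := 8) (k := 0) rfl, show (8 : ℕ) = 0 + 8 from rfl, sn_add8 hθ]
lemma sn_inv1 (hθ : θ ^ 8 = -1) (u : ℂ) : sn θ 1 u⁻¹ = sn θ 7 u := sn_inv' hθ rfl u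
lemma sn_inv2 (hθ : θ ^ 8 = -1) (u : ℂ) : sn θ 2 u⁻¹ = sn θ 6 u := sn_inv' hθ rfl u
lemma sn_inv3 (hθ : θ ^ 8 = -1) (u : ℂ) : sn θ 3 u⁻¹ = sn θ 5 u := sn_inv' hθ rfl u
lemma sn_inv4 (hθ : θ ^ 8 = -1) (u : ℂ) : sn θ 4 u⁻¹ = sn θ 4 u := sn_inv' hθ rfl u
lemma sn_inv5 (hθ : θ ^ 8 = -1) (u : ℂ) : sn θ 5 u⁻¹ = sn θ 3 u := sn_inv' hθ rfl u
lemma sn_inv6 (hθ : θ ^ 8 = -1) (u : ℂ) : sn θ 6 u⁻¹ = sn θ 2 u := sn_inv' hθ rfl u
lemma sn_inv7 (hθ : θ ^ 8 = -1) (u : ℂ) : sn θ 7 u⁻¹ = sn θ 1 u := sn_inv' hθ rfl u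

lemma sn4 (hθ : θ ^ 8 = -1) (u : ℂ) : sn θ 4 u = cs u := by
  have h0 := th0 hθ
  unfold sn cs
  have e : (θ ^ 4)⁻¹ = -θ ^ 4 := by
    rw [inv_eq_iff_eq_inv]
    refine eq_inv_of_mul_eq_one_left ?_
    rw [mul_neg, ← pow_add, hθ, neg_neg]
  rw [mul_inv, e]
  field_simp
  ring

lemma sn_zero_one : sn θ 0 1 = 0 := by simp [sn]

/-- the mirror: `θ⁻¹` and the inverse argument -/
lemma sn_th_inv (hθ : θ ^ 8 = -1) (k : ℕ) (u : ℂ) : sn θ⁻¹ k u = sn θ k u⁻¹ := by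
  have h0 := th0 hθ
  have e : (θ ^ 4)⁻¹ = -θ ^ 4 := by
    rw [inv_eq_iff_eq_inv]
    refine eq_inv_of_mul_eq_one_left ?_
    rw [mul_neg, ← pow_add, hθ, neg_neg]
  unfold sn
  rw [inv_pow, inv_pow, e, mul_inv, inv_inv, mul_inv, inv_inv, mul_neg, div_neg, ← neg_div, neg_sub]

/-! ### sums over states -/

/-- `e` is a configuration of `X` -/
def Cmp (X : List (ℂ × Ty)) (e : Cf) : Prop :=
  List.Forall₂ (fun t c => c.1 = t.1 ∧ c.2 ∈ t.2.st) X e

lemma Cmp.fst {X : List (ℂ × Ty)} {e : Cf} (h : Cmp X e) : e.map Prod.fst = X.map Prod.fst := by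
  induction h with
  | nil => rfl
  | cons h _ ih => rw [List.map_cons, List.map_cons, ih, h.1]

lemma Cmp.mem {X : List (ℂ × Ty)} {e : Cf} (h : Cmp X e) {c : ℂ × K} (hc : c ∈ e) :
    ∃ t ∈ X, c.1 = t.1 ∧ c.2 ∈ t.2.st := by
  induction h with
  | nil => simp at hc
  | cons h _ ih =>
    rcases List.mem_cons.1 hc with rfl | hc
    · exact ⟨_, List.mem_cons_self, h⟩
    · obtain ⟨t, ht, h'⟩ := ih hc
      exact ⟨t, List.mem_cons_of_mem _ ht, h'⟩

section sm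
variable {M : Type*} [AddCommMonoid M]

lemma sm_nil (φ : Cf → M) : sm [] φ = φ [] := rfl

lemma sm_cons (t : ℂ × Ty) (X : List (ℂ × Ty)) (φ : Cf → M) :
    sm (t :: X) φ = (t.2.st.map fun k => sm X fun e => φ ((t.1, k) :: e)).sum := rfl

lemma sm_F (x : ℂ) (X : List (ℂ × Ty)) (φ : Cf → M) :
    sm ((x, Ty.F) :: X) φ = sm X (fun e => φ ((x, .p) :: e)) + (sm X (fun e => φ ((x, .z) :: e)) +
      (sm X (fun e => φ ((x, .n) :: e)) + (sm X (fun e => φ ((x, .a) :: e)) +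
        sm X (fun e => φ ((x, .b) :: e))))) := by
  simp [sm_cons, Ty.st]

lemma sm_ro (x : ℂ) (X : List (ℂ × Ty)) (φ : Cf → M) :
    sm ((x, Ty.ro) :: X) φ = sm X fun e => φ ((x, .ro) :: e) := by simp [sm_cons, Ty.st]

lemma sm_lo (x : ℂ) (X : List (ℂ × Ty)) (φ : Cf → M) :
    sm ((x, Ty.lo) :: X) φ = sm X fun e => φ ((x, .lo) :: e) := by simp [sm_cons, Ty.st]

lemma sm_rb (x : ℂ) (X : List (ℂ × Ty)) (φ : Cf → M) :
    sm ((x, Ty.rb) :: X) φ = sm X (fun e => φ ((x, .rb) :: e)) + sm X fun e => φ ((x, .rB) :: e) := by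
  simp [sm_cons, Ty.st]

lemma sm_re (x : ℂ) (X : List (ℂ × Ty)) (φ : Cf → M) :
    sm ((x, Ty.re) :: X) φ = sm X (fun e => φ ((x, .re) :: e)) + sm X fun e => φ ((x, .rE) :: e) := by
  simp [sm_cons, Ty.st]

lemma sm_lb (x : ℂ) (X : List (ℂ × Ty)) (φ : Cf → M) :
    sm ((x, Ty.lb) :: X) φ = sm X (fun e => φ ((x, .lb) :: e)) + sm X fun e => φ ((x, .lB) :: e) := by
  simp [sm_cons, Ty.st]

lemma sm_le (x : ℂ) (X : List (ℂ × Ty)) (φ : Cf → M) :
    sm ((x, Ty.le) :: X) φ = sm X (fun e => φ ((x, .le) :: e)) + sm X fun e => φ ((x, .lE) :: e) := by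
  simp [sm_cons, Ty.st]

private lemma lsum_congr {α : Type*} {l : List α} {f g : α → M} (h : ∀ a ∈ l, f a = g a) :
    (l.map f).sum = (l.map g).sum := by rw [List.map_congr_left h]

private lemma lsum_add {α : Type*} (l : List α) (f g : α → M) :
    (l.map fun a => f a + g a).sum = (l.map f).sum + (l.map g).sum := List.sum_map_add

private lemma lsum_comm {α β : Type*} (l : List α) (l' : List β) (f : α → β → M) :
    (l.map fun a => (l'.map fun b => f a b).sum).sum =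
      (l'.map fun b => (l.map fun a => f a b).sum).sum := by
  induction l with
  | nil => simp
  | cons a l ih => simp only [List.map_cons, List.sum_cons, ih, lsum_add]

lemma sm_congr {X : List (ℂ × Ty)} {φ ψ : Cf → M} (h : ∀ e, Cmp X e → φ e = ψ e) :
    sm X φ = sm X ψ := by
  induction X generalizing φ ψ with
  | nil => exact h [] List.Forall₂.nil
  | cons t X ih =>
    rw [sm_cons, sm_cons]
    exact lsum_congr fun k hk => ih fun e he => h _ (List.Forall₂.cons ⟨rfl, hk⟩ he)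

lemma sm_congr' {X : List (ℂ × Ty)} {φ ψ : Cf → M} (h : ∀ e, φ e = ψ e) : sm X φ = sm X ψ :=
  sm_congr fun e _ => h e

lemma sm_add (X : List (ℂ × Ty)) (φ ψ : Cf → M) :
    sm X (fun e => φ e + ψ e) = sm X φ + sm X ψ := by
  induction X generalizing φ ψ with
  | nil => rfl
  | cons t X ih => simp only [sm_cons, ih, lsum_add]

lemma sm_zero (X : List (ℂ × Ty)) : sm X (fun _ => (0 : M)) = 0 := by
  induction X with
  | nil => rfl
  | cons t X ih =>
    simp only [sm_cons, ih]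
    exact List.sum_eq_zero (by simp)

lemma sm_lsum {α : Type*} (l : List α) (X : List (ℂ × Ty)) (φ : α → Cf → M) :
    sm X (fun e => (l.map fun a => φ a e).sum) = (l.map fun a => sm X (φ a)).sum := by
  induction l with
  | nil => simp [sm_zero]
  | cons a l ih => simp only [List.map_cons, List.sum_cons, sm_add, ih]

lemma sm_comm (X Y : List (ℂ × Ty)) (φ : Cf → Cf → M) :
    sm X (fun e => sm Y (fun f => φ e f)) = sm Y (fun f => sm X (fun e => φ e f)) := by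
  induction X generalizing φ with
  | nil => rfl
  | cons t X ih =>
    simp only [sm_cons]
    rw [sm_lsum]
    exact lsum_congr fun k _ => ih _

lemma map_sm {M' : Type*} [AddCommMonoid M'] (g : M →+ M') (X : List (ℂ × Ty)) (φ : Cf → M) :
    g (sm X φ) = sm X (fun e => g (φ e)) := by
  induction X generalizing φ with
  | nil => rfl
  | cons t X ih => simp only [sm_cons, map_list_sum, List.map_map, Function.comp_def, ih]

lemma sm_perm {X X' : List (ℂ × Ty)} (h : X.Perm X') {φ : Cf → M}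
    (hφ : ∀ e e', e.Perm e' → φ e = φ e') : sm X φ = sm X' φ := by
  induction h generalizing φ with
  | nil => rfl
  | cons t _ ih =>
    simp only [sm_cons]
    exact lsum_congr fun k _ => ih fun e e' he => hφ _ _ (he.cons _)
  | swap t s l =>
    simp only [sm_cons]
    rw [lsum_comm]
    exact lsum_congr fun k _ => lsum_congr fun k' _ => sm_congr' fun e =>
      hφ _ _ (List.Perm.swap _ _ _)
  | trans _ _ ih1 ih2 => exact (ih1 hφ).trans (ih2 hφ)

end sm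

lemma sm_mul_left (X : List (ℂ × Ty)) (c : ℂ) (φ : Cf → ℂ) :
    sm X (fun e => c * φ e) = c * sm X φ :=
  (map_sm (AddMonoidHom.mulLeft c) X φ).symm

lemma sm_mul_right (X : List (ℂ × Ty)) (c : ℂ) (φ : Cf → ℂ) :
    sm X (fun e => φ e * c) = sm X φ * c :=
  (map_sm (AddMonoidHom.mulRight c) X φ).symm

lemma sm_neg (X : List (ℂ × Ty)) (φ : Cf → ℂ) : sm X (fun e => -φ e) = -sm X φ := by
  have := sm_mul_left X (-1) φ
  simpa using this

lemma sm_sub (X : List (ℂ × Ty)) (φ ψ : Cf → ℂ) :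
    sm X (fun e => φ e - ψ e) = sm X φ - sm X ψ := by
  simp only [sub_eq_add_neg, sm_add, sm_neg]

/-! ### symmetry of the couplings -/

set_option linter.unusedSimpArgs false in
lemma ff_symm (hθ : θ ^ 8 = -1) (k l : K) (u : ℂ) : ff θ k l u = ff θ l k u⁻¹ := by
  cases k <;> cases l <;>
    simp only [ff, sn_inv0 hθ, sn_inv1 hθ, sn_inv2 hθ, sn_inv3 hθ, sn_inv5 hθ, sn_inv6 hθ,
      sn_inv7 hθ] <;> ring

set_option linter.unusedSimpArgs false in
lemma ee_symm (hθ : θ ^ 8 = -1) (k l : K) (u : ℂ) : ee θ k l u = ee θ l k u⁻¹ := by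
  cases k <;> cases l <;>
    simp only [ee, sn_inv0 hθ, sn_inv1 hθ, sn_inv2 hθ, sn_inv3 hθ, sn_inv5 hθ, sn_inv6 hθ,
      sn_inv7 hθ] <;> ring

set_option linter.unusedSimpArgs false in
lemma gg_symm (hθ : θ ^ 8 = -1) (k l : K) (u : ℂ) : gg θ k l u = gg θ l k u⁻¹ := by
  cases k <;> cases l <;>
    simp only [gg, sn_inv0 hθ, sn_inv1 hθ, sn_inv2 hθ, sn_inv3 hθ, sn_inv4 hθ, sn_inv5 hθ,
      sn_inv6 hθ, sn_inv7 hθ] <;> ring

lemma xx_symm (hθ : θ ^ 8 = -1) (k l : K) (u : ℂ) : xx θ k l u = xx θ l k u⁻¹ := by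
  cases k <;> cases l <;>
    simp only [xx, isM, sn_inv3 hθ, sn_inv4 hθ, sn_inv5 hθ]

lemma own_symm (hθ : θ ^ 8 = -1) (k l : K) (u : ℂ) : own θ k l u = own θ l k u⁻¹ := by
  unfold own
  cases cls k <;> cases cls l <;> simp only [inv_inv]
  · exact ff_symm hθ k l u
  · exact ee_symm hθ k l u
  · rw [ee_symm hθ, inv_inv]

lemma crs_symm (hθ : θ ^ 8 = -1) (k l : K) (u : ℂ) : crs θ k l u = crs θ l k u⁻¹ := by
  unfold crs
  cases cls k <;> cases cls l <;> simp only [inv_inv]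
  · exact gg_symm hθ k l u
  · exact xx_symm hθ k l u
  · rw [xx_symm hθ, inv_inv]

/-! ### permutations -/

lemma tt_nil (q : K → ℤ) : tt q [] = 0 := rfl

lemma tt_cons (q : K → ℤ) (c : ℂ × K) (e : Cf) : tt q (c :: e) = q c.2 + tt q e := by
  simp [tt]

lemma tt_perm (q : K → ℤ) {e e' : Cf} (h : e.Perm e') : tt q e = tt q e' := (h.map _).sum_eq

lemma ow1_nil (x : ℂ) (k : K) : ow1 θ x k [] = 1 := rfl

lemma ow1_cons (x : ℂ) (k : K) (c : ℂ × K) (e : Cf) :
    ow1 θ x k (c :: e) = own θ k c.2 (x / c.1) * ow1 θ x k e := by simp [ow1]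

lemma ow1_perm (x : ℂ) (k : K) {e e' : Cf} (h : e.Perm e') : ow1 θ x k e = ow1 θ x k e' :=
  (h.map _).prod_eq

lemma cr1_nil (x : ℂ) (k : K) : cr1 θ x k [] = 1 := rfl

lemma cr1_cons (x : ℂ) (k : K) (c : ℂ × K) (e : Cf) :
    cr1 θ x k (c :: e) = crs θ k c.2 (x / c.1) * cr1 θ x k e := by simp [cr1]

lemma cr1_perm (x : ℂ) (k : K) {e e' : Cf} (h : e.Perm e') : cr1 θ x k e = cr1 θ x k e' :=
  (h.map _).prod_eq

lemma ow_perm (hθ : θ ^ 8 = -1) {e e' : Cf} (h : e.Perm e') : ow θ e = ow θ e' := by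
  induction h with
  | nil => rfl
  | cons p h ih => simp only [ow, ih, ow1_perm _ _ h]
  | swap p q l =>
    simp only [ow, ow1_cons]
    rw [own_symm hθ q.2 p.2, inv_div]
    ring
  | trans _ _ ih1 ih2 => exact ih1.trans ih2

lemma cr_cons_left (c : ℂ × K) (e f : Cf) : cr θ (c :: e) f = cr1 θ c.1 c.2 f * cr θ e f := by
  simp [cr]

lemma cr_nil_left (f : Cf) : cr θ [] f = 1 := rfl

lemma cr_nil_right (e : Cf) : cr θ e [] = 1 := by
  induction e with
  | nil => rfl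
  | cons c e ih => rw [cr_cons_left, ih, cr1_nil, one_mul]

lemma cr_cons_right (hθ : θ ^ 8 = -1) (d : ℂ × K) (e f : Cf) :
    cr θ e (d :: f) = cr1 θ d.1 d.2 e * cr θ e f := by
  induction e with
  | nil => simp [cr, cr1]
  | cons c e ih =>
    rw [cr_cons_left, ih, cr_cons_left, cr1_cons, cr1_cons, crs_symm hθ c.2 d.2, inv_div]
    ring

lemma cr_perm_left {e e' : Cf} (h : e.Perm e') (f : Cf) : cr θ e f = cr θ e' f :=
  (h.map _).prod_eq

lemma cr_perm_right {f f' : Cf} (e : Cf) (h : f.Perm f') : cr θ e f = cr θ e f' := by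
  unfold cr
  congr 1
  exact List.map_congr_left fun c _ => cr1_perm _ _ h

lemma tm_perm_left (hθ : θ ^ 8 = -1) (i j q m : ℤ) {e e' : Cf} (h : e.Perm e') (f : Cf) :
    tm θ χ i j q m e f = tm θ χ i j q m e' f := by
  unfold tm
  rw [tt_perm mk h, tt_perm ch h, tt_perm nl h, ow_perm hθ h, cr_perm_left h]

lemma tm_perm_right (hθ : θ ^ 8 = -1) (i j q m : ℤ) (e : Cf) {f f' : Cf} (h : f.Perm f') :
    tm θ χ i j q m e f = tm θ χ i j q m e f' := by
  unfold tm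
  rw [tt_perm mk h, tt_perm ch h, tt_perm nl h, ow_perm hθ h, cr_perm_right e h]

lemma gas_perm (hθ : θ ^ 8 = -1) {X X' Y Y' : List (ℂ × Ty)} (hX : X.Perm X') (hY : Y.Perm Y') :
    gas θ χ X Y = gas θ χ X' Y' := by
  unfold gas
  rw [sm_perm hX (φ := fun e => sm Y fun f => tm θ χ 0 0 0 (-1) e f)
    fun e e' he => sm_congr' fun f => tm_perm_left hθ _ _ _ _ he f]
  congr 1
  exact sm_congr' fun e => sm_perm hY fun f f' hf => tm_perm_right hθ _ _ _ _ e hf

/-! ### splitting off one object -/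

lemma tm_cons_left (i j q m : ℤ) (x : ℂ) (k : K) (e f : Cf) :
    tm θ χ i j q m ((x, k) :: e) f =
      w1 θ k * ow1 θ x k e * cr1 θ x k f * tm θ χ (i + mk k) j (q + ch k) (m + nl k) e f := by
  unfold tm
  simp only [tt_cons, cr_cons_left, ow, ← add_assoc]
  by_cases h : i + mk k + tt mk e = 0 ∧ j + tt mk f = 0 ∧ q + ch k + tt ch e = tt ch f
  · rw [if_pos h, if_pos h, show m + tt ch f + nl k + tt nl e + tt nl f =
      m + nl k + tt ch f + tt nl e + tt nl f by ring]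
    ring
  · rw [if_neg h, if_neg h]; ring

lemma tm_cons_right (hθ : θ ^ 8 = -1) (i j q m : ℤ) (y : ℂ) (l : K) (e f : Cf) :
    tm θ χ i j q m e ((y, l) :: f) =
      w1 θ l * ow1 θ y l f * cr1 θ y l e *
        tm θ χ i (j + mk l) (q - ch l) (m + ch l + nl l) e f := by
  unfold tm
  simp only [tt_cons, cr_cons_right hθ, ow, ← add_assoc]
  by_cases h : i + tt mk e = 0 ∧ j + mk l + tt mk f = 0 ∧ q + tt ch e = ch l + tt ch f
  · rw [if_pos h, if_pos ⟨h.1, h.2.1, by linarith [h.2.2]⟩,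
      show m + ch l + tt ch f + tt nl e + nl l + tt nl f =
      m + ch l + nl l + tt ch f + tt nl e + tt nl f by ring]
    ring
  · rw [if_neg h, if_neg (fun h' => h ⟨h'.1, h'.2.1, by linarith [h'.2.2]⟩)]; ring

/-- two objects of world `f` split off -/
lemma tm_cons2 (i j q m : ℤ) (x x' : ℂ) (k k' : K) (e f : Cf) :
    tm θ χ i j q m ((x, k) :: (x', k') :: e) f =
      own θ k k' (x / x') * (w1 θ k * w1 θ k' * (ow1 θ x k e * ow1 θ x' k' e) *
        (cr1 θ x k f * cr1 θ x' k' f)) *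
        tm θ χ (i + mk k + mk k') j (q + ch k + ch k') (m + nl k + nl k') e f := by
  rw [tm_cons_left, tm_cons_left, ow1_cons]
  ring

/-! ### product of two objects over the others -/

/-- two objects `(x, k)`, `(x', k')` act together like `(z, l)` times a factor -/
lemma ow1_mul {x x' z : ℂ} {k k' l : K} {e : Cf} (ρ : ℂ × K → ℂ)
    (h : ∀ c ∈ e, own θ k c.2 (x / c.1) * own θ k' c.2 (x' / c.1) = ρ c * own θ l c.2 (z / c.1)) :
    ow1 θ x k e * ow1 θ x' k' e = (e.map ρ).prod * ow1 θ z l e := by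
  induction e with
  | nil => simp [ow1]
  | cons c e ih =>
    simp only [ow1_cons, List.map_cons, List.prod_cons]
    calc _ = (own θ k c.2 (x / c.1) * own θ k' c.2 (x' / c.1)) * (ow1 θ x k e * ow1 θ x' k' e) := by
          ring
      _ = _ := by
          rw [h c List.mem_cons_self, ih fun c hc => h c (List.mem_cons_of_mem _ hc)]; ring

lemma cr1_mul {x x' z : ℂ} {k k' l : K} {e : Cf} (ρ : ℂ × K → ℂ)
    (h : ∀ c ∈ e, crs θ k c.2 (x / c.1) * crs θ k' c.2 (x' / c.1) = ρ c * crs θ l c.2 (z / c.1)) :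
    cr1 θ x k e * cr1 θ x' k' e = (e.map ρ).prod * cr1 θ z l e := by
  induction e with
  | nil => simp [cr1]
  | cons c e ih =>
    simp only [cr1_cons, List.map_cons, List.prod_cons]
    calc _ = (crs θ k c.2 (x / c.1) * crs θ k' c.2 (x' / c.1)) * (cr1 θ x k e * cr1 θ x' k' e) := by
          ring
      _ = _ := by
          rw [h c List.mem_cons_self, ih fun c hc => h c (List.mem_cons_of_mem _ hc)]; ring

end NUTP.Gas

end
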