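import Pool.Agent.NUTP.Uniq
import Pool.Agent.NUTP.Gas.Base

/-!
# Assembly: `Half` from the relations in the lines `x` and the up-down reflection
-/

set_option autoImplicit false

open Polynomial

noncomputable section

namespace NUTP.Gas.As

variable {θ χ : ℂ}

/-- everything which is proved separately -/
structure Xp (θ χ : ℂ) (τ : Bool) (q g : ℂ) : Prop where
  polR : ∀ I J : List ℂ, G θ (q :: g :: (I ++ J)) → ∃ P : ℂ[X],
    P.natDegree ≤ I.length + J.length ∧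
    ∀ p, p ≠ 0 → p ^ (I.length + J.length) * (gasF θ χ τ q g).R I J p = P.eval (p ^ 2)
  polEO : ∀ (I J : List ℂ) (b : ℂ), G θ (b :: q :: g :: (I ++ J)) → ∃ P : ℂ[X],
    P.natDegree ≤ I.length + J.length + 2 ∧
    P.coeff (I.length + J.length + 2) = tp (b :: q :: (I ++ J)) * (gasF θ χ τ q g).R I J b ∧
    P.coeff 0 = bt (b :: q :: (I ++ J)) * (gasF θ χ τ q g).R I J b ∧
    ∀ a, Gd θ a (b :: q :: g :: (I ++ J)) →
      a ^ (I.length + J.length + 2) * (gasF θ χ τ q g).EO I J a b = P.eval (a ^ 2)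
  polER : ∀ (I J : List ℂ) (h : ℂ), G θ (h :: q :: g :: (I ++ J)) → ∃ P : ℂ[X],
    P.natDegree ≤ I.length + J.length + 1 ∧
    P.coeff (I.length + J.length + 1) = tp (q :: (I ++ J)) * (gasF θ χ τ q g).L I J h ∧
    P.coeff 0 = bt (q :: (I ++ J)) * (gasF θ χ τ q g).L I J h ∧
    ∀ r, Gd θ r (h :: q :: g :: (I ++ J)) →
      r ^ (I.length + J.length + 1) * (gasF θ χ τ q g).ER I J r h = P.eval (r ^ 2)
  polOEo : ∀ (I J : List ℂ) (b : ℂ), G θ (b :: q :: g :: (I ++ J)) → ∃ P : ℂ[X],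
    ∀ a, Gd θ a (b :: q :: g :: (I ++ J)) →
      a ^ (I.length + J.length + 1) * (gasF θ χ τ q g).OE I J a b = P.eval (a ^ 2)
  nR : ∀ (I J : List ℂ) (x : ℂ), G θ (x :: q :: g :: (I ++ J)) →
    (gasF θ χ τ q g).R (x :: I) J (θ ^ 13 * x) =
      χ⁻¹ * (sn θ 1 1 * ((q :: (I ++ J)).map fun c => sk θ (x / c)).prod) *
        (gasF θ χ τ q g).L I J x
  nOE : ∀ (I J : List ℂ) (x b : ℂ), G θ (x :: b :: q :: g :: (I ++ J)) →
    (gasF θ χ τ q g).OE (x :: I) J (θ ^ 13 * x) b =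
      χ⁻¹ * (sn θ 1 1 * ((b :: q :: (I ++ J)).map fun c => sk θ (x / c)).prod) *
        (gasF θ χ τ q g).ER I J b x
  nEO : ∀ (I J : List ℂ) (x b : ℂ), G θ (x :: b :: q :: g :: (I ++ J)) →
    (gasF θ χ τ q g).EO (x :: I) J (θ ^ 13 * x) b =
      (sn θ 1 1 * ((b :: q :: (I ++ J)).map fun c => sk θ (x / c)).prod) *
        (gasF θ χ τ q g).RE I J b x
  nER : ∀ (I J : List ℂ) (x h : ℂ), G θ (x :: h :: q :: g :: (I ++ J)) →
    (gasF θ χ τ q g).ER (x :: I) J (θ ^ 13 * x) h =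
      (sn θ 1 1 * ((q :: (I ++ J)).map fun c => sk θ (x / c)).prod) *
        (gasF θ χ τ q g).EO' I J x h
  zEO : ∀ (I J : List ℂ) (b : ℂ), G θ (b :: q :: g :: (I ++ J)) →
    (gasF θ χ τ q g).EO I J (θ ^ 3 * b) b = 0
  fEO : ∀ (I J : List ℂ) (b : ℂ), G θ (b :: q :: g :: (I ++ J)) →
    (gasF θ χ τ q g).EO I J (θ ^ 2 * b) b =
      (sn θ 1 1 * ((q :: (I ++ J)).map fun c => cs (θ * b / c)).prod) *
        (gasF θ χ τ q g).R I J (θ * b)
  ex1 : ∀ (I J : List ℂ) (a b : ℂ), G θ (a :: b :: q :: g :: (I ++ J)) →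
    sk θ (b / a) * (gasF θ χ τ q g).OE I J b a =
      sn θ 3 (a / b) * (sn θ 2 1 * (gasF θ χ τ q g).OE I J a b +
        sn θ 0 (b / a) * (gasF θ χ τ q g).EO I J a b)
  ex2 : ∀ (I J : List ℂ) (a b : ℂ), G θ (a :: b :: q :: g :: (I ++ J)) →
    sk θ (b / a) * (gasF θ χ τ q g).EO I J b a =
      sn θ 3 (a / b) * (sn θ 2 1 * (gasF θ χ τ q g).EO I J a b +
        sn θ 0 (b / a) * (gasF θ χ τ q g).OE I J a b)
  uR : ∀ (I J : List ℂ) (p : ℂ), G θ (p :: q :: g :: (I ++ J)) →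
    (gasF θ χ τ q g).R I J p = (gasF θ⁻¹ χ⁻¹ τ q g).R J I p
  uL : ∀ (I J : List ℂ) (p : ℂ), G θ (p :: q :: g :: (I ++ J)) →
    (gasF θ χ τ q g).L I J p = (gasF θ⁻¹ χ⁻¹ τ q g).L J I p
  uOE : ∀ (I J : List ℂ) (a b : ℂ), G θ (a :: b :: q :: g :: (I ++ J)) →
    (gasF θ χ τ q g).OE I J a b = (gasF θ⁻¹ χ⁻¹ τ q g).EO J I b a
  uEO : ∀ (I J : List ℂ) (a b : ℂ), G θ (a :: b :: q :: g :: (I ++ J)) →
    (gasF θ χ τ q g).EO I J a b = (gasF θ⁻¹ χ⁻¹ τ q g).OE J I b a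
  uOE' : ∀ (I J : List ℂ) (a b : ℂ), G θ (a :: b :: q :: g :: (I ++ J)) →
    (gasF θ χ τ q g).OE' I J a b = (gasF θ⁻¹ χ⁻¹ τ q g).EO' J I b a
  uRE : ∀ (I J : List ℂ) (p h : ℂ), G θ (p :: h :: q :: g :: (I ++ J)) →
    (gasF θ χ τ q g).RE I J p h = (gasF θ⁻¹ χ⁻¹ τ q g).RE J I p h
  uER : ∀ (I J : List ℂ) (r h : ℂ), G θ (r :: h :: q :: g :: (I ++ J)) →
    (gasF θ χ τ q g).ER I J r h = (gasF θ⁻¹ χ⁻¹ τ q g).ER J I r h

/-! ### powers of `θ` -/

lemma th10 (hθ : θ ^ 8 = -1) : θ⁻¹ ^ 10 = θ ^ 6 := by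
  have h0 := th0 hθ
  rw [inv_pow]
  apply inv_eq_of_mul_eq_one_left
  rw [← pow_add]; exact NUTP.th16 hθ

lemma th6 (hθ : θ ^ 8 = -1) : θ⁻¹ ^ 6 = θ ^ 10 := by
  rw [inv_pow]
  apply inv_eq_of_mul_eq_one_left
  rw [← pow_add]; exact NUTP.th16 hθ

lemma th13' (hθ : θ ^ 8 = -1) : θ⁻¹ ^ 13 = θ ^ 3 := by
  rw [inv_pow]
  apply inv_eq_of_mul_eq_one_left
  rw [← pow_add]; exact NUTP.th16 hθ

lemma sq13 (hθ : θ ^ 8 = -1) (x : ℂ) : (θ ^ 13 * x) ^ 2 = θ ^ 10 * x ^ 2 := by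
  linear_combination (θ ^ 10 * x ^ 2) * NUTP.th16 hθ

lemma sn_ne_of_sep (hθ : θ ^ 8 = -1) {a c : ℂ} (ha : a ≠ 0) (hc : c ≠ 0)
    (h : NUGas.Sep (θ ^ 2) (a ^ 2) (c ^ 2)) (k : ℕ) : sn θ k (a / c) ≠ 0 := by
  have h0 := th0 hθ
  intro h1
  unfold sn at h1
  rw [div_eq_zero_iff] at h1
  rcases h1 with h1 | h1
  · have e : θ ^ k * (a / c) ≠ 0 := mul_ne_zero (pow_ne_zero _ h0) (div_ne_zero ha hc)
    rw [sub_eq_zero, ← mul_eq_one_iff_eq_inv₀ e] at h1
    apply h k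
    have : (θ ^ k * (a / c)) * (θ ^ k * (a / c)) * c ^ 2 = c ^ 2 := by rw [h1, one_mul]
    rw [← this, ← pow_mul]
    field_simp
    ring
  · exact mul_ne_zero two_ne_zero (pow_ne_zero _ h0) h1

/-- generic lines are no poles -/
lemma gd_of_G (hθ : θ ^ 8 = -1) {r : ℂ} {L : List ℂ} (h : G θ (r :: L)) : Gd θ r L := by
  refine ⟨h.ne0, fun c hc => ?_⟩
  have h1 := G.sep' h hc
  have hc0 : c ≠ 0 := h.tail.mem_ne0 hc
  exact ⟨sn_ne_of_sep hθ h.ne0 hc0 h1 0, sn_ne_of_sep hθ h.ne0 hc0 h1 1⟩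

/-- `θ ^ k x` is no pole with respect to `x` -/
lemma sn_self_ne (hθ : θ ^ 8 = -1) {k : ℕ} (hk : k % 8 ≠ 0) : sn θ k 1 ≠ 0 := by
  have h0 := th0 hθ
  intro h1
  unfold sn at h1
  rw [mul_one, div_eq_zero_iff] at h1
  rcases h1 with h1 | h1
  · rw [sub_eq_zero, ← mul_eq_one_iff_eq_inv₀ (pow_ne_zero _ h0)] at h1
    have h2 := NUGas.eta_pow_ne_one (NUTP.eta_of hθ) hk
    apply h2
    rw [← pow_mul, mul_comm 2 k, pow_mul, sq]
    exact h1
  · exact mul_ne_zero two_ne_zero (pow_ne_zero _ h0) h1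

lemma gd_node (hθ : θ ^ 8 = -1) {x : ℂ} {k : ℕ} {L : List ℂ} (hk : k % 8 ≠ 0)
    (hk1 : (k + 1) % 8 ≠ 0) (h : G θ (x :: L)) : Gd θ (θ ^ k * x) (x :: L) := by
  have hx := h.ne0
  refine ⟨mul_ne_zero (pow_ne_zero _ (th0 hθ)) hx, fun c hc => ?_⟩
  rcases List.mem_cons.1 hc with rfl | hc
  · rw [mul_div_assoc, div_self hx, sn_pow, sn_pow]
    refine ⟨sn_self_ne hθ (by omega), sn_self_ne hθ (by omega)⟩
  · have hc0 : c ≠ 0 := h.tail.mem_ne0 hc
    rw [mul_div_assoc, sn_pow, sn_pow]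
    exact ⟨sn_ne_of_sep hθ hx hc0 (G.sep' h hc) _, sn_ne_of_sep hθ hx hc0 (G.sep' h hc) _⟩

lemma gd_perm {r : ℂ} {L L' : List ℂ} (h : L.Perm L') (hr : Gd θ r L) : Gd θ r L' :=
  ⟨hr.1, fun c hc => hr.2 c (h.mem_iff.2 hc)⟩

/-! ### permutations -/

lemma fl_perm {I I' : List ℂ} (h : I.Perm I') : (fl I).Perm (fl I') := h.map _

section perm
variable {τ : Bool} {q g : ℂ} {I I' J J' : List ℂ}

lemma R_perm (hθ : θ ^ 8 = -1) (hI : I.Perm I') (hJ : J.Perm J') (p : ℂ) :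
    (gasF θ χ τ q g).R I J p = (gasF θ χ τ q g).R I' J' p :=
  gas_perm hθ ((fl_perm hI).cons _) ((fl_perm hJ).append_left _)
lemma L_perm (hθ : θ ^ 8 = -1) (hI : I.Perm I') (hJ : J.Perm J') (p : ℂ) :
    (gasF θ χ τ q g).L I J p = (gasF θ χ τ q g).L I' J' p :=
  gas_perm hθ ((fl_perm hI).cons _) ((fl_perm hJ).append_left _)
lemma OE_perm (hθ : θ ^ 8 = -1) (hI : I.Perm I') (hJ : J.Perm J') (a b : ℂ) :
    (gasF θ χ τ q g).OE I J a b = (gasF θ χ τ q g).OE I' J' a b :=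
  gas_perm hθ (((fl_perm hI).cons _).cons _) ((fl_perm hJ).append_left _)
lemma EO_perm (hθ : θ ^ 8 = -1) (hI : I.Perm I') (hJ : J.Perm J') (a b : ℂ) :
    (gasF θ χ τ q g).EO I J a b = (gasF θ χ τ q g).EO I' J' a b :=
  gas_perm hθ (((fl_perm hI).cons _).cons _) ((fl_perm hJ).append_left _)
lemma OE'_perm (hθ : θ ^ 8 = -1) (hI : I.Perm I') (hJ : J.Perm J') (a b : ℂ) :
    (gasF θ χ τ q g).OE' I J a b = (gasF θ χ τ q g).OE' I' J' a b :=
  gas_perm hθ (((fl_perm hI).cons _).cons _) ((fl_perm hJ).append_left _)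
lemma EO'_perm (hθ : θ ^ 8 = -1) (hI : I.Perm I') (hJ : J.Perm J') (a b : ℂ) :
    (gasF θ χ τ q g).EO' I J a b = (gasF θ χ τ q g).EO' I' J' a b :=
  gas_perm hθ (((fl_perm hI).cons _).cons _) ((fl_perm hJ).append_left _)
lemma RE_perm (hθ : θ ^ 8 = -1) (hI : I.Perm I') (hJ : J.Perm J') (a b : ℂ) :
    (gasF θ χ τ q g).RE I J a b = (gasF θ χ τ q g).RE I' J' a b :=
  gas_perm hθ (((fl_perm hI).cons _).cons _) ((fl_perm hJ).append_left _)
lemma ER_perm (hθ : θ ^ 8 = -1) (hI : I.Perm I') (hJ : J.Perm J') (a b : ℂ) :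
    (gasF θ χ τ q g).ER I J a b = (gasF θ χ τ q g).ER I' J' a b :=
  gas_perm hθ (((fl_perm hI).cons _).cons _) ((fl_perm hJ).append_left _)

end perm

/-! ### the factors of the reflected family -/

lemma sn1_inv (hθ : θ ^ 8 = -1) : sn θ⁻¹ 1 1 = sn θ 1 1 := by rw [sn_th_inv hθ, inv_one]

lemma sk_inv (hθ : θ ^ 8 = -1) (a c : ℂ) : sk θ⁻¹ (a / c) = sk θ (c / a) := by
  unfold sk; rw [sn_th_inv hθ, sn_th_inv hθ, inv_div]

lemma dn_up (hθ : θ ^ 8 = -1) (k : ℕ) (y : ℂ) {S S' : List ℂ} (h : S.Perm S') :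
    dn θ⁻¹ k y S = up θ k y S' := by
  unfold dn up
  rw [th13' hθ, sn1_inv hθ, (h.map _).prod_eq]
  congr 3
  exact List.map_congr_left fun c _ => sk_inv hθ y c

lemma tp_perm {S S' : List ℂ} (h : S.Perm S') : tp S = tp S' := (h.map _).prod_eq
lemma bt_perm {S S' : List ℂ} (h : S.Perm S') : bt S = bt S' := (h.map _).prod_eq

lemma P_eq (hθ : θ ^ 8 = -1) {S : List ℂ} (hS : G θ S) {P Q : ℂ[X]}
    (h : ∀ a, G θ (a :: S) → P.eval (a ^ 2) = Q.eval (a ^ 2)) : P = Q := by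
  rw [← sub_eq_zero]
  refine zero_of_gen hθ hS fun a ha => ?_
  rw [eval_sub, h a ha, sub_self]

variable {τ : Bool} {q g : ℂ}

theorem half_of (hθ : θ ^ 8 = -1) (hX : Xp θ χ τ q g) (hX' : Xp θ⁻¹ χ⁻¹ τ q g) :
    Half θ χ q g (gasF θ χ τ q g) where
  polR := by
    intro I J hG
    obtain ⟨P, d, v⟩ := hX.polR I J hG
    have hG' : G θ⁻¹ (q :: g :: (J ++ I)) :=
      G.inv hθ (hG.perm hθ ((List.perm_append_comm.cons _).cons _))
    obtain ⟨P', d', v'⟩ := hX'.polR J I hG'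
    have hPP : P = P' := P_eq hθ hG fun p hp => by
      rw [← v p hp.ne0, ← v' p hp.ne0, hX.uR I J p hp, add_comm J.length]
    refine ⟨P, d, fun p hp => v p hp.ne0, ?_, ?_⟩
    · intro x I' hI
      have hx : G θ (x :: q :: g :: (I' ++ J)) := G.remI hθ (S := [q, g]) hI hG
      rw [← sq13 hθ, ← v _ (mul_ne_zero (pow_ne_zero _ (th0 hθ)) hx.ne0),
        R_perm hθ hI (List.Perm.refl J), hX.nR I' J x hx]
      unfold dn
      ring
    · intro y J' hJ
      have hy : G θ (y :: q :: g :: (I ++ J')) := G.remJ hθ (S := [q, g]) hJ hG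
      have hy' : G θ⁻¹ (y :: q :: g :: (J' ++ I)) :=
        G.inv hθ (hy.perm hθ (((List.perm_append_comm.cons _).cons _).cons _))
      rw [hPP, ← th10 hθ, ← sq13 (th_inv8 hθ), ← v' _ (mul_ne_zero (pow_ne_zero _
        (inv_ne_zero (th0 hθ))) hy.ne0), R_perm (th_inv8 hθ) hJ (List.Perm.refl I),
        hX'.nR J' I y hy', hX.uL I J' y hy, inv_inv, add_comm I.length, ← dn_up hθ
          (S := q :: (J' ++ I)) _ y (List.perm_append_comm.cons _)]
      unfold dn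
      ring
  polOE := by
    intro I J a hG
    have hG' : G θ⁻¹ (a :: q :: g :: (J ++ I)) :=
      G.inv hθ (hG.perm hθ (((List.perm_append_comm.cons _).cons _).cons _))
    obtain ⟨P, d, c1, c2, v⟩ := hX'.polEO J I a hG'
    have hR : (gasF θ⁻¹ χ⁻¹ τ q g).R J I a = (gasF θ χ τ q g).R I J a := (hX.uR I J a hG).symm
    have hp : (a :: q :: (J ++ I)).Perm (a :: q :: (I ++ J)) :=
      (List.perm_append_comm.cons _).cons _
    rw [add_comm J.length] at d c1 v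
    refine ⟨P, d, ?_, ?_, ?_, ?_, ?_⟩
    · rw [c1, hR, tp_perm hp]
    · rw [c2, hR, bt_perm hp]
    · intro b hb
      have hb' : G θ⁻¹ (b :: a :: q :: g :: (J ++ I)) :=
        G.inv hθ (hb.perm hθ ((((List.perm_append_comm.cons _).cons _).cons _).cons _))
      rw [← v b (gd_of_G (th_inv8 hθ) hb'), hX.uOE I J a b (hb.perm hθ (List.Perm.swap _ _ _))]
    · intro y J' hJ
      have hy : G θ (y :: a :: q :: g :: (I ++ J')) := G.remJ hθ (S := [a, q, g]) hJ hG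
      have hy' : G θ⁻¹ (y :: a :: q :: g :: (J' ++ I)) :=
        G.inv hθ (hy.perm hθ ((((List.perm_append_comm.cons _).cons _).cons _).cons _))
      have hgd : Gd θ⁻¹ (θ⁻¹ ^ 13 * y) (a :: q :: g :: (J ++ I)) := by
        refine gd_perm ?_ (gd_node (th_inv8 hθ) (by norm_num) (by norm_num) hy')
        have h1 : (y :: a :: q :: g :: (J' ++ I)).Perm (a :: q :: g :: (y :: J' ++ I)) := by
          simpa using List.perm_middle (l₁ := [a, q, g]) (a := y) (l₂ := J' ++ I) |>.symm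
        exact h1.trans ((((hJ.symm.append_right I).cons _).cons _).cons _)
      rw [← th10 hθ, ← sq13 (th_inv8 hθ), ← v _ hgd, EO_perm (th_inv8 hθ) hJ (List.Perm.refl I),
        hX'.nEO J' I y a hy', hX.uRE I J' a y (hy.perm hθ (List.Perm.swap _ _ _)), ← dn_up hθ
          (S := a :: q :: (J' ++ I)) _ y ((List.perm_append_comm.cons _).cons _)]
      unfold dn
      ring
    · have hgd : Gd θ⁻¹ (θ⁻¹ ^ 3 * a) (a :: q :: g :: (J ++ I)) :=
        gd_node (th_inv8 hθ) (by norm_num) (by norm_num) hG'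
      have h1 := v _ hgd
      rw [hX'.zEO J I a hG', mul_zero, mul_pow, ← pow_mul, th6 hθ] at h1
      exact h1.symm
  polOEo := by
    intro I J b hG
    obtain ⟨P, v⟩ := hX.polOEo I J b hG
    refine ⟨P, fun a ha => v a (gd_of_G hθ ha), ?_⟩
    intro x I' hI
    have hx : G θ (x :: b :: q :: g :: (I' ++ J)) := G.remI hθ (S := [b, q, g]) hI hG
    have hgd : Gd θ (θ ^ 13 * x) (b :: q :: g :: (I ++ J)) := by
      refine gd_perm ?_ (gd_node hθ (by norm_num) (by norm_num) hx)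
      have h1 : (x :: b :: q :: g :: (I' ++ J)).Perm (b :: q :: g :: (x :: I' ++ J)) := by
        simpa using List.perm_middle (l₁ := [b, q, g]) (a := x) (l₂ := I' ++ J) |>.symm
      exact h1.trans ((((hI.symm.append_right J).cons _).cons _).cons _)
    rw [← sq13 hθ, ← v _ hgd, OE_perm hθ hI (List.Perm.refl J), hX.nOE I' J x b hx]
    unfold dn
    ring
  polEO := by
    intro I J b hG
    obtain ⟨P, d, c1, c2, v⟩ := hX.polEO I J b hG
    refine ⟨P, d, c1, c2, fun a ha => v a (gd_of_G hθ ha), ?_, ?_, ?_⟩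
    · intro x I' hI
      have hx : G θ (x :: b :: q :: g :: (I' ++ J)) := G.remI hθ (S := [b, q, g]) hI hG
      have hgd : Gd θ (θ ^ 13 * x) (b :: q :: g :: (I ++ J)) := by
        refine gd_perm ?_ (gd_node hθ (by norm_num) (by norm_num) hx)
        have h1 : (x :: b :: q :: g :: (I' ++ J)).Perm (b :: q :: g :: (x :: I' ++ J)) := by
          simpa using List.perm_middle (l₁ := [b, q, g]) (a := x) (l₂ := I' ++ J) |>.symm
        exact h1.trans ((((hI.symm.append_right J).cons _).cons _).cons _)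
      rw [← sq13 hθ, ← v _ hgd, EO_perm hθ hI (List.Perm.refl J), hX.nEO I' J x b hx]
      unfold dn
      ring
    · have h1 := v _ (gd_node hθ (k := 3) (by norm_num) (by norm_num) hG)
      rw [hX.zEO I J b hG, mul_zero, mul_pow, ← pow_mul] at h1
      exact h1.symm
    · have h1 := v _ (gd_node hθ (k := 2) (by norm_num) (by norm_num) hG)
      rw [hX.fEO I J b hG, mul_pow (θ ^ 2) b 2, ← pow_mul] at h1
      rw [show θ ^ 4 * b ^ 2 = θ ^ (2 * 2) * b ^ 2 by norm_num, ← h1]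
      ring
  polEOo := by
    intro I J a hG
    have hG' : G θ⁻¹ (a :: q :: g :: (J ++ I)) :=
      G.inv hθ (hG.perm hθ (((List.perm_append_comm.cons _).cons _).cons _))
    obtain ⟨P, v⟩ := hX'.polOEo J I a hG'
    rw [add_comm J.length] at v
    refine ⟨P, ?_, ?_⟩
    · intro b hb
      have hb' : G θ⁻¹ (b :: a :: q :: g :: (J ++ I)) :=
        G.inv hθ (hb.perm hθ ((((List.perm_append_comm.cons _).cons _).cons _).cons _))
      rw [← v b (gd_of_G (th_inv8 hθ) hb'), hX.uEO I J a b (hb.perm hθ (List.Perm.swap _ _ _))]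
    · intro y J' hJ
      have hy : G θ (y :: a :: q :: g :: (I ++ J')) := G.remJ hθ (S := [a, q, g]) hJ hG
      have hy' : G θ⁻¹ (y :: a :: q :: g :: (J' ++ I)) :=
        G.inv hθ (hy.perm hθ ((((List.perm_append_comm.cons _).cons _).cons _).cons _))
      have hgd : Gd θ⁻¹ (θ⁻¹ ^ 13 * y) (a :: q :: g :: (J ++ I)) := by
        refine gd_perm ?_ (gd_node (th_inv8 hθ) (by norm_num) (by norm_num) hy')
        have h1 : (y :: a :: q :: g :: (J' ++ I)).Perm (a :: q :: g :: (y :: J' ++ I)) := by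
          simpa using List.perm_middle (l₁ := [a, q, g]) (a := y) (l₂ := J' ++ I) |>.symm
        exact h1.trans ((((hJ.symm.append_right I).cons _).cons _).cons _)
      rw [← th10 hθ, ← sq13 (th_inv8 hθ), ← v _ hgd, OE_perm (th_inv8 hθ) hJ (List.Perm.refl I),
        hX'.nOE J' I y a hy', hX.uER I J' a y (hy.perm hθ (List.Perm.swap _ _ _)), inv_inv,
        ← dn_up hθ (S := a :: q :: (J' ++ I)) _ y ((List.perm_append_comm.cons _).cons _)]
      unfold dn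
      ring
  ex1 := hX.ex1
  ex2 := hX.ex2
  polER := by
    intro I J h hG
    obtain ⟨P, d, c1, c2, v⟩ := hX.polER I J h hG
    have hG' : G θ⁻¹ (h :: q :: g :: (J ++ I)) :=
      G.inv hθ (hG.perm hθ (((List.perm_append_comm.cons _).cons _).cons _))
    obtain ⟨P', d', c1', c2', v'⟩ := hX'.polER J I h hG'
    rw [add_comm J.length] at v'
    have hPP : P = P' := P_eq hθ hG fun r hr => by
      have hr' : G θ⁻¹ (r :: h :: q :: g :: (J ++ I)) :=
        G.inv hθ (hr.perm hθ ((((List.perm_append_comm.cons _).cons _).cons _).cons _))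
      rw [← v r (gd_of_G hθ hr), ← v' r (gd_of_G (th_inv8 hθ) hr'), hX.uER I J r h hr]
    refine ⟨P, d, c1, c2, fun r hr => v r (gd_of_G hθ hr), ?_, ?_⟩
    · intro x I' hI
      have hx : G θ (x :: h :: q :: g :: (I' ++ J)) := G.remI hθ (S := [h, q, g]) hI hG
      have hgd : Gd θ (θ ^ 13 * x) (h :: q :: g :: (I ++ J)) := by
        refine gd_perm ?_ (gd_node hθ (by norm_num) (by norm_num) hx)
        have h1 : (x :: h :: q :: g :: (I' ++ J)).Perm (h :: q :: g :: (x :: I' ++ J)) := by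
          simpa using List.perm_middle (l₁ := [h, q, g]) (a := x) (l₂ := I' ++ J) |>.symm
        exact h1.trans ((((hI.symm.append_right J).cons _).cons _).cons _)
      rw [← sq13 hθ, ← v _ hgd, ER_perm hθ hI (List.Perm.refl J), hX.nER I' J x h hx]
      unfold dn
      ring
    · intro y J' hJ
      have hy : G θ (y :: h :: q :: g :: (I ++ J')) := G.remJ hθ (S := [h, q, g]) hJ hG
      have hy' : G θ⁻¹ (y :: h :: q :: g :: (J' ++ I)) :=
        G.inv hθ (hy.perm hθ ((((List.perm_append_comm.cons _).cons _).cons _).cons _))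
      have hgd : Gd θ⁻¹ (θ⁻¹ ^ 13 * y) (h :: q :: g :: (J ++ I)) := by
        refine gd_perm ?_ (gd_node (th_inv8 hθ) (by norm_num) (by norm_num) hy')
        have h1 : (y :: h :: q :: g :: (J' ++ I)).Perm (h :: q :: g :: (y :: J' ++ I)) := by
          simpa using List.perm_middle (l₁ := [h, q, g]) (a := y) (l₂ := J' ++ I) |>.symm
        exact h1.trans ((((hJ.symm.append_right I).cons _).cons _).cons _)
      rw [hPP, ← th10 hθ, ← sq13 (th_inv8 hθ), ← v' _ hgd,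
        ER_perm (th_inv8 hθ) hJ (List.Perm.refl I), hX'.nER J' I y h hy',
        hX.uOE' I J' h y (hy.perm hθ (List.Perm.swap _ _ _)), ← dn_up hθ
          (S := q :: (J' ++ I)) _ y (List.perm_append_comm.cons _)]
      unfold dn
      ring

end NUTP.Gas.As

end
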