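import Pool.Agent.NUTP.Gas.Defs

/-!
# Exchange of the two ends of the right side (gas)

`ex1`, `ex2` of `NUTP.Half` for the gas, for an arbitrary world `g`: the identity holds for each configuration of the
full lines, separately for each place of the mark.
-/

set_option autoImplicit false

noncomputable section

namespace NUTP.Gas

namespace Ex

/-! ### the functions `sn` -/

lemma ne0 {θ : ℂ} (hθ : θ ^ 8 = -1) : θ ≠ 0 := by
  rintro rfl
  norm_num at hθ

lemma sn_inv {θ : ℂ} (hθ : θ ^ 8 = -1) {k : ℕ} (hk : k ≤ 8) (u : ℂ) : sn θ k u⁻¹ = sn θ (8 - k) u := by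
  have h0 := ne0 hθ
  have h1 : θ ^ (8 - k) * θ ^ k = -1 := by rw [← pow_add, Nat.sub_add_cancel hk, hθ]
  have h2 : θ ^ (8 - k) = -(θ ^ k)⁻¹ := by
    rw [eq_neg_iff_add_eq_zero, ← mul_left_inj' (pow_ne_zero k h0)]
    rw [add_mul, h1, inv_mul_cancel₀ (pow_ne_zero k h0)]
    ring
  unfold sn
  rw [h2]
  congr 1
  rw [mul_inv, mul_inv, inv_inv, inv_neg, inv_inv]
  ring

lemma sn0_inv {θ : ℂ} (u : ℂ) : sn θ 0 u⁻¹ = -sn θ 0 u := by
  unfold sn
  rw [pow_zero, one_mul, one_mul, inv_inv]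
  ring

/-- three-term identity -/
lemma three {θ : ℂ} (hθ : θ ^ 8 = -1) {u v : ℂ} (hu : u ≠ 0) (hv : v ≠ 0) (k : ℕ) :
    sn θ 6 u * sn θ (k + 2) (u * v) = sn θ 2 1 * sn θ (k + 2) v - sn θ 0 u * sn θ k (u * v) := by
  have h0 := ne0 hθ
  have hk := pow_ne_zero k h0
  have e1 : θ ^ 16 = 1 := by rw [show θ ^ 16 = (θ ^ 8) ^ 2 by ring, hθ]; norm_num
  have e3 : θ ^ 12 = -θ ^ 4 := by rw [show θ ^ 12 = θ ^ 8 * θ ^ 4 by ring, hθ]; norm_num
  unfold sn
  rw [pow_add]
  generalize θ ^ k = c at *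
  field_simp
  ring_nf
  simp only [e1, e3, hθ]
  ring

/-- three-term identity -/
lemma three' {θ : ℂ} (hθ : θ ^ 8 = -1) {u v : ℂ} (hu : u ≠ 0) (hv : v ≠ 0) (k : ℕ) :
    sn θ 6 u * sn θ k v = sn θ 2 1 * sn θ k (u * v) - sn θ 0 u * sn θ (k + 2) v := by
  have h0 := ne0 hθ
  have hk := pow_ne_zero k h0
  have e3 : θ ^ 12 = -θ ^ 4 := by rw [show θ ^ 12 = θ ^ 8 * θ ^ 4 by ring, hθ]; norm_num
  unfold sn
  rw [pow_add]
  generalize θ ^ k = c at *
  field_simp
  ring_nf
  simp only [e3, hθ]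
  ring

lemma two {θ : ℂ} (hθ : θ ^ 8 = -1) {u : ℂ} (hu : u ≠ 0) :
    sn θ 2 u * sn θ 6 u = sn θ 2 1 ^ 2 - sn θ 0 u ^ 2 := by
  have h := three hθ hu one_ne_zero 0
  simp only [zero_add, mul_one] at h
  rw [mul_comm, h]
  ring

/-! ### the sum over the states -/

/-- configurations of a list of objects -/
def Cnf (X : List (ℂ × Ty)) (e : Cf) : Prop := List.Forall₂ (fun t c => c.1 = t.1 ∧ c.2 ∈ t.2.st) X e

lemma sm_congr {M : Type*} [AddCommMonoid M] {X : List (ℂ × Ty)} {φ ψ : Cf → M}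
    (h : ∀ e, Cnf X e → φ e = ψ e) : sm X φ = sm X ψ := by
  induction X generalizing φ ψ with
  | nil => exact h [] List.Forall₂.nil
  | cons t X ih =>
    simp only [sm]
    congr 1
    apply List.map_congr_left
    intro k hk
    exact ih fun e he => h _ (List.Forall₂.cons ⟨rfl, hk⟩ he)

lemma sm_add {M : Type*} [AddCommMonoid M] (X : List (ℂ × Ty)) (φ ψ : Cf → M) :
    sm X (fun e => φ e + ψ e) = sm X φ + sm X ψ := by
  induction X generalizing φ ψ with
  | nil => rfl
  | cons t X ih =>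
    simp only [sm, ih, List.sum_map_add]

lemma sm_mul (X : List (ℂ × Ty)) (c : ℂ) (φ : Cf → ℂ) :
    sm X (fun e => c * φ e) = c * sm X φ := by
  induction X generalizing φ with
  | nil => rfl
  | cons t X ih =>
    simp only [sm, ih, List.sum_map_mul_left]

/-! ### configurations of full lines -/

/-- unmarked full states -/
def Un (e : Cf) : Prop := ∀ c ∈ e, c.2 = .p ∨ c.2 = .z ∨ c.2 = .n

lemma tt_cons (q : K → ℤ) (c : ℂ × K) (e : Cf) : tt q (c :: e) = q c.2 + tt q e := by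
  simp [tt]

lemma tt_append (q : K → ℤ) (e f : Cf) : tt q (e ++ f) = tt q e + tt q f := by
  simp [tt]

lemma un_mk {e : Cf} (h : Un e) : tt mk e = 0 := by
  induction e with
  | nil => rfl
  | cons c e ih =>
    rw [tt_cons, ih fun d hd => h d (List.mem_cons_of_mem _ hd), add_zero]
    rcases h c List.mem_cons_self with h1 | h1 | h1 <;> rw [h1] <;> rfl

lemma full {I : List ℂ} {e : Cf} (h : Cnf (fl I) e) : 0 ≤ tt mk e ∧ (tt mk e = 0 → Un e) ∧
    (tt mk e = 1 → ∃ e1 w k e2, e = e1 ++ (w, k) :: e2 ∧ (k = K.a ∨ k = K.b) ∧ w ∈ I ∧ Un e1 ∧ Un e2) := by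
  induction I generalizing e with
  | nil =>
    cases h
    exact ⟨le_refl _, fun _ => by intro c hc; simp at hc, fun h => by simp [tt] at h⟩
  | cons x I ih =>
    cases h with
    | @cons _ c _ e hc he =>
      obtain ⟨h1, h2, h3⟩ := ih he
      obtain ⟨y, k⟩ := c
      obtain ⟨hy, hk⟩ := hc
      simp only at hy
      subst hy
      simp only [Ty.st, List.mem_cons, List.not_mem_nil, or_false] at hk
      rw [tt_cons]
      have hmk : (mk k = 0 ∧ (k = .p ∨ k = .z ∨ k = .n)) ∨ (mk k = 1 ∧ (k = .a ∨ k = .b)) := by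
        rcases hk with rfl | rfl | rfl | rfl | rfl <;> simp [mk]
      rcases hmk with ⟨h4, h5⟩ | ⟨h4, h5⟩
      · simp only [h4, zero_add]
        refine ⟨h1, fun h => ?_, fun h => ?_⟩
        · intro d hd
          rcases List.mem_cons.1 hd with rfl | hd
          · exact h5
          · exact h2 h d hd
        · obtain ⟨e1, w, l, e2, rfl, hl, hw, u1, u2⟩ := h3 h
          refine ⟨(y, k) :: e1, w, l, e2, rfl, hl, List.mem_cons_of_mem _ hw, ?_, u2⟩
          intro d hd
          rcases List.mem_cons.1 hd with rfl | hd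
          · exact h5
          · exact u1 d hd
      · simp only [h4]
        refine ⟨by omega, fun h => by omega, fun h => ?_⟩
        exact ⟨[], y, k, e, rfl, h5, List.mem_cons_self, fun d hd => by simp at hd, h2 (by omega)⟩

lemma ow1_cons (θ x : ℂ) (s : K) (c : ℂ × K) (e : Cf) :
    ow1 θ x s (c :: e) = own θ s c.2 (x / c.1) * ow1 θ x s e := by
  simp [ow1]

lemma ow1_append (θ x : ℂ) (s : K) (e f : Cf) : ow1 θ x s (e ++ f) = ow1 θ x s e * ow1 θ x s f := by
  simp [ow1]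

lemma ow1_un {e : Cf} (h : Un e) (θ x : ℂ) {s t : K}
    (hst : ∀ l, (l = K.p ∨ l = K.z ∨ l = K.n) → ∀ u, own θ s l u = own θ t l u) : ow1 θ x s e = ow1 θ x t e := by
  unfold ow1
  congr 1
  apply List.map_congr_left
  intro c hc
  exact hst _ (h c hc) _

lemma cr1_st (θ x : ℂ) (f : Cf) {s t : K} (hst : ∀ l u, crs θ s l u = crs θ t l u) :
    cr1 θ x s f = cr1 θ x t f := by
  unfold cr1
  congr 1
  apply List.map_congr_left
  intro c _
  exact hst _ _

lemma cr1_rb (θ x : ℂ) (f : Cf) : cr1 θ x .rb f = cr1 θ x .ro f :=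
  cr1_st θ x f fun l u => by cases l <;> rfl

lemma cr1_re (θ x : ℂ) (f : Cf) : cr1 θ x .re f = cr1 θ x .ro f :=
  cr1_st θ x f fun l u => by cases l <;> rfl

lemma cr1_rE (θ x : ℂ) (f : Cf) : cr1 θ x .rE f = cr1 θ x .rB f :=
  cr1_st θ x f fun l u => by cases l <;> rfl

lemma ow1_rb {e : Cf} (h : Un e) (θ x : ℂ) : ow1 θ x .rb e = ow1 θ x .ro e :=
  ow1_un h θ x fun l hl u => by rcases hl with rfl | rfl | rfl <;> rfl

lemma ow1_re {e : Cf} (h : Un e) (θ x : ℂ) : ow1 θ x .re e = ow1 θ x .ro e :=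
  ow1_un h θ x fun l hl u => by rcases hl with rfl | rfl | rfl <;> rfl

lemma ow1_rE {e : Cf} (h : Un e) (θ x : ℂ) : ow1 θ x .rE e = ow1 θ x .rB e :=
  ow1_un h θ x fun l hl u => by rcases hl with rfl | rfl | rfl <;> rfl

/-- the term with two objects written out -/
lemma tm2 (θ χ x y : ℂ) (k l : K) (e f : Cf) : tm θ χ 0 0 0 (-1) ((x, k) :: (y, l) :: e) f =
    if mk k + (mk l + tt mk e) = 0 ∧ tt mk f = 0 ∧ ch k + (ch l + tt ch e) = tt ch f then
      χ ^ (-1 + tt ch f + (nl k + (nl l + tt nl e)) + tt nl f) *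
        ((w1 θ k * (own θ k l (x / y) * ow1 θ x k e) * (w1 θ l * ow1 θ y l e * ow θ e)) * ow θ f *
          (cr1 θ x k f * (cr1 θ y l f * cr θ e f))) else 0 := by
  unfold tm
  simp only [tt_cons, zero_add, ow, ow1_cons, cr, List.map_cons, List.prod_cons]

/-- marks of the two objects `m`, charges `q`: the term vanishes if the counts are wrong -/
lemma tm2_zero {θ χ x y : ℂ} {k l : K} {e f : Cf}
    (h : ¬(mk k + mk l + tt mk e = 0 ∧ tt mk f = 0 ∧ ch k + ch l + tt ch e = tt ch f)) :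
    tm θ χ 0 0 0 (-1) ((x, k) :: (y, l) :: e) f = 0 := by
  rw [tm2, if_neg]
  rwa [← add_assoc, ← add_assoc]

lemma tm2_pos {θ χ x y : ℂ} {k l : K} {e f : Cf} (hk : nl k = 0) (hl : nl l = 0) (wk : w1 θ k = 1) (wl : w1 θ l = 1)
    (h : mk k + mk l + tt mk e = 0 ∧ tt mk f = 0 ∧ ch k + ch l + tt ch e = tt ch f) :
    tm θ χ 0 0 0 (-1) ((x, k) :: (y, l) :: e) f =
      own θ k l (x / y) * (ow1 θ x k e * ow1 θ y l e) * (cr1 θ x k f * cr1 θ y l f) *
        (χ ^ (-1 + tt ch f + tt nl e + tt nl f) * (ow θ e * ow θ f * cr θ e f)) := by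
  rw [tm2, if_pos, hk, hl, wk, wl]
  · simp only [zero_add, one_mul]
    ring
  · rwa [← add_assoc, ← add_assoc]

/-- **first exchange relation** -/
theorem ex1 {θ : ℂ} (hθ : θ ^ 8 = -1) (χ : ℂ) {a b : ℂ} {I : List ℂ} (ha : a ≠ 0) (hb : b ≠ 0)
    (hab : sn θ 0 (b / a) ≠ 0)
    (hI : ∀ c ∈ I, c ≠ 0 ∧ sn θ 0 (a / c) ≠ 0 ∧ sn θ 1 (a / c) ≠ 0 ∧ sn θ 0 (b / c) ≠ 0 ∧ sn θ 1 (b / c) ≠ 0)
    (Y : List (ℂ × Ty)) :
    sk θ (b / a) * gas θ χ ((b, .rb) :: (a, .re) :: fl I) Y =
      sn θ 3 (a / b) * (sn θ 2 1 * gas θ χ ((a, .rb) :: (b, .re) :: fl I) Y +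
        sn θ 0 (b / a) * gas θ χ ((a, .re) :: (b, .ro) :: fl I) Y) := by
  have key : sm (fl I) (fun e => sm Y fun f => sk θ (b / a) *
      ((tm θ χ 0 0 0 (-1) ((b, .rb) :: (a, .re) :: e) f + tm θ χ 0 0 0 (-1) ((b, .rb) :: (a, .rE) :: e) f) +
        (tm θ χ 0 0 0 (-1) ((b, .rB) :: (a, .re) :: e) f + tm θ χ 0 0 0 (-1) ((b, .rB) :: (a, .rE) :: e) f))) =
      sm (fl I) (fun e => sm Y fun f => sn θ 3 (a / b) * (sn θ 2 1 *
      ((tm θ χ 0 0 0 (-1) ((a, .rb) :: (b, .re) :: e) f + tm θ χ 0 0 0 (-1) ((a, .rb) :: (b, .rE) :: e) f) +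
        (tm θ χ 0 0 0 (-1) ((a, .rB) :: (b, .re) :: e) f + tm θ χ 0 0 0 (-1) ((a, .rB) :: (b, .rE) :: e) f)) +
        sn θ 0 (b / a) *
      (tm θ χ 0 0 0 (-1) ((a, .re) :: (b, .ro) :: e) f + tm θ χ 0 0 0 (-1) ((a, .rE) :: (b, .ro) :: e) f))) := by
    apply sm_congr
    intro e he
    apply sm_congr
    intro f hf
    have hu : b / a ≠ 0 := div_ne_zero hb ha
    have hinv : a / b = (b / a)⁻¹ := (inv_div b a).symm
    have s3 : sn θ 3 (a / b) = sn θ 5 (b / a) := by rw [hinv, sn_inv hθ (by norm_num)]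
    have s5 : sn θ 5 (a / b) = sn θ 3 (b / a) := by rw [hinv, sn_inv hθ (by norm_num)]
    have s6 : sn θ 6 (a / b) = sn θ 2 (b / a) := by rw [hinv, sn_inv hθ (by norm_num)]
    have s0 : sn θ 0 (a / b) = -sn θ 0 (b / a) := by rw [hinv, sn0_inv]
    obtain ⟨h1, h2, h3⟩ := full he
    rcases (by omega : tt mk e = 0 ∨ tt mk e = 1 ∨ 2 ≤ tt mk e) with hM | hM | hM
    · -- the mark sits on an ended line
      have hU := h2 hM
      rw [tm2_zero (k := .rb) (l := .re) (by simp only [mk]; omega),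
        tm2_zero (k := .rb) (l := .re) (by simp only [mk]; omega),
        tm2_zero (k := .rB) (l := .rE) (by simp only [mk]; omega),
        tm2_zero (k := .rB) (l := .rE) (by simp only [mk]; omega),
        tm2_zero (k := .re) (l := .ro) (by simp only [mk]; omega)]
      by_cases hc : tt mk f = 0 ∧ 1 + tt ch e = tt ch f
      · rw [tm2_pos (k := .rb) (l := .rE) rfl rfl rfl rfl (by simp only [mk, ch]; omega),
          tm2_pos (k := .rb) (l := .rE) rfl rfl rfl rfl (by simp only [mk, ch]; omega),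
          tm2_pos (k := .rB) (l := .re) rfl rfl rfl rfl (by simp only [mk, ch]; omega),
          tm2_pos (k := .rB) (l := .re) rfl rfl rfl rfl (by simp only [mk, ch]; omega),
          tm2_pos (k := .rE) (l := .ro) rfl rfl rfl rfl (by simp only [mk, ch]; omega)]
        simp only [ow1_rb hU, ow1_re hU, ow1_rE hU, cr1_rb, cr1_re, cr1_rE]
        have e1 : sk θ (b / a) * own θ .rb .rE (b / a) = sn θ 3 (a / b) * (sn θ 2 1 * own θ .rB .re (a / b) +
            sn θ 0 (b / a) * own θ .rE .ro (a / b)) := by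
          simp only [own, cls, ee, sk, s3, s5, s0]
          field_simp
          linear_combination (-(sn θ 3 (b / a) * sn θ 5 (b / a))) * two hθ hu
        have e2 : sk θ (b / a) * own θ .rB .re (b / a) = sn θ 3 (a / b) * (sn θ 2 1 * own θ .rb .rE (a / b)) := by
          simp only [own, cls, ee, sk, s3, s5, s6, s0]
          field_simp
        linear_combination
          ((ow1 θ b .ro e * ow1 θ a .rB e) * (cr1 θ b .ro f * cr1 θ a .rB f) *
            (χ ^ (-1 + tt ch f + tt nl e + tt nl f) * (ow θ e * ow θ f * cr θ e f))) * e1 +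
          ((ow1 θ b .rB e * ow1 θ a .ro e) * (cr1 θ b .rB f * cr1 θ a .ro f) *
            (χ ^ (-1 + tt ch f + tt nl e + tt nl f) * (ow θ e * ow θ f * cr θ e f))) * e2
      · rw [tm2_zero (k := .rb) (l := .rE) (by simp only [mk, ch]; omega),
          tm2_zero (k := .rb) (l := .rE) (by simp only [mk, ch]; omega),
          tm2_zero (k := .rB) (l := .re) (by simp only [mk, ch]; omega),
          tm2_zero (k := .rB) (l := .re) (by simp only [mk, ch]; omega),
          tm2_zero (k := .rE) (l := .ro) (by simp only [mk, ch]; omega)]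
        ring
    · -- the mark sits on a full line
      obtain ⟨e1, w, k, e2, rfl, hk, hw, hU1, hU2⟩ := h3 hM
      obtain ⟨hw0, n1, n2, n3, n4⟩ := hI w hw
      rw [tm2_zero (k := .rb) (l := .rE) (by simp only [mk]; omega),
        tm2_zero (k := .rb) (l := .rE) (by simp only [mk]; omega),
        tm2_zero (k := .rB) (l := .re) (by simp only [mk]; omega),
        tm2_zero (k := .rB) (l := .re) (by simp only [mk]; omega),
        tm2_zero (k := .rB) (l := .rE) (by simp only [mk]; omega),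
        tm2_zero (k := .rB) (l := .rE) (by simp only [mk]; omega),
        tm2_zero (k := .rE) (l := .ro) (by simp only [mk]; omega)]
      by_cases hc : tt mk f = 0 ∧ 2 + tt ch (e1 ++ (w, k) :: e2) = tt ch f
      · rw [tm2_pos (k := .rb) (l := .re) rfl rfl rfl rfl (by simp only [mk, ch]; omega),
          tm2_pos (k := .rb) (l := .re) rfl rfl rfl rfl (by simp only [mk, ch]; omega),
          tm2_pos (k := .re) (l := .ro) rfl rfl rfl rfl (by simp only [mk, ch]; omega)]
        simp only [ow1_append, ow1_cons, ow1_rb hU1, ow1_re hU1, ow1_rb hU2, ow1_re hU2, cr1_rb, cr1_re]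
        have hv : a / w ≠ 0 := div_ne_zero ha hw0
        have huv : b / w = b / a * (a / w) := by field_simp
        have e1' : sk θ (b / a) * own θ .rb .re (b / a) * (own θ .rb k (b / w) * own θ .re k (a / w)) =
            sn θ 3 (a / b) * (sn θ 2 1 * own θ .rb .re (a / b) * (own θ .rb k (a / w) * own θ .re k (b / w)) +
            sn θ 0 (b / a) * own θ .re .ro (a / b) * (own θ .re k (a / w) * own θ .ro k (b / w))) := by
          rcases hk with rfl | rfl
          · have t : sn θ 6 (b / a) * sn θ 2 (b / w) = sn θ 2 1 * sn θ 2 (a / w) - sn θ 0 (b / a) * sn θ 0 (b / w) := by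
              rw [huv]; exact three hθ hu hv 0
            simp only [own, cls, ee, ef, sk, s3, s5, s6]
            field_simp
            linear_combination (sn θ 2 (b / a) * sn θ 3 (b / a) * sn θ 5 (b / a) * sn θ 3 (b / w) * sn θ 2 1 *
              sn θ 3 (a / w)) * t
          · have t : sn θ 6 (b / a) * sn θ 3 (b / w) = sn θ 2 1 * sn θ 3 (a / w) - sn θ 0 (b / a) * sn θ 1 (b / w) := by
              rw [huv]; exact three hθ hu hv 1
            simp only [own, cls, ee, ef, sk, s3, s5, s6]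
            field_simp
            linear_combination (sn θ 2 (b / a) * sn θ 3 (b / a) * sn θ 5 (b / a) * sn θ 2 1) * t
        linear_combination
          ((ow1 θ b .ro e1 * ow1 θ a .ro e1 * (ow1 θ b .ro e2 * ow1 θ a .ro e2)) * (cr1 θ b .ro f * cr1 θ a .ro f) *
            (χ ^ (-1 + tt ch f + tt nl (e1 ++ (w, k) :: e2) + tt nl f) *
              (ow θ (e1 ++ (w, k) :: e2) * ow θ f * cr θ (e1 ++ (w, k) :: e2) f))) * e1'
      · rw [tm2_zero (k := .rb) (l := .re) (by simp only [mk, ch]; omega),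
          tm2_zero (k := .rb) (l := .re) (by simp only [mk, ch]; omega),
          tm2_zero (k := .re) (l := .ro) (by simp only [mk, ch]; omega)]
        ring
    · rw [tm2_zero (k := .rb) (l := .rE) (by simp only [mk]; omega),
        tm2_zero (k := .rb) (l := .rE) (by simp only [mk]; omega),
        tm2_zero (k := .rB) (l := .re) (by simp only [mk]; omega),
        tm2_zero (k := .rB) (l := .re) (by simp only [mk]; omega),
        tm2_zero (k := .rB) (l := .rE) (by simp only [mk]; omega),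
        tm2_zero (k := .rB) (l := .rE) (by simp only [mk]; omega),
        tm2_zero (k := .rE) (l := .ro) (by simp only [mk]; omega),
        tm2_zero (k := .rb) (l := .re) (by simp only [mk]; omega),
        tm2_zero (k := .rb) (l := .re) (by simp only [mk]; omega),
        tm2_zero (k := .re) (l := .ro) (by simp only [mk]; omega)]
      ring
  simp only [sm_add, sm_mul] at key
  unfold gas
  simp only [sm, Ty.st, List.map_cons, List.map_nil, List.sum_cons, List.sum_nil, add_zero]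
  linear_combination (sn θ 1 1) * key

/-- **second exchange relation** -/
theorem ex2 {θ : ℂ} (hθ : θ ^ 8 = -1) (χ : ℂ) {a b : ℂ} {I : List ℂ} (ha : a ≠ 0) (hb : b ≠ 0)
    (hab : sn θ 0 (b / a) ≠ 0)
    (hI : ∀ c ∈ I, c ≠ 0 ∧ sn θ 0 (a / c) ≠ 0 ∧ sn θ 1 (a / c) ≠ 0 ∧ sn θ 0 (b / c) ≠ 0 ∧ sn θ 1 (b / c) ≠ 0)
    (Y : List (ℂ × Ty)) :
    sk θ (b / a) * gas θ χ ((b, .re) :: (a, .ro) :: fl I) Y =
      sn θ 3 (a / b) * (sn θ 2 1 * gas θ χ ((a, .re) :: (b, .ro) :: fl I) Y +
        sn θ 0 (b / a) * gas θ χ ((a, .rb) :: (b, .re) :: fl I) Y) := by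
  have key : sm (fl I) (fun e => sm Y fun f => sk θ (b / a) *
      (tm θ χ 0 0 0 (-1) ((b, .re) :: (a, .ro) :: e) f + tm θ χ 0 0 0 (-1) ((b, .rE) :: (a, .ro) :: e) f)) =
      sm (fl I) (fun e => sm Y fun f => sn θ 3 (a / b) * (sn θ 2 1 *
      (tm θ χ 0 0 0 (-1) ((a, .re) :: (b, .ro) :: e) f + tm θ χ 0 0 0 (-1) ((a, .rE) :: (b, .ro) :: e) f) +
        sn θ 0 (b / a) *
      ((tm θ χ 0 0 0 (-1) ((a, .rb) :: (b, .re) :: e) f + tm θ χ 0 0 0 (-1) ((a, .rb) :: (b, .rE) :: e) f) +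
        (tm θ χ 0 0 0 (-1) ((a, .rB) :: (b, .re) :: e) f + tm θ χ 0 0 0 (-1) ((a, .rB) :: (b, .rE) :: e) f)))) := by
    apply sm_congr
    intro e he
    apply sm_congr
    intro f hf
    have hu : b / a ≠ 0 := div_ne_zero hb ha
    have hinv : a / b = (b / a)⁻¹ := (inv_div b a).symm
    have s3 : sn θ 3 (a / b) = sn θ 5 (b / a) := by rw [hinv, sn_inv hθ (by norm_num)]
    have s5 : sn θ 5 (a / b) = sn θ 3 (b / a) := by rw [hinv, sn_inv hθ (by norm_num)]
    have s6 : sn θ 6 (a / b) = sn θ 2 (b / a) := by rw [hinv, sn_inv hθ (by norm_num)]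
    have s0 : sn θ 0 (a / b) = -sn θ 0 (b / a) := by rw [hinv, sn0_inv]
    obtain ⟨h1, h2, h3⟩ := full he
    rcases (by omega : tt mk e = 0 ∨ tt mk e = 1 ∨ 2 ≤ tt mk e) with hM | hM | hM
    · -- the mark sits on an ended line
      have hU := h2 hM
      rw [tm2_zero (k := .rb) (l := .re) (by simp only [mk]; omega),
        tm2_zero (k := .rB) (l := .rE) (by simp only [mk]; omega),
        tm2_zero (k := .re) (l := .ro) (by simp only [mk]; omega),
        tm2_zero (k := .re) (l := .ro) (by simp only [mk]; omega)]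
      by_cases hc : tt mk f = 0 ∧ 1 + tt ch e = tt ch f
      · rw [tm2_pos (k := .rb) (l := .rE) rfl rfl rfl rfl (by simp only [mk, ch]; omega),
          tm2_pos (k := .rB) (l := .re) rfl rfl rfl rfl (by simp only [mk, ch]; omega),
          tm2_pos (k := .rE) (l := .ro) rfl rfl rfl rfl (by simp only [mk, ch]; omega),
          tm2_pos (k := .rE) (l := .ro) rfl rfl rfl rfl (by simp only [mk, ch]; omega)]
        simp only [ow1_rb hU, ow1_re hU, ow1_rE hU, cr1_rb, cr1_re, cr1_rE]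
        have e1 : sn θ 2 1 * own θ .rE .ro (a / b) + sn θ 0 (b / a) * own θ .rB .re (a / b) = 0 := by
          simp only [own, cls, ee, s5, s0]
          field_simp
          ring
        have e2 : sk θ (b / a) * own θ .rE .ro (b / a) = sn θ 3 (a / b) * (sn θ 0 (b / a) * own θ .rb .rE (a / b)) := by
          simp only [own, cls, ee, sk, s3, s5, s6, s0]
          field_simp
        linear_combination
          (-sn θ 3 (a / b) * (ow1 θ b .ro e * ow1 θ a .rB e) * (cr1 θ b .ro f * cr1 θ a .rB f) *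
            (χ ^ (-1 + tt ch f + tt nl e + tt nl f) * (ow θ e * ow θ f * cr θ e f))) * e1 +
          ((ow1 θ b .rB e * ow1 θ a .ro e) * (cr1 θ b .rB f * cr1 θ a .ro f) *
            (χ ^ (-1 + tt ch f + tt nl e + tt nl f) * (ow θ e * ow θ f * cr θ e f))) * e2
      · rw [tm2_zero (k := .rb) (l := .rE) (by simp only [mk, ch]; omega),
          tm2_zero (k := .rB) (l := .re) (by simp only [mk, ch]; omega),
          tm2_zero (k := .rE) (l := .ro) (by simp only [mk, ch]; omega),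
          tm2_zero (k := .rE) (l := .ro) (by simp only [mk, ch]; omega)]
        ring
    · -- the mark sits on a full line
      obtain ⟨e1, w, k, e2, rfl, hk, hw, hU1, hU2⟩ := h3 hM
      obtain ⟨hw0, n1, n2, n3, n4⟩ := hI w hw
      rw [tm2_zero (k := .rb) (l := .rE) (by simp only [mk]; omega),
        tm2_zero (k := .rB) (l := .re) (by simp only [mk]; omega),
        tm2_zero (k := .rB) (l := .rE) (by simp only [mk]; omega),
        tm2_zero (k := .rE) (l := .ro) (by simp only [mk]; omega),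
        tm2_zero (k := .rE) (l := .ro) (by simp only [mk]; omega)]
      by_cases hc : tt mk f = 0 ∧ 2 + tt ch (e1 ++ (w, k) :: e2) = tt ch f
      · rw [tm2_pos (k := .rb) (l := .re) rfl rfl rfl rfl (by simp only [mk, ch]; omega),
          tm2_pos (k := .re) (l := .ro) rfl rfl rfl rfl (by simp only [mk, ch]; omega),
          tm2_pos (k := .re) (l := .ro) rfl rfl rfl rfl (by simp only [mk, ch]; omega)]
        simp only [ow1_append, ow1_cons, ow1_rb hU1, ow1_re hU1, ow1_rb hU2, ow1_re hU2, cr1_rb, cr1_re]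
        have hv : a / w ≠ 0 := div_ne_zero ha hw0
        have huv : b / w = b / a * (a / w) := by field_simp
        have e1' : sk θ (b / a) * own θ .re .ro (b / a) * (own θ .re k (b / w) * own θ .ro k (a / w)) =
            sn θ 3 (a / b) * (sn θ 2 1 * own θ .re .ro (a / b) * (own θ .re k (a / w) * own θ .ro k (b / w)) +
            sn θ 0 (b / a) * own θ .rb .re (a / b) * (own θ .rb k (a / w) * own θ .re k (b / w))) := by
          rcases hk with rfl | rfl
          · have t : sn θ 6 (b / a) * sn θ 0 (a / w) = sn θ 2 1 * sn θ 0 (b / w) - sn θ 0 (b / a) * sn θ 2 (a / w) := by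
              rw [huv]; exact three' hθ hu hv 0
            simp only [own, cls, ee, ef, sk, s3, s5, s6]
            field_simp
            linear_combination (-(sn θ 2 (b / a) * sn θ 3 (b / a) * sn θ 5 (b / a) * sn θ 3 (b / w) * sn θ 2 1 *
              sn θ 3 (a / w))) * t
          · have t : sn θ 6 (b / a) * sn θ 1 (a / w) = sn θ 2 1 * sn θ 1 (b / w) - sn θ 0 (b / a) * sn θ 3 (a / w) := by
              rw [huv]; exact three' hθ hu hv 1
            simp only [own, cls, ee, ef, sk, s3, s5, s6]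
            field_simp
            linear_combination (-(sn θ 2 (b / a) * sn θ 3 (b / a) * sn θ 5 (b / a) * sn θ 2 1)) * t
        linear_combination
          ((ow1 θ b .ro e1 * ow1 θ a .ro e1 * (ow1 θ b .ro e2 * ow1 θ a .ro e2)) * (cr1 θ b .ro f * cr1 θ a .ro f) *
            (χ ^ (-1 + tt ch f + tt nl (e1 ++ (w, k) :: e2) + tt nl f) *
              (ow θ (e1 ++ (w, k) :: e2) * ow θ f * cr θ (e1 ++ (w, k) :: e2) f))) * e1'
      · rw [tm2_zero (k := .rb) (l := .re) (by simp only [mk, ch]; omega),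
          tm2_zero (k := .re) (l := .ro) (by simp only [mk, ch]; omega),
          tm2_zero (k := .re) (l := .ro) (by simp only [mk, ch]; omega)]
        ring
    · rw [tm2_zero (k := .rb) (l := .rE) (by simp only [mk]; omega),
        tm2_zero (k := .rB) (l := .re) (by simp only [mk]; omega),
        tm2_zero (k := .rB) (l := .rE) (by simp only [mk]; omega),
        tm2_zero (k := .rE) (l := .ro) (by simp only [mk]; omega),
        tm2_zero (k := .rE) (l := .ro) (by simp only [mk]; omega),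
        tm2_zero (k := .rb) (l := .re) (by simp only [mk]; omega),
        tm2_zero (k := .re) (l := .ro) (by simp only [mk]; omega),
        tm2_zero (k := .re) (l := .ro) (by simp only [mk]; omega)]
      ring
  simp only [sm_add, sm_mul] at key
  unfold gas
  simp only [sm, Ty.st, List.map_cons, List.map_nil, List.sum_cons, List.sum_nil, add_zero]
  linear_combination (sn θ 1 1) * key

/-! ### generic lists -/

lemma sn_ne {θ : ℂ} (hθ : θ ^ 8 = -1) {x y : ℂ} (hx : x ≠ 0) (hy : y ≠ 0)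
    (h : NUGas.Sep (θ ^ 2) (x ^ 2) (y ^ 2)) (k : ℕ) : sn θ k (x / y) ≠ 0 := by
  have h0 := ne0 hθ
  have hk := pow_ne_zero k h0
  intro hs
  apply h k
  unfold sn at hs
  have h1 : θ ^ k * (x / y) - (θ ^ k * (x / y))⁻¹ = 0 := by
    rcases div_eq_zero_iff.1 hs with h1 | h1
    · exact h1
    · exact absurd h1 (mul_ne_zero two_ne_zero (pow_ne_zero 4 h0))
  have h2 : (θ ^ k * (x / y)) ^ 2 = 1 := by
    have h3 : θ ^ k * (x / y) ≠ 0 := mul_ne_zero hk (div_ne_zero hx hy)
    have h4 : θ ^ k * (x / y) = (θ ^ k * (x / y))⁻¹ := sub_eq_zero.1 h1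
    calc (θ ^ k * (x / y)) ^ 2 = θ ^ k * (x / y) * (θ ^ k * (x / y)) := by ring
      _ = θ ^ k * (x / y) * (θ ^ k * (x / y))⁻¹ := by rw [← h4]
      _ = 1 := mul_inv_cancel₀ h3
  have h5 : (θ ^ k * x) ^ 2 = y ^ 2 := by
    field_simp at h2
    linear_combination h2
  rw [← h5]
  ring

/-- `ex1` of `NUTP.Half` -/
theorem gasF_ex1 {θ : ℂ} (hθ : θ ^ 8 = -1) (χ : ℂ) (τ : Bool) (q g : ℂ) (I J : List ℂ) (a b : ℂ)
    (hG : G θ (a :: b :: q :: g :: (I ++ J))) :
    sk θ (b / a) * (gasF θ χ τ q g).OE I J b a =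
      sn θ 3 (a / b) * (sn θ 2 1 * (gasF θ χ τ q g).OE I J a b +
        sn θ 0 (b / a) * (gasF θ χ τ q g).EO I J a b) := by
  obtain ⟨h0, h1⟩ := hG
  simp only [List.map_cons, List.pairwise_cons, List.mem_cons] at h0 h1
  have ha : a ≠ 0 := fun h => h0 (a ^ 2) (Or.inl rfl) (by rw [h]; norm_num)
  have hb : b ≠ 0 := fun h => h0 (b ^ 2) (Or.inr (Or.inl rfl)) (by rw [h]; norm_num)
  have hI : ∀ c ∈ I, c ^ 2 ∈ (I ++ J).map (· ^ 2) := fun c hc =>
    List.mem_map.2 ⟨c, List.mem_append_left _ hc, rfl⟩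
  have hc0 : ∀ c ∈ I, c ≠ 0 := fun c hc h =>
    h0 (c ^ 2) (Or.inr (Or.inr (Or.inr (Or.inr (hI c hc))))) (by rw [h]; norm_num)
  refine ex1 hθ χ ha hb ?_ (fun c hc => ⟨hc0 c hc, ?_, ?_, ?_, ?_⟩) _
  · have := sn_ne hθ ha hb (h1.1 _ (Or.inl rfl)) 0
    rw [← inv_div a b, sn0_inv]
    exact neg_ne_zero.2 this
  · exact sn_ne hθ ha (hc0 c hc) (h1.1 _ (Or.inr (Or.inr (Or.inr (hI c hc))))) 0
  · exact sn_ne hθ ha (hc0 c hc) (h1.1 _ (Or.inr (Or.inr (Or.inr (hI c hc))))) 1
  · exact sn_ne hθ hb (hc0 c hc) (h1.2.1 _ (Or.inr (Or.inr (hI c hc)))) 0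
  · exact sn_ne hθ hb (hc0 c hc) (h1.2.1 _ (Or.inr (Or.inr (hI c hc)))) 1

/-- `ex2` of `NUTP.Half` -/
theorem gasF_ex2 {θ : ℂ} (hθ : θ ^ 8 = -1) (χ : ℂ) (τ : Bool) (q g : ℂ) (I J : List ℂ) (a b : ℂ)
    (hG : G θ (a :: b :: q :: g :: (I ++ J))) :
    sk θ (b / a) * (gasF θ χ τ q g).EO I J b a =
      sn θ 3 (a / b) * (sn θ 2 1 * (gasF θ χ τ q g).EO I J a b +
        sn θ 0 (b / a) * (gasF θ χ τ q g).OE I J a b) := by
  obtain ⟨h0, h1⟩ := hG
  simp only [List.map_cons, List.pairwise_cons, List.mem_cons] at h0 h1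
  have ha : a ≠ 0 := fun h => h0 (a ^ 2) (Or.inl rfl) (by rw [h]; norm_num)
  have hb : b ≠ 0 := fun h => h0 (b ^ 2) (Or.inr (Or.inl rfl)) (by rw [h]; norm_num)
  have hI : ∀ c ∈ I, c ^ 2 ∈ (I ++ J).map (· ^ 2) := fun c hc =>
    List.mem_map.2 ⟨c, List.mem_append_left _ hc, rfl⟩
  have hc0 : ∀ c ∈ I, c ≠ 0 := fun c hc h =>
    h0 (c ^ 2) (Or.inr (Or.inr (Or.inr (Or.inr (hI c hc))))) (by rw [h]; norm_num)
  refine ex2 hθ χ ha hb ?_ (fun c hc => ⟨hc0 c hc, ?_, ?_, ?_, ?_⟩) _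
  · have := sn_ne hθ ha hb (h1.1 _ (Or.inl rfl)) 0
    rw [← inv_div a b, sn0_inv]
    exact neg_ne_zero.2 this
  · exact sn_ne hθ ha (hc0 c hc) (h1.1 _ (Or.inr (Or.inr (Or.inr (hI c hc))))) 0
  · exact sn_ne hθ ha (hc0 c hc) (h1.1 _ (Or.inr (Or.inr (Or.inr (hI c hc))))) 1
  · exact sn_ne hθ hb (hc0 c hc) (h1.2.1 _ (Or.inr (Or.inr (hI c hc)))) 0
  · exact sn_ne hθ hb (hc0 c hc) (h1.2.1 _ (Or.inr (Or.inr (hI c hc)))) 1

end Ex

end NUTP.Gas

end
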