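import Pool.Agent.NUTP.Gas.Base
import Pool.Agent.NUTP.Gas.Exch

/-!
# The two special values of `EO` in the empty line: `θ ^ 3 * b` (zero) and `θ ^ 2 * b` (fusion)
-/

set_option autoImplicit false

noncomputable section

namespace NUTP.Gas

variable {θ χ : ℂ}

lemma sn_eight_one (hθ : θ ^ 8 = -1) : sn θ 8 1 = 0 := by
  rw [show (8 : ℕ) = 0 + 8 from rfl, sn_add8 hθ, sn_zero_one, neg_zero]

lemma sn_seven_one (hθ : θ ^ 8 = -1) : sn θ 7 1 = sn θ 1 1 := by
  rw [← sn_inv1 hθ, inv_one]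

/-- zero of `EO`, any lists -/
lemma gas_EO_zero (hθ : θ ^ 8 = -1) {b : ℂ} (hb : b ≠ 0) (X Y : List (ℂ × Ty)) :
    gas θ χ ((θ ^ 3 * b, .re) :: (b, .ro) :: X) Y = 0 := by
  have h : sn θ 5 (θ ^ 3) = 0 := by
    rw [← mul_one (θ ^ 3), sn_pow]; exact sn_eight_one hθ
  unfold gas
  simp only [sm_re, sm_ro, tm_cons2, mul_div_cancel_right₀ _ hb, own, cls, ee, h, zero_mul, sm_zero, add_zero,
    mul_zero]

/-- the factor of a right object of the other world -/
def rho (θ b : ℂ) (c : ℂ × K) : ℂ := if cls c.2 = .l then 1 else cs (θ * b / c.1)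

lemma own_fuse (hθ : θ ^ 8 = -1) {v : ℂ} (h2 : sn θ 2 v ≠ 0) (h3 : sn θ 3 v ≠ 0) {k : K}
    (hk : k = .p ∨ k = .z ∨ k = .n) :
    own θ .rE k (θ ^ 2 * v) * own θ .ro k v = cs (θ ^ 1 * v) * own θ .ro k (θ ^ 1 * v) := by
  rw [← sn4 hθ]
  rcases hk with rfl | rfl | rfl
  · simp only [own, cls, ef, sn_pow]
    field_simp
  · simp only [own, cls, ef, sn_pow]
    field_simp
  · simp only [own, cls, ef, sn_pow]

lemma crs_fuse (hθ : θ ^ 8 = -1) (v : ℂ) (k : K) :
    crs θ .rE k (θ ^ 2 * v) * crs θ .ro k v = (if cls k = .l then 1 else cs (θ ^ 1 * v)) * crs θ .ro k (θ ^ 1 * v) := by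
  rw [← sn4 hθ]
  cases k <;> simp only [crs, cls, xf, xx, isM, sn_inv2 hθ, sn_inv3 hθ, sn_inv4 hθ, sn_inv5 hθ, sn_pow, if_true,
    if_false, reduceCtorEq] <;> try ring

/-- fusion of the two ends, any world `g` -/
lemma gas_EO_fuse (hθ : θ ^ 8 = -1) {b : ℂ} (hb : b ≠ 0) {I : List ℂ}
    (hI : ∀ c ∈ I, sn θ 2 (b / c) ≠ 0 ∧ sn θ 3 (b / c) ≠ 0) (Y : List (ℂ × Ty)) {P : ℂ}
    (hY : ∀ f, Cmp Y f → (f.map (rho θ b)).prod = P) :
    gas θ χ ((θ ^ 2 * b, .re) :: (b, .ro) :: fl I) Y =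
      sn θ 1 1 * (P * (I.map fun c => cs (θ * b / c)).prod) * gas θ χ ((θ * b, .ro) :: fl I) Y := by
  have h7 : sn θ 5 (θ ^ 2) = sn θ 1 1 := by
    rw [← mul_one (θ ^ 2), sn_pow]; exact sn_seven_one hθ
  have h8 : sn θ 6 (θ ^ 2) = 0 := by
    rw [← mul_one (θ ^ 2), sn_pow]; exact sn_eight_one hθ
  unfold gas
  simp only [sm_re, sm_ro]
  have e1 : sm (fl I) (fun e => sm Y fun f => tm θ χ 0 0 0 (-1) ((θ ^ 2 * b, .re) :: (b, .ro) :: e) f) = 0 := by
    simp only [tm_cons2, mul_div_cancel_right₀ _ hb, own, cls, ee, h8, mul_zero, zero_mul, sm_zero]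
  rw [e1, zero_add]
  have e2 : sm (fl I) (fun e => sm Y fun f => tm θ χ 0 0 0 (-1) ((θ ^ 2 * b, .rE) :: (b, .ro) :: e) f) =
      sm (fl I) (fun e => sm Y fun f => (sn θ 1 1 * (P * (I.map fun c => cs (θ * b / c)).prod)) *
        tm θ χ 0 0 0 (-1) ((θ * b, .ro) :: e) f) := by
    refine sm_congr fun e he => sm_congr fun f hf => ?_
    rw [tm_cons2, tm_cons_left, mul_div_cancel_right₀ _ hb]
    have ho : own θ .rE .ro (θ ^ 2) = sn θ 1 1 := by simp only [own, cls, ee, h7]
    rw [ho]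
    have n1 : (0 : ℤ) + mk .rE + mk .ro = 0 + mk .ro := rfl
    have n2 : (0 : ℤ) + ch .rE + ch .ro = 0 + ch .ro := rfl
    have n3 : (-1 : ℤ) + nl .rE + nl .ro = -1 + nl .ro := rfl
    rw [n1, n2, n3]
    by_cases h0 : tt mk e = 0
    · have hU := (Ex.full he).2.1 h0
      have hfst : e.map Prod.fst = I := by
        rw [he.fst, fl, List.map_map]
        exact List.map_id _
      have a1 : ow1 θ (θ ^ 2 * b) .rE e * ow1 θ b .ro e =
          (e.map fun c => cs (θ * b / c.1)).prod * ow1 θ (θ * b) .ro e := by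
        refine ow1_mul _ fun c hc => ?_
        have hcI : c.1 ∈ I := by rw [← hfst]; exact List.mem_map_of_mem hc
        have := own_fuse hθ (hI _ hcI).1 (hI _ hcI).2 (hU c hc)
        rw [← mul_div_assoc, ← mul_div_assoc, pow_one] at this
        exact this
      have a2 : cr1 θ (θ ^ 2 * b) .rE f * cr1 θ b .ro f = (f.map (rho θ b)).prod * cr1 θ (θ * b) .ro f := by
        refine cr1_mul _ fun c hc => ?_
        have := crs_fuse hθ (b / c.1) c.2
        rw [← mul_div_assoc, ← mul_div_assoc, pow_one] at this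
        exact this
      have a3 : (e.map fun c => cs (θ * b / c.1)).prod = (I.map fun c => cs (θ * b / c)).prod := by
        rw [← hfst, List.map_map]
        rfl
      rw [a1, a2, a3, hY f hf]
      simp only [w1]
      ring
    · have hz : tm θ χ (0 + mk .ro) 0 (0 + ch .ro) (-1 + nl .ro) e f = 0 := by
        unfold tm
        rw [if_neg]
        intro h
        apply h0
        have := h.1
        simpa [mk] using this
      rw [hz]
      ring
  rw [e2]
  simp only [sm_mul_left]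
  ring

lemma rho_En {b q g : ℂ} (τ : Bool) (J : List ℂ) {f : Cf} (hf : Cmp (En τ q g ++ fl J) f) :
    (f.map (rho θ b)).prod = cs (θ * b / q) * (J.map fun c => cs (θ * b / c)).prod := by
  have hJ : ∀ (J : List ℂ) (f : Cf), Cmp (fl J) f → (f.map (rho θ b)).prod = (J.map fun c => cs (θ * b / c)).prod := by
    intro J
    induction J with
    | nil => intro f hf; cases hf; rfl
    | cons y J ih =>
      intro f hf
      cases hf with
      | @cons _ c _ f hc hf =>
        rw [List.map_cons, List.prod_cons, List.map_cons, List.prod_cons, ih f hf]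
        congr 1
        obtain ⟨y', k⟩ := c
        obtain ⟨h1, h2⟩ := hc
        simp only at h1
        subst h1
        simp only [Ty.st, List.mem_cons, List.not_mem_nil, or_false] at h2
        rcases h2 with rfl | rfl | rfl | rfl | rfl <;> simp [rho, cls]
  unfold Cmp at hf
  cases τ
  · simp only [En, Bool.false_eq_true, if_false, List.cons_append, List.nil_append] at hf
    cases hf with
    | @cons _ c _ f hc hf =>
      cases hf with
      | @cons _ d _ f hd hf =>
        rw [List.map_cons, List.prod_cons, List.map_cons, List.prod_cons, hJ J f hf]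
        obtain ⟨q', k⟩ := c
        obtain ⟨g', l⟩ := d
        obtain ⟨h1, h2⟩ := hc
        obtain ⟨h3, h4⟩ := hd
        simp only at h1 h3
        subst h1 h3
        simp only [Ty.st, List.mem_cons, List.not_mem_nil, or_false] at h2 h4
        subst h4
        rcases h2 with rfl | rfl <;> simp [rho, cls]
  · simp only [En, if_true, List.cons_append, List.nil_append] at hf
    cases hf with
    | @cons _ c _ f hc hf =>
      cases hf with
      | @cons _ d _ f hd hf =>
        rw [List.map_cons, List.prod_cons, List.map_cons, List.prod_cons, hJ J f hf]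
        obtain ⟨q', k⟩ := c
        obtain ⟨g', l⟩ := d
        obtain ⟨h1, h2⟩ := hc
        obtain ⟨h3, h4⟩ := hd
        simp only at h1 h3
        subst h1 h3
        simp only [Ty.st, List.mem_cons, List.not_mem_nil, or_false] at h2 h4
        subst h2
        rcases h4 with rfl | rfl <;> simp [rho, cls]

/-- zero of `EO` -/
theorem gasF_EO_zero (hθ : θ ^ 8 = -1) (τ : Bool) (q g : ℂ) (I J : List ℂ) {b : ℂ} (hb : b ≠ 0) :
    (gasF θ χ τ q g).EO I J (θ ^ 3 * b) b = 0 :=
  gas_EO_zero hθ hb _ _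

/-- fusion of the two ends of `EO` -/
theorem gasF_EO_fuse (hθ : θ ^ 8 = -1) (τ : Bool) (q g : ℂ) (I J : List ℂ) {b : ℂ}
    (hG : G θ (b :: q :: g :: (I ++ J))) :
    (gasF θ χ τ q g).EO I J (θ ^ 2 * b) b =
      sn θ 1 1 * ((q :: (I ++ J)).map fun c => cs (θ * b / c)).prod * (gasF θ χ τ q g).R I J (θ * b) := by
  obtain ⟨h0, h1⟩ := hG
  simp only [List.map_cons, List.pairwise_cons, List.mem_cons] at h0 h1
  have hb : b ≠ 0 := fun h => h0 (b ^ 2) (Or.inl rfl) (by rw [h]; norm_num)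
  have hI : ∀ c ∈ I, c ^ 2 ∈ (I ++ J).map (· ^ 2) := fun c hc =>
    List.mem_map.2 ⟨c, List.mem_append_left _ hc, rfl⟩
  have hc0 : ∀ c ∈ I, c ≠ 0 := fun c hc h =>
    h0 (c ^ 2) (Or.inr (Or.inr (Or.inr (hI c hc)))) (by rw [h]; norm_num)
  refine (gas_EO_fuse hθ hb (fun c hc => ⟨?_, ?_⟩) _ (fun f hf => rho_En τ J hf)).trans ?_
  · exact Ex.sn_ne hθ hb (hc0 c hc) (h1.1 _ (Or.inr (Or.inr (hI c hc)))) 2
  · exact Ex.sn_ne hθ hb (hc0 c hc) (h1.1 _ (Or.inr (Or.inr (hI c hc)))) 3
  · simp only [gasF, List.map_cons, List.prod_cons, List.map_append, List.prod_append]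
    ring

end NUTP.Gas

end
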