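import Pool.Agent.NUTP.Gas.Tab

/-!
# The gas with one empty line `r` on the right of world `f`: `gas_re`

The sum over the position of the mark of world `f` and over the two states of the empty line is the current
`NUTG.curc` of the objects `obs e f`.
-/

set_option autoImplicit false

open Polynomial

noncomputable section

namespace NUTP.Gas

open NUTG

variable {θ χ : ℂ}

/-- the types of world `g` -/
def Sg (Y : List (ℂ × Ty)) : Prop :=
  ∀ t ∈ Y, t.2 = .F ∨ t.2 = .ro ∨ t.2 = .re ∨ t.2 = .lo ∨ t.2 = .le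

lemma Sg.cmp {Y : List (ℂ × Ty)} (hY : Sg Y) {f : Cf} (hf : Cmp Y f) {c : ℂ × K} (hc : c ∈ f) :
    sg c.2 := by
  obtain ⟨t, ht, _, h⟩ := hf.mem hc
  unfold sg
  rcases hY t ht with h' | h' | h' | h' | h' <;> rw [h'] at h <;>
    simp only [Ty.st, List.mem_cons, List.not_mem_nil, or_false] at h <;> tauto

lemma tm_zero {i j q m : ℤ} {e f : Cf} (h : i + tt mk e ≠ 0) : tm θ χ i j q m e f = 0 :=
  if_neg fun h' => h h'.1

lemma ow1_re (hθ : θ ^ 8 = -1) {e : Cf} (he : ∀ c ∈ e, ufe c.2) (r : ℂ) :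
    ow1 θ r .re e = ((ob kf e).map fun o => vf θ o.1 o.2 r).prod := by
  rw [prod_ob kf e fun κ c => vf θ κ c r]
  exact congrArg List.prod (List.map_congr_left fun c hc => own_re hθ (he c hc) r c.1)

lemma ow1_rE (hθ : θ ^ 8 = -1) {e : Cf} (he : ∀ c ∈ e, ufe c.2) (r : ℂ) :
    ow1 θ r .rE e = ((ob kf e).map fun o => nf θ o.1 o.2 r / df θ o.1 o.2 r).prod := by
  rw [prod_ob kf e fun κ c => nf θ κ c r / df θ κ c r]
  exact congrArg List.prod (List.map_congr_left fun c hc => own_rE hθ (he c hc) r c.1)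

lemma cr1_re (hθ : θ ^ 8 = -1) {f : Cf} (hf : ∀ c ∈ f, sg c.2) (r : ℂ) :
    cr1 θ r .re f = ((ob kg f).map fun o => vf θ o.1 o.2 r).prod := by
  rw [prod_ob kg f fun κ c => vf θ κ c r]
  exact congrArg List.prod (List.map_congr_left fun c hc => crs_re hθ (hf c hc) r c.1)

lemma cr1_rE (hθ : θ ^ 8 = -1) {f : Cf} (hf : ∀ c ∈ f, sg c.2) (r : ℂ) :
    cr1 θ r .rE f = ((ob kg f).map fun o => nf θ o.1 o.2 r / df θ o.1 o.2 r).prod := by
  rw [prod_ob kg f fun κ c => nf θ κ c r / df θ κ c r]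
  exact congrArg List.prod (List.map_congr_left fun c hc => crs_rE hθ (hf c hc) r c.1)

lemma ow1_mark (hθ : θ ^ 8 = -1) {x : ℂ} {k : K} (hk : k = .p ∨ k = .z) {e : Cf}
    (he : ∀ c ∈ e, ufe c.2) (hn : ∀ c ∈ e, Nz θ (x / c.1)) :
    ow1 θ x (mark k) e = ow1 θ x k e *
      ((ob kf e).map fun o => NUTG.ff θ o.1 o.2 (wk θ (x, k))).prod := by
  rw [prod_ob kf e fun κ c => NUTG.ff θ κ c (wk θ (x, k))]
  unfold ow1
  rw [← List.prod_map_mul]
  exact congrArg List.prod (List.map_congr_left fun c hc => own_mark hθ hk (he c hc) (hn c hc))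

lemma cr1_mark (hθ : θ ^ 8 = -1) {x : ℂ} {k : K} (hk : k = .p ∨ k = .z) {f : Cf}
    (hf : ∀ c ∈ f, sg c.2) (hn : ∀ c ∈ f, Nz θ (x / c.1)) :
    cr1 θ x (mark k) f = cr1 θ x k f *
      ((ob kg f).map fun o => NUTG.ff θ o.1 o.2 (wk θ (x, k))).prod := by
  rw [prod_ob kg f fun κ c => NUTG.ff θ κ c (wk θ (x, k))]
  unfold cr1
  rw [← List.prod_map_mul]
  exact congrArg List.prod (List.map_congr_left fun c hc =>
    crs_mark hθ (by tauto) (hf c hc) (hn c hc))

lemma nz_of {a b : ℂ} (hθ : θ ^ 8 = -1) (ha : a ≠ 0) (hb : b ≠ 0) (h : Sp θ a b) :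
    Nz θ (a / b) := fun k => h.sn_ne hθ ha hb k

/-- one marked line -/
lemma mark_term (hθ : θ ^ 8 = -1) (i j q m : ℤ) {x : ℂ} {k k' : K} {e f : Cf} (hk : mkd k = some k')
    (he : ∀ c ∈ e, ufe c.2) (hf : ∀ c ∈ f, sg c.2) (hn : ∀ c ∈ e, Nz θ (x / c.1))
    (hn' : ∀ c ∈ f, Nz θ (x / c.1)) (r : ℂ) :
    tm θ χ i j q m ((r, .re) :: (x, k') :: e) f = tm θ χ i j q m ((x, k) :: e) f *
      -((kf k).elim 0 fun κ => me θ κ x r / df θ κ x r *
        ((obs e f).map fun o => vf θ o.1 o.2 r * NUTG.ff θ o.1 o.2 (wm θ κ x)).prod) := by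
  have hk1 : k = .p ∨ k = .z := by
    cases k <;> simp [mkd] at hk <;> tauto
  have hk2 : k' = mark k := by
    rcases hk1 with rfl | rfl <;> simp only [mkd, Option.some.injEq] at hk <;> rw [← hk] <;> rfl
  subst hk2
  have hu : ufe k := by unfold ufe; tauto
  have hm1 : hm k = true := by rcases hk1 with rfl | rfl <;> rfl
  have h1 := own_re_mark (θ := θ) hu hm1 r x
  have hw : ∀ κ, kf k = some κ → wk θ (x, k) = wm θ κ x := by
    intro κ h; simp [wk, h]
  obtain ⟨κ, hκ⟩ : ∃ κ, kf k = some κ := by rcases hk1 with rfl | rfl <;> exact ⟨_, rfl⟩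
  rw [tm_cons2, tm_cons_left, ow1_re hθ he, cr1_re hθ hf, ow1_mark hθ hk1 he hn,
    cr1_mark hθ hk1 hf hn', hw κ hκ]
  have e1 : tm θ χ (i + mk .re + mk (mark k)) j (q + ch .re + ch (mark k))
      (m + nl .re + nl (mark k)) e f = tm θ χ (i + mk k) j (q + ch k) (m + nl k) e f := by
    rcases hk1 with rfl | rfl <;> norm_num [mk, ch, nl, mark, add_assoc]
  rw [e1]
  rw [hκ] at h1 ⊢
  simp only [Option.elim] at h1 ⊢
  have e2 : ((obs e f).map fun o => vf θ o.1 o.2 r * NUTG.ff θ o.1 o.2 (wm θ κ x)).prod =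
      (((ob kf e).map fun o => vf θ o.1 o.2 r).prod * ((ob kg f).map fun o => vf θ o.1 o.2 r).prod) *
      (((ob kf e).map fun o => NUTG.ff θ o.1 o.2 (wm θ κ x)).prod *
        ((ob kg f).map fun o => NUTG.ff θ o.1 o.2 (wm θ κ x)).prod) := by
    unfold obs
    rw [List.map_append, List.prod_append, List.prod_map_mul, List.prod_map_mul]
    ring
  rw [e2]
  have e3 : w1 θ .re = 1 := rfl
  rw [e3]
  linear_combination (((ob kf e).map fun o => vf θ o.1 o.2 r).prod *
    ((ob kg f).map fun o => vf θ o.1 o.2 r).prod) *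
      (((ob kf e).map fun o => NUTG.ff θ o.1 o.2 (wm θ κ x)).prod *
        ((ob kg f).map fun o => NUTG.ff θ o.1 o.2 (wm θ κ x)).prod) *
      (ow1 θ x k e * cr1 θ x k f) * tm θ χ (i + mk k) j (q + ch k) (m + nl k) e f * h1

lemma me_kg {k : K} {κ : Kd} (h : kg k = some κ) (c t : ℂ) : me θ κ c t = 0 := by
  cases k <;> simp only [kg, Option.some.injEq, reduceCtorEq] at h <;> subst h <;> rfl

lemma me_kf {k : K} {κ : Kd} (h : kf k = some κ) (hk : mkd k = none) (h' : k ≠ .rb) (c t : ℂ) :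
    me θ κ c t = 0 := by
  cases k <;> simp only [kf, mkd, Option.some.injEq, reduceCtorEq, ne_eq, not_true_eq_false] at h hk h' <;>
    subst h <;> rfl

/-- the sum over the position of the mark -/
lemma key (hθ : θ ^ 8 = -1) (i j q m : ℤ) {e f : Cf} (hu : Un e) (hf : ∀ c ∈ f, sg c.2)
    (h0 : ∀ x ∈ (e ++ f).map Prod.fst, x ≠ 0) (hs : ((e ++ f).map Prod.fst).Pairwise (Sp θ))
    (r : ℂ) :
    ((marks e).map fun e' => tm θ χ i j q m ((r, .re) :: e') f).sum +
      tm θ χ i j q m ((r, .rE) :: e) f = tm θ χ i j q m e f * curc θ (me θ) (obs e f) r := by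
  have hue : ∀ c ∈ e, ufe c.2 := fun c hc => by
    have := hu c hc
    unfold ufe; tauto
  have h1 : tm θ χ i j q m ((r, .rE) :: e) f = tm θ χ i j q m e f *
      ((obs e f).map fun o => nf θ o.1 o.2 r / df θ o.1 o.2 r).prod := by
    rw [tm_cons_left, ow1_rE hθ hue, cr1_rE hθ hf]
    unfold obs
    rw [List.map_append, List.prod_append]
    have : w1 θ .rE = 1 := rfl
    rw [this]
    simp only [mk, ch, nl, add_zero]
    ring
  have h2 : ((marks e).map fun e' => tm θ χ i j q m ((r, .re) :: e') f).sum =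
      tm θ χ i j q m e f * -((foc e).map fun p => ((kf p.1.2).elim 0 fun κ =>
        me θ κ p.1.1 r / df θ κ p.1.1 r * ((obs p.2 f).map fun o =>
          vf θ o.1 o.2 r * NUTG.ff θ o.1 o.2 (wm θ κ p.1.1)).prod)).sum := by
    rw [marks_foc (Ψ := fun c e'' => tm θ χ i j q m ((r, .re) :: c :: e'') f) (fun A B c k' _ _ =>
      tm_perm_left hθ _ _ _ _ (List.Perm.cons _ List.perm_middle) f)]
    rw [mul_neg, ← neg_mul, ← List.sum_map_mul_left]
    congr 1
    refine List.map_congr_left fun p hp => ?_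
    have hperm := foc_perm_cons hp
    rcases hk : mkd p.1.2 with _ | k'
    · rw [Option.elim_none]
      rcases hκ : kf p.1.2 with _ | κ
      · simp
      · rw [Option.elim_some]
        have hrb : p.1.2 ≠ .rb := by
          intro h
          have := hu p.1 (foc_mem hp)
          rw [h] at this
          simp at this
        rw [me_kf hκ hk hrb]
        simp
    · rw [Option.elim_some]
      have hx : p.1.1 ≠ 0 := h0 _ (List.mem_map_of_mem (List.mem_append_left _ (foc_mem hp)))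
      have hpm : ((e ++ f).map Prod.fst).Perm ((p.1 :: (p.2 ++ f)).map Prod.fst) :=
        (hperm.append_right f).map _
      have hs' := (hpm.pairwise_iff (fun {_ _} h => Sp.symm hθ h)).1 hs
      rw [List.map_cons, List.pairwise_cons] at hs'
      rw [mark_term hθ i j q m (k := p.1.2) hk (fun c hc => hue c (foc_mem_rest hp hc)) hf
        (fun c hc => nz_of hθ hx (h0 _ (List.mem_map_of_mem
          (List.mem_append_left _ (foc_mem_rest hp hc))))
          (hs'.1 _ (List.mem_map_of_mem (List.mem_append_left _ hc))))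
        (fun c hc => nz_of hθ hx (h0 _ (List.mem_map_of_mem (List.mem_append_right _ hc)))
          (hs'.1 _ (List.mem_map_of_mem (List.mem_append_right _ hc)))) r]
      rw [tm_perm_left hθ i j q m hperm f]
      ring
  rw [h2, h1, ← mul_add]
  congr 1
  unfold curc
  rw [sub_eq_add_neg, add_comm]
  congr 2
  unfold obs
  rw [foc_append, List.map_append, List.sum_append, List.map_map, List.map_map]
  have h3 : ((foc (ob kg f)).map ((fun p => me θ p.1.1 p.1.2 r / df θ p.1.1 p.1.2 r *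
      (p.2.map fun o => vf θ o.1 o.2 r * NUTG.ff θ o.1 o.2 (wm θ p.1.1 p.1.2)).prod) ∘
      fun p => (p.1, ob kf e ++ p.2))).sum = 0 := by
    refine List.sum_eq_zero fun a ha => ?_
    obtain ⟨p, hp, rfl⟩ := List.mem_map.1 ha
    obtain ⟨c, _, hc, _⟩ := mem_ob.1 (foc_mem hp)
    simp only [Function.comp_apply]
    rw [me_kg hc]; ring
  rw [h3, add_zero]
  have h4 := foc_filterMap (fun c : ℂ × K => (kf c.2).map fun κ => (κ, c.1)) e
    (fun o L => me θ o.1 o.2 r / df θ o.1 o.2 r * ((L ++ ob kg f).map fun o' =>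
      vf θ o'.1 o'.2 r * NUTG.ff θ o'.1 o'.2 (wm θ o.1 o.2)).prod)
  refine Eq.trans ?_ h4.symm
  congr 1
  refine List.map_congr_left fun p _ => ?_
  rcases kf p.1.2 with _ | κ <;> rfl

/-- the unmarked configurations of world `f` -/
lemma sm_usm {X : List (ℂ × Ty)} (hX : Fr X) (Y : List (ℂ × Ty)) (j q m : ℤ) :
    sm X (fun e => sm Y fun f => tm θ χ 0 j q m e f) =
      usm X fun e => sm Y fun f => tm θ χ 0 j q m e f := by
  rw [← sm_mark0 hX]
  refine sm_congr' fun e => ?_
  by_cases h : tt mk e = 0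
  · rw [if_pos h]
  · rw [if_neg h]
    refine (sm_congr' fun f => tm_zero (by rwa [zero_add])).trans (sm_zero Y)

/-- the gas without empty line in world `f` -/
theorem gas_un {X : List (ℂ × Ty)} (hX : Fr X) (Y : List (ℂ × Ty)) :
    gas θ χ X Y = sn θ 1 1 * usm X fun e => sm Y fun f => tm θ χ 0 0 0 (-1) e f := by
  rw [gas, sm_usm hX]

/-- **the gas with one empty line on the right of world `f`** -/
theorem gas_re (hθ : θ ^ 8 = -1) {X Y : List (ℂ × Ty)} (hX : Fr X) (hY : Sg Y)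
    (h0 : ∀ t ∈ X ++ Y, t.1 ≠ 0) (hs : (X ++ Y).Pairwise fun s t => Sp θ s.1 t.1) (r : ℂ) :
    gas θ χ ((r, .re) :: X) Y = sn θ 1 1 * usm X fun e => sm Y fun f =>
      tm θ χ 0 0 0 (-1) e f * curc θ (me θ) (obs e f) r := by
  unfold gas
  congr 1
  rw [sm_re]
  have h1 : sm X (fun e => sm Y fun f => tm θ χ 0 0 0 (-1) ((r, .re) :: e) f) =
      usm X fun e => ((marks e).map fun e' => sm Y fun f =>
        tm θ χ 0 0 0 (-1) ((r, .re) :: e') f).sum := by
    rw [← sm_mark1 hX]
    refine sm_congr' fun e => ?_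
    by_cases h : tt mk e = 1
    · rw [if_pos h]
    · rw [if_neg h]
      refine (sm_congr' fun f => tm_zero ?_).trans (sm_zero Y)
      rw [tt_cons]
      intro h'
      apply h
      simp only [mk] at h'
      omega
  have h2 : sm X (fun e => sm Y fun f => tm θ χ 0 0 0 (-1) ((r, .rE) :: e) f) =
      usm X fun e => sm Y fun f => tm θ χ 0 0 0 (-1) ((r, .rE) :: e) f := by
    rw [← sm_mark0 hX]
    refine sm_congr' fun e => ?_
    by_cases h : tt mk e = 0
    · rw [if_pos h]
    · rw [if_neg h]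
      refine (sm_congr' fun f => tm_zero ?_).trans (sm_zero Y)
      rw [tt_cons]
      intro h'
      apply h
      simp only [mk] at h'
      omega
  rw [h1, h2, ← usm_add]
  refine usm_congr_on hX fun e he hu => ?_
  rw [← sm_lsum, ← sm_add]
  refine sm_congr fun f hf => ?_
  have hef : (e ++ f).map Prod.fst = (X ++ Y).map Prod.fst := by
    rw [List.map_append, List.map_append, he, hf.fst]
  refine key hθ 0 0 0 (-1) hu (fun c hc => hY.cmp hf hc) ?_ ?_ r
  · rw [hef]
    intro x hx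
    obtain ⟨t, ht, rfl⟩ := List.mem_map.1 hx
    exact h0 t ht
  · rw [hef, List.pairwise_map]
    exact hs

/-- generic lines are separated -/
lemma sp_of_G {L : List ℂ} (h : G θ L) : L.Pairwise (Sp θ) := by
  have := h.2
  rw [List.pairwise_map] at this
  exact this

end NUTP.Gas

end
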