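import Pool.Agent.NUTP.Gas.Base

/-!
# The gas without full lines
-/

set_option autoImplicit false

noncomputable section

namespace NUTP.Gas

variable {θ χ : ℂ}

lemma fl_nil : fl [] = [] := rfl

/-- `sn` without negative powers of `θ` -/
lemma sn_alt (hθ : θ ^ 8 = -1) {j k : ℕ} (h : j + k = 8) (u : ℂ) :
    sn θ k u = (θ ^ k * u + θ ^ j * u⁻¹) / (2 * θ ^ 4) := by
  have h0 := th0 hθ
  have e : θ ^ j = -(θ ^ k)⁻¹ := by
    rw [eq_neg_iff_add_eq_zero, ← mul_left_inj' (pow_ne_zero k h0), add_mul, ← pow_add, h, hθ,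
      inv_mul_cancel₀ (pow_ne_zero k h0)]
    ring
  unfold sn
  rw [e, mul_inv]
  ring

/-- exchange identity -/
lemma sn_three (hθ : θ ^ 8 = -1) (u v : ℂ) :
    sn θ 2 1 * sn θ 3 (u * v) - sn θ 6 u * sn θ 3 v = sn θ 0 u * sn θ 3 v⁻¹ := by
  rw [sn_alt hθ (j := 6) (k := 2) rfl, sn_alt hθ (j := 5) (k := 3) rfl,
    sn_alt hθ (j := 5) (k := 3) rfl v, sn_alt hθ (j := 2) (k := 6) rfl,
    sn_alt hθ (j := 8) (k := 0) rfl, sn_alt hθ (j := 5) (k := 3) rfl v⁻¹, mul_inv, inv_inv, inv_one]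
  have h0 := th0 hθ
  generalize u⁻¹ = U
  generalize v⁻¹ = V
  field_simp
  linear_combination (-(u * V) - θ ^ 2 * U * v) * hθ

theorem gasF_R0 (q g p : ℂ) : (gasF θ χ true q g).R [] [] p = sn θ 1 1 := by
  simp [gasF, gas, En, fl_nil, sm_ro, sm_le, sm_nil, tm, tt, mk, ch, nl, ow, ow1, cr, cr1, own, crs,
    cls, w1, xx, isM]

theorem gasF_L0 (q g p : ℂ) : (gasF θ χ true q g).L [] [] p = 0 := by
  simp [gasF, gas, En, fl_nil, sm_ro, sm_lo, sm_le, sm_nil, tm, tt, mk, ch, nl]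

theorem gasF_RE0 (hθ : θ ^ 8 = -1) (q g p h : ℂ) :
    (gasF θ χ true q g).RE [] [] p h = sn θ 1 1 * cs (h / g) := by
  simp [gasF, gas, En, fl_nil, sm_ro, sm_le, sm_nil, tm, tt, mk, ch, nl, ow, ow1, cr, cr1, own, crs,
    cls, w1, xx, isM]
  left
  rw [sn4 hθ]; unfold cs; rw [inv_div, add_comm, inv_div]

theorem gasF_ER0 (q g r h : ℂ) : (gasF θ χ true q g).ER [] [] r h = 0 := by
  simp [gasF, gas, En, fl_nil, sm_ro, sm_lo, sm_re, sm_le, sm_nil, tm, tt, mk, ch, nl]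

theorem gasF_OE'0 (q g r h : ℂ) : (gasF θ χ true q g).OE' [] [] r h = 0 := by
  simp [gasF, gas, En, fl_nil, sm_ro, sm_lb, sm_re, sm_le, sm_nil, tm, tt, mk, ch, nl]

theorem gasF_EO'0 (q g r h : ℂ) : (gasF θ χ true q g).EO' [] [] r h = 0 := by
  simp [gasF, gas, En, fl_nil, sm_ro, sm_lo, sm_re, sm_le, sm_nil, tm, tt, mk, ch, nl]

theorem gasF_EO0 (hθ : θ ^ 8 = -1) (q g a b : ℂ) :
    (gasF θ χ true q g).EO [] [] a b = sn θ 1 1 * (sn θ 3 (b / a) * sn θ 3 (a / q)) := by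
  simp [gasF, gas, En, fl_nil, sm_ro, sm_re, sm_le, sm_nil, tm, tt, mk, ch, nl, ow, ow1, cr, cr1,
    own, crs, cls, w1, xx, isM, ee]
  left; left
  rw [← inv_div b a, sn_inv5 hθ]

theorem gasF_OE0 (hθ : θ ^ 8 = -1) {q g a b : ℂ} (hq : q ≠ 0) (hb : b ≠ 0)
    (hab : sn θ 0 (a / b) ≠ 0) :
    (gasF θ χ true q g).OE [] [] a b = sn θ 1 1 * (sn θ 3 (b / a) * sn θ 3 (q / b)) := by
  simp [gasF, gas, En, fl_nil, sm_ro, sm_rb, sm_re, sm_le, sm_nil, tm, tt, mk, ch, nl, ow, ow1, cr,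
    cr1, own, crs, cls, w1, xx, isM, ee]
  left
  have h := sn_three hθ (a / b) (b / q)
  rw [show a / b * (b / q) = a / q by field_simp, inv_div] at h
  rw [← inv_div a b, sn_inv3 hθ]
  field_simp
  linear_combination sn θ 5 (a / b) * h

end NUTP.Gas

end
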