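import Pool.Agent.NUTP.Gas.Base

/-!
# The nodes `θ ^ 13 x` (lowest line) of the gas with ended lines
-/

set_option autoImplicit false
set_option linter.unusedSimpArgs false

noncomputable section

namespace NUTP.Gas

namespace Nd

variable {θ u : ℂ}

/-! ### the sines -/

theorem ne (hθ : θ ^ 8 = -1) : θ ≠ 0 := by
  rintro rfl; norm_num at hθ

theorem sn_sh (k m : ℕ) (u : ℂ) : sn θ k (θ ^ m * u) = sn θ (k + m) u := by
  unfold sn; rw [← mul_assoc, ← pow_add]

theorem sn_8 (hθ : θ ^ 8 = -1) (k : ℕ) (u : ℂ) : sn θ (k + 8) u = -sn θ k u := by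
  unfold sn
  rw [pow_add, hθ]
  rw [show θ ^ k * -1 * u = -(θ ^ k * u) by ring, inv_neg]
  ring

theorem sn_iv (hθ : θ ^ 8 = -1) {k j : ℕ} (h : k + j = 8) (u : ℂ) : sn θ k u⁻¹ = sn θ j u := by
  have h0 := ne hθ
  have h1 : θ ^ k * θ ^ j = -1 := by rw [← pow_add, h, hθ]
  have hk : θ ^ k ≠ 0 := pow_ne_zero _ h0
  have hj : θ ^ j ≠ 0 := pow_ne_zero _ h0
  have e1 : (θ ^ k)⁻¹ = -θ ^ j := by
    field_simp
    linear_combination h1
  have e2 : (θ ^ j)⁻¹ = -θ ^ k := by
    field_simp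
    linear_combination h1
  unfold sn
  rw [mul_inv, inv_inv, mul_inv, e1, e2]
  ring

section
variable (hθ : θ ^ 8 = -1)
include hθ

theorem a0 (u : ℂ) : sn θ 0 (θ ^ 13 * u) = -sn θ 5 u := by rw [sn_sh, sn_8 hθ 5]
theorem a1 (u : ℂ) : sn θ 1 (θ ^ 13 * u) = -sn θ 6 u := by rw [sn_sh, sn_8 hθ 6]
theorem a2 (u : ℂ) : sn θ 2 (θ ^ 13 * u) = -sn θ 7 u := by rw [sn_sh, sn_8 hθ 7]
theorem a3 (u : ℂ) : sn θ 3 (θ ^ 13 * u) = sn θ 0 u := by rw [sn_sh, sn_8 hθ 8, sn_8 hθ 0, neg_neg]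
theorem a4 (u : ℂ) : sn θ 4 (θ ^ 13 * u) = sn θ 1 u := by rw [sn_sh, sn_8 hθ 9, sn_8 hθ 1, neg_neg]
theorem a5 (u : ℂ) : sn θ 5 (θ ^ 13 * u) = sn θ 2 u := by rw [sn_sh, sn_8 hθ 10, sn_8 hθ 2, neg_neg]
theorem a6 (u : ℂ) : sn θ 6 (θ ^ 13 * u) = sn θ 3 u := by rw [sn_sh, sn_8 hθ 11, sn_8 hθ 3, neg_neg]
theorem a7 (u : ℂ) : sn θ 7 (θ ^ 13 * u) = sn θ 4 u := by rw [sn_sh, sn_8 hθ 12, sn_8 hθ 4, neg_neg]

theorem i0 (u : ℂ) : sn θ 0 u⁻¹ = -sn θ 0 u := by rw [sn_iv hθ (j := 8) rfl, sn_8 hθ 0]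
theorem i1 (u : ℂ) : sn θ 1 u⁻¹ = sn θ 7 u := sn_iv hθ rfl u
theorem i2 (u : ℂ) : sn θ 2 u⁻¹ = sn θ 6 u := sn_iv hθ rfl u
theorem i3 (u : ℂ) : sn θ 3 u⁻¹ = sn θ 5 u := sn_iv hθ rfl u
theorem i4 (u : ℂ) : sn θ 4 u⁻¹ = sn θ 4 u := sn_iv hθ rfl u
theorem i5 (u : ℂ) : sn θ 5 u⁻¹ = sn θ 3 u := sn_iv hθ rfl u
theorem i6 (u : ℂ) : sn θ 6 u⁻¹ = sn θ 2 u := sn_iv hθ rfl u
theorem i7 (u : ℂ) : sn θ 7 u⁻¹ = sn θ 1 u := sn_iv hθ rfl u

end

theorem o0 : sn θ 0 1 = 0 := by simp [sn]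

/-! ### the couplings -/

/-- the factor of the node -/
def kap (θ : ℂ) (c : Cl) (u : ℂ) : ℂ :=
  match c with
  | .l => 1
  | _ => sk θ u

/-- generic quotient -/
structure Ge (θ u : ℂ) : Prop where
  u0 : u ≠ 0
  h0 : sn θ 0 u ≠ 0
  h1 : sn θ 1 u ≠ 0
  h2 : sn θ 2 u ≠ 0
  h3 : sn θ 3 u ≠ 0
  h4 : sn θ 4 u ≠ 0
  h5 : sn θ 5 u ≠ 0
  h6 : sn θ 6 u ≠ 0
  h7 : sn θ 7 u ≠ 0

/-- the pairs of states which survive -/
def Pr (kr kx k' : K) : Prop :=
  (kr = .ro ∧ kx = .n ∧ k' = .lo) ∨ (kr = .rb ∧ kx = .n ∧ k' = .lo) ∨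
    (kr = .re ∧ kx = .n ∧ k' = .le) ∨ (kr = .re ∧ kx = .b ∧ k' = .lE)

/-- the states of the other objects of the world of the node -/
def Oth (kr kx l : K) : Prop :=
  l = .p ∨ l = .z ∨ l = .n ∨
    (kr = .rb ∧ (l = .a ∨ l = .b ∨ l = .re ∨ l = .rE)) ∨
    (kr = .re ∧ (l = .ro ∨ l = .lo ∨ (kx = .n ∧ (l = .a ∨ l = .b))))

theorem own_node (hθ : θ ^ 8 = -1) (g : Ge θ u) {kr kx k' l : K} (hp : Pr kr kx k')
    (hl : Oth kr kx l) :
    own θ kr l (θ ^ 13 * u) * own θ kx l u = kap θ (cls l) u * own θ k' l u := by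
  obtain ⟨u0, h0, h1, h2, h3, h4, h5, h6, h7⟩ := g
  have j0 := a0 hθ u
  have j1 := a1 hθ u
  have j2 := a2 hθ u
  have j3 := a3 hθ u
  have j5 := a5 hθ u
  have j6 := a6 hθ u
  have i0 := i0 hθ u
  have i1 := i1 hθ u
  have i2 := i2 hθ u
  have i3 := i3 hθ u
  have i5 := i5 hθ u
  have i6 := i6 hθ u
  rcases hp with ⟨rfl, rfl, rfl⟩ | ⟨rfl, rfl, rfl⟩ | ⟨rfl, rfl, rfl⟩ | ⟨rfl, rfl, rfl⟩ <;>
  cases l <;>
  first
  | (exfalso; revert hl; simp [Oth]; done)
  | skip
  all_goals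
    simp only [own, cls, mir, ff, ef, ee, kap, sk, j0, j1, j2, j3, j5, j6, i0, i1, i2, i3, i5, i6, one_mul, mul_one]
  all_goals
    try field_simp

theorem crs_node (hθ : θ ^ 8 = -1) (g : Ge θ u) {kr kx k' : K} (hp : Pr kr kx k') (l : K) :
    crs θ kr l (θ ^ 13 * u) * crs θ kx l u = kap θ (cls l) u * crs θ k' l u := by
  obtain ⟨u0, h0, h1, h2, h3, h4, h5, h6, h7⟩ := g
  have j0 := a0 hθ u
  have j1 := a1 hθ u
  have j2 := a2 hθ u
  have j3 := a3 hθ u
  have j4 := a4 hθ u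
  have j5 := a5 hθ u
  have j6 := a6 hθ u
  have t2 := i2 hθ (θ ^ 13 * u)
  have t3 := i3 hθ (θ ^ 13 * u)
  have t4 := i4 hθ (θ ^ 13 * u)
  have t5 := i5 hθ (θ ^ 13 * u)
  have i0 := i0 hθ u
  have i1 := i1 hθ u
  have i2 := i2 hθ u
  have i3 := i3 hθ u
  have i4 := i4 hθ u
  have i5 := i5 hθ u
  have i6 := i6 hθ u
  rw [j6] at t2
  rw [j5] at t3
  rw [j4] at t4
  rw [j3] at t5
  rcases hp with ⟨rfl, rfl, rfl⟩ | ⟨rfl, rfl, rfl⟩ | ⟨rfl, rfl, rfl⟩ | ⟨rfl, rfl, rfl⟩ <;>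
  cases l
  all_goals
    simp only [crs, cls, mir, gg, xf, xx, isM, kap, sk, j0, j1, j2, j3, j4, j5, j6, i0, i1, i2, i3, i4, i5, i6,
      t2, t3, t4, t5, one_mul, mul_one]
  all_goals
    try ring

/-! ### configurations -/

/-- `e` is a configuration of the objects `X` -/
def Cfo (X : List (ℂ × Ty)) (e : Cf) : Prop := List.Forall₂ (fun t c => c.1 = t.1 ∧ c.2 ∈ t.2.st) X e

theorem sm_cg {M : Type*} [AddCommMonoid M] {X : List (ℂ × Ty)} {φ ψ : Cf → M}
    (h : ∀ e, Cfo X e → φ e = ψ e) : sm X φ = sm X ψ := by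
  induction X generalizing φ ψ with
  | nil => exact h [] List.Forall₂.nil
  | cons t X ih =>
    simp only [sm]
    congr 1
    refine List.map_congr_left fun k hk => ih fun e he => h _ ?_
    exact List.Forall₂.cons ⟨rfl, hk⟩ he

theorem sm_ml (X : List (ℂ × Ty)) (c : ℂ) (φ : Cf → ℂ) : sm X (fun e => c * φ e) = c * sm X φ := by
  induction X generalizing φ with
  | nil => rfl
  | cons t X ih =>
    simp only [sm, ih]
    rw [List.sum_map_mul_left]

theorem sm_0 (X : List (ℂ × Ty)) : sm X (fun _ => (0 : ℂ)) = 0 := by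
  have := sm_ml X 0 (fun _ => (0 : ℂ))
  simpa using this

/-- class of a type -/
def tc : Ty → Cl
  | .F => .f | .ro => .r | .rb => .r | .re => .r | .lo => .l | .lb => .l | .le => .l

theorem cls_st {t : Ty} {k : K} (h : k ∈ t.st) : cls k = tc t := by
  cases t <;> cases k <;> simp_all [Ty.st, cls, tc]

/-- the factor of the node for a list of objects -/
def kp (θ x : ℂ) (X : List (ℂ × Ty)) : ℂ := (X.map fun t => kap θ (tc t.2) (x / t.1)).prod

theorem kp_cf {X : List (ℂ × Ty)} {e : Cf} (h : Cfo X e) (x : ℂ) :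
    (e.map fun c => kap θ (cls c.2) (x / c.1)).prod = kp θ x X := by
  induction h with
  | nil => rfl
  | @cons t c X e h1 _ ih =>
    simp only [kp, List.map_cons, List.prod_cons] at *
    rw [ih, h1.1, cls_st h1.2]

/-- all objects are generic with respect to `x` -/
def GeL (θ x : ℂ) (X : List (ℂ × Ty)) : Prop := ∀ t ∈ X, Ge θ (x / t.1)

theorem ow1_node (hθ : θ ^ 8 = -1) {x : ℂ} {X : List (ℂ × Ty)} {e : Cf} (h : Cfo X e) (g : GeL θ x X)
    {kr kx k' : K} (hp : Pr kr kx k') (hl : ∀ c ∈ e, Oth kr kx c.2) :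
    ow1 θ (θ ^ 13 * x) kr e * ow1 θ x kx e = kp θ x X * ow1 θ x k' e := by
  rw [← kp_cf (θ := θ) h x]
  unfold ow1
  rw [← List.prod_map_mul, ← List.prod_map_mul]
  congr 1
  refine List.map_congr_left fun c hc => ?_
  have hg : Ge θ (x / c.1) := by
    clear hl
    induction h with
    | nil => simp at hc
    | @cons t c' X e h1 _ ih =>
      rcases List.mem_cons.1 hc with rfl | h2
      · rw [h1.1]; exact g t (by simp)
      · exact ih (fun t ht => g t (by simp [ht])) h2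
  rw [mul_div_assoc]
  exact own_node hθ hg hp (hl c hc)

theorem cr1_node (hθ : θ ^ 8 = -1) {x : ℂ} {X : List (ℂ × Ty)} {e : Cf} (h : Cfo X e) (g : GeL θ x X)
    {kr kx k' : K} (hp : Pr kr kx k') :
    cr1 θ (θ ^ 13 * x) kr e * cr1 θ x kx e = kp θ x X * cr1 θ x k' e := by
  rw [← kp_cf (θ := θ) h x]
  unfold cr1
  rw [← List.prod_map_mul, ← List.prod_map_mul]
  congr 1
  refine List.map_congr_left fun c hc => ?_
  have hg : Ge θ (x / c.1) := by
    induction h with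
    | nil => simp at hc
    | @cons t c' X e h1 _ ih =>
      rcases List.mem_cons.1 hc with rfl | h2
      · rw [h1.1]; exact g t (by simp)
      · exact ih (fun t ht => g t (by simp [ht])) h2
  rw [mul_div_assoc]
  exact crs_node hθ hg hp c.2

theorem cfo_mem {X : List (ℂ × Ty)} {e : Cf} (h : Cfo X e) {c : ℂ × K} (hc : c ∈ e) :
    ∃ t ∈ X, c.1 = t.1 ∧ c.2 ∈ t.2.st := by
  induction h with
  | nil => simp at hc
  | @cons t c' X e h1 _ ih =>
    rcases List.mem_cons.1 hc with rfl | h2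
    · exact ⟨t, by simp, h1⟩
    · obtain ⟨t', h3, h4⟩ := ih h2
      exact ⟨t', by simp [h3], h4⟩

/-- the couplings of the pair of states at the node -/
theorem pr_val (hθ : θ ^ 8 = -1) {kr kx k' : K} (hp : Pr kr kx k') :
    w1 θ kr * w1 θ kx * own θ kr kx (θ ^ 13) = w1 θ k' * sn θ 1 1 ∧ mk kr + mk kx = mk k' ∧
      ch kr + ch kx = ch k' := by
  have j1 := a1 hθ 1
  have j2 : sn θ 6 1 = sn θ 2 1 := by
    have := i2 hθ 1
    rw [inv_one] at this
    exact this.symm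
  rw [mul_one, j2] at j1
  have h2 : sn θ 2 1 ≠ 0 := by
    intro h
    have h0 := ne hθ
    unfold sn at h
    rw [mul_one, div_eq_zero_iff] at h
    rcases h with h | h
    · have h4 : θ ^ 2 * θ ^ 2 = 1 := by
        have h5 : θ ^ 2 = (θ ^ 2)⁻¹ := sub_eq_zero.1 h
        nth_rewrite 2 [h5]
        exact mul_inv_cancel₀ (pow_ne_zero _ h0)
      have h3 : θ ^ 8 = 1 := by
        calc θ ^ 8 = (θ ^ 2 * θ ^ 2) ^ 2 := by ring
          _ = 1 := by rw [h4]; ring
      rw [hθ] at h3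
      norm_num at h3
    · exact (mul_ne_zero two_ne_zero (pow_ne_zero 4 h0)) h
  rcases hp with ⟨rfl, rfl, rfl⟩ | ⟨rfl, rfl, rfl⟩ | ⟨rfl, rfl, rfl⟩ | ⟨rfl, rfl, rfl⟩
  · exact ⟨by simp [w1, own, cls, ef], rfl, rfl⟩
  · exact ⟨by simp [w1, own, cls, ef], rfl, rfl⟩
  · exact ⟨by simp [w1, own, cls, ef], rfl, rfl⟩
  · refine ⟨?_, rfl, rfl⟩
    simp only [w1, own, cls, ef, j1]
    field_simp

theorem tm_node (hθ : θ ^ 8 = -1) {χ : ℂ} (hχ : χ ≠ 0) {x : ℂ} (hx : x ≠ 0) {X Y : List (ℂ × Ty)}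
    {e f : Cf} (he : Cfo X e) (hf : Cfo Y f) (gX : GeL θ x X) (gY : GeL θ x Y)
    {kr kx k' : K} (hp : Pr kr kx k') (i j q m : ℤ)
    (hl : i + (mk k' + tt mk e) = 0 → ∀ c ∈ e, Oth kr kx c.2) :
    tm θ χ i j q m ((θ ^ 13 * x, kr) :: (x, kx) :: e) f =
      χ ^ (nl kr + nl kx - nl k') * (sn θ 1 1 * (kp θ x X * kp θ x Y)) *
        tm θ χ i j q m ((x, k') :: e) f := by
  obtain ⟨p1, p2, p3⟩ := pr_val hθ hp
  unfold tm
  have e1 : tt mk ((θ ^ 13 * x, kr) :: (x, kx) :: e) = mk k' + tt mk e := by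
    simp only [tt, List.map_cons, List.sum_cons, ← p2]; ring
  have e2 : tt ch ((θ ^ 13 * x, kr) :: (x, kx) :: e) = ch k' + tt ch e := by
    simp only [tt, List.map_cons, List.sum_cons, ← p3]; ring
  have e3 : tt nl ((θ ^ 13 * x, kr) :: (x, kx) :: e) = nl kr + nl kx + tt nl e := by
    simp only [tt, List.map_cons, List.sum_cons]; ring
  have e4 : tt mk ((x, k') :: e) = mk k' + tt mk e := rfl
  have e5 : tt ch ((x, k') :: e) = ch k' + tt ch e := rfl
  have e6 : tt nl ((x, k') :: e) = nl k' + tt nl e := rfl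
  rw [e1, e2, e3, e4, e5, e6]
  by_cases hc : i + (mk k' + tt mk e) = 0 ∧ j + tt mk f = 0 ∧ q + (ch k' + tt ch e) = tt ch f
  · rw [if_pos hc, if_pos hc]
    have ho := ow1_node hθ he gX hp (hl hc.1)
    have hr := cr1_node hθ hf gY hp
    have hq : own θ kr kx (θ ^ 13 * x / x) = own θ kr kx (θ ^ 13) := by
      rw [mul_div_assoc, div_self hx, mul_one]
    have hz : χ ^ (m + tt ch f + (nl kr + nl kx + tt nl e) + tt nl f) =
        χ ^ (nl kr + nl kx - nl k') * χ ^ (m + tt ch f + (nl k' + tt nl e) + tt nl f) := by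
      rw [← zpow_add₀ hχ]; congr 1; ring
    rw [hz]
    have a1 : ow θ ((θ ^ 13 * x, kr) :: (x, kx) :: e) =
        w1 θ k' * sn θ 1 1 * (kp θ x X * ow1 θ x k' e) * ow θ e := by
      rw [← ho, ← p1, ← hq]
      simp only [ow, ow1, List.map_cons, List.prod_cons]
      ring
    have a2 : cr θ ((θ ^ 13 * x, kr) :: (x, kx) :: e) f = kp θ x Y * cr1 θ x k' f * cr θ e f := by
      rw [← hr]
      simp only [cr, List.map_cons, List.prod_cons]
      ring
    have a3 : ow θ ((x, k') :: e) = w1 θ k' * ow1 θ x k' e * ow θ e := rfl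
    have a4 : cr θ ((x, k') :: e) f = cr1 θ x k' f * cr θ e f := by
      simp only [cr, List.map_cons, List.prod_cons]
    rw [a1, a2, a3, a4]
    ring
  · rw [if_neg hc, if_neg hc, mul_zero]

/-- the vanishing pairs of states -/
theorem tm_zero {χ : ℂ} {x : ℂ} (hx : x ≠ 0) {e f : Cf} {kr kx : K} (i j q m : ℤ)
    (h : i + (mk kr + mk kx + tt mk e) ≠ 0 ∨ own θ kr kx (θ ^ 13) = 0) :
    tm θ χ i j q m ((θ ^ 13 * x, kr) :: (x, kx) :: e) f = 0 := by
  unfold tm
  have e1 : tt mk ((θ ^ 13 * x, kr) :: (x, kx) :: e) = mk kr + mk kx + tt mk e := by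
    simp only [tt, List.map_cons, List.sum_cons]; ring
  rw [e1]
  rcases h with h | h
  · rw [if_neg fun h2 => h h2.1]
  · have hq : own θ kr kx (θ ^ 13 * x / x) = 0 := by
      rw [mul_div_assoc, div_self hx, mul_one, h]
    have a1 : ow θ ((θ ^ 13 * x, kr) :: (x, kx) :: e) = 0 := by
      simp only [ow, ow1, List.map_cons, List.prod_cons, hq]
      ring
    rw [a1, zero_mul, zero_mul, mul_zero, ite_self]

/-- number of empty ended lines -/
def nem (X : List (ℂ × Ty)) : ℕ := X.countP fun t => t.2 = .re ∨ t.2 = .le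

theorem mk_ge {X : List (ℂ × Ty)} {e : Cf} (h : Cfo X e) : -(nem X : ℤ) ≤ tt mk e := by
  induction h with
  | nil => simp [tt, nem]
  | @cons t c X e h1 _ ih =>
    have h2 : tt mk (c :: e) = mk c.2 + tt mk e := rfl
    have h3 : (nem (t :: X) : ℤ) = nem X + (if t.2 = .re ∨ t.2 = .le then 1 else 0) := by
      unfold nem
      rw [List.countP_cons]
      by_cases h4 : t.2 = .re ∨ t.2 = .le <;> simp [h4]
    rw [h2, h3]
    have h5 : -(if t.2 = .re ∨ t.2 = .le then (1 : ℤ) else 0) ≤ mk c.2 := by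
      obtain ⟨t1, t2⟩ := t
      obtain ⟨c1, c2⟩ := c
      have h6 := h1.2
      simp only at h6 ⊢
      clear h1 h2 h3 ih
      cases t2 <;> cases c2 <;> simp_all [Ty.st, mk]
    linarith

/-- without empty lines and without marks nobody is marked -/
theorem no_mark {X : List (ℂ × Ty)} {e : Cf} (h : Cfo X e) (hX : nem X = 0) (h0 : tt mk e = 0)
    {c : ℂ × K} (hc : c ∈ e) : mk c.2 = 0 := by
  induction h with
  | nil => simp at hc
  | @cons t c' X e h1 h7 ih =>
    have h2 : tt mk (c' :: e) = mk c'.2 + tt mk e := rfl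
    rw [h2] at h0
    have hX2 : nem X = 0 := by
      unfold nem at hX ⊢
      rw [List.countP_cons] at hX
      omega
    have h3 := mk_ge h7
    rw [hX2] at h3
    have h4 : 0 ≤ mk c'.2 := by
      have h8 : Cfo [t] [c'] := List.Forall₂.cons h1 List.Forall₂.nil
      have h9 := mk_ge h8
      have h10 : nem [t] = 0 := by
        unfold nem at hX ⊢
        rw [List.countP_cons] at hX
        rw [List.countP_cons]
        simp only [List.countP_nil]
        omega
      rw [h10] at h9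
      simpa [tt] using h9
    have h5 : mk c'.2 = 0 := by
      have : (0 : ℤ) ≤ tt mk e := by simpa using h3
      linarith
    have h6 : tt mk e = 0 := by linarith
    rcases List.mem_cons.1 hc with rfl | h11
    · exact h5
    · exact ih hX2 h6 h11

end Nd

open Nd

variable {θ χ : ℂ}

/-- node of an occupied line (no empty line at this puncture) -/
theorem node_ro (hθ : θ ^ 8 = -1) (hχ : χ ≠ 0) {x : ℂ} (hx : x ≠ 0) {X Y : List (ℂ × Ty)}
    (gX : GeL θ x X) (gY : GeL θ x Y) (hX : ∀ t ∈ X, t.2 = .F) :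
    gas θ χ ((θ ^ 13 * x, .ro) :: (x, .F) :: X) Y =
      χ⁻¹ * (sn θ 1 1 * (kp θ x X * kp θ x Y)) * gas θ χ ((x, .lo) :: X) Y := by
  have hn : nem X = 0 := by
    unfold nem
    rw [List.countP_eq_zero]
    intro t ht
    simp [hX t ht]
  have key : ∀ e, Cfo X e → ∀ f, Cfo Y f → ∀ kx ∈ Ty.st .F,
      tm θ χ 0 0 0 (-1) ((θ ^ 13 * x, .ro) :: (x, kx) :: e) f =
        if kx = .n then χ⁻¹ * (sn θ 1 1 * (kp θ x X * kp θ x Y)) * tm θ χ 0 0 0 (-1) ((x, .lo) :: e) f
        else 0 := by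
    intro e he f hf kx hkx
    have hm := mk_ge he
    rw [hn] at hm
    have z3 : sn θ 3 (θ ^ 13) = 0 := by
      have := a3 hθ 1
      rwa [mul_one, o0] at this
    split_ifs with h
    · subst h
      have := tm_node hθ hχ hx he hf gX gY (kr := .ro) (kx := .n) (k' := .lo) (Or.inl ⟨rfl, rfl, rfl⟩)
        0 0 0 (-1) (fun h c hc => by
          have h2 : tt mk e = 0 := by simpa [mk] using h
          have h3 := no_mark he hn h2 hc
          obtain ⟨t, ht, h4, h5⟩ := cfo_mem he hc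
          rw [hX t ht] at h5
          obtain ⟨c1, c2⟩ := c
          simp only at h3 h5 ⊢
          cases c2 <;> simp_all [Ty.st, mk, Oth])
      rw [this]
      simp [nl]
    · refine tm_zero hx 0 0 0 (-1) ?_
      cases kx
      · right; simp [own, cls, ef, z3]
      · right; simp [own, cls, ef, z3]
      · exact absurd rfl h
      · right; simp [own, cls, ef, z3]
      · left; simp [mk]; omega
      all_goals simp [Ty.st] at hkx
  unfold gas
  rw [mul_left_comm]
  congr 1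
  rw [← sm_ml]
  simp only [sm, Ty.st, List.map_cons, List.map_nil, List.sum_cons, List.sum_nil, add_zero]
  have z : ∀ kx ∈ Ty.st .F, kx ≠ .n → sm X (fun e => sm Y fun f =>
      tm θ χ 0 0 0 (-1) ((θ ^ 13 * x, .ro) :: (x, kx) :: e) f) = 0 := by
    intro kx hkx h
    rw [← sm_0 X]
    refine sm_cg fun e he => ?_
    rw [← sm_0 Y]
    refine sm_cg fun f hf => ?_
    rw [key e he f hf kx hkx, if_neg h]
  rw [z .p (by simp [Ty.st]) (by simp), z .z (by simp [Ty.st]) (by simp), z .a (by simp [Ty.st]) (by simp),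
    z .b (by simp [Ty.st]) (by simp)]
  simp only [zero_add, add_zero]
  refine sm_cg fun e he => ?_
  rw [← sm_ml]
  refine sm_cg fun f hf => ?_
  rw [key e he f hf .n (by simp [Ty.st]), if_pos rfl]

/-- node of an occupied line below the empty one -/
theorem node_rb (hθ : θ ^ 8 = -1) (hχ : χ ≠ 0) {x : ℂ} (hx : x ≠ 0) {X Y : List (ℂ × Ty)}
    (gX : GeL θ x X) (gY : GeL θ x Y) (hX : ∀ t ∈ X, t.2 = .F ∨ t.2 = .re) (hn : nem X ≤ 1) :
    gas θ χ ((θ ^ 13 * x, .rb) :: (x, .F) :: X) Y =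
      χ⁻¹ * (sn θ 1 1 * (kp θ x X * kp θ x Y)) * gas θ χ ((x, .lo) :: X) Y := by
  have z3 : sn θ 3 (θ ^ 13) = 0 := by
    have := a3 hθ 1
    rwa [mul_one, o0] at this
  have z : ∀ kr ∈ Ty.st .rb, ∀ kx ∈ Ty.st .F, ¬(kr = .rb ∧ kx = .n) → sm X (fun e => sm Y fun f =>
      tm θ χ 0 0 0 (-1) ((θ ^ 13 * x, kr) :: (x, kx) :: e) f) = 0 := by
    intro kr hkr kx hkx h
    rw [← sm_0 X]
    refine sm_cg fun e he => ?_
    rw [← sm_0 Y]
    refine sm_cg fun f hf => ?_
    have hm := mk_ge he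
    refine tm_zero hx 0 0 0 (-1) ?_
    cases kr
    case rb =>
      cases kx
      case p => right; simp [own, cls, ef, z3]
      case z => right; simp [own, cls, ef, z3]
      case n => exact absurd ⟨rfl, rfl⟩ h
      case a => right; simp [own, cls, ef, z3]
      case b => right; simp [own, cls, ef, z3]
      all_goals simp [Ty.st] at hkx
    case rB =>
      cases kx
      case p => right; simp [own, cls, ef, z3]
      case z => right; simp [own, cls, ef, z3]
      case n => right; simp [own, cls, ef, z3]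
      case a => left; simp [mk]; omega
      case b => left; simp [mk]; omega
      all_goals simp [Ty.st] at hkx
    all_goals simp [Ty.st] at hkr
  unfold gas
  rw [mul_left_comm]
  congr 1
  rw [← sm_ml]
  simp only [sm, Ty.st, List.map_cons, List.map_nil, List.sum_cons, List.sum_nil, add_zero]
  rw [z .rb (by simp [Ty.st]) .p (by simp [Ty.st]) (by simp), z .rb (by simp [Ty.st]) .z (by simp [Ty.st]) (by simp),
    z .rb (by simp [Ty.st]) .a (by simp [Ty.st]) (by simp), z .rb (by simp [Ty.st]) .b (by simp [Ty.st]) (by simp),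
    z .rB (by simp [Ty.st]) .p (by simp [Ty.st]) (by simp), z .rB (by simp [Ty.st]) .z (by simp [Ty.st]) (by simp),
    z .rB (by simp [Ty.st]) .n (by simp [Ty.st]) (by simp),
    z .rB (by simp [Ty.st]) .a (by simp [Ty.st]) (by simp), z .rB (by simp [Ty.st]) .b (by simp [Ty.st]) (by simp)]
  simp only [zero_add, add_zero]
  refine sm_cg fun e he => ?_
  rw [← sm_ml]
  refine sm_cg fun f hf => ?_
  have := tm_node hθ hχ hx he hf gX gY (kr := .rb) (kx := .n) (k' := .lo)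
    (Or.inr (Or.inl ⟨rfl, rfl, rfl⟩)) 0 0 0 (-1) (fun _ c hc => by
      obtain ⟨t, ht, h4, h5⟩ := cfo_mem he hc
      obtain ⟨c1, c2⟩ := c
      simp only at h5 ⊢
      rcases hX t ht with h6 | h6 <;> rw [h6] at h5 <;> cases c2 <;> simp_all [Ty.st, Oth])
  rw [this]
  simp [nl]

/-- node of an empty line -/
theorem node_re (hθ : θ ^ 8 = -1) (hχ : χ ≠ 0) {x : ℂ} (hx : x ≠ 0) {X Y : List (ℂ × Ty)}
    (gX : GeL θ x X) (gY : GeL θ x Y) (hX : ∀ t ∈ X, t.2 = .F ∨ t.2 = .ro ∨ t.2 = .lo) :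
    gas θ χ ((θ ^ 13 * x, .re) :: (x, .F) :: X) Y =
      sn θ 1 1 * (kp θ x X * kp θ x Y) * gas θ χ ((x, .le) :: X) Y := by
  have hn : nem X = 0 := by
    unfold nem
    rw [List.countP_eq_zero]
    intro t ht
    rcases hX t ht with h | h | h <;> simp [h]
  have z3 : sn θ 3 (θ ^ 13) = 0 := by
    have := a3 hθ 1
    rwa [mul_one, o0] at this
  have z : ∀ kr ∈ Ty.st .re, ∀ kx ∈ Ty.st .F, ¬(kr = .re ∧ (kx = .n ∨ kx = .b)) → sm X (fun e => sm Y fun f =>
      tm θ χ 0 0 0 (-1) ((θ ^ 13 * x, kr) :: (x, kx) :: e) f) = 0 := by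
    intro kr hkr kx hkx h
    rw [← sm_0 X]
    refine sm_cg fun e he => ?_
    rw [← sm_0 Y]
    refine sm_cg fun f hf => ?_
    have hm := mk_ge he
    rw [hn] at hm
    refine tm_zero hx 0 0 0 (-1) ?_
    cases kr
    case re =>
      cases kx
      case p => right; simp [own, cls, ef, z3]
      case z => right; simp [own, cls, ef, z3]
      case n => exact absurd ⟨rfl, Or.inl rfl⟩ h
      case a => right; simp [own, cls, ef, z3]
      case b => exact absurd ⟨rfl, Or.inr rfl⟩ h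
      all_goals simp [Ty.st] at hkx
    case rE =>
      cases kx
      case p => right; simp [own, cls, ef, z3]
      case z => right; simp [own, cls, ef, z3]
      case n => right; simp [own, cls, ef, z3]
      case a => left; simp [mk]; omega
      case b => left; simp [mk]; omega
      all_goals simp [Ty.st] at hkx
    all_goals simp [Ty.st] at hkr
  unfold gas
  rw [mul_left_comm]
  congr 1
  rw [← sm_ml]
  simp only [sm, Ty.st, List.map_cons, List.map_nil, List.sum_cons, List.sum_nil, add_zero]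
  rw [z .re (by simp [Ty.st]) .p (by simp [Ty.st]) (by simp), z .re (by simp [Ty.st]) .z (by simp [Ty.st]) (by simp),
    z .re (by simp [Ty.st]) .a (by simp [Ty.st]) (by simp),
    z .rE (by simp [Ty.st]) .p (by simp [Ty.st]) (by simp), z .rE (by simp [Ty.st]) .z (by simp [Ty.st]) (by simp),
    z .rE (by simp [Ty.st]) .n (by simp [Ty.st]) (by simp),
    z .rE (by simp [Ty.st]) .a (by simp [Ty.st]) (by simp), z .rE (by simp [Ty.st]) .b (by simp [Ty.st]) (by simp)]
  simp only [zero_add, add_zero]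
  congr 1
  · refine sm_cg fun e he => ?_
    rw [← sm_ml]
    refine sm_cg fun f hf => ?_
    have := tm_node hθ hχ hx he hf gX gY (kr := .re) (kx := .n) (k' := .le)
      (Or.inr (Or.inr (Or.inl ⟨rfl, rfl, rfl⟩))) 0 0 0 (-1) (fun _ c hc => by
        obtain ⟨t, ht, h4, h5⟩ := cfo_mem he hc
        obtain ⟨c1, c2⟩ := c
        simp only at h5 ⊢
        rcases hX t ht with h6 | h6 | h6 <;> rw [h6] at h5 <;> cases c2 <;> simp_all [Ty.st, Oth])
    rw [this]
    simp [nl]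
  · refine sm_cg fun e he => ?_
    rw [← sm_ml]
    refine sm_cg fun f hf => ?_
    have := tm_node hθ hχ hx he hf gX gY (kr := .re) (kx := .b) (k' := .lE)
      (Or.inr (Or.inr (Or.inr ⟨rfl, rfl, rfl⟩))) 0 0 0 (-1) (fun h c hc => by
        have h2 : tt mk e = 0 := by simpa [mk] using h
        have h3 := no_mark he hn h2 hc
        obtain ⟨t, ht, h4, h5⟩ := cfo_mem he hc
        obtain ⟨c1, c2⟩ := c
        simp only at h3 h5 ⊢
        rcases hX t ht with h6 | h6 | h6 <;> rw [h6] at h5 <;> cases c2 <;> simp_all [Ty.st, Oth, mk])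
    rw [this]
    simp [nl]

/-! ### the nodes of the functions of the family -/

theorem ge_of (hθ : θ ^ 8 = -1) {x c : ℂ} (hx : x ≠ 0) (hc : c ≠ 0)
    (h : NUGas.Sep (θ ^ 2) (x ^ 2) (c ^ 2)) : Ge θ (x / c) := by
  have h0 := ne hθ
  have key : ∀ k : ℕ, sn θ k (x / c) ≠ 0 := by
    intro k hk
    have hu : θ ^ k * (x / c) ≠ 0 := mul_ne_zero (pow_ne_zero _ h0) (div_ne_zero hx hc)
    unfold sn at hk
    rw [div_eq_zero_iff] at hk
    rcases hk with hk | hk
    · have h1 : θ ^ k * (x / c) = (θ ^ k * (x / c))⁻¹ := sub_eq_zero.1 hk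
      have h2 : (θ ^ k * (x / c)) * (θ ^ k * (x / c)) = 1 := by
        nth_rewrite 2 [h1]
        exact mul_inv_cancel₀ hu
      refine h k ?_
      have h3 : (θ ^ k * (x / c)) * (θ ^ k * (x / c)) * c ^ 2 = (θ ^ 2) ^ k * x ^ 2 := by
        rw [← pow_mul, mul_comm 2 k, pow_mul]
        field_simp
      rw [h2, one_mul] at h3
      exact h3.symm
    · exact (mul_ne_zero two_ne_zero (pow_ne_zero 4 h0)) hk
  exact ⟨div_ne_zero hx hc, key 0, key 1, key 2, key 3, key 4, key 5, key 6, key 7⟩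

/-- genericity with respect to the first line -/
theorem ge_cons (hθ : θ ^ 8 = -1) {x : ℂ} {L : List ℂ} (h : G θ (x :: L)) :
    x ≠ 0 ∧ ∀ c ∈ L, Ge θ (x / c) := by
  obtain ⟨h1, h2⟩ := h
  have hx : x ≠ 0 := by
    intro h3
    exact h1 (x ^ 2) (by simp) (by rw [h3]; simp)
  refine ⟨hx, fun c hc => ?_⟩
  have hc0 : c ≠ 0 := by
    intro h3
    exact h1 (c ^ 2) (by simp only [List.map_cons, List.mem_cons, List.mem_map]; exact Or.inr ⟨c, hc, rfl⟩)
      (by rw [h3]; simp)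
  refine ge_of hθ hx hc0 ?_
  rw [List.map_cons, List.pairwise_cons] at h2
  exact h2.1 _ (List.mem_map.2 ⟨c, hc, rfl⟩)

theorem kp_cons (x : ℂ) (t : ℂ × Ty) (X : List (ℂ × Ty)) :
    kp θ x (t :: X) = kap θ (tc t.2) (x / t.1) * kp θ x X := rfl

theorem kp_append (x : ℂ) (X Y : List (ℂ × Ty)) : kp θ x (X ++ Y) = kp θ x X * kp θ x Y := by
  unfold kp; rw [List.map_append, List.prod_append]

theorem kp_fl (x : ℂ) (L : List ℂ) : kp θ x (fl L) = (L.map fun c => sk θ (x / c)).prod := by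
  unfold kp fl
  rw [List.map_map]
  rfl

theorem kp_En (x : ℂ) (τ : Bool) (q g : ℂ) : kp θ x (En τ q g) = sk θ (x / q) := by
  cases τ <;> simp [En, kp, kap, tc]

theorem geL_Y {x : ℂ} {τ : Bool} {q g : ℂ} {J : List ℂ} (h : ∀ c ∈ q :: g :: J, Ge θ (x / c)) :
    GeL θ x (En τ q g ++ fl J) := by
  intro t ht
  rcases List.mem_append.1 ht with h1 | h1
  · cases τ
    · simp [En] at h1
      rcases h1 with rfl | rfl
      · exact h q (by simp)
      · exact h g (by simp)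
    · simp [En] at h1
      rcases h1 with rfl | rfl
      · exact h q (by simp)
      · exact h g (by simp)
  · obtain ⟨c, hc, rfl⟩ := List.mem_map.1 h1
    exact h c (by simp [hc])

variable (τ : Bool) {q g x b h : ℂ} {I J : List ℂ}

/-- node of `R` -/
theorem R_node (hθ : θ ^ 8 = -1) (hχ : χ ≠ 0) (hG : G θ (x :: q :: g :: (I ++ J))) :
    (gasF θ χ τ q g).R (x :: I) J (θ ^ 13 * x) =
      χ⁻¹ * (sn θ 1 1 * ((q :: (I ++ J)).map fun c => sk θ (x / c)).prod) *
        (gasF θ χ τ q g).L I J x := by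
  obtain ⟨hx, hg⟩ := ge_cons hθ hG
  have gX : GeL θ x (fl I) := by
    intro t ht
    obtain ⟨c, hc, rfl⟩ := List.mem_map.1 ht
    exact hg c (by simp [hc])
  have gY : GeL θ x (En τ q g ++ fl J) := geL_Y fun c hc => hg c (by
    simp only [List.mem_cons, List.mem_append] at hc ⊢; tauto)
  have key := node_ro hθ hχ hx gX gY (fun t ht => by
    obtain ⟨c, hc, rfl⟩ := List.mem_map.1 ht; rfl)
  have e : kp θ x (fl I) * kp θ x (En τ q g ++ fl J) =
      ((q :: (I ++ J)).map fun c => sk θ (x / c)).prod := by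
    rw [kp_append, kp_En, kp_fl, kp_fl, List.map_cons, List.prod_cons, List.map_append, List.prod_append]
    ring
  rw [e] at key
  exact key

/-- node of `OE` in the occupied line -/
theorem OE_node (hθ : θ ^ 8 = -1) (hχ : χ ≠ 0) (hG : G θ (x :: b :: q :: g :: (I ++ J))) :
    (gasF θ χ τ q g).OE (x :: I) J (θ ^ 13 * x) b =
      χ⁻¹ * (sn θ 1 1 * ((b :: q :: (I ++ J)).map fun c => sk θ (x / c)).prod) *
        (gasF θ χ τ q g).ER I J b x := by
  obtain ⟨hx, hg⟩ := ge_cons hθ hG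
  have gX : GeL θ x ((b, Ty.re) :: fl I) := by
    intro t ht
    rcases List.mem_cons.1 ht with rfl | ht
    · exact hg b (by simp)
    · obtain ⟨c, hc, rfl⟩ := List.mem_map.1 ht
      exact hg c (by simp [hc])
  have gY : GeL θ x (En τ q g ++ fl J) := geL_Y fun c hc => hg c (by
    simp only [List.mem_cons, List.mem_append] at hc ⊢; tauto)
  have key := node_rb hθ hχ hx gX gY (fun t ht => by
    rcases List.mem_cons.1 ht with rfl | ht
    · exact Or.inr rfl
    · obtain ⟨c, hc, rfl⟩ := List.mem_map.1 ht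
      exact Or.inl rfl) (by
    have : nem (fl I) = 0 := by
      unfold nem
      rw [List.countP_eq_zero]
      intro t ht
      obtain ⟨c, hc, rfl⟩ := List.mem_map.1 ht
      simp
    unfold nem at this ⊢
    rw [List.countP_cons, this]
    simp)
  have e : kp θ x ((b, Ty.re) :: fl I) * kp θ x (En τ q g ++ fl J) =
      ((b :: q :: (I ++ J)).map fun c => sk θ (x / c)).prod := by
    rw [kp_append, kp_En, kp_cons, kp_fl, kp_fl, List.map_cons, List.prod_cons, List.map_cons,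
      List.prod_cons, List.map_append, List.prod_append]
    simp only [tc, kap]
    ring
  rw [e] at key
  have p1 : (gasF θ χ τ q g).OE (x :: I) J (θ ^ 13 * x) b =
      gas θ χ ((θ ^ 13 * x, .rb) :: (x, .F) :: (b, .re) :: fl I) (En τ q g ++ fl J) :=
    gas_perm hθ (List.Perm.cons _ (List.Perm.swap _ _ _)) (List.Perm.refl _)
  have p2 : (gasF θ χ τ q g).ER I J b x =
      gas θ χ ((x, .lo) :: (b, .re) :: fl I) (En τ q g ++ fl J) :=
    gas_perm hθ (List.Perm.swap _ _ _) (List.Perm.refl _)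
  rw [p1, p2]
  exact key

/-- node of `EO` in the empty line -/
theorem EO_node (hθ : θ ^ 8 = -1) (hχ : χ ≠ 0) (hG : G θ (x :: b :: q :: g :: (I ++ J))) :
    (gasF θ χ τ q g).EO (x :: I) J (θ ^ 13 * x) b =
      sn θ 1 1 * ((b :: q :: (I ++ J)).map fun c => sk θ (x / c)).prod *
        (gasF θ χ τ q g).RE I J b x := by
  obtain ⟨hx, hg⟩ := ge_cons hθ hG
  have gX : GeL θ x ((b, Ty.ro) :: fl I) := by
    intro t ht
    rcases List.mem_cons.1 ht with rfl | ht
    · exact hg b (by simp)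
    · obtain ⟨c, hc, rfl⟩ := List.mem_map.1 ht
      exact hg c (by simp [hc])
  have gY : GeL θ x (En τ q g ++ fl J) := geL_Y fun c hc => hg c (by
    simp only [List.mem_cons, List.mem_append] at hc ⊢; tauto)
  have key := node_re hθ hχ hx gX gY (fun t ht => by
    rcases List.mem_cons.1 ht with rfl | ht
    · exact Or.inr (Or.inl rfl)
    · obtain ⟨c, hc, rfl⟩ := List.mem_map.1 ht
      exact Or.inl rfl)
  have e : kp θ x ((b, Ty.ro) :: fl I) * kp θ x (En τ q g ++ fl J) =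
      ((b :: q :: (I ++ J)).map fun c => sk θ (x / c)).prod := by
    rw [kp_append, kp_En, kp_cons, kp_fl, kp_fl, List.map_cons, List.prod_cons, List.map_cons,
      List.prod_cons, List.map_append, List.prod_append]
    simp only [tc, kap]
    ring
  rw [e] at key
  have p1 : (gasF θ χ τ q g).EO (x :: I) J (θ ^ 13 * x) b =
      gas θ χ ((θ ^ 13 * x, .re) :: (x, .F) :: (b, .ro) :: fl I) (En τ q g ++ fl J) :=
    gas_perm hθ (List.Perm.cons _ (List.Perm.swap _ _ _)) (List.Perm.refl _)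
  have p2 : (gasF θ χ τ q g).RE I J b x =
      gas θ χ ((x, .le) :: (b, .ro) :: fl I) (En τ q g ++ fl J) :=
    gas_perm hθ (List.Perm.swap _ _ _) (List.Perm.refl _)
  rw [p1, p2]
  exact key

/-- node of `ER` in the empty line -/
theorem ER_node (hθ : θ ^ 8 = -1) (hχ : χ ≠ 0) (hG : G θ (x :: h :: q :: g :: (I ++ J))) :
    (gasF θ χ τ q g).ER (x :: I) J (θ ^ 13 * x) h =
      sn θ 1 1 * ((q :: (I ++ J)).map fun c => sk θ (x / c)).prod *
        (gasF θ χ τ q g).EO' I J x h := by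
  obtain ⟨hx, hg⟩ := ge_cons hθ hG
  have gX : GeL θ x ((h, Ty.lo) :: fl I) := by
    intro t ht
    rcases List.mem_cons.1 ht with rfl | ht
    · exact hg h (by simp)
    · obtain ⟨c, hc, rfl⟩ := List.mem_map.1 ht
      exact hg c (by simp [hc])
  have gY : GeL θ x (En τ q g ++ fl J) := geL_Y fun c hc => hg c (by
    simp only [List.mem_cons, List.mem_append] at hc ⊢; tauto)
  have key := node_re hθ hχ hx gX gY (fun t ht => by
    rcases List.mem_cons.1 ht with rfl | ht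
    · exact Or.inr (Or.inr rfl)
    · obtain ⟨c, hc, rfl⟩ := List.mem_map.1 ht
      exact Or.inl rfl)
  have e : kp θ x ((h, Ty.lo) :: fl I) * kp θ x (En τ q g ++ fl J) =
      ((q :: (I ++ J)).map fun c => sk θ (x / c)).prod := by
    rw [kp_append, kp_En, kp_cons, kp_fl, kp_fl, List.map_cons, List.prod_cons, List.map_append,
      List.prod_append]
    simp only [tc, kap]
    ring
  rw [e] at key
  have p1 : (gasF θ χ τ q g).ER (x :: I) J (θ ^ 13 * x) h =
      gas θ χ ((θ ^ 13 * x, .re) :: (x, .F) :: (h, .lo) :: fl I) (En τ q g ++ fl J) :=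
    gas_perm hθ (List.Perm.cons _ (List.Perm.swap _ _ _)) (List.Perm.refl _)
  rw [p1]
  exact key

end NUTP.Gas

end
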