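import Pool.Agent.NUTP.Gas.PolEO

/-!
# The function `ER` as a function of the empty line on the right
-/

set_option autoImplicit false

open Polynomial

noncomputable section

namespace NUTP.Gas

open NUTG

variable {θ χ : ℂ}

/-- **`ER` as a function of the empty line on the right** -/
theorem polER (hθ : θ ^ 8 = -1) (τ : Bool) {q g : ℂ} (I J : List ℂ) {h : ℂ}
    (hG : G θ (h :: q :: g :: (I ++ J))) :
    ∃ P : ℂ[X], P.natDegree ≤ I.length + J.length + 1 ∧
      P.coeff (I.length + J.length + 1) = tp (q :: (I ++ J)) * (gasF θ χ τ q g).L I J h ∧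
      P.coeff 0 = bt (q :: (I ++ J)) * (gasF θ χ τ q g).L I J h ∧
      ∀ r, Gd θ r (h :: q :: g :: (I ++ J)) →
        r ^ (I.length + J.length + 1) * (gasF θ χ τ q g).ER I J r h = P.eval (r ^ 2) := by
  have e1 : ((h, Ty.lo) :: fl I).map Prod.fst = h :: I := by rw [List.map_cons, fl_fst]
  have hp := perm_l h q g I J
  obtain ⟨P, h1, h2, h3, h4⟩ := polE (χ := χ) hθ (lo_fr h I) (En_gr τ q g J) (by
    rw [List.map_cons, List.sum_cons, fl_oc, En_oc]; rfl) (by
    rw [e1, En_fst]; exact G.perm hθ hp.symm hG) (Z := q :: (I ++ J)) (by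
    rw [rp_cons_f rfl, fl_rp, En_rp]; exact List.perm_middle) (n := I.length + J.length + 1) (by
    simp)
  refine ⟨P, h1, h2, h3, fun r hr => h4 r ?_⟩
  rw [e1, En_fst]
  exact hr.perm hp.symm

end NUTP.Gas

end
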