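import Pool.Agent.NUTP.Gas.Base

/-!
# The gas: the occupied line `R` is a polynomial (degree `N`, no poles)
-/

set_option autoImplicit false

open Polynomial

noncomputable section

namespace NUTP.Gas

variable {θ χ : ℂ}

/-- `p ^ n φ p` is a polynomial in `p ^ 2` of degree at most `n` -/
def Pl (n : ℕ) (φ : ℂ → ℂ) : Prop :=
  ∃ P : ℂ[X], P.natDegree ≤ n ∧ ∀ p, p ≠ 0 → p ^ n * φ p = P.eval (p ^ 2)

lemma Pl.zero (n : ℕ) : Pl n (fun _ => 0) := ⟨0, by simp, by simp⟩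

lemma Pl.one : Pl 0 (fun _ => 1) := ⟨1, by simp, by simp⟩

lemma Pl.congr {n : ℕ} {φ ψ : ℂ → ℂ} (h : Pl n φ) (e : ∀ p, p ≠ 0 → ψ p = φ p) : Pl n ψ := by
  obtain ⟨P, h1, h2⟩ := h
  exact ⟨P, h1, fun p hp => by rw [e p hp, h2 p hp]⟩

lemma Pl.add {n : ℕ} {φ ψ : ℂ → ℂ} (h : Pl n φ) (h' : Pl n ψ) : Pl n (fun p => φ p + ψ p) := by
  obtain ⟨P, h1, h2⟩ := h
  obtain ⟨Q, h3, h4⟩ := h'
  exact ⟨P + Q, natDegree_add_le_of_degree_le h1 h3, fun p hp => by
    rw [mul_add, h2 p hp, h4 p hp, eval_add]⟩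

lemma Pl.mul {n m : ℕ} {φ ψ : ℂ → ℂ} (h : Pl n φ) (h' : Pl m ψ) :
    Pl (n + m) (fun p => φ p * ψ p) := by
  obtain ⟨P, h1, h2⟩ := h
  obtain ⟨Q, h3, h4⟩ := h'
  exact ⟨P * Q, natDegree_mul_le.trans (add_le_add h1 h3), fun p hp => by
    rw [eval_mul, ← h2 p hp, ← h4 p hp, pow_add]; ring⟩

lemma Pl.const_mul {n : ℕ} {φ : ℂ → ℂ} (c : ℂ) (h : Pl n φ) : Pl n (fun p => c * φ p) := by
  obtain ⟨P, h1, h2⟩ := h
  exact ⟨C c * P, (natDegree_C_mul_le c P).trans h1, fun p hp => by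
    rw [eval_mul, eval_C, ← h2 p hp]; ring⟩

lemma Pl.mul_const {n : ℕ} {φ : ℂ → ℂ} (c : ℂ) (h : Pl n φ) : Pl n (fun p => φ p * c) :=
  (h.const_mul c).congr fun _ _ => mul_comm _ _

lemma Pl.lsum {α : Type*} {n : ℕ} (l : List α) {φ : α → ℂ → ℂ} (h : ∀ a ∈ l, Pl n (φ a)) :
    Pl n (fun p => (l.map fun a => φ a p).sum) := by
  induction l with
  | nil => exact Pl.zero n
  | cons a l ih =>
    simp only [List.map_cons, List.sum_cons]
    exact (h a List.mem_cons_self).add (ih fun b hb => h b (List.mem_cons_of_mem _ hb))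

lemma Pl.sm {n : ℕ} {X : List (ℂ × Ty)} {φ : Cf → ℂ → ℂ} (h : ∀ e, Cmp X e → Pl n (φ e)) :
    Pl n (fun p => sm X fun e => φ e p) := by
  induction X generalizing φ with
  | nil => exact h [] List.Forall₂.nil
  | cons t X ih =>
    simp only [sm_cons]
    exact Pl.lsum _ fun k hk => ih fun e he => h _ (List.Forall₂.cons ⟨rfl, hk⟩ he)

/-- one sine of `p / c` -/
lemma Pl.sn (hθ : θ ^ 8 = -1) (k : ℕ) {c : ℂ} (hc : c ≠ 0) : Pl 1 (fun p => sn θ k (p / c)) := by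
  have h0 := th0 hθ
  refine ⟨C ((θ ^ k / c) / (2 * θ ^ 4)) * X + C (-(c / θ ^ k) / (2 * θ ^ 4)), ?_, fun p hp => ?_⟩
  · exact natDegree_linear_le
  · simp only [eval_add, eval_mul, eval_C, eval_X]
    unfold NUTP.sn
    field_simp
    ring

/-- one sine of `c / p` -/
lemma Pl.sn' (hθ : θ ^ 8 = -1) (k : ℕ) {c : ℂ} (hc : c ≠ 0) : Pl 1 (fun p => NUTP.sn θ k (c / p)) := by
  have h0 := th0 hθ
  refine ⟨C (-(1 / (θ ^ k * c)) / (2 * θ ^ 4)) * X + C ((θ ^ k * c) / (2 * θ ^ 4)), ?_, fun p hp => ?_⟩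
  · exact natDegree_linear_le
  · simp only [eval_add, eval_mul, eval_C, eval_X]
    unfold NUTP.sn
    field_simp
    ring

/-- number of sines, own world -/
def cI : K → ℕ
  | .p => 2 | .z => 1 | .a => 1
  | _ => 0

/-- number of sines, other world -/
def cJ : K → ℕ
  | .z => 1 | .a => 1 | .n => 2 | .b => 2 | .rE => 1
  | _ => 0

lemma Pl.own (hθ : θ ^ 8 = -1) {k : K} (hk : k ∈ Ty.F.st) {c : ℂ} (hc : c ≠ 0) :
    Pl (cI k) (fun p => own θ .ro k (p / c)) := by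
  simp only [Ty.st, List.mem_cons, List.not_mem_nil, or_false] at hk
  rcases hk with rfl | rfl | rfl | rfl | rfl
  · exact (Pl.sn hθ 2 hc).mul (Pl.sn hθ 3 hc)
  · exact Pl.sn hθ 3 hc
  · exact Pl.one
  · exact Pl.sn hθ 3 hc
  · exact Pl.one

lemma Pl.crs (hθ : θ ^ 8 = -1) {k : K} (hk : k ∈ Ty.F.st ∨ k = .ro ∨ k = .re ∨ k = .rE ∨ k = .lo ∨
    k = .le ∨ k = .lE) {c : ℂ} (hc : c ≠ 0) : Pl (cJ k) (fun p => crs θ .ro k (p / c)) := by
  simp only [Ty.st, List.mem_cons, List.not_mem_nil, or_false] at hk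
  rcases hk with (rfl | rfl | rfl | rfl | rfl) | rfl | rfl | rfl | rfl | rfl | rfl
  · exact Pl.one
  · refine (Pl.sn' hθ 3 hc).congr fun p _ => ?_
    simp [NUTP.Gas.crs, cls, xf]
  · refine ((Pl.sn' hθ 2 hc).mul (Pl.sn' hθ 3 hc)).congr fun p _ => ?_
    simp [NUTP.Gas.crs, cls, xf]
  · refine (Pl.sn' hθ 3 hc).congr fun p _ => ?_
    simp [NUTP.Gas.crs, cls, xf]
  · refine ((Pl.sn' hθ 2 hc).mul (Pl.sn' hθ 3 hc)).congr fun p _ => ?_
    simp [NUTP.Gas.crs, cls, xf]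
  · exact Pl.one
  · exact Pl.one
  · exact Pl.sn hθ 5 hc
  · exact Pl.one
  · exact Pl.one
  · exact Pl.one

/-- sum of a natural number over the states -/
def tn (q : K → ℕ) (e : Cf) : ℕ := (e.map fun c => q c.2).sum

lemma Pl.ow1 (hθ : θ ^ 8 = -1) {e : Cf} (h : ∀ c ∈ e, c.1 ≠ 0 ∧ c.2 ∈ Ty.F.st) :
    Pl (tn cI e) (fun p => ow1 θ p .ro e) := by
  induction e with
  | nil => exact Pl.one
  | cons c e ih =>
    refine ((Pl.own hθ (h c List.mem_cons_self).2 (h c List.mem_cons_self).1).mul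
      (ih fun d hd => h d (List.mem_cons_of_mem _ hd))).congr fun p _ => ?_
    rw [ow1_cons]

lemma Pl.cr1 (hθ : θ ^ 8 = -1) {e : Cf} (h : ∀ c ∈ e, c.1 ≠ 0 ∧ (c.2 ∈ Ty.F.st ∨ c.2 = .ro ∨
    c.2 = .re ∨ c.2 = .rE ∨ c.2 = .lo ∨ c.2 = .le ∨ c.2 = .lE)) :
    Pl (tn cJ e) (fun p => cr1 θ p .ro e) := by
  induction e with
  | nil => exact Pl.one
  | cons c e ih =>
    refine ((Pl.crs hθ (h c List.mem_cons_self).2 (h c List.mem_cons_self).1).mul
      (ih fun d hd => h d (List.mem_cons_of_mem _ hd))).congr fun p _ => ?_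
    rw [cr1_cons]

lemma tn_cI {I : List ℂ} {e : Cf} (h : Cmp (fl I) e) :
    2 * (tn cI e : ℤ) = 2 * I.length + tt ch e - tt mk e := by
  induction I generalizing e with
  | nil => cases h; simp [tn, tt]
  | cons x I ih =>
    rcases h with _ | ⟨⟨h1, h2⟩, h3⟩
    rename_i c e
    have := ih h3
    simp only [Ty.st, List.mem_cons, List.not_mem_nil, or_false] at h2
    have e1 : tn cI (c :: e) = cI c.2 + tn cI e := by simp [tn]
    rw [e1, tt_cons, tt_cons, List.length_cons]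
    push_cast
    rcases h2 with h2 | h2 | h2 | h2 | h2 <;> rw [h2] <;> simp only [cI, ch, mk] <;> push_cast <;>
      linarith

lemma tn_cJ {J : List ℂ} {e : Cf} (h : Cmp (fl J) e) :
    2 * (tn cJ e : ℤ) = 2 * J.length - tt ch e + tt mk e := by
  induction J generalizing e with
  | nil => cases h; simp [tn, tt]
  | cons x I ih =>
    rcases h with _ | ⟨⟨h1, h2⟩, h3⟩
    rename_i c e
    have := ih h3
    simp only [Ty.st, List.mem_cons, List.not_mem_nil, or_false] at h2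
    have e1 : tn cJ (c :: e) = cJ c.2 + tn cJ e := by simp [tn]
    rw [e1, tt_cons, tt_cons, List.length_cons]
    push_cast
    rcases h2 with h2 | h2 | h2 | h2 | h2 <;> rw [h2] <;> simp only [cJ, ch, mk] <;> push_cast <;>
      linarith

/-- the configurations of world `g` -/
lemma Cmp.En {τ : Bool} {q g : ℂ} {J : List ℂ} {f : Cf} (h : Cmp (En τ q g ++ fl J) f) :
    2 * (tn cJ f : ℤ) = 2 * J.length + 1 - tt ch f + tt mk f ∧
    ∀ c ∈ f, c.1 ∈ q :: g :: J ∧ (c.2 ∈ Ty.F.st ∨ c.2 = .ro ∨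
      c.2 = .re ∨ c.2 = .rE ∨ c.2 = .lo ∨ c.2 = .le ∨ c.2 = .lE) := by
  have hJ : ∀ {f : Cf}, Cmp (fl J) f → ∀ c ∈ f, c.1 ∈ q :: g :: J ∧ (c.2 ∈ Ty.F.st ∨ c.2 = .ro ∨
      c.2 = .re ∨ c.2 = .rE ∨ c.2 = .lo ∨ c.2 = .le ∨ c.2 = .lE) := by
    intro f hf c hc
    obtain ⟨t, ht, h1, h2⟩ := hf.mem hc
    unfold fl at ht
    obtain ⟨x, hx, rfl⟩ := List.mem_map.1 ht
    exact ⟨by rw [h1]; simp [hx], Or.inl h2⟩
  cases τ
  · rcases h with _ | ⟨⟨h1, h2⟩, h3⟩
    rcases h3 with _ | ⟨⟨h4, h5⟩, h6⟩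
    rename_i c d f
    have hn := tn_cJ h6
    have e1 : tn cJ (c :: d :: f) = cJ c.2 + (cJ d.2 + tn cJ f) := by simp [tn]
    refine ⟨?_, ?_⟩
    · rw [e1, tt_cons, tt_cons, tt_cons, tt_cons]
      simp only [Ty.st, List.mem_cons, List.not_mem_nil, or_false] at h2 h5
      push_cast
      rcases h2 with h2 | h2 <;> rw [h2, h5] <;> simp only [cJ, ch, mk] <;> push_cast <;> linarith
    · intro x hx
      rcases List.mem_cons.1 hx with rfl | hx
      · simp only [Ty.st, List.mem_cons, List.not_mem_nil, or_false] at h2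
        exact ⟨by rw [h1]; simp, by rcases h2 with h2 | h2 <;> simp [h2]⟩
      · rcases List.mem_cons.1 hx with rfl | hx
        · simp only [Ty.st, List.mem_cons, List.not_mem_nil, or_false] at h5
          exact ⟨by rw [h4]; simp, by simp [h5]⟩
        · exact hJ h6 x hx
  · rcases h with _ | ⟨⟨h1, h2⟩, h3⟩
    rcases h3 with _ | ⟨⟨h4, h5⟩, h6⟩
    rename_i c d f
    have hn := tn_cJ h6
    have e1 : tn cJ (c :: d :: f) = cJ c.2 + (cJ d.2 + tn cJ f) := by simp [tn]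
    refine ⟨?_, ?_⟩
    · rw [e1, tt_cons, tt_cons, tt_cons, tt_cons]
      simp only [Ty.st, List.mem_cons, List.not_mem_nil, or_false] at h2 h5
      push_cast
      rcases h5 with h5 | h5 <;> rw [h2, h5] <;> simp only [cJ, ch, mk] <;> push_cast <;> linarith
    · intro x hx
      rcases List.mem_cons.1 hx with rfl | hx
      · simp only [Ty.st, List.mem_cons, List.not_mem_nil, or_false] at h2
        exact ⟨by rw [h1]; simp, by simp [h2]⟩
      · rcases List.mem_cons.1 hx with rfl | hx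
        · simp only [Ty.st, List.mem_cons, List.not_mem_nil, or_false] at h5
          exact ⟨by rw [h4]; simp, by rcases h5 with h5 | h5 <;> simp [h5]⟩
        · exact hJ h6 x hx

/-- **`R` is a polynomial in its line** (only `q`, `I`, `J` nonzero is used) -/
theorem polR' (hθ : θ ^ 8 = -1) (τ : Bool) {q g : ℂ} (I J : List ℂ)
    (h0 : ∀ x ∈ q :: g :: (I ++ J), x ≠ 0) :
    Pl (I.length + J.length) fun p => (gasF θ χ τ q g).R I J p := by
  have key : ∀ e, Cmp (fl I) e → ∀ f, Cmp (En τ q g ++ fl J) f →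
      Pl (I.length + J.length) (fun p => tm θ χ 0 0 0 (-1) ((p, .ro) :: e) f) := by
    intro e he f hf
    obtain ⟨n2, hm⟩ := hf.En
    have n1 := tn_cI he
    have hI : ∀ c ∈ e, c.1 ≠ 0 ∧ c.2 ∈ Ty.F.st := by
      intro c hc
      obtain ⟨t, ht, h1, h2⟩ := he.mem hc
      unfold fl at ht
      obtain ⟨x, hx, rfl⟩ := List.mem_map.1 ht
      exact ⟨by rw [h1]; exact h0 _ (by simp [hx]), h2⟩
    have hJ : ∀ c ∈ f, c.1 ≠ 0 ∧ (c.2 ∈ Ty.F.st ∨ c.2 = .ro ∨
        c.2 = .re ∨ c.2 = .rE ∨ c.2 = .lo ∨ c.2 = .le ∨ c.2 = .lE) := by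
      intro c hc
      obtain ⟨h1, h2⟩ := hm c hc
      refine ⟨h0 _ ?_, h2⟩
      simp only [List.mem_cons, List.mem_append] at h1 ⊢
      tauto
    have hP := (Pl.ow1 hθ hI).mul (Pl.cr1 hθ hJ)
    by_cases hz : tm θ χ (0 + mk .ro) 0 (0 + ch .ro) (-1 + nl .ro) e f = 0
    · refine (Pl.zero _).congr fun p _ => ?_
      rw [tm_cons_left, hz, mul_zero]
    · have hc : (0 + mk .ro) + tt mk e = 0 ∧ 0 + tt mk f = 0 ∧ (0 + ch .ro) + tt ch e = tt ch f := by
        by_contra hcon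
        exact hz (if_neg hcon)
      obtain ⟨c1, c2, c3⟩ := hc
      simp only [mk, ch, zero_add, add_zero] at c1 c2 c3
      have hN : tn cI e + tn cJ f = I.length + J.length := by
        have : (2 * (tn cI e : ℤ)) + 2 * (tn cJ f : ℤ) = 2 * I.length + 2 * J.length := by
          rw [n1, n2]; linarith
        omega
      rw [hN] at hP
      refine (hP.mul_const (tm θ χ (0 + mk .ro) 0 (0 + ch .ro) (-1 + nl .ro) e f)).congr
        fun p _ => ?_
      rw [tm_cons_left]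
      simp only [w1, one_mul]
  have h1 : Pl (I.length + J.length) (fun p => NUTP.sn θ 1 1 * sm (fl I) fun e =>
      sm (En τ q g ++ fl J) fun f => tm θ χ 0 0 0 (-1) ((p, .ro) :: e) f) :=
    (Pl.sm fun e he => Pl.sm fun f hf => key e he f hf).const_mul _
  refine h1.congr fun p _ => ?_
  change gas θ χ ((p, .ro) :: fl I) (En τ q g ++ fl J) = _
  unfold gas
  rw [sm_ro]

lemma ne_of_G {S : List ℂ} (h : G θ S) : ∀ x ∈ S, x ≠ 0 := by
  intro x hx
  have := h.1 (x ^ 2) (List.mem_map.2 ⟨x, hx, rfl⟩)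
  exact fun h0 => this (by rw [h0]; ring)

/-- **field `polR`**, degree and polynomial -/
theorem polR (hθ : θ ^ 8 = -1) (τ : Bool) {q g : ℂ} (I J : List ℂ) (h : G θ (q :: g :: (I ++ J))) :
    ∃ P : ℂ[X], P.natDegree ≤ I.length + J.length ∧
      ∀ p, p ≠ 0 → p ^ (I.length + J.length) * (gasF θ χ τ q g).R I J p = P.eval (p ^ 2) :=
  polR' hθ τ I J (ne_of_G h)

end NUTP.Gas

end
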