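import Pool.Agent.NUTP.Gas.UDred
import Pool.Agent.NUTP.Gas.Nil
import Pool.Agent.NUTP.Gas.Node
import Pool.Agent.NUTP.Gas.PolR
import Pool.Agent.NUTP.Gas.PolER
import Pool.Agent.NUTP.Gas.EOval
import Pool.Agent.NUTP.Gas.Exch

/-!
# The gas has all the properties `Data`
-/

set_option autoImplicit false

open Polynomial

noncomputable section

namespace NUTP.Gas

/-- the field `polOEo` of `Xp` -/
def POEo (θ χ : ℂ) (τ : Bool) (q g : ℂ) : Prop :=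
  ∀ (I J : List ℂ) (b : ℂ), G θ (b :: q :: g :: (I ++ J)) → ∃ P : ℂ[X],
    ∀ a, Gd θ a (b :: q :: g :: (I ++ J)) →
      a ^ (I.length + J.length + 1) * (gasF θ χ τ q g).OE I J a b = P.eval (a ^ 2)

theorem xp_of {θ χ : ℂ} (hθ : θ ^ 8 = -1) (hχ : χ ≠ 0) {τ : Bool} {q g : ℂ} (h1 : POEo θ χ τ q g)
    (h : As.UDc θ χ τ q g) (hi : As.UDc θ⁻¹ χ⁻¹ τ q g) (hm : As.UDc θ⁻¹ χ⁻¹ (!τ) g q) :
    As.Xp θ χ τ q g where
  polR I J hG := polR hθ τ I J hG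
  polEO I J b hG := polEO hθ τ I J hG
  polER I J h hG := polER hθ τ I J hG
  polOEo := h1
  nR I J x hG := R_node τ hθ hχ hG
  nOE I J x b hG := OE_node τ hθ hχ hG
  nEO I J x b hG := EO_node τ hθ hχ hG
  nER I J x h hG := ER_node τ hθ hχ hG
  zEO I J b hG := gasF_EO_zero hθ τ q g I J hG.ne0
  fEO I J b hG := gasF_EO_fuse hθ τ q g I J hG
  ex1 I J a b hG := Ex.gasF_ex1 hθ χ τ q g I J a b hG
  ex2 I J a b hG := Ex.gasF_ex2 hθ χ τ q g I J a b hG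
  uR := h.uR
  uL := (As.UDc.rest hθ hi hm).1
  uOE := h.uOE
  uEO := (As.UDc.rest hθ hi hm).2.1
  uOE' := (As.UDc.rest hθ hi hm).2.2.1
  uRE := (As.UDc.rest hθ hi hm).2.2.2
  uER := h.uER

/-- **Data** from the last two pieces -/
theorem data_of (hO : ∀ (θ χ : ℂ) (τ : Bool) (q g : ℂ), θ ^ 8 = -1 → χ ≠ 0 → POEo θ χ τ q g)
    (hU : ∀ (θ χ : ℂ) (τ : Bool) (q g : ℂ), θ ^ 8 = -1 → χ ≠ 0 → As.UDc θ χ τ q g)
    {θ χ : ℂ} (hθ : θ ^ 8 = -1) (hχ : χ ≠ 0) (q g : ℂ) : Data θ χ q g (gasF θ χ true q g) := by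
  have hX : ∀ (θ χ : ℂ) (τ : Bool) (q g : ℂ), θ ^ 8 = -1 → χ ≠ 0 → As.Xp θ χ τ q g :=
    fun θ χ τ q g hθ hχ => xp_of hθ hχ (hO θ χ τ q g hθ hχ) (hU θ χ τ q g hθ hχ)
      (hU θ⁻¹ χ⁻¹ τ q g (th_inv8 hθ) (inv_ne_zero hχ))
      (hU θ⁻¹ χ⁻¹ (!τ) g q (th_inv8 hθ) (inv_ne_zero hχ))
  have hH : ∀ (θ χ : ℂ) (τ : Bool) (q g : ℂ), θ ^ 8 = -1 → χ ≠ 0 →
      Half θ χ q g (gasF θ χ τ q g) := fun θ χ τ q g hθ hχ =>
    As.half_of hθ (hX θ χ τ q g hθ hχ) (hX θ⁻¹ χ⁻¹ τ q g (th_inv8 hθ) (inv_ne_zero hχ))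
  exact {
    right := hH θ χ true q g hθ hχ
    left := by
      rw [gasF_mir hθ]
      exact hH θ⁻¹ χ⁻¹ false g q (th_inv8 hθ) (inv_ne_zero hχ)
    R0 := fun p _ => gasF_R0 q g p
    L0 := fun p _ => gasF_L0 q g p
    OE0 := fun a b hG => gasF_OE0 hθ (hG.mem_ne0 (by simp)) (hG.mem_ne0 (by simp))
      (As.sn_ne_of_sep hθ hG.ne0 (hG.mem_ne0 (by simp)) (G.sep' hG (by simp)) 0)
    EO0 := fun a b _ => gasF_EO0 hθ q g a b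
    OE'0 := fun a b _ => gasF_OE'0 q g a b
    EO'0 := fun a b _ => gasF_EO'0 q g a b
    RE0 := fun p h _ => gasF_RE0 hθ q g p h
    ER0 := fun r h _ => gasF_ER0 q g r h }

end NUTP.Gas

end
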