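import Pool.Agent.NUTP.Gas.Base
import Pool.Agent.NUTG.Cur

/-!
# The sum over the position of the mark = the current (one empty line on the right)

World `f` = the empty line `t` and objects of the types `F`, `ro`, `lo`; `e` = unmarked states of these
objects.  `marks e` = all ways to put a mark on a full line.  `objs e f` = the objects seen by the current of
`t` in the sense of `NUTG.Cur`.
-/

set_option autoImplicit false

open Polynomial

noncomputable section

namespace NUTP.Gas

open NUTG

/-! ### sums over the states -/

/-- unmarked states -/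
def Ty.us : Ty → List K
  | .F => [.p, .z, .n]
  | .ro => [.ro]
  | .rb => [.rb]
  | .re => [.re]
  | .lo => [.lo]
  | .lb => [.lb]
  | .le => [.le]

/-- sum over the unmarked states -/
def usm {M : Type*} [AddCommMonoid M] : List (ℂ × Ty) → (Cf → M) → M
  | [], φ => φ []
  | t :: X, φ => (t.2.us.map fun k => usm X fun e => φ ((t.1, k) :: e)).sum

/-- the marked state -/
def mkd : K → Option K
  | .p => some .a
  | .z => some .b
  | _ => none

/-- all configurations with one mark -/
def marks : Cf → List Cf
  | [] => []
  | c :: e => ((mkd c.2).toList.map fun k => (c.1, k) :: e) ++ (marks e).map (c :: ·)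

/-- kind of an object of world `f`, seen by a right current of world `f` -/
def kf : K → Option Kd
  | .p => some .A
  | .z => some .B
  | .n => some .C
  | .ro => some .E
  | .rb => some .A
  | _ => none

/-- kind of an object of world `g`, seen by a right current of world `f` -/
def kg : K → Option Kd
  | .p => some .C
  | .z => some .D
  | .n => some .E
  | .a => some .D
  | .b => some .E
  | .ro => some .C
  | .re => some .C
  | .rE => some .D
  | _ => none

/-- objects of a list seen through `g : K → Option Kd` -/
def ob (g : K → Option Kd) (e : Cf) : List (Kd × ℂ) :=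
  e.filterMap fun c => (g c.2).map fun κ => (κ, c.1)

/-- the objects seen by the right current of world `f` -/
def obs (e f : Cf) : List (Kd × ℂ) := ob kf e ++ ob kg f

/-- types of the objects next to the empty line -/
def Fr (X : List (ℂ × Ty)) : Prop := ∀ t ∈ X, t.2 = .F ∨ t.2 = .ro ∨ t.2 = .lo

section sums

variable {M : Type*} [AddCommMonoid M]

lemma sum_map_zero' {α : Type*} (l : List α) : (l.map fun _ => (0 : M)).sum = 0 := by
  induction l with
  | nil => rfl
  | cons k l ih => simp

lemma sum_map_add' {α : Type*} (l : List α) (f g : α → M) :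
    (l.map fun x => f x + g x).sum = (l.map f).sum + (l.map g).sum := by
  induction l with
  | nil => simp
  | cons k l ih =>
    simp only [List.map_cons, List.sum_cons, ih]
    abel

lemma usm_add (X : List (ℂ × Ty)) (φ ψ : Cf → M) :
    usm X (fun e => φ e + ψ e) = usm X φ + usm X ψ := by
  induction X generalizing φ ψ with
  | nil => rfl
  | cons t X ih =>
    simp only [usm, ih]
    exact sum_map_add' _ _ _

lemma usm_zero' (X : List (ℂ × Ty)) : usm X (fun _ => (0 : M)) = 0 := by
  induction X with
  | nil => rfl
  | cons t X ih =>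
    simp only [usm, ih]
    exact sum_map_zero' _

/-- the positions of the configurations -/
def On (X : List (ℂ × Ty)) (e : Cf) : Prop := e.map Prod.fst = X.map Prod.fst

/-- unmarked states only -/
def Un (e : Cf) : Prop := ∀ c ∈ e, c.2 = .p ∨ c.2 = .z ∨ c.2 = .n ∨ c.2 = .ro ∨ c.2 = .lo

lemma usm_congr_on {X : List (ℂ × Ty)} (hX : Fr X) {φ ψ : Cf → M}
    (h : ∀ e, On X e → Un e → φ e = ψ e) : usm X φ = usm X ψ := by
  induction X generalizing φ ψ with
  | nil => exact h [] rfl (fun c hc => absurd hc (by simp))
  | cons t X ih =>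
    simp only [usm]
    congr 1
    refine List.map_congr_left fun k hk => ih (fun c hc => hX c (List.mem_cons_of_mem _ hc))
      fun e he hu => h _ ?_ ?_
    · simp only [On, List.map_cons] at he ⊢
      rw [he]
    · intro c hc
      rcases List.mem_cons.1 hc with rfl | hc
      · rcases hX t List.mem_cons_self with ht | ht | ht <;> rw [ht] at hk <;>
          simp only [Ty.us, List.mem_cons, List.not_mem_nil, or_false] at hk <;> tauto
      · exact hu c hc

lemma shift {t : ℂ × Ty} {X : List (ℂ × Ty)} {k : K} {j j' : ℤ} (h : j = mk k + j') (φ : Cf → M) :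
    sm X (fun e => if tt mk ((t.1, k) :: e) = j then φ ((t.1, k) :: e) else 0) =
      sm X (fun e => if tt mk e = j' then φ ((t.1, k) :: e) else 0) := by
  refine sm_congr' fun e => ?_
  by_cases h1 : tt mk e = j'
  · rw [if_pos h1, if_pos (by rw [tt_cons, h, h1])]
  · rw [if_neg h1, if_neg (by rw [tt_cons, h]; simpa using h1)]

/-- the marks are nonnegative -/
lemma sm_mkneg {X : List (ℂ × Ty)} (hX : Fr X) (j : ℤ) (hj : j < 0) (φ : Cf → M) :
    sm X (fun e => if tt mk e = j then φ e else 0) = 0 := by
  induction X generalizing φ j with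
  | nil => exact if_neg (by simp only [tt_nil]; omega)
  | cons t X ih =>
    have hX' : Fr X := fun c hc => hX c (List.mem_cons_of_mem _ hc)
    have key : ∀ k : K, 0 ≤ mk k → sm X (fun e => if tt mk ((t.1, k) :: e) = j then
        φ ((t.1, k) :: e) else 0) = 0 := by
      intro k hk
      rw [shift (j' := j - mk k) (by ring)]
      exact ih hX' (j - mk k) (by omega) _
    simp only [sm]
    rcases hX t List.mem_cons_self with ht | ht | ht <;>
      · simp only [ht, Ty.st, List.map_cons, List.map_nil, List.sum_cons, List.sum_nil]
        simp only [key _ (show (0 : ℤ) ≤ mk .p by decide), key _ (show (0 : ℤ) ≤ mk .z by decide),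
          key _ (show (0 : ℤ) ≤ mk .n by decide), key _ (show (0 : ℤ) ≤ mk .a by decide),
          key _ (show (0 : ℤ) ≤ mk .b by decide), key _ (show (0 : ℤ) ≤ mk .ro by decide),
          key _ (show (0 : ℤ) ≤ mk .lo by decide), add_zero]

/-- no mark -/
lemma sm_mark0 {X : List (ℂ × Ty)} (hX : Fr X) (φ : Cf → M) :
    sm X (fun e => if tt mk e = 0 then φ e else 0) = usm X φ := by
  induction X generalizing φ with
  | nil => rfl
  | cons t X ih =>
    have hX' : Fr X := fun c hc => hX c (List.mem_cons_of_mem _ hc)
    have k0 : ∀ k : K, mk k = 0 → sm X (fun e => if tt mk ((t.1, k) :: e) = 0 then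
        φ ((t.1, k) :: e) else 0) = usm X fun e => φ ((t.1, k) :: e) := by
      intro k hk
      rw [shift (j' := 0) (by rw [hk]; rfl)]
      exact ih hX' _
    have k1 : ∀ k : K, mk k = 1 → sm X (fun e => if tt mk ((t.1, k) :: e) = 0 then
        φ ((t.1, k) :: e) else 0) = 0 := by
      intro k hk
      rw [shift (j' := -1) (by rw [hk]; rfl)]
      exact sm_mkneg hX' _ (by norm_num) _
    simp only [sm, usm]
    rcases hX t List.mem_cons_self with ht | ht | ht
    · simp only [ht, Ty.st, Ty.us, List.map_cons, List.map_nil, List.sum_cons, List.sum_nil,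
        k0 .p rfl, k0 .z rfl, k0 .n rfl, k1 .a rfl, k1 .b rfl, add_zero]
    · simp only [ht, Ty.st, Ty.us, List.map_cons, List.map_nil, List.sum_cons, List.sum_nil,
        k0 .ro rfl]
    · simp only [ht, Ty.st, Ty.us, List.map_cons, List.map_nil, List.sum_cons, List.sum_nil,
        k0 .lo rfl]

/-- one mark -/
lemma sm_mark1 {X : List (ℂ × Ty)} (hX : Fr X) (φ : Cf → M) :
    sm X (fun e => if tt mk e = 1 then φ e else 0) = usm X (fun e => ((marks e).map φ).sum) := by
  induction X generalizing φ with
  | nil => rfl
  | cons t X ih =>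
    have hX' : Fr X := fun c hc => hX c (List.mem_cons_of_mem _ hc)
    have k0 : ∀ k : K, mk k = 0 → sm X (fun e => if tt mk ((t.1, k) :: e) = 1 then
        φ ((t.1, k) :: e) else 0) = usm X fun e => ((marks e).map fun e' => φ ((t.1, k) :: e')).sum := by
      intro k hk
      rw [shift (j' := 1) (by rw [hk]; rfl)]
      exact ih hX' _
    have k1 : ∀ k : K, mk k = 1 → sm X (fun e => if tt mk ((t.1, k) :: e) = 1 then
        φ ((t.1, k) :: e) else 0) = usm X fun e => φ ((t.1, k) :: e) := by
      intro k hk
      rw [shift (j' := 0) (by rw [hk]; rfl)]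
      exact sm_mark0 hX' _
    have e1 : ∀ (k : K) (e : Cf), ((marks ((t.1, k) :: e)).map φ).sum =
        ((mkd k).toList.map fun k' => φ ((t.1, k') :: e)).sum +
          ((marks e).map fun e' => φ ((t.1, k) :: e')).sum := by
      intro k e
      simp only [marks, List.map_append, List.sum_append, List.map_map, Function.comp_def]
    simp only [sm, usm, e1, usm_add]
    rcases hX t List.mem_cons_self with ht | ht | ht
    · simp only [ht, Ty.st, Ty.us, List.map_cons, List.map_nil, List.sum_cons, List.sum_nil,
        k0 .p rfl, k0 .z rfl, k0 .n rfl, k1 .a rfl, k1 .b rfl, add_zero, mkd,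
        Option.toList, usm_zero']
      abel
    · simp only [ht, Ty.st, Ty.us, List.map_cons, List.map_nil, List.sum_cons, List.sum_nil,
        k0 .ro rfl, add_zero, mkd, Option.toList, usm_zero', zero_add]
    · simp only [ht, Ty.st, Ty.us, List.map_cons, List.map_nil, List.sum_cons, List.sum_nil,
        k0 .lo rfl, add_zero, mkd, Option.toList, usm_zero', zero_add]

/-- the marks in terms of `foc` -/
lemma marks_foc {e : Cf} {Φ : Cf → M} {Ψ : ℂ × K → Cf → M}
    (h : ∀ A B c k', e = A ++ c :: B → mkd c.2 = some k' →
      Φ (A ++ (c.1, k') :: B) = Ψ (c.1, k') (A ++ B)) :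
    ((marks e).map Φ).sum =
      ((foc e).map fun p => (mkd p.1.2).elim 0 fun k' => Ψ (p.1.1, k') p.2).sum := by
  induction e generalizing Φ Ψ with
  | nil => rfl
  | cons c e ih =>
    simp only [marks, foc, List.map_append, List.sum_append, List.map_cons, List.sum_cons,
      List.map_map, Function.comp_def]
    congr 1
    · rcases hk : mkd c.2 with _ | k'
      · simp
      · simpa using h [] e c k' rfl hk
    · exact ih (Φ := fun e' => Φ (c :: e')) (Ψ := fun q r => Ψ q (c :: r))
        fun A B d k' he hk => h (c :: A) B d k' (by rw [he]; rfl) hk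

/-- `foc` of a `filterMap` -/
lemma foc_filterMap {α β : Type*} (g : α → Option β) (L : List α) (Ψ : β → List β → M) :
    ((foc (L.filterMap g)).map fun p => Ψ p.1 p.2).sum =
      ((foc L).map fun p => (g p.1).elim 0 fun o => Ψ o (p.2.filterMap g)).sum := by
  induction L generalizing Ψ with
  | nil => rfl
  | cons x L ih =>
    rcases hx : g x with _ | y
    · rw [List.filterMap_cons_none hx, ih]
      simp only [foc, List.map_cons, List.sum_cons, List.map_map, Function.comp_def, hx,
        Option.elim_none, zero_add]
      congr 1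
      refine List.map_congr_left fun p _ => ?_
      rw [List.filterMap_cons_none hx]
    · rw [List.filterMap_cons_some hx]
      simp only [foc, List.map_cons, List.sum_cons, List.map_map, Function.comp_def, hx,
        Option.elim_some]
      congr 1
      rw [ih (Ψ := fun o r => Ψ o (y :: r))]
      congr 1
      refine List.map_congr_left fun p _ => ?_
      rw [List.filterMap_cons_some hx]

end sums

/-- product over `ob g e` -/
lemma prod_ob (g : K → Option Kd) (e : Cf) (F : Kd → ℂ → ℂ) :
    ((ob g e).map fun o => F o.1 o.2).prod =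
      (e.map fun c => (g c.2).elim 1 fun κ => F κ c.1).prod := by
  unfold ob
  induction e with
  | nil => rfl
  | cons c e ih =>
    rcases hx : g c.2 with _ | κ
    · rw [List.filterMap_cons_none (by rw [hx]; rfl), ih]
      simp [hx]
    · rw [List.filterMap_cons_some (by rw [hx]; rfl)]
      simp only [List.map_cons, List.prod_cons, ih, hx, Option.elim_some]

/-- sum over `ob g e` -/
lemma sum_ob (g : K → Option Kd) (e : Cf) (F : Kd → ℤ) :
    ((ob g e).map fun o => F o.1).sum = (e.map fun c => (g c.2).elim 0 F).sum := by
  unfold ob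
  induction e with
  | nil => rfl
  | cons c e ih =>
    rcases hx : g c.2 with _ | κ
    · rw [List.filterMap_cons_none (by rw [hx]; rfl), ih]
      simp [hx]
    · rw [List.filterMap_cons_some (by rw [hx]; rfl)]
      simp only [List.map_cons, List.sum_cons, ih, hx, Option.elim_some]

lemma mem_ob {g : K → Option Kd} {e : Cf} {o : Kd × ℂ} :
    o ∈ ob g e ↔ ∃ c ∈ e, g c.2 = some o.1 ∧ o.2 = c.1 := by
  unfold ob
  rw [List.mem_filterMap]
  constructor
  · rintro ⟨c, hc, h⟩
    obtain ⟨κ, hκ, rfl⟩ := Option.map_eq_some_iff.1 h
    exact ⟨c, hc, hκ, rfl⟩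
  · rintro ⟨c, hc, h1, h2⟩
    exact ⟨c, hc, by rw [h1, Option.map_some, ← h2]⟩

end NUTP.Gas

end
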