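import Pool.Agent.NUTP.Gas.GasRe

/-!
# From the states to the objects of `NUTG.Cur`: the weights; the occupied line below an empty one
-/

set_option autoImplicit false

noncomputable section

namespace NUTP.Gas

namespace Rb

open NUTG (Kd vf nf df wm me mo curc foc Sp th_ne foc_mem foc_mem_rest foc_perm_cons foc_append)

variable {θ χ : ℂ}

/-- position of the mark, general table of kinds -/
def wks (θ : ℂ) (s : K → Option Kd) (p : ℂ × K) : ℂ := (s p.2).elim p.1 fun κ => wm θ κ p.1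

lemma ow1_fac {x : ℂ} {k l : K} {e : Cf} (ρ : ℂ × K → ℂ)
    (h : ∀ c ∈ e, own θ k c.2 (x / c.1) = own θ l c.2 (x / c.1) * ρ c) :
    ow1 θ x k e = ow1 θ x l e * (e.map ρ).prod := by
  unfold ow1
  rw [← List.prod_map_mul]
  congr 1
  exact List.map_congr_left fun c hc => h c hc

lemma cr1_fac {x : ℂ} {k l : K} {e : Cf} (ρ : ℂ × K → ℂ)
    (h : ∀ c ∈ e, crs θ k c.2 (x / c.1) = crs θ l c.2 (x / c.1) * ρ c) :
    cr1 θ x k e = cr1 θ x l e * (e.map ρ).prod := by
  unfold cr1
  rw [← List.prod_map_mul]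
  congr 1
  exact List.map_congr_left fun c hc => h c hc

lemma ow1_val {x : ℂ} {k : K} {e : Cf} (ρ : ℂ × K → ℂ)
    (h : ∀ c ∈ e, own θ k c.2 (x / c.1) = ρ c) : ow1 θ x k e = (e.map ρ).prod := by
  unfold ow1
  congr 1
  exact List.map_congr_left fun c hc => h c hc

lemma cr1_val {x : ℂ} {k : K} {e : Cf} (ρ : ℂ × K → ℂ)
    (h : ∀ c ∈ e, crs θ k c.2 (x / c.1) = ρ c) : cr1 θ x k e = (e.map ρ).prod := by
  unfold cr1
  congr 1
  exact List.map_congr_left fun c hc => h c hc

/-- **sum over the position of the mark = the current** -/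
theorem core (hθ : θ ^ 8 = -1) (s : K → Option Kd) (T : K) (μ : Kd → ℂ → ℂ → ℂ) (e f : Cf) (t : ℂ)
    (h1 : ∀ c ∈ e, own θ (mark T) c.2 (t / c.1) =
      (s c.2).elim 1 fun κ => nf θ κ c.1 t / df θ κ c.1 t)
    (h2 : ∀ c ∈ e, own θ T c.2 (t / c.1) = (s c.2).elim 1 fun κ => vf θ κ c.1 t)
    (h3 : ∀ c ∈ e, hm c.2 = true → w1 θ (mark c.2) * own θ T (mark c.2) (t / c.1) =
      w1 θ c.2 * -((s c.2).elim 0 fun κ => μ κ c.1 t / df θ κ c.1 t))
    (h4 : ∀ c ∈ e, hm c.2 = false → ∀ κ, s c.2 = some κ → μ κ c.1 t = 0)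
    (h5 : ∀ c ∈ e, hm c.2 = true → s c.2 ≠ none)
    (g1 : ∀ c ∈ f, crs θ (mark T) c.2 (t / c.1) =
      (kg c.2).elim 1 fun κ => nf θ κ c.1 t / df θ κ c.1 t)
    (g2 : ∀ c ∈ f, crs θ T c.2 (t / c.1) = (kg c.2).elim 1 fun κ => vf θ κ c.1 t)
    (g4 : ∀ c ∈ f, ∀ κ, kg c.2 = some κ → μ κ c.1 t = 0)
    (k1 : ∀ p ∈ foc e, hm p.1.2 = true → ∀ c ∈ p.2, own θ (mark p.1.2) c.2 (p.1.1 / c.1) =
      own θ p.1.2 c.2 (p.1.1 / c.1) * fw θ (wks θ s p.1) s c)
    (k2 : ∀ p ∈ e, hm p.2 = true → ∀ c ∈ f, crs θ (mark p.2) c.2 (p.1 / c.1) =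
      crs θ p.2 c.2 (p.1 / c.1) * fw θ (wks θ s p) kg c) :
    ow1 θ t (mark T) e * cr1 θ t (mark T) f * (ow θ e * ow θ f * cr θ e f) +
      ((foc e).map fun p => if hm p.1.2 then
        ow1 θ t T ((p.1.1, mark p.1.2) :: p.2) * cr1 θ t T f *
          (ow θ ((p.1.1, mark p.1.2) :: p.2) * ow θ f * cr θ ((p.1.1, mark p.1.2) :: p.2) f)
        else 0).sum =
      (ow θ e * ow θ f * cr θ e f) * curc θ μ (ob s e ++ ob kg f) t := by
  unfold curc
  rw [mul_sub, sub_eq_add_neg]
  congr 1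
  · rw [ow1_val _ h1, cr1_val _ g1, List.map_append, List.prod_append,
      prod_ob s e (fun κ c => nf θ κ c t / df θ κ c t),
      prod_ob kg f (fun κ c => nf θ κ c t / df θ κ c t)]
    ring
  · rw [foc_append, List.map_append, List.sum_append]
    have hz : ((List.map (fun p => (p.1, ob s e ++ p.2)) (foc (ob kg f))).map fun p =>
        μ p.1.1 p.1.2 t / df θ p.1.1 p.1.2 t *
          (p.2.map fun o => vf θ o.1 o.2 t * NUTG.ff θ o.1 o.2 (wm θ p.1.1 p.1.2)).prod).sum = 0 := by
      apply List.sum_eq_zero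
      intro x hx
      rw [List.map_map] at hx
      obtain ⟨p, hp, rfl⟩ := List.mem_map.1 hx
      obtain ⟨c, hc, hκ, hc2⟩ := mem_ob.1 (foc_mem hp)
      have := g4 c hc _ hκ
      simp only [Function.comp_def]
      rw [hc2, this, zero_div, zero_mul]
    rw [hz, add_zero, List.map_map]
    have hfo := foc_filterMap (fun c : ℂ × K => (s c.2).map fun κ => (κ, c.1)) e
      (fun o r => μ o.1 o.2 t / df θ o.1 o.2 t *
          ((r ++ ob kg f).map fun o' => vf θ o'.1 o'.2 t * NUTG.ff θ o'.1 o'.2 (wm θ o.1 o.2)).prod)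
    simp only [Function.comp_def]
    change _ = -((ow θ e * ow θ f * cr θ e f) *
      ((foc (e.filterMap fun c : ℂ × K => (s c.2).map fun κ => (κ, c.1))).map fun p =>
        μ p.1.1 p.1.2 t / df θ p.1.1 p.1.2 t *
          ((p.2 ++ ob kg f).map fun o' => vf θ o'.1 o'.2 t *
            NUTG.ff θ o'.1 o'.2 (wm θ p.1.1 p.1.2)).prod).sum)
    rw [hfo, ← neg_mul, ← List.sum_map_mul_left]
    congr 1
    refine List.map_congr_left fun p hp => ?_
    have hpe := foc_perm_cons hp
    have hp1 := foc_mem hp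
    by_cases hk : hm p.1.2 = true
    · rw [if_pos hk]
      obtain ⟨κ, hκ⟩ := Option.ne_none_iff_exists'.1 (h5 _ hp1 hk)
      have e1 : ow1 θ t T ((p.1.1, mark p.1.2) :: p.2) =
          own θ T (mark p.1.2) (t / p.1.1) * ow1 θ t T p.2 := ow1_cons _ _ _ _
      have e2 : ow θ ((p.1.1, mark p.1.2) :: p.2) =
          w1 θ (mark p.1.2) * ow1 θ p.1.1 (mark p.1.2) p.2 * ow θ p.2 := rfl
      have e3 : ow θ e = w1 θ p.1.2 * ow1 θ p.1.1 p.1.2 p.2 * ow θ p.2 := by
        rw [ow_perm hθ hpe]; rfl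
      have e4 : cr θ e f = cr1 θ p.1.1 p.1.2 f * cr θ p.2 f := by
        rw [cr_perm_left hpe, cr_cons_left]
      have e5 := ow1_fac (θ := θ) (x := p.1.1) (fun c => fw θ (wks θ s p.1) s c) (k1 p hp hk)
      have e6 := cr1_fac (θ := θ) (x := p.1.1) (fun c => fw θ (wks θ s p.1) kg c) (k2 _ hp1 hk)
      have e7 : ow1 θ t T p.2 = (p.2.map fun c => (s c.2).elim 1 fun κ => vf θ κ c.1 t).prod :=
        ow1_val _ fun c hc => h2 c (foc_mem_rest hp hc)
      have e8 := cr1_val (θ := θ) (x := t) _ g2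
      have e9 := h3 _ hp1 hk
      rw [hκ] at e9 ⊢
      simp only [Option.map_some, Option.elim_some] at e9 ⊢
      have ewk : wks θ s p.1 = wm θ κ p.1.1 := by unfold wks; rw [hκ]; rfl
      have a1 := prod_ob s p.2 (fun κ' c => vf θ κ' c t * NUTG.ff θ κ' c (wm θ κ p.1.1))
      have a2 := prod_ob kg f (fun κ' c => vf θ κ' c t * NUTG.ff θ κ' c (wm θ κ p.1.1))
      have a3 : (p.2.map fun c => (s c.2).elim 1 fun κ' => vf θ κ' c.1 t *
          NUTG.ff θ κ' c.1 (wm θ κ p.1.1)).prod =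
          (p.2.map fun c => (s c.2).elim 1 fun κ => vf θ κ c.1 t).prod *
            (p.2.map fun c => fw θ (wks θ s p.1) s c).prod := by
        rw [← List.prod_map_mul]
        congr 1
        refine List.map_congr_left fun c _ => ?_
        unfold fw
        rw [ewk]
        cases s c.2 <;> simp
      have a4 : (f.map fun c => (kg c.2).elim 1 fun κ' => vf θ κ' c.1 t *
          NUTG.ff θ κ' c.1 (wm θ κ p.1.1)).prod =
          (f.map fun c => (kg c.2).elim 1 fun κ => vf θ κ c.1 t).prod *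
            (f.map fun c => fw θ (wks θ s p.1) kg c).prod := by
        rw [← List.prod_map_mul]
        congr 1
        refine List.map_congr_left fun c _ => ?_
        unfold fw
        rw [ewk]
        cases kg c.2 <;> simp
      rw [List.map_append, List.prod_append]
      rw [show (List.map (fun o' => vf θ o'.1 o'.2 t * NUTG.ff θ o'.1 o'.2 (wm θ κ p.1.1))
        (p.2.filterMap fun c : ℂ × K => (s c.2).map fun κ => (κ, c.1))).prod =
        ((ob s p.2).map fun o => vf θ o.1 o.2 t * NUTG.ff θ o.1 o.2 (wm θ κ p.1.1)).prod from rfl]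
      rw [a1, a2, a3, a4, cr_cons_left, e1, e2, e3, e4, e5, e6, e7, e8]
      linear_combination ((p.2.map fun c => (s c.2).elim 1 fun κ => vf θ κ c.1 t).prod *
        (f.map fun c => (kg c.2).elim 1 fun κ => vf θ κ c.1 t).prod *
        ow1 θ p.1.1 p.1.2 p.2 * (p.2.map fun c => fw θ (wks θ s p.1) s c).prod *
        ow θ p.2 * ow θ f * cr1 θ p.1.1 p.1.2 f * (f.map fun c => fw θ (wks θ s p.1) kg c).prod *
        cr θ p.2 f) * e9
    · rw [if_neg hk]
      have hk' : hm p.1.2 = false := by simpa using hk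
      cases hs : s p.1.2 with
      | none => simp
      | some κ =>
        have := h4 _ hp1 hk' κ hs
        simp only [Option.elim, Option.map_some, this, zero_div, zero_mul, mul_zero]

/-! ### the occupied line below an empty one -/

/-- full unmarked states only -/
def Ful (e : Cf) : Prop := ∀ c ∈ e, c.2 = .p ∨ c.2 = .z ∨ c.2 = .n

lemma usm_ful {M : Type*} [AddCommMonoid M] {I : List ℂ} {φ ψ : Cf → M}
    (h : ∀ e, On (fl I) e → Ful e → φ e = ψ e) : usm (fl I) φ = usm (fl I) ψ := by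
  induction I generalizing φ ψ with
  | nil => exact h [] rfl (fun c hc => absurd hc (by simp))
  | cons x I ih =>
    simp only [fl, List.map_cons, usm]
    congr 1
    refine List.map_congr_left fun k hk => ih fun e he hu => h _ ?_ ?_
    · simp only [On, fl, List.map_cons] at he ⊢
      rw [he]
    · intro c hc
      rcases List.mem_cons.1 hc with rfl | hc
      · simpa [Ty.us] using hk
      · exact hu c hc

lemma Ful.mk {e : Cf} (h : Ful e) : tt mk e = 0 := by
  induction e with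
  | nil => rfl
  | cons c e ih =>
    rw [tt_cons, ih fun d hd => h d (List.mem_cons_of_mem _ hd)]
    rcases h c List.mem_cons_self with h' | h' | h' <;> rw [h'] <;> rfl

lemma Ful.nl {e : Cf} (h : Ful e) : tt nl e = 0 := by
  induction e with
  | nil => rfl
  | cons c e ih =>
    rw [tt_cons, ih fun d hd => h d (List.mem_cons_of_mem _ hd)]
    rcases h c List.mem_cons_self with h' | h' | h' <;> rw [h'] <;> rfl

lemma Ful.ob {e : Cf} (h : Ful e) : ob kfo e = ob kf e := by
  unfold NUTP.Gas.ob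
  refine List.filterMap_congr fun c hc => ?_
  rcases h c hc with h' | h' | h' <;> rw [h'] <;> rfl

lemma cmp_pos {Y : List (ℂ × Ty)} {f : Cf} (hf : Cmp Y f) {c : ℂ × K} (hc : c ∈ f) :
    ∃ t ∈ Y, c.1 = t.1 := by
  obtain ⟨t, ht, h1, _⟩ := hf.mem hc
  exact ⟨t, ht, h1⟩

lemma tm_if (i j q m : ℤ) (e f : Cf) : tm θ χ i j q m e f =
    if i + tt mk e = 0 then tm θ χ i j q m e f else 0 := by
  by_cases h : i + tt mk e = 0
  · rw [if_pos h]
  · rw [if_neg h]; unfold tm; rw [if_neg fun h' => h h'.1]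

/-- the pointwise identity -/
lemma rb_point (hθ : θ ^ 8 = -1) {a b : ℂ} {e f : Cf} (he : Ful e) (hf : ∀ c ∈ f, sg c.2)
    (hb0 : b ≠ 0) (he0 : ∀ c ∈ e, c.1 ≠ 0) (hf0 : ∀ c ∈ f, c.1 ≠ 0)
    (hp : (b :: e.map Prod.fst).Pairwise (Sp θ))
    (hbf : ∀ c ∈ f, Sp θ b c.1) (hef : ∀ x ∈ e, ∀ c ∈ f, Sp θ x.1 c.1) :
    ((marks e).map fun e' => tm θ χ 0 0 0 (-1) ((a, .rb) :: (b, .re) :: e') f).sum +
      (tm θ χ 0 0 0 (-1) ((a, .rb) :: (b, .rE) :: e) f +
        tm θ χ 0 0 0 (-1) ((a, .rB) :: (b, .re) :: e) f) =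
      tm θ χ 1 0 0 (-1) ((b, .re) :: e) f * curc θ (mo θ) ((Kd.R, b) :: obs e f) a := by
  rw [List.pairwise_cons] at hp
  have hbe : ∀ c ∈ e, Sp θ b c.1 := fun c hc => hp.1 c.1 (List.mem_map_of_mem hc)
  have hee : e.Pairwise fun c c' => Sp θ c.1 c'.1 := by
    have := hp.2
    rwa [List.pairwise_map] at this
  have hst : ∀ c ∈ ((b, K.re) :: e), ufo c.2 := by
    intro c hc
    rcases List.mem_cons.1 hc with rfl | hc
    · exact Or.inr (Or.inr (Or.inr rfl))
    · rcases he c hc with h | h | h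
      · exact Or.inl h
      · exact Or.inr (Or.inl h)
      · exact Or.inr (Or.inr (Or.inl h))
  have hbK : ∀ c ∈ ((b, K.re) :: e), c.1 ≠ 0 := by
    intro c hc
    rcases List.mem_cons.1 hc with rfl | hc
    · exact hb0
    · exact he0 c hc
  have hpp : ((b, K.re) :: e).Pairwise fun c c' => Sp θ c.1 c'.1 :=
    List.pairwise_cons.2 ⟨hbe, hee⟩
  have hcore := core hθ kfo .rb (mo θ) ((b, .re) :: e) f a
    (fun c hc => own_rB hθ (hst c hc) a c.1)
    (fun c hc => own_rb hθ (hst c hc) a c.1)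
    (fun c hc hk => own_rb_mark hθ (hst c hc) hk a c.1)
    (by
      intro c hc hk κ hκ
      rcases hst c hc with h | h | h | h <;> rw [h] at hk hκ <;>
        simp only [hm, kfo, Bool.true_eq_false, Option.some.injEq] at hk hκ
      subst hκ; rfl)
    (by
      intro c hc hk
      rcases hst c hc with h | h | h | h <;> rw [h] <;> simp [kfo])
    (fun c hc => crs_rB hθ (hf c hc) a c.1)
    (fun c hc => crs_rb hθ (hf c hc) a c.1)
    (by
      intro c hc κ hκ
      rcases hf c hc with h | h | h | h | h | h | h | h | h | h | h <;> rw [h] at hκ <;>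
        simp only [kg, Option.some.injEq, reduceCtorEq] at hκ <;> subst hκ <;> rfl)
    (by
      intro p hp hk c hc
      have hpe := foc_perm_cons hp
      have hpw := (hpe.pairwise_iff (R := fun c c' : ℂ × K => Sp θ c.1 c'.1)
        (fun {_ _} h => h.symm hθ)).1 hpp
      have hnz : Nz θ (p.1.1 / c.1) := nz_of hθ (hbK _ (foc_mem hp))
        (hbK _ (foc_mem_rest hp hc)) ((List.pairwise_cons.1 hpw).1 c hc)
      have h1 := hst _ (foc_mem hp)
      rcases h1 with h | h | h | h
      · have := own_mark_o hθ (k := p.1.2) (Or.inl h) (hst _ (foc_mem_rest hp hc)) hnz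
        rw [this]
        unfold wks wk
        rw [h]; rfl
      · have := own_mark_o hθ (k := p.1.2) (Or.inr h) (hst _ (foc_mem_rest hp hc)) hnz
        rw [this]
        unfold wks wk
        rw [h]; rfl
      · rw [h] at hk; simp [hm] at hk
      · -- `p.1` is the line `b`
        rw [foc] at hp
        rcases List.mem_cons.1 hp with rfl | hp
        · have := own_mark_E hθ (he c hc) hnz
          rw [show mark K.re = K.rE from rfl, this]
          rfl
        · exfalso
          obtain ⟨q, hq, rfl⟩ := List.mem_map.1 hp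
          rcases he _ (foc_mem hq) with h' | h' | h' <;> simp [h'] at h)
    (by
      intro p hp hk c hc
      have hnz : Nz θ (p.1 / c.1) := by
        refine nz_of hθ (hbK _ hp) (hf0 _ hc) ?_
        rcases List.mem_cons.1 hp with rfl | hp
        · exact hbf c hc
        · exact hef p hp c hc
      have h1 := hst _ hp
      rcases h1 with h | h | h | h
      · rw [crs_mark hθ (k := p.2) (Or.inl h) (hf c hc) hnz]
        unfold wks wk
        rw [h]; rfl
      · rw [crs_mark hθ (k := p.2) (Or.inr (Or.inl h)) (hf c hc) hnz]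
        unfold wks wk
        rw [h]; rfl
      · rw [h] at hk; simp [hm] at hk
      · rw [crs_mark hθ (k := p.2) (Or.inr (Or.inr (Or.inr h))) (hf c hc) hnz]
        unfold wks wk
        rw [h]; rfl)
  have hob : ob kfo ((b, .re) :: e) ++ ob kg f = (Kd.R, b) :: obs e f := by
    have : ob kfo ((b, .re) :: e) = (Kd.R, b) :: ob kfo e := rfl
    rw [this, he.ob]; rfl
  rw [hob] at hcore
  -- the charges
  have hmk := he.mk
  have hnl := he.nl
  have hT : ∀ (ka kb : K) (e' : Cf), nl ka = 0 → nl kb = 0 → tt nl e' = 0 →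
      tm θ χ 0 0 0 (-1) ((a, ka) :: (b, kb) :: e') f =
        if (mk ka + mk kb + tt mk e' = 0) ∧ tt mk f = 0 ∧ ch ka + ch kb + tt ch e' = tt ch f then
          χ ^ (-1 + tt ch f + tt nl f) * (w1 θ ka * (ow1 θ a ka ((b, kb) :: e') * cr1 θ a ka f *
            (ow θ ((b, kb) :: e') * ow θ f * cr θ ((b, kb) :: e') f))) else 0 := by
    intro ka kb e' h1 h2 h3
    unfold tm
    simp only [tt_cons, cr_cons_left, ow, h1, h2, h3, zero_add, add_zero, ← add_assoc]
    split_ifs with h
    · ring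
    · rfl
  have hmm : ∀ p ∈ foc e, tt mk p.2 = 0 ∧ tt nl p.2 = 0 ∧ tt ch e = ch p.1.2 + tt ch p.2 := by
    intro p hp
    have hfu : Ful p.2 := fun c hc => he c (foc_mem_rest hp hc)
    refine ⟨hfu.mk, hfu.nl, ?_⟩
    rw [tt_perm ch (foc_perm_cons hp), tt_cons]
  have hmarks : ((marks e).map fun e' => tm θ χ 0 0 0 (-1) ((a, .rb) :: (b, .re) :: e') f).sum =
      ((foc e).map fun p => (mkd p.1.2).elim 0 fun k' =>
        tm θ χ 0 0 0 (-1) ((a, .rb) :: (p.1.1, k') :: (b, .re) :: p.2) f).sum := by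
    refine marks_foc (Φ := fun e' => tm θ χ 0 0 0 (-1) ((a, .rb) :: (b, .re) :: e') f)
      (Ψ := fun q r => tm θ χ 0 0 0 (-1) ((a, .rb) :: q :: (b, .re) :: r) f) fun A B c k' _ _ => ?_
    refine tm_perm_left hθ _ _ _ _ (List.Perm.cons _ ?_) f
    exact (List.Perm.cons _ List.perm_middle).trans (List.Perm.swap _ _ _)
  rw [hmarks]
  by_cases hc : tt mk f = 0 ∧ 1 + tt ch e = tt ch f
  · have e1 : tm θ χ 1 0 0 (-1) ((b, .re) :: e) f = χ ^ (-1 + tt ch f + tt nl f) *
        (ow θ ((b, .re) :: e) * ow θ f * cr θ ((b, .re) :: e) f) := by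
      unfold tm
      rw [tt_cons, tt_cons, tt_cons, hmk, hnl, if_pos ⟨rfl, by rw [zero_add]; exact hc.1, by
        rw [zero_add]; exact hc.2⟩]
      simp [nl]
    have e2 : tm θ χ 0 0 0 (-1) ((a, .rb) :: (b, .rE) :: e) f = χ ^ (-1 + tt ch f + tt nl f) *
        (ow1 θ a .rb ((b, .rE) :: e) * cr1 θ a .rb f *
          (ow θ ((b, .rE) :: e) * ow θ f * cr θ ((b, .rE) :: e) f)) := by
      rw [hT _ _ _ rfl rfl hnl, hmk, if_pos ⟨rfl, hc.1, by rw [← hc.2]; rfl⟩]
      simp [w1]
    have e3 : tm θ χ 0 0 0 (-1) ((a, .rB) :: (b, .re) :: e) f = χ ^ (-1 + tt ch f + tt nl f) *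
        (ow1 θ a .rB ((b, .re) :: e) * cr1 θ a .rB f *
          (ow θ ((b, .re) :: e) * ow θ f * cr θ ((b, .re) :: e) f)) := by
      rw [hT _ _ _ rfl rfl hnl, hmk, if_pos ⟨rfl, hc.1, by rw [← hc.2]; rfl⟩]
      simp [w1]
    have e4 : ((foc e).map fun p => (mkd p.1.2).elim 0 fun k' =>
        tm θ χ 0 0 0 (-1) ((a, .rb) :: (p.1.1, k') :: (b, .re) :: p.2) f).sum =
        χ ^ (-1 + tt ch f + tt nl f) * ((foc e).map fun p => if hm p.1.2 then
        ow1 θ a .rb ((p.1.1, mark p.1.2) :: (b, .re) :: p.2) * cr1 θ a .rb f *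
          (ow θ ((p.1.1, mark p.1.2) :: (b, .re) :: p.2) * ow θ f *
            cr θ ((p.1.1, mark p.1.2) :: (b, .re) :: p.2) f)
        else 0).sum := by
      rw [← List.sum_map_mul_left]
      congr 1
      refine List.map_congr_left fun p hp => ?_
      obtain ⟨m1, m2, m3⟩ := hmm p hp
      rcases he _ (foc_mem hp) with h | h | h
      · rw [h] at m3 ⊢
        rw [show mkd K.p = some .a from rfl, show hm K.p = true from rfl,
          show mark K.p = .a from rfl, Option.elim_some, if_pos rfl]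
        unfold tm
        simp only [tt_cons, cr_cons_left, ow, m1, m2]
        rw [if_pos ⟨rfl, by rw [zero_add]; exact hc.1, by
          rw [← hc.2, m3]; simp only [ch]; ring⟩]
        simp only [nl, w1]
        ring_nf
      · rw [h] at m3 ⊢
        rw [show mkd K.z = some .b from rfl, show hm K.z = true from rfl,
          show mark K.z = .b from rfl, Option.elim_some, if_pos rfl]
        unfold tm
        simp only [tt_cons, cr_cons_left, ow, m1, m2]
        rw [if_pos ⟨rfl, by rw [zero_add]; exact hc.1, by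
          rw [← hc.2, m3]; simp only [ch]; ring⟩]
        simp only [nl, w1]
        ring_nf
      · rw [h]
        simp [mkd, hm]
    rw [foc, List.map_cons, List.sum_cons, List.map_map] at hcore
    simp only [Function.comp_def, show hm K.re = true from rfl, if_true,
      show mark K.re = .rE from rfl, show mark K.rb = .rB from rfl] at hcore
    rw [e1, e2, e3, e4]
    linear_combination (χ ^ (-1 + tt ch f + tt nl f)) * hcore
  · have e1 : tm θ χ 1 0 0 (-1) ((b, .re) :: e) f = 0 := by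
      unfold tm
      rw [if_neg]
      rintro ⟨-, h2, h3⟩
      apply hc
      rw [tt_cons] at h3
      exact ⟨by simpa using h2, by simpa [ch] using h3⟩
    have e2 : tm θ χ 0 0 0 (-1) ((a, .rb) :: (b, .rE) :: e) f = 0 := by
      rw [hT _ _ _ rfl rfl hnl, if_neg]
      rintro ⟨-, h2, h3⟩
      exact hc ⟨h2, by rw [← h3]; rfl⟩
    have e3 : tm θ χ 0 0 0 (-1) ((a, .rB) :: (b, .re) :: e) f = 0 := by
      rw [hT _ _ _ rfl rfl hnl, if_neg]
      rintro ⟨-, h2, h3⟩
      exact hc ⟨h2, by rw [← h3]; rfl⟩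
    rw [e1, e2, e3, zero_mul, add_zero, add_zero]
    apply List.sum_eq_zero
    intro x hx
    obtain ⟨p, hp, rfl⟩ := List.mem_map.1 hx
    obtain ⟨m1, m2, m3⟩ := hmm p hp
    rcases he _ (foc_mem hp) with h | h | h
    · rw [h] at m3
      simp only [h, mkd, Option.elim_some]
      unfold tm
      rw [if_neg]
      rintro ⟨-, h2, h3⟩
      apply hc
      simp only [tt_cons, ch, zero_add] at h2 h3
      exact ⟨h2, by rw [← h3, m3]; simp only [ch]; ring⟩
    · rw [h] at m3
      simp only [h, mkd, Option.elim_some]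
      unfold tm
      rw [if_neg]
      rintro ⟨-, h2, h3⟩
      apply hc
      simp only [tt_cons, ch, zero_add] at h2 h3
      exact ⟨h2, by rw [← h3, m3]; simp only [ch]; ring⟩
    · simp [h, mkd]

end Rb

open NUTG (Kd mo curc Sp) in
open Rb in
/-- **the gas with an occupied line `a` below the empty line `b`** (right side) -/
theorem gas_rb {θ χ : ℂ} (hθ : θ ^ 8 = -1) (a b : ℂ) (I : List ℂ) {Y : List (ℂ × Ty)} (hY : Sg Y)
    (hb0 : b ≠ 0) (hI0 : ∀ x ∈ I, x ≠ 0) (hY0 : ∀ t ∈ Y, t.1 ≠ 0) (hI : (b :: I).Pairwise (Sp θ))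
    (hIY : ∀ x ∈ b :: I, ∀ t ∈ Y, Sp θ x t.1) :
    gas θ χ ((a, .rb) :: (b, .re) :: fl I) Y = sn θ 1 1 * usm (fl I) fun e => sm Y fun f =>
      tm θ χ 1 0 0 (-1) ((b, .re) :: e) f * curc θ (mo θ) ((Kd.R, b) :: obs e f) a := by
  unfold gas
  congr 1
  have hFr : Fr (fl I) := by
    intro t ht
    obtain ⟨x, _, rfl⟩ := List.mem_map.1 ht
    exact Or.inl rfl
  have hsup : ∀ (ka kb : K) (j : ℤ), mk ka + mk kb + j = 0 → ∀ e : Cf,
      sm Y (fun f => tm θ χ 0 0 0 (-1) ((a, ka) :: (b, kb) :: e) f) =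
        if tt mk e = j then sm Y (fun f => tm θ χ 0 0 0 (-1) ((a, ka) :: (b, kb) :: e) f) else 0 := by
    intro ka kb j hj e
    by_cases h : tt mk e = j
    · rw [if_pos h]
    · rw [if_neg h, ← sm_zero (M := ℂ) Y]
      refine sm_congr' fun f => ?_
      rw [tm_if, if_neg]
      simp only [tt_cons, zero_add]
      intro h'
      apply h
      linarith
  rw [sm_rb, sm_re, sm_re]
  rw [sm_congr' (hsup .rb .re 1 (by decide)), sm_congr' (hsup .rb .rE 0 (by decide)),
    sm_congr' (hsup .rB .re 0 (by decide)), sm_congr' (hsup .rB .rE (-1) (by decide)),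
    sm_mark1 hFr, sm_mark0 hFr, sm_mark0 hFr, sm_mkneg hFr (-1) (by norm_num), add_zero,
    add_assoc, ← usm_add, ← usm_add]
  refine usm_ful fun e hon he => ?_
  have hpos : e.map Prod.fst = I := by
    have : e.map Prod.fst = (fl I).map Prod.fst := hon
    rw [this]
    unfold fl
    rw [List.map_map]
    simp [Function.comp_def]
  rw [← sm_lsum, ← sm_add, ← sm_add]
  refine sm_congr fun f hf => ?_
  refine rb_point hθ he (fun c hc => hY.cmp hf hc) hb0 (fun c hc => hI0 _ ?_)
    (fun c hc => ?_) (by rw [hpos]; exact hI) (fun c hc => ?_) (fun x hx c hc => ?_)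
  · rw [← hpos]; exact List.mem_map_of_mem hc
  · obtain ⟨t, ht, h⟩ := cmp_pos hf hc
    rw [h]; exact hY0 t ht
  · obtain ⟨t, ht, h⟩ := cmp_pos hf hc
    rw [h]; exact hIY b List.mem_cons_self t ht
  · obtain ⟨t, ht, h⟩ := cmp_pos hf hc
    rw [h]
    refine hIY _ (List.mem_cons_of_mem _ ?_) t ht
    rw [← hpos]; exact List.mem_map_of_mem hx

end NUTP.Gas

end
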