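import Pool.Agent.NUTP.Gas.Marks
import Pool.Agent.NUTP.Uniq

/-!
# The sum over the charges of the current of the empty line

`polSum`: the current (`NUTG.cur_e`) summed over the states of all objects, weights `tm`.
The right hand side is the one of `gas_re`.
-/

set_option autoImplicit false

open Polynomial

noncomputable section

namespace NUTP.Gas

open NUTG

variable {θ χ : ℂ}

/-! ### functions with a Laurent polynomial on a set -/

/-- `F = g` on `D` with `g` a Laurent polynomial of degree `M`, extreme coefficients `u * c`, `v * c` -/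
def PP (D : ℂ → Prop) (M : ℕ) (u v : ℂ) (F : ℂ → ℂ) (c : ℂ) : Prop :=
  ∃ P : ℂ[X], P.natDegree ≤ M ∧ P.coeff M = u * c ∧ P.coeff 0 = v * c ∧
    ∀ t : ℂ, D t → t ^ M * F t = P.eval (t ^ 2)

lemma PP.zero (D : ℂ → Prop) (M : ℕ) (u v : ℂ) : PP D M u v (fun _ => 0) 0 :=
  ⟨0, by simp, by simp, by simp, fun t _ => by simp⟩

lemma PP.add {D : ℂ → Prop} {M : ℕ} {u v : ℂ} {F F' : ℂ → ℂ} {c c' : ℂ} (h : PP D M u v F c)
    (h' : PP D M u v F' c') : PP D M u v (fun t => F t + F' t) (c + c') := by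
  obtain ⟨P, h1, h2, h3, h4⟩ := h
  obtain ⟨Q, k1, k2, k3, k4⟩ := h'
  refine ⟨P + Q, (natDegree_add_le _ _).trans (max_le h1 k1), ?_, ?_, fun t ht => ?_⟩
  · rw [coeff_add, h2, k2]; ring
  · rw [coeff_add, h3, k3]; ring
  · rw [eval_add, ← h4 t ht, ← k4 t ht]; ring

lemma PP.cmul {D : ℂ → Prop} {M : ℕ} {u v : ℂ} {F : ℂ → ℂ} {c : ℂ} (a : ℂ) (h : PP D M u v F c) :
    PP D M u v (fun t => a * F t) (a * c) := by
  obtain ⟨P, h1, h2, h3, h4⟩ := h
  refine ⟨C a * P, (natDegree_C_mul_le _ _).trans h1, ?_, ?_, fun t ht => ?_⟩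
  · rw [coeff_C_mul, h2]; ring
  · rw [coeff_C_mul, h3]; ring
  · rw [eval_mul, eval_C, ← h4 t ht]; ring

lemma PP.lsum {ι : Type*} {D : ℂ → Prop} {M : ℕ} {u v : ℂ} (l : List ι) {F : ι → ℂ → ℂ} {c : ι → ℂ}
    (h : ∀ i ∈ l, PP D M u v (F i) (c i)) :
    PP D M u v (fun t => (l.map fun i => F i t).sum) (l.map c).sum := by
  induction l with
  | nil => exact PP.zero D M u v
  | cons i l ih =>
    simp only [List.map_cons, List.sum_cons]
    exact (h i List.mem_cons_self).add (ih fun j hj => h j (List.mem_cons_of_mem _ hj))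

lemma PP.of_lq {D : ℂ → Prop} (hD : ∀ t, D t → t ≠ 0) {M : ℕ} {u v : ℂ} {F g : ℂ → ℂ}
    (h : LQ M g u v) (hF : ∀ t, D t → F t = g t) : PP D M u v F 1 := by
  obtain ⟨P, h1, h2, h3, h4⟩ := h
  exact ⟨P, h1, by rw [h2, mul_one], by rw [h3, mul_one], fun t ht => by rw [hF t ht, h4 t (hD t ht)]⟩

/-- `e` is an unmarked configuration of `X` -/
def Ump (X : List (ℂ × Ty)) (e : Cf) : Prop :=
  List.Forall₂ (fun t c => c.1 = t.1 ∧ c.2 ∈ t.2.us) X e

lemma PP.sm {D : ℂ → Prop} {M : ℕ} {u v : ℂ} (X : List (ℂ × Ty)) {F : Cf → ℂ → ℂ} {c : Cf → ℂ}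
    (h : ∀ e, Cmp X e → PP D M u v (F e) (c e)) :
    PP D M u v (fun t => sm X fun e => F e t) (sm X c) := by
  induction X generalizing F c with
  | nil => exact h [] List.Forall₂.nil
  | cons x X ih =>
    simp only [NUTP.Gas.sm]
    exact PP.lsum _ fun k hk => ih fun e he => h _ (List.Forall₂.cons ⟨rfl, hk⟩ he)

lemma PP.usm {D : ℂ → Prop} {M : ℕ} {u v : ℂ} (X : List (ℂ × Ty)) {F : Cf → ℂ → ℂ} {c : Cf → ℂ}
    (h : ∀ e, Ump X e → PP D M u v (F e) (c e)) :
    PP D M u v (fun t => usm X fun e => F e t) (usm X c) := by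
  induction X generalizing F c with
  | nil => exact h [] List.Forall₂.nil
  | cons x X ih =>
    simp only [NUTP.Gas.usm]
    exact PP.lsum _ fun k hk => ih fun e he => h _ (List.Forall₂.cons ⟨rfl, hk⟩ he)

/-! ### positions of the objects of the current -/

/-- full line or right end -/
def rf : Ty → Bool
  | .F => true | .ro => true | .rb => true | .re => true
  | _ => false

/-- positions of the full lines and the right ends -/
def rp (X : List (ℂ × Ty)) : List ℂ := (X.filter fun t => rf t.2).map Prod.fst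

/-- occupied ends -/
def oc : Ty → ℤ
  | .ro => 1 | .lo => 1
  | _ => 0

/-- types of the other world -/
def Gr (Y : List (ℂ × Ty)) : Prop :=
  ∀ t ∈ Y, t.2 = .F ∨ t.2 = .ro ∨ t.2 = .re ∨ t.2 = .lo ∨ t.2 = .le

lemma Fr.tail {t : ℂ × Ty} {X : List (ℂ × Ty)} (h : Fr (t :: X)) : Fr X :=
  fun c hc => h c (List.mem_cons_of_mem _ hc)

lemma Gr.tail {t : ℂ × Ty} {X : List (ℂ × Ty)} (h : Gr (t :: X)) : Gr X :=
  fun c hc => h c (List.mem_cons_of_mem _ hc)

lemma ob_cons_none {g : K → Option Kd} {c : ℂ × K} {e : Cf} (h : g c.2 = none) :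
    ob g (c :: e) = ob g e := List.filterMap_cons_none (by rw [h]; rfl)

lemma ob_cons_some {g : K → Option Kd} {c : ℂ × K} {e : Cf} {κ : Kd} (h : g c.2 = some κ) :
    ob g (c :: e) = (κ, c.1) :: ob g e := List.filterMap_cons_some (by rw [h]; rfl)

lemma rp_cons_t {t : ℂ × Ty} {X : List (ℂ × Ty)} (h : rf t.2 = true) : rp (t :: X) = t.1 :: rp X := by
  unfold rp; rw [List.filter_cons_of_pos (by simpa using h), List.map_cons]

lemma rp_cons_f {t : ℂ × Ty} {X : List (ℂ × Ty)} (h : rf t.2 = false) : rp (t :: X) = rp X := by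
  unfold rp; rw [List.filter_cons_of_neg (by simp [h])]

lemma ob_pos {g : K → Option Kd} {X : List (ℂ × Ty)} {e : Cf}
    (h : List.Forall₂ (fun t c => c.1 = t.1 ∧ (g c.2).isSome = rf t.2) X e) :
    (ob g e).map Prod.snd = rp X := by
  induction h with
  | nil => rfl
  | @cons t c X e h _ ih =>
    obtain ⟨h1, h2⟩ := h
    rcases hg : g c.2 with _ | κ
    · rw [hg] at h2
      rw [ob_cons_none hg, rp_cons_f h2.symm, ih]
    · rw [hg] at h2
      rw [ob_cons_some hg, rp_cons_t h2.symm, List.map_cons, ih, h1]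

lemma ob_int {g : K → Option Kd} {q : K → ℤ} {r : Ty → ℤ} {X : List (ℂ × Ty)} {e : Cf}
    (h : List.Forall₂ (fun t c => 2 * (g c.2).elim 0 NUTG.ch = q c.2 + r t.2) X e) :
    2 * ((ob g e).map fun o => NUTG.ch o.1).sum = tt q e + (X.map fun t => r t.2).sum := by
  rw [sum_ob]
  induction h with
  | nil => simp [tt]
  | @cons t c X e h _ ih =>
    rw [tt_cons, List.map_cons, List.sum_cons, List.map_cons, List.sum_cons, mul_add, ih, h]
    ring

lemma us_kf : ∀ T : Ty, (T = .F ∨ T = .ro ∨ T = .lo) → ∀ k ∈ T.us,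
    (kf k).isSome = rf T ∧ kf k ≠ some .R ∧ 2 * (kf k).elim 0 NUTG.ch = ch k + oc T := by
  intro T hT k hk
  rcases hT with rfl | rfl | rfl <;>
    simp only [Ty.us, List.mem_cons, List.not_mem_nil, or_false] at hk
  · rcases hk with rfl | rfl | rfl <;> exact ⟨rfl, by simp [kf], rfl⟩
  · subst hk; exact ⟨rfl, by simp [kf], rfl⟩
  · subst hk; exact ⟨rfl, by simp [kf], rfl⟩

lemma st_kg : ∀ T : Ty, (T = .F ∨ T = .ro ∨ T = .re ∨ T = .lo ∨ T = .le) → ∀ k ∈ T.st,
    (kg k).isSome = rf T ∧ kg k ≠ some .R ∧ 2 * (kg k).elim 0 NUTG.ch = (mk k - ch k) + -oc T := by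
  intro T hT k hk
  rcases hT with rfl | rfl | rfl | rfl | rfl <;>
    simp only [Ty.st, List.mem_cons, List.not_mem_nil, or_false] at hk
  · rcases hk with rfl | rfl | rfl | rfl | rfl <;> exact ⟨rfl, by simp [kg], rfl⟩
  · subst hk; exact ⟨rfl, by simp [kg], rfl⟩
  · rcases hk with rfl | rfl <;> exact ⟨rfl, by simp [kg], rfl⟩
  · subst hk; exact ⟨rfl, by simp [kg], rfl⟩
  · rcases hk with rfl | rfl <;> exact ⟨rfl, by simp [kg], rfl⟩

lemma tt_sub (q q' : K → ℤ) (e : Cf) : tt (fun k => q k - q' k) e = tt q e - tt q' e := by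
  induction e with
  | nil => simp [tt]
  | cons c e ih => rw [tt_cons, tt_cons, tt_cons, ih]; ring

/-- the objects of world `f` -/
lemma ob_kf {X : List (ℂ × Ty)} {e : Cf} (hX : Fr X) (h : Ump X e) :
    (ob kf e).map Prod.snd = rp X ∧ (∀ o ∈ ob kf e, o.1 ≠ .R) ∧
      2 * ((ob kf e).map fun o => NUTG.ch o.1).sum = tt ch e + (X.map fun t => oc t.2).sum := by
  have key : List.Forall₂ (fun t c => c.1 = t.1 ∧ (kf c.2).isSome = rf t.2 ∧ kf c.2 ≠ some .R ∧
      2 * (kf c.2).elim 0 NUTG.ch = ch c.2 + oc t.2) X e := by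
    induction h with
    | nil => exact .nil
    | cons h _ ih => exact .cons ⟨h.1, us_kf _ (hX _ List.mem_cons_self) _ h.2⟩ (ih hX.tail)
  refine ⟨ob_pos (key.imp fun _ _ h => ⟨h.1, h.2.1⟩), ?_, ob_int (key.imp fun _ _ h => h.2.2.2)⟩
  intro o ho hR
  obtain ⟨c, hc, h1, -⟩ := mem_ob.1 ho
  rw [hR] at h1
  clear h ho
  induction key with
  | nil => simp at hc
  | cons h _ ih =>
    rcases List.mem_cons.1 hc with rfl | hc
    · exact h.2.2.1 h1
    · exact ih hX.tail hc

/-- the objects of world `g` -/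
lemma ob_kg {Y : List (ℂ × Ty)} {f : Cf} (hY : Gr Y) (h : Cmp Y f) :
    (ob kg f).map Prod.snd = rp Y ∧ (∀ o ∈ ob kg f, o.1 ≠ .R) ∧
      2 * ((ob kg f).map fun o => NUTG.ch o.1).sum =
        tt mk f - tt ch f - (Y.map fun t => oc t.2).sum := by
  have key : List.Forall₂ (fun t c => c.1 = t.1 ∧ (kg c.2).isSome = rf t.2 ∧ kg c.2 ≠ some .R ∧
      2 * (kg c.2).elim 0 NUTG.ch = (mk c.2 - ch c.2) + -oc t.2) Y f := by
    induction h with
    | nil => exact .nil
    | cons h _ ih => exact .cons ⟨h.1, st_kg _ (hY _ List.mem_cons_self) _ h.2⟩ (ih hY.tail)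
  refine ⟨ob_pos (key.imp fun _ _ h => ⟨h.1, h.2.1⟩), ?_, ?_⟩
  · intro o ho hR
    obtain ⟨c, hc, h1, -⟩ := mem_ob.1 ho
    rw [hR] at h1
    clear h ho
    induction key with
    | nil => simp at hc
    | cons h _ ih =>
      rcases List.mem_cons.1 hc with rfl | hc
      · exact h.2.2.1 h1
      · exact ih hY.tail hc
  · rw [ob_int (q := fun k => mk k - ch k) (r := fun T => -oc T) (key.imp fun _ _ h => h.2.2.2),
      tt_sub]
    have e : (Y.map fun t => -oc t.2).sum = -(Y.map fun t => oc t.2).sum := by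
      clear hY h key
      induction Y with
      | nil => simp
      | cons t Y ih => simp only [List.map_cons, List.sum_cons, ih]; ring
    rw [e]; ring

/-- the objects of the current of a configuration with `tm ≠ 0` -/
lemma obs_data {X Y : List (ℂ × Ty)} {e f : Cf} (hX : Fr X) (hY : Gr Y)
    (hXY : (X.map fun t => oc t.2).sum = (Y.map fun t => oc t.2).sum) (he : Ump X e) (hf : Cmp Y f) :
    (obs e f).map Prod.snd = rp X ++ rp Y ∧ (∀ o ∈ obs e f, o.1 ≠ .R) ∧
      (tt mk f = 0 → tt ch e = tt ch f → ((obs e f).map fun o => NUTG.ch o.1).sum = 0) := by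
  obtain ⟨a1, a2, a3⟩ := ob_kf hX he
  obtain ⟨b1, b2, b3⟩ := ob_kg hY hf
  refine ⟨by rw [obs, List.map_append, a1, b1], ?_, fun h1 h2 => ?_⟩
  · intro o ho
    rcases List.mem_append.1 ho with ho | ho
    · exact a2 o ho
    · exact b2 o ho
  · rw [obs, List.map_append, List.sum_append]
    omega

/-! ### the theorem -/

lemma rp_sub (X : List (ℂ × Ty)) : List.Sublist (rp X) (X.map Prod.fst) :=
  List.filter_sublist.map _

/-- **the sum over the charges** -/
theorem polSum (hθ : θ ^ 8 = -1) {X Y : List (ℂ × Ty)} (hX : Fr X) (hY : Gr Y)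
    (hXY : (X.map fun t => oc t.2).sum = (Y.map fun t => oc t.2).sum)
    (hG : G θ (X.map Prod.fst ++ Y.map Prod.fst)) :
    ∃ P : ℂ[X], P.natDegree ≤ (rp X ++ rp Y).length ∧
      P.coeff (rp X ++ rp Y).length = tp (rp X ++ rp Y) * (sn θ 1 1 * usm X fun e => sm Y fun f =>
        tm θ χ 0 0 0 (-1) e f) ∧
      P.coeff 0 = bt (rp X ++ rp Y) * (sn θ 1 1 * usm X fun e => sm Y fun f =>
        tm θ χ 0 0 0 (-1) e f) ∧
      ∀ r, Gd θ r (X.map Prod.fst ++ Y.map Prod.fst) →
        r ^ (rp X ++ rp Y).length * (sn θ 1 1 * usm X fun e => sm Y fun f =>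
          tm θ χ 0 0 0 (-1) e f * curc θ (me θ) (obs e f) r) = P.eval (r ^ 2) := by
  have hsub : List.Sublist (rp X ++ rp Y) (X.map Prod.fst ++ Y.map Prod.fst) :=
    (rp_sub X).append (rp_sub Y)
  have hG' := hG.subl hsub
  refine PP.cmul (D := fun r => Gd θ r (X.map Prod.fst ++ Y.map Prod.fst)) (sn θ 1 1)
    (PP.usm X fun e he => PP.sm Y fun f hf => ?_)
  obtain ⟨h1, h2, h3⟩ := obs_data hX hY hXY he hf
  by_cases h : tt mk f = 0 ∧ tt ch e = tt ch f
  · have h0 : ∀ o ∈ obs e f, o.2 ≠ 0 := fun o ho =>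
      hG'.mem_ne0 (h1 ▸ List.mem_map.2 ⟨o, ho, rfl⟩)
    have hs : (obs e f).Pairwise fun o o' => Sp θ o.2 o'.2 := by
      have := hG'.2
      rw [← h1, List.map_map, List.pairwise_map] at this
      exact this
    obtain ⟨g, hg, hc⟩ := cur_e hθ h0 hs h2 (h3 h.1 h.2)
    have hl : (obs e f).length = (rp X ++ rp Y).length := by rw [← h1, List.length_map]
    have ht : ((obs e f).map fun o => (2 * o.2)⁻¹).prod = tp (rp X ++ rp Y) := by
      rw [← h1, tp, List.map_map]; rfl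
    have hb : ((obs e f).map fun o => o.2 / 2).prod = bt (rp X ++ rp Y) := by
      rw [← h1, bt, List.map_map]; rfl
    rw [hl, ht, hb] at hg
    have := (PP.of_lq (D := fun r => Gd θ r (X.map Prod.fst ++ Y.map Prod.fst)) (fun t ht => ht.1) hg
      (F := fun t => curc θ (me θ) (obs e f) t) fun t ht => hc t ht.1 fun o ho => ?_).cmul
        (tm θ χ 0 0 0 (-1) e f)
    · rwa [mul_one] at this
    · have hm : o.2 ∈ X.map Prod.fst ++ Y.map Prod.fst :=
        hsub.subset (h1 ▸ List.mem_map.2 ⟨o, ho, rfl⟩)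
      obtain ⟨s0, s1⟩ := ht.2 _ hm
      rcases o with ⟨κ, c⟩
      cases κ
      · exact s0
      · exact s1
      · exact one_ne_zero
      · exact one_ne_zero
      · exact one_ne_zero
      · exact s0
  · have e0 : tm θ χ 0 0 0 (-1) e f = 0 := by
      unfold tm
      rw [if_neg]
      rintro ⟨-, h4, h5⟩
      exact h ⟨by simpa using h4, by simpa using h5⟩
    rw [e0]
    simpa using PP.zero (fun r => Gd θ r (X.map Prod.fst ++ Y.map Prod.fst)) (rp X ++ rp Y).length
      (tp (rp X ++ rp Y)) (bt (rp X ++ rp Y))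

end NUTP.Gas

end
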