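import Pool.Agent.NUTP.Gas.GasRe
import Pool.Agent.NUTP.Gas.PolSum

/-!
# `EO` in the empty line: Laurent polynomial and extreme coefficients

`polE`: any gas with one empty line on the right of world `f`; `polEO`: the function `EO` of `gasF`.
-/

set_option autoImplicit false

open Polynomial

noncomputable section

namespace NUTP.Gas

open NUTG

variable {θ χ : ℂ}

lemma tp_perm {S S' : List ℂ} (h : S.Perm S') : tp S = tp S' := (h.map _).prod_eq

lemma bt_perm {S S' : List ℂ} (h : S.Perm S') : bt S = bt S' := (h.map _).prod_eq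

lemma Gd.perm {r : ℂ} {L L' : List ℂ} (h : L.Perm L') (hr : Gd θ r L) : Gd θ r L' :=
  ⟨hr.1, fun c hc => hr.2 c (h.mem_iff.2 hc)⟩

lemma sp_of {L : List ℂ} (h : G θ L) : L.Pairwise (Sp θ) := by
  have := h.2
  rw [List.pairwise_map] at this
  exact this

/-- **the gas with one empty line on the right of world `f`, as a function of this line** -/
theorem polE (hθ : θ ^ 8 = -1) {X Y : List (ℂ × Ty)} (hX : Fr X) (hY : Gr Y)
    (hXY : (X.map fun t => oc t.2).sum = (Y.map fun t => oc t.2).sum)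
    (hG : G θ (X.map Prod.fst ++ Y.map Prod.fst)) {Z : List ℂ} (hZ : (rp X ++ rp Y).Perm Z) {n : ℕ}
    (hn : Z.length = n) :
    ∃ P : ℂ[X], P.natDegree ≤ n ∧ P.coeff n = tp Z * gas θ χ X Y ∧
      P.coeff 0 = bt Z * gas θ χ X Y ∧
      ∀ r, Gd θ r (X.map Prod.fst ++ Y.map Prod.fst) →
        r ^ n * gas θ χ ((r, .re) :: X) Y = P.eval (r ^ 2) := by
  have hl : (rp X ++ rp Y).length = n := by rw [hZ.length_eq, hn]
  obtain ⟨P, h1, h2, h3, h4⟩ := polSum (χ := χ) hθ hX hY hXY hG
  rw [hl] at h1 h2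
  rw [tp_perm hZ, ← gas_un hX] at h2
  rw [bt_perm hZ, ← gas_un hX] at h3
  refine ⟨P, h1, h2, h3, fun r hr => ?_⟩
  have h5 := h4 r hr
  rw [hl] at h5
  have h6 : (X ++ Y).Pairwise fun s t => Sp θ s.1 t.1 := by
    have := sp_of hG
    rw [← List.map_append, List.pairwise_map] at this
    exact this
  rw [← h5, gas_re hθ hX hY ?_ h6]
  intro t ht
  refine hG.mem_ne0 (c := t.1) ?_
  rw [← List.map_append]
  exact List.mem_map_of_mem ht

lemma fl_fst (L : List ℂ) : (fl L).map Prod.fst = L := by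
  unfold fl
  rw [List.map_map]
  exact List.map_id L

lemma fl_rp (L : List ℂ) : rp (fl L) = L := by
  unfold fl
  induction L with
  | nil => rfl
  | cons x L ih => rw [List.map_cons, rp_cons_t rfl, ih]

lemma fl_oc (L : List ℂ) : ((fl L).map fun t => oc t.2).sum = 0 := by
  unfold fl
  induction L with
  | nil => rfl
  | cons x L ih => rw [List.map_cons, List.map_cons, List.sum_cons, ih]; rfl

lemma En_fst (τ : Bool) (q g : ℂ) (J : List ℂ) : (En τ q g ++ fl J).map Prod.fst = q :: g :: J := by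
  rw [List.map_append, fl_fst]
  cases τ <;> rfl

lemma En_rp (τ : Bool) (q g : ℂ) (J : List ℂ) : rp (En τ q g ++ fl J) = q :: J := by
  have e : rp (En τ q g ++ fl J) = rp (En τ q g) ++ rp (fl J) := by
    unfold rp; rw [List.filter_append, List.map_append]
  rw [e, fl_rp]
  cases τ <;> rfl

lemma En_oc (τ : Bool) (q g : ℂ) (J : List ℂ) :
    ((En τ q g ++ fl J).map fun t => oc t.2).sum = 1 := by
  rw [List.map_append, List.sum_append, fl_oc]
  cases τ <;> rfl

lemma En_gr (τ : Bool) (q g : ℂ) (J : List ℂ) : Gr (En τ q g ++ fl J) := by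
  intro t ht
  rcases List.mem_append.1 ht with ht | ht
  · cases τ <;> simp only [En, if_true, Bool.false_eq_true, if_false, List.mem_cons,
      List.not_mem_nil, or_false] at ht <;> rcases ht with rfl | rfl <;> simp
  · obtain ⟨x, _, rfl⟩ := List.mem_map.1 ht
    exact Or.inl rfl

lemma ro_fr (b : ℂ) (I : List ℂ) : Fr ((b, .ro) :: fl I) := by
  intro t ht
  rcases List.mem_cons.1 ht with rfl | ht
  · simp
  · obtain ⟨x, _, rfl⟩ := List.mem_map.1 ht
    exact Or.inl rfl

lemma lo_fr (b : ℂ) (I : List ℂ) : Fr ((b, .lo) :: fl I) := by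
  intro t ht
  rcases List.mem_cons.1 ht with rfl | ht
  · simp
  · obtain ⟨x, _, rfl⟩ := List.mem_map.1 ht
    exact Or.inl rfl

/-- lines of world `f` (one ended line `b`) and world `g` in the order of `NUTP.Data` -/
lemma perm_l (b q g : ℂ) (I J : List ℂ) :
    (b :: I ++ q :: g :: J).Perm (b :: q :: g :: (I ++ J)) := by
  rw [List.cons_append]
  refine List.Perm.cons b (List.perm_middle.trans (List.Perm.cons q ?_))
  exact List.perm_middle

lemma perm_r (b q : ℂ) (I J : List ℂ) : (b :: I ++ q :: J).Perm (b :: q :: (I ++ J)) := by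
  rw [List.cons_append]
  exact List.Perm.cons b List.perm_middle

/-- **`EO` in the empty line** -/
theorem polEO (hθ : θ ^ 8 = -1) (τ : Bool) {q g b : ℂ} (I J : List ℂ)
    (h : G θ (b :: q :: g :: (I ++ J))) : ∃ P : ℂ[X],
    P.natDegree ≤ I.length + J.length + 2 ∧
    P.coeff (I.length + J.length + 2) = tp (b :: q :: (I ++ J)) * (gasF θ χ τ q g).R I J b ∧
    P.coeff 0 = bt (b :: q :: (I ++ J)) * (gasF θ χ τ q g).R I J b ∧
    ∀ a, Gd θ a (b :: q :: g :: (I ++ J)) →
      a ^ (I.length + J.length + 2) * (gasF θ χ τ q g).EO I J a b = P.eval (a ^ 2) := by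
  have e1 : ((b, Ty.ro) :: fl I).map Prod.fst = b :: I := by rw [List.map_cons, fl_fst]
  have hp := perm_l b q g I J
  obtain ⟨P, h1, h2, h3, h4⟩ := polE (χ := χ) hθ (ro_fr b I) (En_gr τ q g J) (by
    rw [List.map_cons, List.sum_cons, fl_oc, En_oc]; rfl) (by
    rw [e1, En_fst]; exact G.perm hθ hp.symm h) (Z := b :: q :: (I ++ J)) (by
    rw [rp_cons_t rfl, fl_rp, En_rp]; exact perm_r b q I J) (n := I.length + J.length + 2) (by
    simp)
  refine ⟨P, h1, h2, h3, fun a ha => h4 a ?_⟩
  rw [e1, En_fst]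
  exact ha.perm hp.symm

end NUTP.Gas

end
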