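import Pool.Agent.NUTP.Gas.Marks

/-!
# Pair identities: couplings with a line ended on the right at the first puncture in terms of the kinds of
`NUTG.Cur`, and of the marked states
-/

set_option autoImplicit false

noncomputable section

namespace NUTP.Gas

open NUTG (Kd vf nf df wm me mo)

/-- the mark (right side) -/
def mark : K → K
  | .p => .a | .z => .b | .rb => .rB | .re => .rE | k => k

/-- states which can be marked (right side) -/
def hm : K → Bool
  | .p => true | .z => true | .rb => true | .re => true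
  | _ => false

/-- kind of a state of the world `f` for the occupied line below an empty one -/
def kfo : K → Option Kd
  | .p => some .A | .z => some .B | .n => some .C | .re => some .R
  | _ => none

section tables

variable {θ : ℂ} (hθ : θ ^ 8 = -1)

include hθ

private lemma ssh0 (a b : ℂ) : sn θ 0 (a / θ / b) = -sn θ 7 (a / b) := by
  have h0 := th0 hθ
  have : sn θ 7 (a / b) = sn θ 8 (a / θ / b) := by
    rw [show (8 : ℕ) = 7 + 1 from rfl, ← sn_pow]
    congr 1
    field_simp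
  rw [this, show (8 : ℕ) = 0 + 8 from rfl, sn_add8 hθ, neg_neg]

private lemma ssh (k : ℕ) (a b : ℂ) : sn θ (k + 1) (a / θ / b) = sn θ k (a / b) := by
  have h0 := th0 hθ
  rw [← sn_pow]
  congr 1
  field_simp

private lemma ssh1 (a b : ℂ) : sn θ 1 (a / θ / b) = sn θ 0 (a / b) := ssh hθ 0 a b
private lemma ssh2 (a b : ℂ) : sn θ 2 (a / θ / b) = sn θ 1 (a / b) := ssh hθ 1 a b
private lemma ssh3 (a b : ℂ) : sn θ 3 (a / θ / b) = sn θ 2 (a / b) := ssh hθ 2 a b
private lemma ssh4 (a b : ℂ) : sn θ 4 (a / θ / b) = sn θ 3 (a / b) := ssh hθ 3 a b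
private lemma sinv (b c : ℂ) : b / (c / θ) = (c / θ / b)⁻¹ := by rw [inv_div]
private lemma ssh5 (a b : ℂ) : sn θ 5 (a / θ / b) = sn θ 4 (a / b) := ssh hθ 4 a b
private lemma ssh6 (a b : ℂ) : sn θ 6 (a / θ / b) = sn θ 5 (a / b) := ssh hθ 5 a b

/-- states of the world `f` next to an empty line -/
def ufe (k : K) : Prop := k = .p ∨ k = .z ∨ k = .n ∨ k = .ro ∨ k = .rb ∨ k = .lo

/-- states of the world `f` next to an occupied line below an empty one -/
def ufo (k : K) : Prop := k = .p ∨ k = .z ∨ k = .n ∨ k = .re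

/-- states of the world `g` -/
def sg (k : K) : Prop := k = .p ∨ k = .z ∨ k = .n ∨ k = .a ∨ k = .b ∨ k = .ro ∨ k = .re ∨ k = .rE ∨
  k = .lo ∨ k = .le ∨ k = .lE

lemma own_rE {k : K} (hk : ufe k) (r c : ℂ) :
    own θ .rE k (r / c) = (kf k).elim 1 fun κ => nf θ κ c r / df θ κ c r := by
  have e : c / r = (r / c)⁻¹ := (inv_div r c).symm
  rcases hk with rfl | rfl | rfl | rfl | rfl | rfl <;>
    simp only [own, cls, ef, ee, kf, Option.elim, nf, df, sk, div_one, e, sn_inv3 hθ]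

lemma own_re {k : K} (hk : ufe k) (r c : ℂ) :
    own θ .re k (r / c) = (kf k).elim 1 fun κ => vf θ κ c r := by
  have e : c / r = (r / c)⁻¹ := (inv_div r c).symm
  rcases hk with rfl | rfl | rfl | rfl | rfl | rfl <;>
    simp only [own, cls, ef, ee, kf, Option.elim, vf, sk, e, sn_inv3 hθ, sn_inv2 hθ]
  ring

omit hθ in
lemma own_re_mark {k : K} (hk : ufe k) (hm1 : hm k = true) (r c : ℂ) :
    w1 θ (mark k) * own θ .re (mark k) (r / c) =
      w1 θ k * -((kf k).elim 0 fun κ => me θ κ c r / df θ κ c r) := by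
  rcases hk with rfl | rfl | rfl | rfl | rfl | rfl <;>
    simp only [hm, Bool.false_eq_true] at hm1 <;>
    simp only [mark, w1, own, cls, ef, ee, me, df, kf, Option.elim] <;> ring

lemma own_rB {k : K} (hk : ufo k) (r c : ℂ) :
    own θ .rB k (r / c) = (kfo k).elim 1 fun κ => nf θ κ c r / df θ κ c r := by
  have e : c / r = (r / c)⁻¹ := (inv_div r c).symm
  rcases hk with rfl | rfl | rfl | rfl <;>
    simp only [own, cls, ef, ee, kfo, Option.elim, nf, df, sk, div_one, e, sn_inv3 hθ]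

lemma own_rb {k : K} (hk : ufo k) (r c : ℂ) :
    own θ .rb k (r / c) = (kfo k).elim 1 fun κ => vf θ κ c r := by
  have e : c / r = (r / c)⁻¹ := (inv_div r c).symm
  rcases hk with rfl | rfl | rfl | rfl <;>
    simp only [own, cls, ef, ee, kfo, Option.elim, vf, sk, e, sn_inv3 hθ, sn_inv2 hθ]
  ring

lemma own_rb_mark {k : K} (hk : ufo k) (hm1 : hm k = true) (r c : ℂ) :
    w1 θ (mark k) * own θ .rb (mark k) (r / c) =
      w1 θ k * -((kfo k).elim 0 fun κ => mo θ κ c r / df θ κ c r) := by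
  have e : c / r = (r / c)⁻¹ := (inv_div r c).symm
  rcases hk with rfl | rfl | rfl | rfl <;>
    simp only [hm, Bool.false_eq_true] at hm1 <;>
    simp only [mark, w1, own, cls, ef, ee, mo, df, kfo, Option.elim, sk, e, sn_inv3 hθ,
      sn_inv2 hθ] <;> ring

lemma crs_rE {k : K} (hk : sg k) (r c : ℂ) :
    crs θ .rE k (r / c) = (kg k).elim 1 fun κ => nf θ κ c r / df θ κ c r := by
  have e : c / r = (r / c)⁻¹ := (inv_div r c).symm
  rcases hk with rfl | rfl | rfl | rfl | rfl | rfl | rfl | rfl | rfl | rfl | rfl <;>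
    simp only [crs, cls, xf, xx, isM, kg, Option.elim, nf, df, div_one, e, ← sn4 hθ,
      sn_inv3 hθ, sn_inv4 hθ, sn_inv5 hθ]

lemma crs_re {k : K} (hk : sg k) (r c : ℂ) :
    crs θ .re k (r / c) = (kg k).elim 1 fun κ => vf θ κ c r := by
  have e : c / r = (r / c)⁻¹ := (inv_div r c).symm
  rcases hk with rfl | rfl | rfl | rfl | rfl | rfl | rfl | rfl | rfl | rfl | rfl <;>
    simp only [crs, cls, xf, xx, isM, kg, Option.elim, vf, sk, e, sn_inv3 hθ, sn_inv2 hθ,
      sn_inv5 hθ]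
  all_goals first | rfl | ring

lemma crs_rB {k : K} (hk : sg k) (r c : ℂ) :
    crs θ .rB k (r / c) = (kg k).elim 1 fun κ => nf θ κ c r / df θ κ c r := by
  have e : c / r = (r / c)⁻¹ := (inv_div r c).symm
  rcases hk with rfl | rfl | rfl | rfl | rfl | rfl | rfl | rfl | rfl | rfl | rfl <;>
    simp only [crs, cls, xf, xx, isM, kg, Option.elim, nf, df, div_one, e, ← sn4 hθ,
      sn_inv3 hθ, sn_inv4 hθ, sn_inv5 hθ]

lemma crs_rb {k : K} (hk : sg k) (r c : ℂ) :
    crs θ .rb k (r / c) = (kg k).elim 1 fun κ => vf θ κ c r := by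
  have e : c / r = (r / c)⁻¹ := (inv_div r c).symm
  rcases hk with rfl | rfl | rfl | rfl | rfl | rfl | rfl | rfl | rfl | rfl | rfl <;>
    simp only [crs, cls, xf, xx, isM, kg, Option.elim, vf, sk, e, sn_inv3 hθ, sn_inv2 hθ,
      sn_inv5 hθ]
  all_goals first | rfl | ring

/-- all `sin` of the quotient are nonzero -/
def Nz (θ u : ℂ) : Prop := ∀ k : ℕ, sn θ k u ≠ 0

/-- position of the mark -/
def wk (θ : ℂ) (p : ℂ × K) : ℂ := (kf p.2).elim p.1 fun κ => wm θ κ p.1

/-- factor of the current at `w` -/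
def fw (θ w : ℂ) (s : K → Option Kd) (c : ℂ × K) : ℂ := (s c.2).elim 1 fun κ => NUTG.ff θ κ c.1 w

lemma own_mark {k k' : K} (hk : k = .p ∨ k = .z) (hk' : ufe k') {x c : ℂ}
    (h : Nz θ (x / c)) :
    own θ (mark k) k' (x / c) = own θ k k' (x / c) * fw θ (wk θ (x, k)) kf (c, k') := by
  have h0 := h 0
  have h1 := h 1
  have h2 := h 2
  have h3 := h 3
  have h4 := h 4
  have h5 := h 5
  have h6 := h 6
  have h7 := h 7
  have e : c / x = (x / c)⁻¹ := (inv_div x c).symm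
  have e' : c / (x / θ) = (x / θ / c)⁻¹ := (inv_div _ _).symm
  rcases hk with rfl | rfl <;>
    rcases hk' with rfl | rfl | rfl | rfl | rfl | rfl <;>
    simp only [mark, own, cls, ff, ef, mir, fw, wk, kf, wm, Option.elim, NUTG.ff, ← sn4 hθ, e, e',
      sn_inv0 hθ, sn_inv1 hθ, sn_inv2 hθ, sn_inv3 hθ, sn_inv4 hθ, sn_inv5 hθ, sn_inv6 hθ,
      sn_inv7 hθ, ssh0 hθ, ssh1 hθ, ssh2 hθ, ssh3 hθ, ssh4 hθ, ssh5 hθ, ssh6 hθ] <;>
    field_simp

lemma own_mark_o {k k' : K} (hk : k = .p ∨ k = .z) (hk' : ufo k') {x c : ℂ}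
    (h : Nz θ (x / c)) :
    own θ (mark k) k' (x / c) = own θ k k' (x / c) * fw θ (wk θ (x, k)) kfo (c, k') := by
  have h0 := h 0
  have h1 := h 1
  have h2 := h 2
  have h3 := h 3
  have h4 := h 4
  have h5 := h 5
  have h6 := h 6
  have h7 := h 7
  have e : c / x = (x / c)⁻¹ := (inv_div x c).symm
  have e' : c / (x / θ) = (x / θ / c)⁻¹ := (inv_div _ _).symm
  rcases hk with rfl | rfl <;>
    rcases hk' with rfl | rfl | rfl | rfl <;>
    simp only [mark, own, cls, ff, ef, mir, fw, wk, kf, kfo, wm, Option.elim, NUTG.ff, ← sn4 hθ, e, e',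
      sn_inv0 hθ, sn_inv1 hθ, sn_inv2 hθ, sn_inv3 hθ, sn_inv4 hθ, sn_inv5 hθ, sn_inv6 hθ,
      sn_inv7 hθ, ssh0 hθ, ssh1 hθ, ssh2 hθ, ssh3 hθ, ssh4 hθ, ssh5 hθ, ssh6 hθ] <;>
    field_simp

lemma own_mark_E {k' : K} (hk' : k' = .p ∨ k' = .z ∨ k' = .n) {x c : ℂ}
    (h : Nz θ (x / c)) :
    own θ .rE k' (x / c) = own θ .re k' (x / c) * fw θ x kfo (c, k') := by
  have h0 := h 0
  have h1 := h 1
  rcases hk' with rfl | rfl | rfl <;>
    simp only [own, cls, ef, fw, kfo, Option.elim, NUTG.ff] <;>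
    field_simp

lemma crs_mark {k k' : K} (hk : k = .p ∨ k = .z ∨ k = .rb ∨ k = .re) (hk' : sg k') {x c : ℂ}
    (h : Nz θ (x / c)) :
    crs θ (mark k) k' (x / c) = crs θ k k' (x / c) * fw θ (wk θ (x, k)) kg (c, k') := by
  have h0 := h 0
  have h1 := h 1
  have h2 := h 2
  have h3 := h 3
  have h4 := h 4
  have h5 := h 5
  have h6 := h 6
  have h7 := h 7
  have e : c / x = (x / c)⁻¹ := (inv_div x c).symm
  have e' : c / (x / θ) = (x / θ / c)⁻¹ := (inv_div _ _).symm
  rcases hk with rfl | rfl | rfl | rfl <;>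
    rcases hk' with rfl | rfl | rfl | rfl | rfl | rfl | rfl | rfl | rfl | rfl | rfl <;>
    simp only [mark, crs, cls, gg, xf, xx, isM, mir, fw, wk, kf, kg, wm, Option.elim, NUTG.ff,
      ← sn4 hθ, e, e',
      sn_inv0 hθ, sn_inv1 hθ, sn_inv2 hθ, sn_inv3 hθ, sn_inv4 hθ, sn_inv5 hθ, sn_inv6 hθ,
      sn_inv7 hθ, ssh0 hθ, ssh1 hθ, ssh2 hθ, ssh3 hθ, ssh4 hθ, ssh5 hθ, ssh6 hθ] <;>
    field_simp

end tables

end NUTP.Gas

end
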