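import Pool.Agent.NUTP.Gas.Defs
import Pool.Agent.NUTG.DblL

/-!
# Reflection of the gas, I: the current factors

A current (of an empty ended line) on the right sees an object at `c` in the unmarked state `k` through
the factor `nu / ∏ sin (w - pole)`, where `w` is the position of the mark; the poles are
`θ ^ j * c`, `j ∈ nE` (near) or `j ∈ fE` (far).  Left currents: `θ⁻¹` and the mirror images of the
states.  `own = true`: the object is in the world of the current.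
-/

set_option autoImplicit false

noncomputable section

namespace NUTP.Gas.UD

open NUTG

variable {θ : ℂ}

/-! ### `sn` -/

lemma th_ne (hθ : θ ^ 8 = -1) : θ ≠ 0 := by rintro rfl; norm_num at hθ

lemma th16 (hθ : θ ^ 8 = -1) : θ ^ 16 = 1 := by
  rw [show (16 : ℕ) = 8 * 2 from rfl, pow_mul, hθ]; norm_num

lemma th_inv (hθ : θ ^ 8 = -1) : θ⁻¹ = θ ^ 15 := by
  have h := th16 hθ
  exact (eq_inv_of_mul_eq_one_left (by rw [← pow_succ]; exact h)).symm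

lemma th_inv8 (hθ : θ ^ 8 = -1) : θ⁻¹ ^ 8 = -1 := by rw [inv_pow, hθ]; norm_num

lemma sn_mul (θ : ℂ) (k j : ℕ) (u : ℂ) : sn θ k (θ ^ j * u) = sn θ (k + j) u := by
  unfold sn; rw [← mul_assoc, ← pow_add]

lemma sn_add8 (hθ : θ ^ 8 = -1) (k : ℕ) (u : ℂ) : sn θ (k + 8) u = -sn θ k u := by
  unfold sn; rw [pow_add, hθ, mul_neg_one, neg_mul, inv_neg]; ring

lemma sn_inv (hθ : θ ^ 8 = -1) {k j : ℕ} (h : k + j = 8) (u : ℂ) : sn θ k u⁻¹ = sn θ j u := by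
  have h1 : θ ^ k * θ ^ j = -1 := by rw [← pow_add, h, hθ]
  have hk : θ ^ k ≠ 0 := pow_ne_zero _ (th_ne hθ)
  have h2 : θ ^ j = -(θ ^ k)⁻¹ := by field_simp; rw [mul_comm]; exact h1
  unfold sn
  rw [h2, mul_inv, inv_inv, neg_mul, inv_neg, mul_inv, inv_inv]
  ring

/-- all indices below 8, variable inverted -/
lemma sn_i0 (hθ : θ ^ 8 = -1) (u : ℂ) : sn θ 0 u⁻¹ = -sn θ 0 u := by
  rw [sn_inv hθ (j := 8) rfl, sn_add8 hθ 0]
lemma sn_i1 (hθ : θ ^ 8 = -1) (u : ℂ) : sn θ 1 u⁻¹ = sn θ 7 u := sn_inv hθ rfl u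
lemma sn_i2 (hθ : θ ^ 8 = -1) (u : ℂ) : sn θ 2 u⁻¹ = sn θ 6 u := sn_inv hθ rfl u
lemma sn_i3 (hθ : θ ^ 8 = -1) (u : ℂ) : sn θ 3 u⁻¹ = sn θ 5 u := sn_inv hθ rfl u
lemma sn_i4 (hθ : θ ^ 8 = -1) (u : ℂ) : sn θ 4 u⁻¹ = sn θ 4 u := sn_inv hθ rfl u
lemma sn_i5 (hθ : θ ^ 8 = -1) (u : ℂ) : sn θ 5 u⁻¹ = sn θ 3 u := sn_inv hθ rfl u
lemma sn_i6 (hθ : θ ^ 8 = -1) (u : ℂ) : sn θ 6 u⁻¹ = sn θ 2 u := sn_inv hθ rfl u
lemma sn_i7 (hθ : θ ^ 8 = -1) (u : ℂ) : sn θ 7 u⁻¹ = sn θ 1 u := sn_inv hθ rfl u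

/-- indices 8 .. 23 -/
lemma sn_8 (hθ : θ ^ 8 = -1) (u : ℂ) : sn θ 8 u = -sn θ 0 u := sn_add8 hθ 0 u
lemma sn_9 (hθ : θ ^ 8 = -1) (u : ℂ) : sn θ 9 u = -sn θ 1 u := sn_add8 hθ 1 u
lemma sn_10 (hθ : θ ^ 8 = -1) (u : ℂ) : sn θ 10 u = -sn θ 2 u := sn_add8 hθ 2 u
lemma sn_11 (hθ : θ ^ 8 = -1) (u : ℂ) : sn θ 11 u = -sn θ 3 u := sn_add8 hθ 3 u
lemma sn_12 (hθ : θ ^ 8 = -1) (u : ℂ) : sn θ 12 u = -sn θ 4 u := sn_add8 hθ 4 u
lemma sn_13 (hθ : θ ^ 8 = -1) (u : ℂ) : sn θ 13 u = -sn θ 5 u := sn_add8 hθ 5 u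
lemma sn_14 (hθ : θ ^ 8 = -1) (u : ℂ) : sn θ 14 u = -sn θ 6 u := sn_add8 hθ 6 u
lemma sn_15 (hθ : θ ^ 8 = -1) (u : ℂ) : sn θ 15 u = -sn θ 7 u := sn_add8 hθ 7 u
lemma sn_16 (hθ : θ ^ 8 = -1) (u : ℂ) : sn θ 16 u = sn θ 0 u := by
  rw [show (16 : ℕ) = 8 + 8 from rfl, sn_add8 hθ, sn_8 hθ, neg_neg]
lemma sn_17 (hθ : θ ^ 8 = -1) (u : ℂ) : sn θ 17 u = sn θ 1 u := by
  rw [show (17 : ℕ) = 9 + 8 from rfl, sn_add8 hθ, sn_9 hθ, neg_neg]
lemma sn_18 (hθ : θ ^ 8 = -1) (u : ℂ) : sn θ 18 u = sn θ 2 u := by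
  rw [show (18 : ℕ) = 10 + 8 from rfl, sn_add8 hθ, sn_10 hθ, neg_neg]
lemma sn_19 (hθ : θ ^ 8 = -1) (u : ℂ) : sn θ 19 u = sn θ 3 u := by
  rw [show (19 : ℕ) = 11 + 8 from rfl, sn_add8 hθ, sn_11 hθ, neg_neg]
lemma sn_20 (hθ : θ ^ 8 = -1) (u : ℂ) : sn θ 20 u = sn θ 4 u := by
  rw [show (20 : ℕ) = 12 + 8 from rfl, sn_add8 hθ, sn_12 hθ, neg_neg]
lemma sn_21 (hθ : θ ^ 8 = -1) (u : ℂ) : sn θ 21 u = sn θ 5 u := by
  rw [show (21 : ℕ) = 13 + 8 from rfl, sn_add8 hθ, sn_13 hθ, neg_neg]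
lemma sn_22 (hθ : θ ^ 8 = -1) (u : ℂ) : sn θ 22 u = sn θ 6 u := by
  rw [show (22 : ℕ) = 14 + 8 from rfl, sn_add8 hθ, sn_14 hθ, neg_neg]
lemma sn_23 (hθ : θ ^ 8 = -1) (u : ℂ) : sn θ 23 u = sn θ 7 u := by
  rw [show (23 : ℕ) = 15 + 8 from rfl, sn_add8 hθ, sn_15 hθ, neg_neg]

lemma sn61 (hθ : θ ^ 8 = -1) : sn θ 6 1 = sn θ 2 1 := by
  have := sn_inv hθ (k := 6) (j := 2) rfl 1
  rwa [inv_one] at this

set_option linter.unusedSimpArgs false

lemma cs_eq (hθ : θ ^ 8 = -1) (u : ℂ) : cs u = sn θ 4 u := by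
  have h0 := th_ne hθ
  unfold cs sn
  have h4 : (θ ^ 4 * u)⁻¹ = -(θ ^ 4 * u⁻¹) := by
    rw [mul_inv]
    have : (θ ^ 4)⁻¹ = -θ ^ 4 :=
      (eq_inv_of_mul_eq_one_left (by rw [neg_mul, ← pow_add, hθ, neg_neg])).symm
    rw [this]; ring
  rw [h4]
  have : θ ^ 4 ≠ 0 := pow_ne_zero _ h0
  field_simp
  ring

/-- `θ → θ⁻¹` -/
lemma sn_th (hθ : θ ^ 8 = -1) (k : ℕ) (u : ℂ) : sn θ⁻¹ k u = sn θ k u⁻¹ := by
  have h0 := th_ne hθ
  have h4 : (2 * θ⁻¹ ^ 4 : ℂ) = -(2 * θ ^ 4) := by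
    have : θ⁻¹ ^ 4 * θ ^ 8 = θ ^ 4 := by
      rw [inv_pow, show (8 : ℕ) = 4 + 4 from rfl, pow_add]; field_simp
    rw [hθ] at this
    linear_combination -2 * this
  unfold sn
  rw [h4, mul_inv, mul_inv, inv_inv, inv_pow, inv_inv]
  field_simp
  ring

/-! ### states, marks, current factors -/

/-- unmarked states -/
def Un : K → Bool
  | .a => false | .b => false | .rB => false | .rE => false | .lB => false | .lE => false
  | _ => true

/-- marked states over an unmarked state, current on the right -/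
def mkR : K → List K
  | .p => [.a]
  | .z => [.b]
  | .rb => [.rB]
  | .re => [.rE]
  | _ => []

/-- marked states over an unmarked state, current on the left -/
def mkL : K → List K
  | .n => [.b]
  | .z => [.a]
  | .lb => [.lB]
  | .le => [.lE]
  | _ => []

/-- position of the mark of a right current: `θ ^ ps` times the line -/
def ps : K → ℕ
  | .b => 15
  | _ => 0

/-- numerator of the factor with which a current on the right sees an object; `u` = mark / object;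
`true`: the object is in the world of the current -/
def nu (θ : ℂ) : Bool → K → ℂ → ℂ
  | true, .z, u => sn θ 2 u
  | true, .n, u => sn θ 3 u
  | true, .ro, _ => -1
  | true, .re, _ => -sn θ 2 1
  | false, .p, u => sn θ 3 u
  | false, .z, u => -sn θ 4 u
  | false, .n, _ => -1
  | false, .ro, u => sn θ 3 u
  | false, .rb, u => sn θ 3 u
  | false, .re, u => sn θ 3 u
  | _, _, _ => 1

/-- near poles (exponents) -/
def nE : Bool → K → List ℕ
  | true, .p => [0]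
  | true, .z => [15]
  | true, .rb => [0]
  | true, .re => [0]
  | _, _ => []

/-- far poles (exponents) -/
def fE : Bool → K → List ℕ
  | true, .ro => [2]
  | true, .re => [2]
  | false, .z => [3]
  | false, .n => [2]
  | _, _ => []

/-- poles from exponents -/
def pl (θ c : ℂ) (E : List ℕ) : List ℂ := E.map fun j => θ ^ j * c

/-- the factor with which a right current with mark `w` sees the object `(c, k)` -/
def sg (θ : ℂ) (o : Bool) (k : K) (w c : ℂ) : ℂ :=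
  nu θ o k (w / c) / dv θ (pl θ c (nE o k) ++ pl θ c (fE o k)) w

lemma dv_nil (w : ℂ) : dv θ [] w = 1 := rfl

lemma dv_cons (p : ℂ) (L : List ℂ) (w : ℂ) : dv θ (p :: L) w = sn θ 0 (w / p) * dv θ L w := by
  simp [dv]

lemma dv_append (L L' : List ℂ) (w : ℂ) : dv θ (L ++ L') w = dv θ L w * dv θ L' w := by
  simp [dv]

/-- one pole -/
lemma sn_pole (hθ : θ ^ 8 = -1) {j i : ℕ} (h : j + i = 16) (w c : ℂ) :
    sn θ 0 (w / (θ ^ j * c)) = sn θ i (w / c) := by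
  have h1 : (θ ^ j)⁻¹ = θ ^ i :=
    (eq_inv_of_mul_eq_one_left (by rw [← pow_add, add_comm i j, h, th16 hθ])).symm
  have : w / (θ ^ j * c) = θ ^ i * (w / c) := by
    rw [div_mul_eq_div_div_swap, div_eq_mul_inv (w / c), h1, mul_comm]
  rw [this, sn_mul, zero_add]

lemma pole0 (w c : ℂ) : sn θ 0 (w / (θ ^ 0 * c)) = sn θ 0 (w / c) := by
  rw [pow_zero, one_mul]
lemma pole15 (hθ : θ ^ 8 = -1) (w c : ℂ) : sn θ 0 (w / (θ ^ 15 * c)) = sn θ 1 (w / c) :=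
  sn_pole hθ rfl w c
lemma pole2 (hθ : θ ^ 8 = -1) (w c : ℂ) : sn θ 0 (w / (θ ^ 2 * c)) = -sn θ 6 (w / c) := by
  rw [sn_pole hθ (i := 14) rfl, sn_14 hθ]
lemma pole3 (hθ : θ ^ 8 = -1) (w c : ℂ) : sn θ 0 (w / (θ ^ 3 * c)) = -sn θ 5 (w / c) := by
  rw [sn_pole hθ (i := 13) rfl, sn_13 hθ]

/-- two right ends of one world which are not both occupied and not both empty -/
def Okp (k l : K) : Prop :=
  ¬ ((k = .ro ∨ k = .rb) ∧ (l = .ro ∨ l = .rb)) ∧ ¬ (k = .re ∧ l = .re) ∧ l ≠ .lb ∧ l ≠ .le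

lemma pos_div (k : ℕ) (x c : ℂ) : θ ^ k * x / c = θ ^ k * (x / c) := mul_div_assoc _ _ _

set_option maxHeartbeats 4000000 in
/-- marked = unmarked times current factor, objects of the same world -/
lemma own_mark (hθ : θ ^ 8 = -1) {k k' l : K} (hk : k' ∈ mkR k) (hl : Un l = true)
    (hkl : Okp k l) {x c : ℂ} (h : ∀ j < 8, sn θ j (x / c) ≠ 0) :
    own θ k' l (x / c) = own θ k l (x / c) * sg θ true l (θ ^ ps k' * x) c := by
  have h0 := h 0 (by norm_num)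
  have h1 := h 1 (by norm_num)
  have h2 := h 2 (by norm_num)
  have h3 := h 3 (by norm_num)
  have h4 := h 4 (by norm_num)
  have h5 := h 5 (by norm_num)
  have h6 := h 6 (by norm_num)
  have h7 := h 7 (by norm_num)
  obtain ⟨q1, q2, q3, q4⟩ := hkl
  unfold sg
  cases k <;> simp only [mkR, List.mem_cons, List.not_mem_nil, or_false] at hk <;> subst hk <;>
    cases l <;> simp only [Un, Bool.false_eq_true] at hl <;>
    first
    | (exfalso; simp at q1; done)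
    | (exfalso; simp at q2; done)
    | (exfalso; simp at q3; done)
    | (exfalso; simp at q4; done)
    | skip
  all_goals
    try simp only [nE, fE, pl, List.map_cons, List.map_nil, List.append_nil, List.nil_append,
      List.cons_append, dv_cons, dv_nil, mul_one, div_one, pole0, pole15 hθ, pole2 hθ, pole3 hθ]
    try simp only [pos_div, nu, ps, own, cls, ff, ef, ee, mir]
    generalize x / c = u at *
    try simp only [pow_zero, one_mul, sn_mul, Nat.reduceAdd, sn61 hθ, sn_8 hθ, sn_9 hθ, sn_10 hθ,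
      sn_11 hθ, sn_12 hθ, sn_13 hθ, sn_14 hθ, sn_15 hθ, sn_16 hθ, sn_17 hθ, sn_18 hθ, sn_19 hθ,
      sn_20 hθ, sn_21 hθ, sn_22 hθ, sn_23 hθ, sn_i0 hθ, sn_i1 hθ, sn_i2 hθ, sn_i3 hθ, sn_i4 hθ,
      sn_i5 hθ, sn_i6 hθ, sn_i7 hθ]
    try field_simp
    try ring

set_option maxHeartbeats 4000000 in
/-- marked = unmarked times current factor, objects of different worlds, mark in world `f` -/
lemma crs_mark (hθ : θ ^ 8 = -1) {k k' l : K} (hk : k' ∈ mkR k) (hl : Un l = true)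
    {x c : ℂ} (h : ∀ j < 8, sn θ j (x / c) ≠ 0) :
    crs θ k' l (x / c) = crs θ k l (x / c) * sg θ false l (θ ^ ps k' * x) c := by
  have h0 := h 0 (by norm_num)
  have h1 := h 1 (by norm_num)
  have h2 := h 2 (by norm_num)
  have h3 := h 3 (by norm_num)
  have h4 := h 4 (by norm_num)
  have h5 := h 5 (by norm_num)
  have h6 := h 6 (by norm_num)
  have h7 := h 7 (by norm_num)
  unfold sg
  cases k <;> simp only [mkR, List.mem_cons, List.not_mem_nil, or_false] at hk <;> subst hk <;>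
    cases l <;> simp only [Un, Bool.false_eq_true] at hl
  all_goals
    try simp only [nE, fE, pl, List.map_cons, List.map_nil, List.append_nil, List.nil_append,
      List.cons_append, dv_cons, dv_nil, mul_one, div_one, pole0, pole15 hθ, pole2 hθ, pole3 hθ]
    try simp only [pos_div, nu, ps, crs, cls, gg, xf, xx, isM, mir]
    generalize x / c = u at *
    try simp only [pow_zero, one_mul, sn_mul, Nat.reduceAdd, sn61 hθ, sn_8 hθ, sn_9 hθ, sn_10 hθ,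
      sn_11 hθ, sn_12 hθ, sn_13 hθ, sn_14 hθ, sn_15 hθ, sn_16 hθ, sn_17 hθ, sn_18 hθ, sn_19 hθ,
      sn_20 hθ, sn_21 hθ, sn_22 hθ, sn_23 hθ, sn_i0 hθ, sn_i1 hθ, sn_i2 hθ, sn_i3 hθ, sn_i4 hθ,
      sn_i5 hθ, sn_i6 hθ, sn_i7 hθ]
    try field_simp
    try ring

set_option maxHeartbeats 4000000 in
/-- symmetry of the coupling between the worlds -/
lemma crs_swap (hθ : θ ^ 8 = -1) (k l : K) (u : ℂ) : crs θ l k u⁻¹ = crs θ k l u := by
  cases k <;> cases l <;> simp only [crs, cls, gg, xf, xx, isM, mir, inv_inv]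
  all_goals
    try simp only [pow_zero, one_mul, sn_mul, Nat.reduceAdd, sn61 hθ, sn_8 hθ, sn_9 hθ, sn_10 hθ,
      sn_11 hθ, sn_12 hθ, sn_13 hθ, sn_14 hθ, sn_15 hθ, sn_16 hθ, sn_17 hθ, sn_18 hθ, sn_19 hθ,
      sn_20 hθ, sn_21 hθ, sn_22 hθ, sn_23 hθ, sn_i0 hθ, sn_i1 hθ, sn_i2 hθ, sn_i3 hθ, sn_i4 hθ,
      sn_i5 hθ, sn_i6 hθ, sn_i7 hθ]
    try ring

set_option maxHeartbeats 4000000 in
/-- mirror symmetry, one world -/
lemma own_mir (hθ : θ ^ 8 = -1) (k l : K) (u : ℂ) : own θ⁻¹ (mir k) (mir l) u = own θ k l u := by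
  cases k <;> cases l <;> simp only [own, cls, ff, ef, ee, mir, sn_th hθ, inv_inv]
  all_goals
    try simp only [pow_zero, one_mul, sn_mul, Nat.reduceAdd, sn61 hθ, sn_8 hθ, sn_9 hθ, sn_10 hθ,
      sn_11 hθ, sn_12 hθ, sn_13 hθ, sn_14 hθ, sn_15 hθ, sn_16 hθ, sn_17 hθ, sn_18 hθ, sn_19 hθ,
      sn_20 hθ, sn_21 hθ, sn_22 hθ, sn_23 hθ, sn_i0 hθ, sn_i1 hθ, sn_i2 hθ, sn_i3 hθ, sn_i4 hθ,
      sn_i5 hθ, sn_i6 hθ, sn_i7 hθ]
    try ring

set_option maxHeartbeats 4000000 in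
/-- mirror symmetry, two worlds -/
lemma crs_mir (hθ : θ ^ 8 = -1) (k l : K) (u : ℂ) : crs θ⁻¹ (mir k) (mir l) u = crs θ k l u := by
  cases k <;> cases l <;> simp only [crs, cls, gg, xf, xx, isM, mir, sn_th hθ, inv_inv]
  all_goals
    try simp only [pow_zero, one_mul, sn_mul, Nat.reduceAdd, sn61 hθ, sn_8 hθ, sn_9 hθ, sn_10 hθ,
      sn_11 hθ, sn_12 hθ, sn_13 hθ, sn_14 hθ, sn_15 hθ, sn_16 hθ, sn_17 hθ, sn_18 hθ, sn_19 hθ,
      sn_20 hθ, sn_21 hθ, sn_22 hθ, sn_23 hθ, sn_i0 hθ, sn_i1 hθ, sn_i2 hθ, sn_i3 hθ, sn_i4 hθ,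
      sn_i5 hθ, sn_i6 hθ, sn_i7 hθ]
    try ring

set_option maxHeartbeats 4000000 in
/-- symmetry of the coupling in one world, generic -/
lemma own_swap (hθ : θ ^ 8 = -1) (k l : K) (u : ℂ) : own θ l k u⁻¹ = own θ k l u := by
  cases k <;> cases l <;> simp only [own, cls, ff, ef, ee, mir, inv_inv]
  all_goals
    try simp only [pow_zero, one_mul, sn_mul, Nat.reduceAdd, sn61 hθ, sn_8 hθ, sn_9 hθ, sn_10 hθ,
      sn_11 hθ, sn_12 hθ, sn_13 hθ, sn_14 hθ, sn_15 hθ, sn_16 hθ, sn_17 hθ, sn_18 hθ, sn_19 hθ,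
      sn_20 hθ, sn_21 hθ, sn_22 hθ, sn_23 hθ, sn_i0 hθ, sn_i1 hθ, sn_i2 hθ, sn_i3 hθ, sn_i4 hθ,
      sn_i5 hθ, sn_i6 hθ, sn_i7 hθ]
    try ring

lemma Cc_eq (hθ : θ ^ 8 = -1) (u : ℂ) : Cc θ u = sn θ 4 u / (sn θ 3 u * sn θ 5 u) := by
  unfold Cc; rw [cs_eq hθ, sn_i3 hθ]

lemma Cc_th (hθ : θ ^ 8 = -1) (u : ℂ) : Cc θ⁻¹ u = Cc θ u := by
  rw [Cc_eq (th_inv8 hθ), Cc_eq hθ, sn_th hθ, sn_th hθ, sn_th hθ, sn_i3 hθ, sn_i4 hθ, sn_i5 hθ,
    mul_comm]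

lemma pos_div2 (hθ : θ ^ 8 = -1) {a b i : ℕ} (h : b + i = 16) (x y : ℂ) :
    θ ^ a * x / (θ ^ b * y) = θ ^ (a + i) * (x / y) := by
  have h1 : (θ ^ b)⁻¹ = θ ^ i :=
    (eq_inv_of_mul_eq_one_left (by rw [← pow_add, add_comm i b, h, th16 hθ])).symm
  rw [mul_div_mul_comm, div_eq_mul_inv (θ ^ a), h1, pow_add]

lemma pd00 (x y : ℂ) : θ ^ 0 * x / (θ ^ 0 * y) = x / y := by rw [pow_zero, one_mul, one_mul]
lemma pd0f (hθ : θ ^ 8 = -1) (x y : ℂ) : θ ^ 0 * x / (θ ^ 15 * y) = θ ^ 1 * (x / y) :=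
  pos_div2 hθ (i := 1) rfl x y
lemma pdf0 (hθ : θ ^ 8 = -1) (x y : ℂ) : θ ^ 15 * x / (θ ^ 0 * y) = θ ^ 15 * (x / y) := by
  rw [pos_div2 hθ (i := 16) rfl x y, pow_add, th16 hθ, mul_one]
lemma pdff (hθ : θ ^ 8 = -1) (x y : ℂ) : θ ^ 15 * x / (θ ^ 15 * y) = x / y := by
  rw [pos_div2 hθ (i := 1) rfl x y, th16 hθ, one_mul]

set_option maxHeartbeats 4000000 in
/-- two marks of the same side in different worlds -/
lemma crs_mark2 (hθ : θ ^ 8 = -1) {k k' l l' : K} (hk : k' ∈ mkR k) (hl : l' ∈ mkR l)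
    {x c : ℂ} (h : ∀ j < 8, sn θ j (x / c) ≠ 0) :
    crs θ k' l' (x / c) = crs θ k l (x / c) * sg θ false l (θ ^ ps k' * x) c *
      sg θ false k (θ ^ ps l' * c) x * Cc θ (θ ^ ps k' * x / (θ ^ ps l' * c)) := by
  have h0 := h 0 (by norm_num)
  have h1 := h 1 (by norm_num)
  have h2 := h 2 (by norm_num)
  have h3 := h 3 (by norm_num)
  have h4 := h 4 (by norm_num)
  have h5 := h 5 (by norm_num)
  have h6 := h 6 (by norm_num)
  have h7 := h 7 (by norm_num)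
  unfold sg
  rw [Cc_eq hθ]
  cases k <;> simp only [mkR, List.mem_cons, List.not_mem_nil, or_false] at hk <;> subst hk <;>
    cases l <;> simp only [mkR, List.mem_cons, List.not_mem_nil, or_false] at hl <;> subst hl
  all_goals
    try simp only [nE, fE, pl, List.map_cons, List.map_nil, List.append_nil, List.nil_append,
      List.cons_append, dv_cons, dv_nil, mul_one, div_one, pole0, pole15 hθ, pole2 hθ, pole3 hθ]
    try simp only [nu, ps, crs, cls, gg, xf, xx, isM, mir]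
    try simp only [pd00, pd0f hθ, pdf0 hθ, pdff hθ]
    try simp only [pos_div]
    have hi : c / x = (x / c)⁻¹ := (inv_div _ _).symm
    rw [hi] at *
    generalize x / c = u at *
    try simp only [pow_zero, one_mul, sn_mul, Nat.reduceAdd, sn61 hθ, sn_8 hθ, sn_9 hθ, sn_10 hθ,
      sn_11 hθ, sn_12 hθ, sn_13 hθ, sn_14 hθ, sn_15 hθ, sn_16 hθ, sn_17 hθ, sn_18 hθ, sn_19 hθ,
      sn_20 hθ, sn_21 hθ, sn_22 hθ, sn_23 hθ, sn_i0 hθ, sn_i1 hθ, sn_i2 hθ, sn_i3 hθ, sn_i4 hθ,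
      sn_i5 hθ, sn_i6 hθ, sn_i7 hθ]
    try field_simp
    try ring

set_option maxHeartbeats 4000000 in
/-- two marks of opposite sides in different worlds -/
lemma crs_markRL (hθ : θ ^ 8 = -1) {k k' l l' : K} (hk : k' ∈ mkR k) (hl : l' ∈ mkL l)
    {x c : ℂ} (h : ∀ j < 8, sn θ j (x / c) ≠ 0) :
    crs θ k' l' (x / c) = crs θ k l (x / c) * sg θ false l (θ ^ ps k' * x) c *
      sg θ⁻¹ false (mir k) (θ⁻¹ ^ ps (mir l') * c) x := by
  have h0 := h 0 (by norm_num)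
  have h1 := h 1 (by norm_num)
  have h2 := h 2 (by norm_num)
  have h3 := h 3 (by norm_num)
  have h4 := h 4 (by norm_num)
  have h5 := h 5 (by norm_num)
  have h6 := h 6 (by norm_num)
  have h7 := h 7 (by norm_num)
  have hθ' := th_inv8 hθ
  unfold sg
  cases k <;> simp only [mkR, List.mem_cons, List.not_mem_nil, or_false] at hk <;> subst hk <;>
    cases l <;> simp only [mkL, List.mem_cons, List.not_mem_nil, or_false] at hl <;> subst hl
  all_goals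
    try simp only [nE, fE, pl, List.map_cons, List.map_nil, List.append_nil, List.nil_append,
      List.cons_append, dv_cons, dv_nil, mul_one, div_one, pole0, pole15 hθ, pole2 hθ, pole3 hθ,
      pole15 hθ', pole2 hθ', pole3 hθ', mir]
    try simp only [nu, ps, crs, cls, gg, xf, xx, isM, mir]
    try simp only [pos_div]
    have hi : c / x = (x / c)⁻¹ := (inv_div _ _).symm
    rw [hi] at *
    generalize x / c = u at *
    try simp only [pow_zero, one_mul, sn_mul, Nat.reduceAdd, sn61 hθ', sn_8 hθ', sn_9 hθ',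
      sn_10 hθ', sn_11 hθ', sn_12 hθ', sn_13 hθ', sn_14 hθ', sn_15 hθ', sn_16 hθ', sn_17 hθ',
      sn_18 hθ', sn_19 hθ', sn_20 hθ', sn_21 hθ', sn_22 hθ', sn_23 hθ', sn_i0 hθ', sn_i1 hθ',
      sn_i2 hθ', sn_i3 hθ', sn_i4 hθ', sn_i5 hθ', sn_i6 hθ', sn_i7 hθ']
    try simp only [sn_th hθ, inv_inv]
    try simp only [pow_zero, one_mul, sn_mul, Nat.reduceAdd, sn61 hθ, sn_8 hθ, sn_9 hθ, sn_10 hθ,
      sn_11 hθ, sn_12 hθ, sn_13 hθ, sn_14 hθ, sn_15 hθ, sn_16 hθ, sn_17 hθ, sn_18 hθ, sn_19 hθ,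
      sn_20 hθ, sn_21 hθ, sn_22 hθ, sn_23 hθ, sn_i0 hθ, sn_i1 hθ, sn_i2 hθ, sn_i3 hθ, sn_i4 hθ,
      sn_i5 hθ, sn_i6 hθ, sn_i7 hθ]
    try field_simp
    try ring

/-- weight of a marked object -/
lemma w1_mark (hθ : θ ^ 8 = -1) (h2 : sn θ 2 1 ≠ 0) {k k' : K} (hk : k' ∈ mkR k) {x : ℂ}
    (hx : x ≠ 0) :
    w1 θ k' = w1 θ k * (nu θ true k (θ ^ ps k' * x / x) /
      dv θ (pl θ x (fE true k)) (θ ^ ps k' * x)) := by
  cases k <;> simp only [mkR, List.mem_cons, List.not_mem_nil, or_false] at hk <;> subst hk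
  all_goals
    try simp only [nE, fE, pl, List.map_cons, List.map_nil, List.append_nil, List.nil_append,
      List.cons_append, dv_cons, dv_nil, mul_one, div_one, pole0, pole15 hθ, pole2 hθ, pole3 hθ]
    try simp only [pos_div, div_self hx, nu, ps, w1]
    try simp only [sn_mul, Nat.reduceAdd]
    try simp only [pow_zero, one_mul, sn_mul, Nat.reduceAdd, sn61 hθ, sn_8 hθ, sn_9 hθ, sn_10 hθ,
      sn_11 hθ, sn_12 hθ, sn_13 hθ, sn_14 hθ, sn_15 hθ, sn_16 hθ, sn_17 hθ, sn_18 hθ, sn_19 hθ,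
      sn_20 hθ, sn_21 hθ, sn_22 hθ, sn_23 hθ, sn_i0 hθ, sn_i1 hθ, sn_i2 hθ, sn_i3 hθ, sn_i4 hθ,
      sn_i5 hθ, sn_i6 hθ, sn_i7 hθ]
    try field_simp
    try ring

end NUTP.Gas.UD

end
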