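import Pool.Agent.NUTP.Gas.UDa

/-!
# Reflection of the gas, II: the reflection of the single objects
-/

set_option autoImplicit false

noncomputable section

namespace NUTP.Gas.UD

open NUTG

variable {θ : ℂ}

set_option linter.unusedSimpArgs false

/-- reflected state of an ended line: below and above exchanged -/
def sw : K → K
  | .ro => .rb
  | .rb => .ro
  | .lo => .lb
  | .lb => .lo
  | k => k

/-- unmarked state of a full line -/
def isF (k : K) : Prop := k = .p ∨ k = .z ∨ k = .n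

/-- unmarked state of an ended line -/
def isE (k : K) : Prop := k = .ro ∨ k = .rb ∨ k = .re ∨ k = .lo ∨ k = .lb ∨ k = .le

lemma isF.un {k : K} (h : isF k) : Un k = true := by rcases h with rfl | rfl | rfl <;> rfl
lemma isE.un {k : K} (h : isE k) : Un k = true := by
  rcases h with rfl | rfl | rfl | rfl | rfl | rfl <;> rfl
lemma isF.mir {k : K} (h : isF k) : isF (mir k) := by
  rcases h with rfl | rfl | rfl <;> simp [isF, Gas.mir]
lemma isE.mir {k : K} (h : isE k) : isE (mir k) := by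
  rcases h with rfl | rfl | rfl | rfl | rfl | rfl <;> simp [isE, Gas.mir]
lemma isE.sw {k : K} (h : isE k) : isE (sw k) := by
  rcases h with rfl | rfl | rfl | rfl | rfl | rfl <;> simp [isE, UD.sw]

/-- number of poles -/
def npl (o : Bool) (k : K) : ℕ := (nE o k).length + (fE o k).length

/-- image of an object under the reflection -/
def imk (o : Bool) (k : K) : Bool × K :=
  match cls k with
  | .f => (!o, mir k)
  | _ => (o, sw k)

lemma imk_F {o : Bool} {k : K} (h : isF k) : imk o k = (!o, mir k) := by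
  rcases h with rfl | rfl | rfl <;> rfl
lemma imk_E {o : Bool} {k : K} (h : isE k) : imk o k = (o, sw k) := by
  rcases h with rfl | rfl | rfl | rfl | rfl | rfl <;> rfl

lemma div_sq (hθ : θ ^ 8 = -1) (w c : ℂ) : w / θ ^ 2 / c = θ ^ 14 * (w / c) := by
  have h1 : (θ ^ 2)⁻¹ = θ ^ 14 :=
    (eq_inv_of_mul_eq_one_left (by rw [← pow_add]; exact th16 hθ)).symm
  rw [div_eq_mul_inv w, h1]; ring

/-- numerators -/
lemma nu_im (hθ : θ ^ 8 = -1) (o : Bool) {k : K} (hk : Un k = true) (w c : ℂ) :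
    nu θ⁻¹ (imk o k).1 (imk o k).2 (w / θ ^ 2 / c) = (-1) ^ npl o k * nu θ o k (w / c) := by
  rw [div_sq hθ]
  generalize w / c = u
  have h1 : (1 : ℂ)⁻¹ = 1 := inv_one
  have e : (θ ^ 14 * u)⁻¹ = θ ^ 2 * u⁻¹ := by
    have h1 : (θ ^ 14)⁻¹ = θ ^ 2 :=
      (eq_inv_of_mul_eq_one_left (by rw [← pow_add]; exact th16 hθ)).symm
    rw [mul_inv, h1]
  cases o <;> cases k <;> simp only [Un, Bool.false_eq_true] at hk
  all_goals
    simp only [imk, cls, mir, sw, Bool.not_true, Bool.not_false, nu, npl, nE, fE, List.length_cons,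
      List.length_nil, sn_th hθ, e]
    try simp only [pow_zero, one_mul, sn_mul, Nat.reduceAdd, sn61 hθ, sn_8 hθ, sn_9 hθ, sn_10 hθ,
      sn_11 hθ, sn_12 hθ, sn_13 hθ, sn_14 hθ, sn_15 hθ, sn_16 hθ, sn_17 hθ, sn_18 hθ, sn_19 hθ,
      sn_20 hθ, sn_21 hθ, sn_22 hθ, sn_23 hθ, sn_i0 hθ, sn_i1 hθ, sn_i2 hθ, sn_i3 hθ, sn_i4 hθ,
      sn_i5 hθ, sn_i6 hθ, sn_i7 hθ]
    try simp only [h1]
    try ring

lemma pl_eq_of {E E' : List ℕ} (hθ : θ ^ 8 = -1) (c : ℂ)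
    (h : E.map (fun j => (15 * j) % 16) = E'.map fun j => (j + 14) % 16) :
    pl θ⁻¹ c E = (pl θ c E').map (· / θ ^ 2) := by
  have h16 := th16 hθ
  have red : ∀ n : ℕ, θ ^ n = θ ^ (n % 16) := by
    intro n
    conv_lhs => rw [← Nat.div_add_mod n 16]
    rw [pow_add, pow_mul, h16, one_pow, one_mul]
  have e1 : pl θ⁻¹ c E = (E.map (fun j => (15 * j) % 16)).map fun i => θ ^ i * c := by
    unfold pl
    rw [List.map_map]
    refine List.map_congr_left fun j _ => ?_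
    simp only [Function.comp_def]
    rw [← red, pow_mul, ← th_inv hθ]
  have e2 : (pl θ c E').map (· / θ ^ 2) = (E'.map fun j => (j + 14) % 16).map fun i => θ ^ i * c := by
    unfold pl
    rw [List.map_map, List.map_map]
    refine List.map_congr_left fun j _ => ?_
    simp only [Function.comp_def]
    have h1 : (θ ^ 2)⁻¹ = θ ^ 14 :=
      (eq_inv_of_mul_eq_one_left (by rw [← pow_add]; exact h16)).symm
    rw [← red, pow_add, div_eq_mul_inv, h1]; ring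
  rw [e1, e2, h]

/-- near poles of the image -/
lemma near_im (hθ : θ ^ 8 = -1) (o : Bool) {k : K} (hk : Un k = true) (c : ℂ) :
    pl θ⁻¹ c (nE (imk o k).1 (imk o k).2) = (pl θ c (fE o k)).map (· / θ ^ 2) := by
  apply pl_eq_of hθ
  cases o <;> cases k <;> first | rfl | (simp [Un] at hk)

/-- far poles of the image -/
lemma far_im (hθ : θ ^ 8 = -1) (o : Bool) {k : K} (hk : Un k = true) (c : ℂ) :
    pl θ⁻¹ c (fE (imk o k).1 (imk o k).2) = (pl θ c (nE o k)).map (· / θ ^ 2) := by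
  apply pl_eq_of hθ
  cases o <;> cases k <;> first | rfl | (simp [Un] at hk)

/-! ### couplings -/

lemma own_FF (hθ : θ ^ 8 = -1) (k l : K) (u : ℂ) : own θ⁻¹ (mir k) (mir l) u = own θ k l u :=
  own_mir hθ k l u

lemma crs_FF (hθ : θ ^ 8 = -1) (k l : K) (x y : ℂ) :
    crs θ⁻¹ (mir l) (mir k) (y / x) = crs θ k l (x / y) := by
  rw [← inv_div x y, crs_mir hθ, crs_swap hθ]

lemma own_EF (hθ : θ ^ 8 = -1) {k l : K} (hk : isE k) (hl : isF l) (u : ℂ) :
    crs θ⁻¹ (sw k) (mir l) u = own θ k l u := by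
  rcases hk with rfl | rfl | rfl | rfl | rfl | rfl <;> rcases hl with rfl | rfl | rfl <;>
    simp only [sw, mir, own, crs, cls, ef, xf, sn_th hθ, inv_inv]
  all_goals
    try simp only [pow_zero, one_mul, sn_mul, Nat.reduceAdd, sn61 hθ, sn_8 hθ, sn_9 hθ, sn_10 hθ,
      sn_11 hθ, sn_12 hθ, sn_13 hθ, sn_14 hθ, sn_15 hθ, sn_16 hθ, sn_17 hθ, sn_18 hθ, sn_19 hθ,
      sn_20 hθ, sn_21 hθ, sn_22 hθ, sn_23 hθ, sn_i0 hθ, sn_i1 hθ, sn_i2 hθ, sn_i3 hθ, sn_i4 hθ,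
      sn_i5 hθ, sn_i6 hθ, sn_i7 hθ]
    try ring

lemma crs_EF (hθ : θ ^ 8 = -1) {k l : K} (hk : isE k) (hl : isF l) (u : ℂ) :
    own θ⁻¹ (sw k) (mir l) u = crs θ k l u := by
  rcases hk with rfl | rfl | rfl | rfl | rfl | rfl <;> rcases hl with rfl | rfl | rfl <;>
    simp only [sw, mir, own, crs, cls, ef, xf, sn_th hθ, inv_inv]
  all_goals
    try simp only [pow_zero, one_mul, sn_mul, Nat.reduceAdd, sn61 hθ, sn_8 hθ, sn_9 hθ, sn_10 hθ,
      sn_11 hθ, sn_12 hθ, sn_13 hθ, sn_14 hθ, sn_15 hθ, sn_16 hθ, sn_17 hθ, sn_18 hθ, sn_19 hθ,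
      sn_20 hθ, sn_21 hθ, sn_22 hθ, sn_23 hθ, sn_i0 hθ, sn_i1 hθ, sn_i2 hθ, sn_i3 hθ, sn_i4 hθ,
      sn_i5 hθ, sn_i6 hθ, sn_i7 hθ]
    try ring

lemma own_EE (hθ : θ ^ 8 = -1) {k l : K} (hk : isE k) (hl : isE l) (u : ℂ) :
    own θ⁻¹ (sw k) (sw l) u = own θ k l u := by
  rcases hk with rfl | rfl | rfl | rfl | rfl | rfl <;>
    rcases hl with rfl | rfl | rfl | rfl | rfl | rfl <;>
    simp only [sw, mir, own, cls, ee, sn_th hθ, inv_inv]
  all_goals
    try simp only [pow_zero, one_mul, sn_mul, Nat.reduceAdd, sn61 hθ, sn_8 hθ, sn_9 hθ, sn_10 hθ,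
      sn_11 hθ, sn_12 hθ, sn_13 hθ, sn_14 hθ, sn_15 hθ, sn_16 hθ, sn_17 hθ, sn_18 hθ, sn_19 hθ,
      sn_20 hθ, sn_21 hθ, sn_22 hθ, sn_23 hθ, sn_i0 hθ, sn_i1 hθ, sn_i2 hθ, sn_i3 hθ, sn_i4 hθ,
      sn_i5 hθ, sn_i6 hθ, sn_i7 hθ]
    try ring

lemma crs_EE {k l : K} (hk : isE k) (hl : isE l) (u : ℂ) : crs θ k l u = 1 := by
  rcases hk with rfl | rfl | rfl | rfl | rfl | rfl <;>
    rcases hl with rfl | rfl | rfl | rfl | rfl | rfl <;> rfl

lemma sn11 (hθ : θ ^ 8 = -1) : sn θ⁻¹ 1 1 = sn θ 1 1 := by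
  rw [sn_th hθ, inv_one]

lemma w1_mir (hθ : θ ^ 8 = -1) (k : K) : w1 θ⁻¹ (mir k) = w1 θ k := by
  cases k <;> simp only [w1, mir, sn11 hθ]

lemma w1_sw (hθ : θ ^ 8 = -1) {k : K} (hk : isE k) : w1 θ⁻¹ (sw k) = w1 θ k := by
  rcases hk with rfl | rfl | rfl | rfl | rfl | rfl <;> rfl

end NUTP.Gas.UD

end
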