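import Pool.Agent.NUTP.Gas.UDb

/-!
# Reflection of the gas, III: all couplings of the unmarked objects
-/

set_option autoImplicit false

noncomputable section

namespace NUTP.Gas.UD

variable {θ : ℂ}

/-- ended lines: below and above exchanged -/
def sE (E : Cf) : Cf := E.map fun c => (c.1, sw c.2)

/-- full lines: mirror states -/
def rF (e : Cf) : Cf := e.map fun c => (c.1, mir c.2)

/-! ### double products -/

/-- double product over two lists -/
def dp (F : ℂ × K → ℂ × K → ℂ) (A B : Cf) : ℂ := (A.map fun a => (B.map fun b => F a b).prod).prod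

lemma dp_nil (F : ℂ × K → ℂ × K → ℂ) (B : Cf) : dp F [] B = 1 := rfl

lemma dp_cons (F : ℂ × K → ℂ × K → ℂ) (a : ℂ × K) (A B : Cf) :
    dp F (a :: A) B = (B.map fun b => F a b).prod * dp F A B := by
  simp [dp]

lemma dp_nil_right (F : ℂ × K → ℂ × K → ℂ) (A : Cf) : dp F A [] = 1 := by
  induction A with
  | nil => rfl
  | cons a A ih => rw [dp_cons, ih]; simp

lemma dp_cons_right (F : ℂ × K → ℂ × K → ℂ) (A : Cf) (b : ℂ × K) (B : Cf) :
    dp F A (b :: B) = (A.map fun a => F a b).prod * dp F A B := by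
  induction A with
  | nil => simp [dp]
  | cons a A ih =>
    rw [dp_cons, ih, dp_cons]
    simp only [List.map_cons, List.prod_cons]
    ring

lemma dp_append (F : ℂ × K → ℂ × K → ℂ) (A A' B : Cf) : dp F (A ++ A') B = dp F A B * dp F A' B := by
  simp [dp]

lemma dp_append_right (F : ℂ × K → ℂ × K → ℂ) (A B B' : Cf) : dp F A (B ++ B') = dp F A B * dp F A B' := by
  induction A with
  | nil => simp [dp]
  | cons a A ih =>
    rw [dp_cons, ih, dp_cons, dp_cons, List.map_append, List.prod_append]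
    ring

lemma dp_swap (F : ℂ × K → ℂ × K → ℂ) (A B : Cf) : dp F A B = dp (fun b a => F a b) B A := by
  induction A with
  | nil => rw [dp_nil, dp_nil_right]
  | cons a A ih => rw [dp_cons, ih, dp_cons_right]

lemma dp_congr {F F' : ℂ × K → ℂ × K → ℂ} {A B : Cf} (h : ∀ a ∈ A, ∀ b ∈ B, F a b = F' a b) :
    dp F A B = dp F' A B := by
  unfold dp
  congr 1
  apply List.map_congr_left
  intro a ha
  congr 1
  exact List.map_congr_left fun b hb => h a ha b hb

lemma dp_map (F : ℂ × K → ℂ × K → ℂ) (g h : ℂ × K → ℂ × K) (A B : Cf) :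
    dp F (A.map g) (B.map h) = dp (fun a b => F (g a) (h b)) A B := by
  unfold dp
  simp only [List.map_map, Function.comp_def]

/-- couplings between two parts of a world -/
def cc (θ : ℂ) (A B : Cf) : ℂ := dp (fun a b => own θ a.2 b.2 (a.1 / b.1)) A B

lemma cr_dp (A B : Cf) : cr θ A B = dp (fun a b => crs θ a.2 b.2 (a.1 / b.1)) A B := rfl

lemma ow1_app (x : ℂ) (k : K) (A B : Cf) : ow1 θ x k (A ++ B) = ow1 θ x k A * ow1 θ x k B := by
  simp [ow1]

lemma cc_cons (a : ℂ × K) (A B : Cf) : cc θ (a :: A) B = ow1 θ a.1 a.2 B * cc θ A B := by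
  unfold cc
  rw [dp_cons]
  rfl

lemma ow_app (A B : Cf) : ow θ (A ++ B) = ow θ A * ow θ B * cc θ A B := by
  induction A with
  | nil => simp [ow, cc, dp]
  | cons a A ih =>
    rw [List.cons_append]
    simp only [ow]
    rw [ih, ow1_app, cc_cons]
    ring

lemma cr_app (A B C D : Cf) :
    cr θ (A ++ B) (C ++ D) = cr θ A C * cr θ A D * (cr θ B C * cr θ B D) := by
  simp only [cr_dp, dp_append, dp_append_right]
  ring

/-- one world, all states changed -/
lemma ow_map {θ' : ℂ} (g : K → K) {A : Cf} (hw : ∀ c ∈ A, w1 θ' (g c.2) = w1 θ c.2)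
    (ho : ∀ c ∈ A, ∀ d ∈ A, ∀ u, own θ' (g c.2) (g d.2) u = own θ c.2 d.2 u) :
    ow θ' (A.map fun c => (c.1, g c.2)) = ow θ A := by
  induction A with
  | nil => rfl
  | cons a A ih =>
    rw [List.map_cons]
    simp only [ow]
    rw [ih (fun c hc => hw c (List.mem_cons_of_mem _ hc))
      (fun c hc d hd => ho c (List.mem_cons_of_mem _ hc) d (List.mem_cons_of_mem _ hd)),
      hw a List.mem_cons_self]
    congr 2
    unfold ow1
    rw [List.map_map]
    congr 1
    apply List.map_congr_left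
    intro d hd
    exact ho a List.mem_cons_self d (List.mem_cons_of_mem _ hd) _

/-- **reflection of all couplings of the unmarked objects** -/
theorem base_refl (hθ : θ ^ 8 = -1) {E E' e f : Cf} (hE : ∀ c ∈ E, isE c.2) (hE' : ∀ c ∈ E', isE c.2)
    (he : ∀ c ∈ e, isF c.2) (hf : ∀ c ∈ f, isF c.2) :
    ow θ⁻¹ (sE E ++ rF f) * ow θ⁻¹ (sE E' ++ rF e) * cr θ⁻¹ (sE E ++ rF f) (sE E' ++ rF e) =
      ow θ (E ++ e) * ow θ (E' ++ f) * cr θ (E ++ e) (E' ++ f) := by
  have hθ' := th_inv8 hθ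
  rw [ow_app, ow_app, cr_app, ow_app, ow_app, cr_app]
  have a1 : ow θ⁻¹ (sE E) = ow θ E :=
    ow_map sw (fun c hc => w1_sw hθ (hE c hc)) fun c hc d hd u => own_EE hθ (hE c hc) (hE d hd) u
  have a2 : ow θ⁻¹ (sE E') = ow θ E' :=
    ow_map sw (fun c hc => w1_sw hθ (hE' c hc)) fun c hc d hd u => own_EE hθ (hE' c hc) (hE' d hd) u
  have a3 : ow θ⁻¹ (rF e) = ow θ e :=
    ow_map mir (fun c _ => w1_mir hθ _) fun c _ d _ u => own_FF hθ _ _ u
  have a4 : ow θ⁻¹ (rF f) = ow θ f :=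
    ow_map mir (fun c _ => w1_mir hθ _) fun c _ d _ u => own_FF hθ _ _ u
  have b1 : cc θ⁻¹ (sE E) (rF f) = cr θ E f := by
    rw [cr_dp]
    unfold cc sE rF
    rw [dp_map]
    exact dp_congr fun a ha b hb => crs_EF hθ (hE a ha) (hf b hb) _
  have b2 : cc θ⁻¹ (sE E') (rF e) = cr θ e E' := by
    rw [cr_dp, dp_swap]
    unfold cc sE rF
    rw [dp_map]
    refine dp_congr fun a ha b hb => ?_
    rw [crs_EF hθ (hE' a ha) (he b hb), ← inv_div b.1 a.1, crs_swap hθ]
  have c1 : cr θ⁻¹ (sE E) (rF e) = cc θ E e := by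
    rw [cr_dp]
    unfold cc sE rF
    rw [dp_map]
    exact dp_congr fun a ha b hb => own_EF hθ (hE a ha) (he b hb) _
  have c2 : cr θ⁻¹ (rF f) (sE E') = cc θ E' f := by
    rw [cr_dp, dp_swap]
    unfold cc sE rF
    rw [dp_map]
    refine dp_congr fun a ha b hb => ?_
    rw [← inv_div a.1 b.1, crs_swap hθ', own_EF hθ (hE' a ha) (hf b hb)]
  have c3 : cr θ⁻¹ (rF f) (rF e) = cr θ e f := by
    rw [cr_dp, cr_dp, dp_swap]
    unfold rF
    rw [dp_map]
    exact dp_congr fun a _ b _ => crs_FF hθ _ _ _ _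
  have c4 : cr θ⁻¹ (sE E) (sE E') = cr θ E E' := by
    rw [cr_dp, cr_dp]
    unfold sE
    rw [dp_map]
    refine dp_congr fun a ha b hb => ?_
    rw [crs_EE (hE a ha).sw (hE' b hb).sw, crs_EE (hE a ha) (hE' b hb)]
  rw [a1, a2, a3, a4, b1, b2, c1, c2, c3, c4]
  ring

end NUTP.Gas.UD

end
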