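import Pool.Agent.NUTP.Gas.UDb
import Pool.Agent.NUTP.Uniq

/-!
# Reflection of the gas, III: the mark sums of the currents
-/

set_option autoImplicit false

noncomputable section

namespace NUTP.Gas.UD

open NUTG Polynomial

variable {θ : ℂ}

set_option linter.unusedSimpArgs false

/-- an object seen by a current: own world?, line, state -/
abbrev Ob := Bool × ℂ × K

/-- near poles -/
def nearO (θ : ℂ) (o : Ob) : List ℂ := pl θ o.2.1 (nE o.1 o.2.2)
/-- far poles -/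
def farO (θ : ℂ) (o : Ob) : List ℂ := pl θ o.2.1 (fE o.1 o.2.2)
/-- all near poles -/
def AA (θ : ℂ) (O : List Ob) : List ℂ := O.flatMap (nearO θ)
/-- all far poles -/
def BB (θ : ℂ) (O : List Ob) : List ℂ := O.flatMap (farO θ)
/-- numerator -/
def NN (θ : ℂ) (O : List Ob) (w : ℂ) : ℂ := (O.map fun o => nu θ o.1 o.2.2 (w / o.2.1)).prod
/-- reflected object -/
def imO (o : Ob) : Ob := ((imk o.1 o.2.2).1, o.2.1, (imk o.1 o.2.2).2)
/-- the worlds exchanged -/
def flO (o : Ob) : Ob := (!o.1, o.2)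

/-- all states unmarked -/
def UnO (O : List Ob) : Prop := ∀ o ∈ O, Un o.2.2 = true

/-- the mark sum of one current -/
def M1 (θ : ℂ) (O : List Ob) : ℂ :=
  ((foc (AA θ O)).map fun q => NN θ O q.1 / dv θ (q.2 ++ BB θ O) q.1).sum

/-- the mark sum of two currents of the same side -/
def M2 (θ : ℂ) (O O' : List Ob) : ℂ :=
  ((foc (AA θ O)).map fun q => ((foc (AA θ O')).map fun q' =>
    NN θ O q.1 / dv θ (q.2 ++ BB θ O) q.1 * (NN θ O' q'.1 / dv θ (q'.2 ++ BB θ O') q'.1) *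
      Cc θ (q.1 / q'.1)).sum).sum

lemma AA_im (hθ : θ ^ 8 = -1) {O : List Ob} (h : UnO O) :
    AA θ⁻¹ (O.map imO) = (BB θ O).map (· / θ ^ 2) := by
  induction O with
  | nil => rfl
  | cons o O ih =>
    have h1 := ih fun o' ho' => h o' (List.mem_cons_of_mem _ ho')
    unfold AA BB at *
    rw [List.map_cons, List.flatMap_cons, List.flatMap_cons, List.map_append, h1]
    congr 1
    exact near_im hθ o.1 (h o List.mem_cons_self) o.2.1

lemma BB_im (hθ : θ ^ 8 = -1) {O : List Ob} (h : UnO O) :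
    BB θ⁻¹ (O.map imO) = (AA θ O).map (· / θ ^ 2) := by
  induction O with
  | nil => rfl
  | cons o O ih =>
    have h1 := ih fun o' ho' => h o' (List.mem_cons_of_mem _ ho')
    unfold AA BB at *
    rw [List.map_cons, List.flatMap_cons, List.flatMap_cons, List.map_append, h1]
    congr 1
    exact far_im hθ o.1 (h o List.mem_cons_self) o.2.1

lemma NN_im (hθ : θ ^ 8 = -1) {O : List Ob} (h : UnO O) (w : ℂ) :
    NN θ⁻¹ (O.map imO) (w / θ ^ 2) = (-1) ^ ((AA θ O).length + (BB θ O).length) * NN θ O w := by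
  induction O with
  | nil => simp [NN, AA, BB]
  | cons o O ih =>
    have h1 := ih fun o' ho' => h o' (List.mem_cons_of_mem _ ho')
    have h2 := nu_im hθ o.1 (h o List.mem_cons_self) w o.2.1
    have e1 : NN θ⁻¹ ((o :: O).map imO) (w / θ ^ 2) =
        nu θ⁻¹ (imk o.1 o.2.2).1 (imk o.1 o.2.2).2 (w / θ ^ 2 / o.2.1) *
          NN θ⁻¹ (O.map imO) (w / θ ^ 2) := by
      simp [NN, imO]
    have e2 : NN θ (o :: O) w = nu θ o.1 o.2.2 (w / o.2.1) * NN θ O w := by simp [NN]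
    have e3 : (AA θ (o :: O)).length + (BB θ (o :: O)).length =
        npl o.1 o.2.2 + ((AA θ O).length + (BB θ O).length) := by
      simp only [AA, BB, List.flatMap_cons, List.length_append, nearO, farO, pl, List.length_map, npl]
      omega
    rw [e1, e2, e3, h1, h2, pow_add]
    ring

lemma dv_im (hθ : θ ^ 8 = -1) (L : List ℂ) (w : ℂ) :
    dv θ⁻¹ (L.map (· / θ ^ 2)) (w / θ ^ 2) = (-1) ^ L.length * dv θ L w := by
  have h2 : θ ^ 2 ≠ 0 := pow_ne_zero _ (th_ne hθ)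
  induction L with
  | nil => simp [dv]
  | cons p L ih =>
    rw [List.map_cons, dv_cons, dv_cons, ih, div_div_div_cancel_right₀ h2, sn_th hθ, sn_i0 hθ,
      List.length_cons, pow_succ]
    ring

lemma foc_len {α : Type*} {L : List α} {p : α × List α} (h : p ∈ foc L) :
    L.length = p.2.length + 1 := by
  rw [(foc_perm_cons h).length_eq, List.length_cons]

lemma sign_term {A B n : ℕ} (hn : n + 1 = B) (N D : ℂ) :
    (-1) ^ (A + B) * N / ((-1) ^ (n + A) * D) = -(N / D) := by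
  subst hn
  have h1 : ((-1 : ℂ)) ^ (A + (n + 1)) = (-1) ^ (n + A) * (-1) := by rw [← pow_succ]; congr 1; ring
  have h2 : ((-1 : ℂ)) ^ (n + A) ≠ 0 := pow_ne_zero _ (by norm_num)
  rw [h1, mul_assoc, mul_div_mul_left _ _ h2]
  ring

/-- reflected near terms are the far terms -/
lemma term_im (hθ : θ ^ 8 = -1) {O : List Ob} (h : UnO O) {q : ℂ × List ℂ}
    (hq : q ∈ foc (BB θ O)) :
    NN θ⁻¹ (O.map imO) (q.1 / θ ^ 2) /
      dv θ⁻¹ (q.2.map (· / θ ^ 2) ++ BB θ⁻¹ (O.map imO)) (q.1 / θ ^ 2) =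
      -(NN θ O q.1 / dv θ (AA θ O ++ q.2) q.1) := by
  rw [BB_im hθ h, ← List.map_append, dv_im hθ, NN_im hθ h, List.length_append,
    sign_term (foc_len hq).symm, dv_perm (List.perm_append_comm)]

/-- degree of the numerator -/
def dg : Bool → K → ℕ
  | true, .z => 1
  | true, .n => 1
  | false, .p => 1
  | false, .z => 1
  | false, .ro => 1
  | false, .rb => 1
  | false, .re => 1
  | _, _ => 0

lemma nu_LP (θ : ℂ) (o : Bool) (k : K) (c : ℂ) : LP (dg o k) (fun w => nu θ o k (w / c)) := by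
  cases o <;> cases k <;> simp only [dg, nu]
  all_goals first
    | exact LP.const _
    | exact LP.sn θ _ c
    | exact (LP.sn θ _ c).neg

lemma NN_LP (θ : ℂ) (O : List Ob) : LP (O.map fun o => dg o.1 o.2.2).sum (NN θ O) :=
  LP.prod O fun o _ => nu_LP θ o.1 o.2.2 o.2.1

/-- number of poles minus degree -/
def vl : Bool → K → ℤ
  | true, .p => 1
  | true, .n => -1
  | true, .rb => 1
  | true, .ro => 1
  | true, .re => 2
  | false, .p => -1
  | false, .n => 1
  | false, .ro => -1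
  | false, .rb => -1
  | false, .re => -1
  | _, _ => 0

lemma npl_dg (o : Bool) {k : K} (hk : Un k = true) : (npl o k : ℤ) = dg o k + vl o k := by
  cases o <;> cases k <;> first | rfl | (simp [Un] at hk)

lemma len_AB {O : List Ob} (h : UnO O) :
    (((AA θ O).length + (BB θ O).length : ℕ) : ℤ) =
      ((O.map fun o => dg o.1 o.2.2).sum : ℕ) + (O.map fun o => vl o.1 o.2.2).sum := by
  induction O with
  | nil => rfl
  | cons o O ih =>
    have h1 := ih fun o' ho' => h o' (List.mem_cons_of_mem _ ho')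
    have h2 := npl_dg o.1 (h o List.mem_cons_self)
    have e3 : (AA θ (o :: O)).length + (BB θ (o :: O)).length =
        npl o.1 o.2.2 + ((AA θ O).length + (BB θ O).length) := by
      simp only [AA, BB, List.flatMap_cons, List.length_append, nearO, farO, pl, List.length_map, npl]
      omega
    rw [e3]
    simp only [List.map_cons, List.sum_cons]
    push_cast at *
    omega

lemma sum_map_neg {α : Type*} (L : List α) (f : α → ℂ) :
    (L.map fun x => -f x).sum = -(L.map f).sum := by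
  induction L with
  | nil => simp
  | cons a L ih => rw [List.map_cons, List.map_cons, List.sum_cons, List.sum_cons, ih]; ring

/-- **reflection of one current** -/
theorem M1_refl (hθ : θ ^ 8 = -1) {O : List Ob} (h : UnO O) (hd : Dst (AA θ O ++ BB θ O))
    (hs : (O.map fun o => vl o.1 o.2.2).sum = 2) : M1 θ⁻¹ (O.map imO) = M1 θ O := by
  have hl := len_AB (θ := θ) h
  rw [hs] at hl
  have key := near_far hθ hd (NN_LP θ O) (by exact_mod_cast hl)
  unfold M1
  rw [key, AA_im hθ h, foc_map, List.map_map, ← sum_map_neg]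
  refine congrArg List.sum (List.map_congr_left fun q hq => ?_)
  exact term_im hθ h hq

/-- the other current sees the same objects from the other world -/
def FL (O : List Ob) : List Ob := O.map flO

lemma FL_im (O : List Ob) : (FL O).map imO = FL (O.map imO) := by
  unfold FL
  rw [List.map_map, List.map_map]
  refine List.map_congr_left fun o _ => ?_
  obtain ⟨b, c, k⟩ := o
  cases b <;> cases k <;> rfl

lemma FL_un {O : List Ob} (h : UnO O) : UnO (FL O) := by
  intro o ho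
  obtain ⟨o', ho', rfl⟩ := List.mem_map.1 ho
  exact h o' ho'

lemma sn_32 (hθ : θ ^ 8 = -1) (u : ℂ) : sn θ 32 u = sn θ 0 u := by
  rw [show (32 : ℕ) = 24 + 8 from rfl, sn_add8 hθ, show (24 : ℕ) = 16 + 8 from rfl, sn_add8 hθ,
    neg_neg, sn_16 hθ]

/-- zeros of the numerator -/
lemma nu_zero1 (hθ : θ ^ 8 = -1) {o : Bool} {k : K} (hk : Un k = true) {j : ℕ} (hj : j ∈ nE o k)
    {c : ℂ} (hc : c ≠ 0) : nu θ (!o) k (θ ^ j * c / θ ^ 3 / c) = 0 := by
  have e : θ ^ j * c / θ ^ 3 / c = θ ^ (j + 13) * 1 := by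
    have h1 : (θ ^ 3)⁻¹ = θ ^ 13 :=
      (eq_inv_of_mul_eq_one_left (by rw [← pow_add]; exact th16 hθ)).symm
    rw [div_eq_mul_inv _ (θ ^ 3), h1, pow_add]; field_simp
  have s0 : sn θ 0 1 = 0 := by unfold sn; simp
  rw [e]
  cases o <;> cases k <;> simp only [nE, List.not_mem_nil, List.mem_cons, or_false] at hj <;>
    subst hj <;> simp only [nu, Bool.not_true]
  all_goals
    try simp only [pow_zero, one_mul, sn_mul, Nat.reduceAdd, sn61 hθ, sn_8 hθ, sn_9 hθ, sn_10 hθ,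
      sn_11 hθ, sn_12 hθ, sn_13 hθ, sn_14 hθ, sn_15 hθ, sn_16 hθ, sn_17 hθ, sn_18 hθ, sn_19 hθ,
      sn_20 hθ, sn_21 hθ, sn_22 hθ, sn_23 hθ, sn_i0 hθ, sn_i1 hθ, sn_i2 hθ, sn_i3 hθ, sn_i4 hθ,
      sn_i5 hθ, sn_i6 hθ, sn_i7 hθ]
    simp [s0, sn_32 hθ]

lemma nu_zero2 (hθ : θ ^ 8 = -1) {o : Bool} {k : K} (hk : Un k = true) {j : ℕ} (hj : j ∈ fE o k)
    {c : ℂ} (hc : c ≠ 0) : nu θ (!o) k (θ ^ j * c * θ ^ 3 / c) = 0 := by
  have e : θ ^ j * c * θ ^ 3 / c = θ ^ (j + 3) * 1 := by rw [pow_add]; field_simp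
  have s0 : sn θ 0 1 = 0 := by unfold sn; simp
  rw [e]
  cases o <;> cases k <;> simp only [fE, List.not_mem_nil, List.mem_cons, or_false] at hj <;>
    subst hj <;> simp only [nu, Bool.not_true, Bool.not_false]
  all_goals
    try simp only [pow_zero, one_mul, sn_mul, Nat.reduceAdd, sn61 hθ, sn_8 hθ, sn_9 hθ, sn_10 hθ,
      sn_11 hθ, sn_12 hθ, sn_13 hθ, sn_14 hθ, sn_15 hθ, sn_16 hθ, sn_17 hθ, sn_18 hθ, sn_19 hθ,
      sn_20 hθ, sn_21 hθ, sn_22 hθ, sn_23 hθ, sn_i0 hθ, sn_i1 hθ, sn_i2 hθ, sn_i3 hθ, sn_i4 hθ,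
      sn_i5 hθ, sn_i6 hθ, sn_i7 hθ]
    simp [s0]

lemma NN_zero {O : List Ob} {o : Ob} (ho : o ∈ O) {w : ℂ} (h : nu θ o.1 o.2.2 (w / o.2.1) = 0) :
    NN θ O w = 0 :=
  List.prod_eq_zero (List.mem_map.2 ⟨o, ho, h⟩)

/-- **reflection of two currents of one side** -/
theorem M2_refl (hθ : θ ^ 8 = -1) {O : List Ob} (h : UnO O) (hne : ∀ o ∈ O, o.2.1 ≠ 0)
    (hd : Dst (AA θ O ++ BB θ O)) (hd' : Dst (AA θ (FL O) ++ BB θ (FL O)))
    (hs : (O.map fun o => vl o.1 o.2.2).sum = 1)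
    (hs' : ((FL O).map fun o => vl o.1 o.2.2).sum = 1)
    (h1 : ∀ w ∈ AA θ O ++ BB θ O, ∀ v ∈ AA θ (FL O) ++ BB θ (FL O), w ^ 2 ≠ (v / θ ^ 3) ^ 2)
    (h2 : ∀ w ∈ AA θ O ++ BB θ O, ∀ v ∈ AA θ (FL O) ++ BB θ (FL O), w ^ 2 ≠ (v * θ ^ 3) ^ 2) :
    M2 θ⁻¹ (O.map imO) (FL (O.map imO)) = M2 θ O (FL O) := by
  have hl := len_AB (θ := θ) h
  rw [hs] at hl
  have hl' := len_AB (θ := θ) (FL_un h)
  rw [hs'] at hl'
  have th2 : θ ^ 2 ≠ 0 := pow_ne_zero _ (th_ne hθ)
  have mA : ∀ {O : List Ob} {v : ℂ}, v ∈ AA θ O → ∃ o ∈ O, ∃ j ∈ nE o.1 o.2.2,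
      v = θ ^ j * o.2.1 := by
    intro O v hv
    obtain ⟨o, ho, hv⟩ := List.mem_flatMap.1 hv
    obtain ⟨j, hj, rfl⟩ := List.mem_map.1 hv
    exact ⟨o, ho, j, hj, rfl⟩
  have mB : ∀ {O : List Ob} {v : ℂ}, v ∈ BB θ O → ∃ o ∈ O, ∃ j ∈ fE o.1 o.2.2,
      v = θ ^ j * o.2.1 := by
    intro O v hv
    obtain ⟨o, ho, hv⟩ := List.mem_flatMap.1 hv
    obtain ⟨j, hj, rfl⟩ := List.mem_map.1 hv
    exact ⟨o, ho, j, hj, rfl⟩
  have key := near_far2 hθ hd hd' (NN_LP θ O) (NN_LP θ (FL O)) (by exact_mod_cast hl)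
    (by exact_mod_cast hl') h1 h2
    (by
      intro v hv
      obtain ⟨o, ho, j, hj, rfl⟩ := mA hv
      obtain ⟨o', ho', rfl⟩ := List.mem_map.1 ho
      refine NN_zero ho' ?_
      have := nu_zero1 hθ (h o' ho') hj (hne o' ho')
      simpa [flO] using this)
    (by
      intro v hv
      obtain ⟨o, ho, j, hj, rfl⟩ := mB hv
      obtain ⟨o', ho', rfl⟩ := List.mem_map.1 ho
      refine NN_zero ho' ?_
      have := nu_zero2 hθ (h o' ho') hj (hne o' ho')
      simpa [flO] using this)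
    (by
      intro w hw
      obtain ⟨o, ho, j, hj, rfl⟩ := mA hw
      refine NN_zero (List.mem_map.2 ⟨o, ho, rfl⟩) ?_
      exact nu_zero1 hθ (h o ho) hj (hne o ho))
    (by
      intro w hw
      obtain ⟨o, ho, j, hj, rfl⟩ := mB hw
      refine NN_zero (List.mem_map.2 ⟨o, ho, rfl⟩) ?_
      exact nu_zero2 hθ (h o ho) hj (hne o ho))
  unfold M2
  rw [key, AA_im hθ h, ← FL_im, AA_im hθ (FL_un h), foc_map, foc_map, List.map_map]
  refine congrArg List.sum (List.map_congr_left fun q hq => ?_)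
  simp only [Function.comp_def, List.map_map]
  refine congrArg List.sum (List.map_congr_left fun q' hq' => ?_)
  rw [term_im hθ h hq, term_im hθ (FL_un h) hq', Cc_th hθ, div_div_div_cancel_right₀ th2]
  ring

end NUTP.Gas.UD

end
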