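import Pool.Agent.NUTP.Gas.UDc
import Pool.Agent.NUTP.Gas.Base

/-!
# Reflection of the gas, IV: states = unmarked states and a place of the mark
-/

set_option autoImplicit false

noncomputable section

namespace NUTP.Gas.UD

open NUTG

variable {θ : ℂ}

/-- unmarked states of a type -/
def tun : Ty → List K
  | .F => [.p, .z, .n]
  | .ro => [.ro]
  | .rb => [.rb]
  | .re => [.re]
  | .lo => [.lo]
  | .lb => [.lb]
  | .le => [.le]

/-- marked states of a type -/
def tmd : Ty → List K
  | .F => [.a, .b]
  | .rb => [.rB]
  | .re => [.rE]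
  | .lb => [.lB]
  | .le => [.lE]
  | _ => []

lemma st_eq (t : Ty) : t.st = tun t ++ tmd t := by cases t <;> rfl

/-- number of marks -/
def mu : K → ℤ
  | .a => 1 | .b => 1 | .rB => 1 | .rE => 1 | .lB => 1 | .lE => 1
  | _ => 0

lemma mu_tun {t : Ty} {k : K} (h : k ∈ tun t) : mu k = 0 := by
  cases t <;> simp only [tun, List.mem_cons, List.not_mem_nil, or_false] at h <;>
    first | (subst h; rfl) | (rcases h with rfl | rfl | rfl <;> rfl)

lemma mu_tmd {t : Ty} {k : K} (h : k ∈ tmd t) : mu k = 1 := by
  cases t <;> simp only [tmd, List.mem_cons, List.not_mem_nil, or_false] at h <;>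
    first | (subst h; rfl) | (rcases h with rfl | rfl <;> rfl)

lemma mu_nonneg (k : K) : 0 ≤ mu k := by cases k <;> simp [mu]

lemma tt_mu_nonneg (e : Cf) : 0 ≤ tt mu e := by
  induction e with
  | nil => simp [tt]
  | cons c e ih => rw [tt_cons]; have := mu_nonneg c.2; omega

variable {M : Type*} [AddCommMonoid M]

/-- sum over the unmarked states -/
def su : List (ℂ × Ty) → (Cf → M) → M
  | [], φ => φ []
  | t :: X, φ => ((tun t.2).map fun k => su X fun e => φ ((t.1, k) :: e)).sum

/-- the sum over the places of the mark -/
def mrk (mks : K → List K) (e : Cf) (φ : Cf → M) : M :=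
  ((foc e).map fun q => ((mks q.1.2).map fun k => φ ((q.1.1, k) :: q.2)).sum).sum

/-- a composition of unmarked states -/
def Cmu (X : List (ℂ × Ty)) (e : Cf) : Prop :=
  List.Forall₂ (fun t c => c.1 = t.1 ∧ c.2 ∈ tun t.2) X e

lemma su_congr {X : List (ℂ × Ty)} {φ ψ : Cf → M} (h : ∀ e, Cmu X e → φ e = ψ e) :
    su X φ = su X ψ := by
  induction X generalizing φ ψ with
  | nil => exact h [] List.Forall₂.nil
  | cons t X ih =>
    simp only [su]
    refine congrArg List.sum (List.map_congr_left fun k hk => ih fun e he => h _ ?_)
    exact List.Forall₂.cons ⟨rfl, hk⟩ he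

lemma su_zero (X : List (ℂ × Ty)) : su X (fun _ => (0 : M)) = 0 := by
  induction X with
  | nil => rfl
  | cons t X ih => simp [su, ih]

lemma sum_map_add {α : Type*} (l : List α) (f g : α → M) :
    (l.map fun x => f x + g x).sum = (l.map f).sum + (l.map g).sum := by
  induction l with
  | nil => simp
  | cons a l ih => simp only [List.map_cons, List.sum_cons, ih]; exact add_add_add_comm _ _ _ _

lemma su_add (X : List (ℂ × Ty)) (φ ψ : Cf → M) :
    su X (fun e => φ e + ψ e) = su X φ + su X ψ := by
  induction X generalizing φ ψ with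
  | nil => rfl
  | cons t X ih => simp only [su, ih, sum_map_add]

lemma su_lsum {α : Type*} (l : List α) (X : List (ℂ × Ty)) (φ : α → Cf → M) :
    su X (fun e => (l.map fun a => φ a e).sum) = (l.map fun a => su X (φ a)).sum := by
  induction l with
  | nil => simpa using su_zero X
  | cons a l ih => simp only [List.map_cons, List.sum_cons, su_add, ih]

/-- no mark -/
lemma sm_0 (X : List (ℂ × Ty)) (φ : Cf → M) :
    sm X (fun e => if tt mu e = 0 then φ e else 0) = su X φ := by
  induction X generalizing φ with
  | nil => simp [sm, su, tt]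
  | cons t X ih =>
    rw [sm, su, st_eq, List.map_append, List.sum_append]
    have e1 : ((tun t.2).map fun k => sm X fun e =>
        if tt mu ((t.1, k) :: e) = 0 then φ ((t.1, k) :: e) else 0).sum =
        ((tun t.2).map fun k => su X fun e => φ ((t.1, k) :: e)).sum := by
      refine congrArg List.sum (List.map_congr_left fun k hk => ?_)
      rw [← ih]
      refine sm_congr' fun e => ?_
      rw [tt_cons, mu_tun hk, zero_add]
    have e2 : ((tmd t.2).map fun k => sm X fun e =>
        if tt mu ((t.1, k) :: e) = 0 then φ ((t.1, k) :: e) else 0).sum = 0 := by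
      apply List.sum_eq_zero
      intro x hx
      obtain ⟨k, hk, rfl⟩ := List.mem_map.1 hx
      refine (sm_congr' fun e => ?_).trans (sm_zero X)
      have h1 := tt_mu_nonneg e
      have h2 : tt mu ((t.1, k) :: e) = 1 + tt mu e := by rw [tt_cons, mu_tmd hk]
      rw [h2]
      exact if_neg (by omega)
    rw [e1, e2, add_zero]

lemma mrk_cons (mks : K → List K) (c : ℂ × K) (e : Cf) (φ : Cf → M) :
    mrk mks (c :: e) φ = ((mks c.2).map fun k => φ ((c.1, k) :: e)).sum +
      ((foc e).map fun q => ((mks q.1.2).map fun k => φ ((q.1.1, k) :: c :: q.2)).sum).sum := by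
  simp only [mrk, foc, List.map_cons, List.sum_cons, List.map_map, Function.comp_def]

lemma sum_flatMap {α β : Type*} (l : List α) (g : α → List β) (f : β → M) :
    ((l.flatMap g).map f).sum = (l.map fun a => ((g a).map f).sum).sum := by
  induction l with
  | nil => rfl
  | cons a l ih => simp only [List.flatMap_cons, List.map_append, List.sum_append, List.map_cons,
      List.sum_cons, ih]

/-- one mark -/
lemma sm_1 (mks : K → List K) (X : List (ℂ × Ty)) (hX : ∀ t ∈ X, (tun t.2).flatMap mks = tmd t.2)
    (φ : Cf → M) (hφ : ∀ e e', e.Perm e' → φ e = φ e') :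
    sm X (fun e => if tt mu e = 1 then φ e else 0) = su X (fun e => mrk mks e φ) := by
  induction X generalizing φ with
  | nil => simp [sm, su, tt, mrk, foc]
  | cons t X ih =>
    rw [sm, su, st_eq, List.map_append, List.sum_append]
    have e1 : ((tun t.2).map fun k => sm X fun e =>
        if tt mu ((t.1, k) :: e) = 1 then φ ((t.1, k) :: e) else 0).sum =
        ((tun t.2).map fun k => su X fun e => mrk mks e (fun e' => φ ((t.1, k) :: e'))).sum := by
      refine congrArg List.sum (List.map_congr_left fun k hk => ?_)
      rw [← ih (fun t ht => hX t (List.mem_cons_of_mem _ ht)) (fun e' => φ ((t.1, k) :: e'))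
        (fun e e' h => hφ _ _ (h.cons _))]
      refine sm_congr' fun e => ?_
      rw [tt_cons, mu_tun hk, zero_add]
    have e2 : ((tmd t.2).map fun k => sm X fun e =>
        if tt mu ((t.1, k) :: e) = 1 then φ ((t.1, k) :: e) else 0).sum =
        ((tun t.2).map fun k => su X fun e => ((mks k).map fun k' => φ ((t.1, k') :: e)).sum).sum := by
      have e3 : ((tmd t.2).map fun k => sm X fun e =>
          if tt mu ((t.1, k) :: e) = 1 then φ ((t.1, k) :: e) else 0).sum =
          ((tmd t.2).map fun k => su X fun e => φ ((t.1, k) :: e)).sum := by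
        refine congrArg List.sum (List.map_congr_left fun k hk => ?_)
        rw [← sm_0]
        refine sm_congr' fun e => ?_
        rw [tt_cons, mu_tmd hk]
        refine if_congr ?_ rfl rfl
        omega
      rw [e3, ← hX t List.mem_cons_self, sum_flatMap]
      refine congrArg List.sum (List.map_congr_left fun k _ => ?_)
      rw [su_lsum]
    rw [e1, e2, ← sum_map_add]
    refine congrArg List.sum (List.map_congr_left fun k _ => ?_)
    rw [← su_add]
    refine su_congr fun e _ => ?_
    rw [mrk_cons, add_comm]
    congr 1
    refine congrArg List.sum (List.map_congr_left fun q _ => ?_)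
    refine congrArg List.sum (List.map_congr_left fun k' _ => ?_)
    exact hφ _ _ (List.Perm.swap _ _ _)

end NUTP.Gas.UD

end
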