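import Pool.Agent.NUTP.Gas.UDd

/-!
# Reflection of the gas, V: the sum over the places of the mark
-/

set_option autoImplicit false

noncomputable section

namespace NUTP.Gas.UD

open NUTG

variable {θ : ℂ}

/-- singled out elements of a list of short lists -/
lemma foc_flatMap {α β M : Type*} [AddCommMonoid M] (g : α → List β)
    (hg : ∀ x, (g x).length ≤ 1) (L : List α) (H : β → List β → M) :
    ((foc (L.flatMap g)).map fun q => H q.1 q.2).sum =
      ((foc L).map fun q => ((g q.1).map fun b => H b (q.2.flatMap g)).sum).sum := by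
  induction L generalizing H with
  | nil => rfl
  | cons x L ih =>
    rw [List.flatMap_cons]
    rcases hgx : g x with _ | ⟨b, l⟩
    · rw [List.nil_append, ih]
      simp only [foc, List.map_cons, List.sum_cons, hgx, List.map_nil, List.sum_nil, zero_add,
        List.map_map, Function.comp_def, List.flatMap_cons, List.nil_append]
    · have hl : l = [] := by
        have := hg x
        rw [hgx, List.length_cons] at this
        exact List.length_eq_zero_iff.1 (by omega)
      subst hl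
      simp only [foc, List.map_cons, List.sum_cons, hgx, List.map_nil, List.sum_nil, add_zero,
        List.map_map, Function.comp_def, List.flatMap_cons, List.cons_append, List.nil_append]
      rw [ih (fun b' R => H b' (b :: R))]

/-! ### both sides -/

/-- `θ` for a current on the right (`b = true`), `θ⁻¹` on the left -/
def tb (θ : ℂ) (b : Bool) : ℂ := if b then θ else θ⁻¹

/-- state as seen by a current of side `b` -/
def mb (b : Bool) (k : K) : K := if b then k else mir k

/-- marks of a current of side `b` -/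
def mks (b : Bool) : K → List K := if b then mkR else mkL

lemma mir_mir (k : K) : mir (mir k) = k := by cases k <;> rfl

lemma tb8 (hθ : θ ^ 8 = -1) (b : Bool) : tb θ b ^ 8 = -1 := by
  cases b
  · exact th_inv8 hθ
  · exact hθ

lemma mb_un (b : Bool) {k : K} (h : Un k = true) : Un (mb b k) = true := by
  cases b
  · cases k <;> first | rfl | (simp [Un] at h)
  · exact h

lemma mks_mb {b : Bool} {k k' : K} (h : k' ∈ mks b k) : mb b k' ∈ mkR (mb b k) := by
  cases b
  · cases k <;> simp only [mks, mkL, Bool.false_eq_true, if_false, List.mem_cons,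
      List.not_mem_nil, or_false] at h <;> subst h <;> simp [mb, mir, mkR]
  · exact h

/-- position of the mark -/
def wp (θ : ℂ) (b : Bool) (k' : K) (x : ℂ) : ℂ := tb θ b ^ ps (mb b k') * x

/-- all `sin` of the difference and of its shifts by multiples of `λ` are nonzero -/
def Nz (θ : ℂ) (u : ℂ) : Prop := ∀ j < 8, sn θ j u ≠ 0

lemma Nz.inv (hθ : θ ^ 8 = -1) {u : ℂ} (h : Nz θ u) : Nz θ u⁻¹ := by
  intro j hj
  rcases Nat.eq_zero_or_pos j with rfl | h0
  · rw [sn_i0 hθ]; exact neg_ne_zero.2 (h 0 (by norm_num))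
  · rw [sn_inv hθ (j := 8 - j) (by omega)]
    exact h _ (by omega)

lemma Nz.tb (hθ : θ ^ 8 = -1) (b : Bool) {u : ℂ} (h : Nz θ u) : Nz (tb θ b) u := by
  cases b
  · intro j hj
    change sn θ⁻¹ j u ≠ 0
    rw [sn_th hθ]
    exact h.inv hθ j hj
  · exact h

lemma own_b (hθ : θ ^ 8 = -1) (b : Bool) (k l : K) (u : ℂ) :
    own (tb θ b) (mb b k) (mb b l) u = own θ k l u := by
  cases b
  · exact own_mir hθ k l u
  · rfl

lemma crs_b (hθ : θ ^ 8 = -1) (b : Bool) (k l : K) (u : ℂ) :
    crs (tb θ b) (mb b k) (mb b l) u = crs θ k l u := by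
  cases b
  · exact crs_mir hθ k l u
  · rfl

lemma w1_b (hθ : θ ^ 8 = -1) (b : Bool) (k : K) : w1 (tb θ b) (mb b k) = w1 θ k := by
  cases b
  · exact w1_mir hθ k
  · rfl

/-- marked = unmarked times current factor, both sides -/
lemma own_markS (hθ : θ ^ 8 = -1) {b : Bool} {k k' l : K} (hk : k' ∈ mks b k)
    (hl : Un l = true) (hkl : Okp (mb b k) (mb b l)) {x c : ℂ} (h : Nz θ (x / c)) :
    own θ k' l (x / c) = own θ k l (x / c) * sg (tb θ b) true (mb b l) (wp θ b k' x) c := by
  rw [← own_b hθ b k', ← own_b hθ b k]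
  exact own_mark (tb8 hθ b) (mks_mb hk) (mb_un b hl) hkl (h.tb hθ b)

lemma crs_markS (hθ : θ ^ 8 = -1) {b : Bool} {k k' l : K} (hk : k' ∈ mks b k)
    (hl : Un l = true) {x c : ℂ} (h : Nz θ (x / c)) :
    crs θ k' l (x / c) = crs θ k l (x / c) * sg (tb θ b) false (mb b l) (wp θ b k' x) c := by
  rw [← crs_b hθ b k', ← crs_b hθ b k]
  exact crs_mark (tb8 hθ b) (mks_mb hk) (mb_un b hl) (h.tb hθ b)

lemma sn21_b (hθ : θ ^ 8 = -1) (b : Bool) (h2 : sn θ 2 1 ≠ 0) : sn (tb θ b) 2 1 ≠ 0 := by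
  cases b
  · change sn θ⁻¹ 2 1 ≠ 0
    rw [sn_th hθ, inv_one]; exact h2
  · exact h2

lemma w1_markS (hθ : θ ^ 8 = -1) (h2 : sn θ 2 1 ≠ 0) {b : Bool} {k k' : K} (hk : k' ∈ mks b k)
    {x : ℂ} (hx : x ≠ 0) :
    w1 θ k' = w1 θ k * (nu (tb θ b) true (mb b k) (wp θ b k' x / x) /
      dv (tb θ b) (pl (tb θ b) x (fE true (mb b k))) (wp θ b k' x)) := by
  rw [← w1_b hθ b k', ← w1_b hθ b k]
  exact w1_mark (tb8 hθ b) (sn21_b hθ b h2) (mks_mb hk) hx

/-- coupling of two marks in different worlds: the first on the right, the second on side `b` -/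
def CS (θ : ℂ) (b : Bool) (u : ℂ) : ℂ := if b then Cc θ u else 1

lemma crs_mark2S (hθ : θ ^ 8 = -1) {b : Bool} {k k' l l' : K} (hk : k' ∈ mkR k)
    (hl : l' ∈ mks b l) {x c : ℂ} (h : Nz θ (x / c)) :
    crs θ k' l' (x / c) = crs θ k l (x / c) * sg θ false l (wp θ true k' x) c *
      sg (tb θ b) false (mb b k) (wp θ b l' c) x * CS θ b (wp θ true k' x / wp θ b l' c) := by
  cases b
  · have := crs_markRL hθ hk hl h
    simp only [CS, Bool.false_eq_true, if_false, mul_one]
    exact this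
  · exact crs_mark2 hθ hk hl h

/-- the near pole and the position of the mark -/
lemma wp_near (θ : ℂ) (b : Bool) (k : K) (x : ℂ) :
    (mks b k).map (fun k' => wp θ b k' x) = pl (tb θ b) x (nE true (mb b k)) := by
  cases b <;> cases k <;> simp [mks, mkR, mkL, wp, pl, nE, mb, mir, ps]

/-! ### lists -/

/-- the objects as seen by a current of side `b`; `o`: they are in its world -/
def tg (b o : Bool) (e : Cf) : List Ob := e.map fun c => (o, c.1, mb b c.2)

/-- all objects seen by a current of side `b` in the world `e` -/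
def OO (b : Bool) (e f : Cf) : List Ob := tg b true e ++ tg b false f

lemma NN_append (O O' : List Ob) (w : ℂ) : NN θ (O ++ O') w = NN θ O w * NN θ O' w := by
  simp [NN]

lemma AA_append (O O' : List Ob) : AA θ (O ++ O') = AA θ O ++ AA θ O' := by simp [AA]
lemma BB_append (O O' : List Ob) : BB θ (O ++ O') = BB θ O ++ BB θ O' := by simp [BB]

lemma prod_sg (b o : Bool) (L : Cf) (w : ℂ) :
    (L.map fun d => sg θ o (mb b d.2) w d.1).prod =
      NN θ (tg b o L) w / (dv θ (AA θ (tg b o L)) w * dv θ (BB θ (tg b o L)) w) := by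
  induction L with
  | nil => simp [NN, tg, AA, BB, dv]
  | cons d L ih =>
    have e1 : NN θ (tg b o (d :: L)) w = nu θ o (mb b d.2) (w / d.1) * NN θ (tg b o L) w := by
      simp [NN, tg]
    have e2 : AA θ (tg b o (d :: L)) = pl θ d.1 (nE o (mb b d.2)) ++ AA θ (tg b o L) := by
      simp [AA, tg, nearO]
    have e3 : BB θ (tg b o (d :: L)) = pl θ d.1 (fE o (mb b d.2)) ++ BB θ (tg b o L) := by
      simp [BB, tg, farO]
    rw [List.map_cons, List.prod_cons, ih, e1, e2, e3, dv_append, dv_append, sg, dv_append,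
      div_mul_div_comm]
    congr 1
    ring

lemma AA_false (b : Bool) (f : Cf) : AA θ (tg b false f) = [] := by
  induction f with
  | nil => rfl
  | cons c f ih =>
    have : AA θ (tg b false (c :: f)) = pl θ c.1 (nE false (mb b c.2)) ++ AA θ (tg b false f) := by
      simp [AA, tg, nearO]
    rw [this, ih]
    cases mb b c.2 <;> rfl

/-- near poles of an object -/
def gn (θ : ℂ) (b : Bool) (d : ℂ × K) : List ℂ := pl (tb θ b) d.1 (nE true (mb b d.2))

lemma gn_len (θ : ℂ) (b : Bool) (d : ℂ × K) : (gn θ b d).length ≤ 1 := by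
  unfold gn pl
  rw [List.length_map]
  cases mb b d.2 <;> simp [nE]

lemma AA_OO (b : Bool) (e f : Cf) : AA (tb θ b) (OO b e f) = e.flatMap (gn θ b) := by
  rw [OO, AA_append, AA_false, List.append_nil]
  simp only [AA, tg, List.flatMap_map]
  rfl

/-- value of the current at a mark -/
def QQ (θ : ℂ) (O : List Ob) (w : ℂ) (R : List ℂ) : ℂ := NN θ O w / dv θ (R ++ BB θ O) w

lemma M1_eq (O : List Ob) : M1 θ O = ((foc (AA θ O)).map fun q => QQ θ O q.1 q.2).sum := rfl

/-- the mark sum of two currents, the first on the right, the second on side `b` -/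
def M2c (θ : ℂ) (b : Bool) (O O' : List Ob) : ℂ :=
  ((foc (AA θ O)).map fun q => ((foc (AA (tb θ b) O')).map fun q' =>
    QQ θ O q.1 q.2 * QQ (tb θ b) O' q'.1 q'.2 * CS θ b (q.1 / q'.1)).sum).sum

lemma M2c_true (O O' : List Ob) : M2c θ true O O' = M2 θ O O' := rfl

lemma sum_map_cmul {α : Type*} (l : List α) (c : ℂ) (f : α → ℂ) :
    (l.map fun x => c * f x).sum = c * (l.map f).sum := by
  induction l with
  | nil => simp
  | cons a l ih => simp only [List.map_cons, List.sum_cons, ih, mul_add]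

lemma sum_map_mulc {α : Type*} (l : List α) (c : ℂ) (f : α → ℂ) :
    (l.map fun x => f x * c).sum = (l.map f).sum * c := by
  induction l with
  | nil => simp
  | cons a l ih => simp only [List.map_cons, List.sum_cons, ih, add_mul]

lemma M2c_false (O O' : List Ob) : M2c θ false O O' = M1 θ O * M1 θ⁻¹ O' := by
  unfold M2c
  simp only [CS, Bool.false_eq_true, if_false, mul_one, sum_map_cmul, sum_map_mulc, M1_eq]
  rfl

/-- sum over the marks = sum over the near poles -/
lemma conv (b : Bool) (e f : Cf) {M : Type*} [AddCommMonoid M] (Φ : ℂ → List ℂ → M) :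
    ((foc e).map fun q => ((mks b q.1.2).map fun k' =>
      Φ (wp θ b k' q.1.1) (q.2.flatMap (gn θ b))).sum).sum =
    ((foc (AA (tb θ b) (OO b e f))).map fun q => Φ q.1 q.2).sum := by
  rw [AA_OO, foc_flatMap (gn θ b) (gn_len θ b)]
  refine congrArg List.sum (List.map_congr_left fun q _ => ?_)
  rw [gn, ← wp_near, List.map_map]
  rfl

/-- the value of the current, object by object -/
def Qv (θ : ℂ) (b : Bool) (c : ℂ × K) (k' : K) (rest f : Cf) : ℂ :=
  nu (tb θ b) true (mb b c.2) (wp θ b k' c.1 / c.1) /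
      dv (tb θ b) (pl (tb θ b) c.1 (fE true (mb b c.2))) (wp θ b k' c.1) *
    (rest.map fun d => sg (tb θ b) true (mb b d.2) (wp θ b k' c.1) d.1).prod *
    (f.map fun d => sg (tb θ b) false (mb b d.2) (wp θ b k' c.1) d.1).prod

lemma Qv_eq (b : Bool) (c : ℂ × K) (k' : K) (rest f : Cf) :
    Qv θ b c k' rest f = QQ (tb θ b) (OO b (c :: rest) f) (wp θ b k' c.1)
      (rest.flatMap (gn θ b)) := by
  unfold Qv QQ
  generalize wp θ b k' c.1 = w
  have e0 : rest.flatMap (gn θ b) = AA (tb θ b) (tg b true rest) := by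
    simp only [AA, tg, List.flatMap_map]; rfl
  have e1 : NN (tb θ b) (OO b (c :: rest) f) w = nu (tb θ b) true (mb b c.2) (w / c.1) *
      NN (tb θ b) (tg b true rest) w * NN (tb θ b) (tg b false f) w := by
    rw [OO, NN_append]
    congr 1
  have e2 : BB (tb θ b) (OO b (c :: rest) f) = pl (tb θ b) c.1 (fE true (mb b c.2)) ++
      BB (tb θ b) (tg b true rest) ++ BB (tb θ b) (tg b false f) := by
    rw [OO, BB_append]
    congr 1
  rw [prod_sg, prod_sg, AA_false, dv_nil, e0, e1, e2, dv_append, dv_append, dv_append, one_mul,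
    div_mul_div_comm, div_mul_div_comm]
  congr 1
  ring

/-- objects of one world -/
def Rel (θ : ℂ) (b : Bool) (c d : ℂ × K) : Prop :=
  Okp (mb b c.2) (mb b d.2) ∧ Nz θ (c.1 / d.1)

lemma ow1_markS (hθ : θ ^ 8 = -1) {b : Bool} {c : ℂ × K} {k' : K} (hk : k' ∈ mks b c.2)
    {rest : Cf} (hr : ∀ d ∈ rest, Un d.2 = true ∧ Rel θ b c d) :
    ow1 θ c.1 k' rest = ow1 θ c.1 c.2 rest *
      (rest.map fun d => sg (tb θ b) true (mb b d.2) (wp θ b k' c.1) d.1).prod := by
  induction rest with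
  | nil => simp [ow1]
  | cons d rest ih =>
    have h1 := hr d List.mem_cons_self
    rw [ow1_cons, ow1_cons, List.map_cons, List.prod_cons,
      ih fun d' hd' => hr d' (List.mem_cons_of_mem _ hd'), own_markS hθ hk h1.1 h1.2.1 h1.2.2]
    ring

lemma cr1_markS (hθ : θ ^ 8 = -1) {b : Bool} {c : ℂ × K} {k' : K} (hk : k' ∈ mks b c.2)
    {f : Cf} (hf : ∀ d ∈ f, Un d.2 = true ∧ Nz θ (c.1 / d.1)) :
    cr1 θ c.1 k' f = cr1 θ c.1 c.2 f *
      (f.map fun d => sg (tb θ b) false (mb b d.2) (wp θ b k' c.1) d.1).prod := by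
  induction f with
  | nil => simp [cr1]
  | cons d f ih =>
    have h1 := hf d List.mem_cons_self
    rw [cr1_cons, cr1_cons, List.map_cons, List.prod_cons,
      ih fun d' hd' => hf d' (List.mem_cons_of_mem _ hd'), crs_markS hθ hk h1.1 h1.2]
    ring

/-- one mark -/
lemma W1 (hθ : θ ^ 8 = -1) (h2 : sn θ 2 1 ≠ 0) {b : Bool} {c : ℂ × K} {k' : K}
    (hk : k' ∈ mks b c.2) (hc : c.1 ≠ 0) {rest f : Cf}
    (hr : ∀ d ∈ rest, Un d.2 = true ∧ Rel θ b c d)
    (hf : ∀ d ∈ f, Un d.2 = true ∧ Nz θ (c.1 / d.1)) :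
    ow θ ((c.1, k') :: rest) * cr θ ((c.1, k') :: rest) f =
      ow θ (c :: rest) * cr θ (c :: rest) f * Qv θ b c k' rest f := by
  rw [cr_cons_left, cr_cons_left, ow, ow, ow1_markS hθ hk hr, cr1_markS hθ hk hf,
    w1_markS hθ h2 hk hc, Qv]
  ring

/-- two marks -/
lemma W2 (hθ : θ ^ 8 = -1) (h2 : sn θ 2 1 ≠ 0) {b : Bool} {c d : ℂ × K} {k' l' : K}
    (hk : k' ∈ mkR c.2) (hl : l' ∈ mks b d.2) (hc : c.1 ≠ 0) (hd : d.1 ≠ 0) {rest rest' : Cf}
    (hr : ∀ o ∈ rest, Un o.2 = true ∧ Rel θ true c o)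
    (hr' : ∀ o ∈ rest', Un o.2 = true ∧ Rel θ b d o)
    (hcd : Nz θ (c.1 / d.1)) (h1 : ∀ o ∈ rest', Nz θ (c.1 / o.1)) (h3 : ∀ o ∈ rest, Nz θ (d.1 / o.1)) :
    ow θ ((c.1, k') :: rest) * ow θ ((d.1, l') :: rest') *
        cr θ ((c.1, k') :: rest) ((d.1, l') :: rest') =
      ow θ (c :: rest) * ow θ (d :: rest') * cr θ (c :: rest) (d :: rest') *
        (Qv θ true c k' rest (d :: rest') * Qv θ b d l' rest' (c :: rest) *
          CS θ b (wp θ true k' c.1 / wp θ b l' d.1)) := by
  have e1 : crs θ k' l' (c.1 / d.1) = _ := crs_mark2S hθ hk hl hcd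
  have e2 := cr1_markS hθ (b := true) (c := c) (k' := k') hk (f := rest')
    (fun o ho => ⟨(hr' o ho).1, h1 o ho⟩)
  have e3 := cr1_markS hθ (b := b) (c := d) (k' := l') hl (f := rest)
    (fun o ho => ⟨(hr o ho).1, h3 o ho⟩)
  have e4 := ow1_markS hθ (b := true) (c := c) (k' := k') hk hr
  have e5 := ow1_markS hθ (b := b) (c := d) (k' := l') hl hr'
  have e6 := w1_markS hθ h2 (b := true) (k := c.2) (k' := k') hk hc
  have e7 := w1_markS hθ h2 (b := b) (k := d.2) (k' := l') hl hd
  have b1 : cr θ (c :: rest) (d :: rest') =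
      crs θ c.2 d.2 (c.1 / d.1) * cr1 θ c.1 c.2 rest' * (cr1 θ d.1 d.2 rest * cr θ rest rest') := by
    rw [cr_cons_left, cr1_cons, cr_cons_right hθ]
  have b2 : cr θ ((c.1, k') :: rest) ((d.1, l') :: rest') =
      crs θ k' l' (c.1 / d.1) * cr1 θ c.1 k' rest' * (cr1 θ d.1 l' rest * cr θ rest rest') := by
    rw [cr_cons_left, cr1_cons, cr_cons_right hθ]
  rw [b1, b2, ow, ow, ow, ow]
  simp only at *
  rw [e1, e2, e3, e4, e5, e6, e7, Qv, Qv, List.map_cons, List.prod_cons, List.map_cons,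
    List.prod_cons]
  have t1 : tb θ true = θ := rfl
  have t2 : ∀ k, mb true k = k := fun _ => rfl
  simp only [t1, t2]
  ring

end NUTP.Gas.UD

end
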