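import Pool.Agent.NUTP.Gas.UDe

/-!
# Reflection of the gas, VI: the gas as a sum over the charges
-/

set_option autoImplicit false

noncomputable section

namespace NUTP.Gas.UD

open NUTG

variable {θ χ : ℂ}

lemma NN_perm {O O' : List Ob} (h : O.Perm O') (w : ℂ) : NN θ O w = NN θ O' w :=
  (h.map _).prod_eq

lemma AA_perm {O O' : List Ob} (h : O.Perm O') : (AA θ O).Perm (AA θ O') := h.flatMap_right _
lemma BB_perm {O O' : List Ob} (h : O.Perm O') : (BB θ O).Perm (BB θ O') := h.flatMap_right _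

lemma QQ_perm {O O' : List Ob} (h : O.Perm O') (w : ℂ) {R R' : List ℂ} (hR : R.Perm R') :
    QQ θ O w R = QQ θ O' w R' := by
  unfold QQ
  rw [NN_perm h, dv_perm (hR.append (BB_perm h))]

lemma M1_perm {O O' : List Ob} (h : O.Perm O') : M1 θ O = M1 θ O' := by
  have e2 := foc_sum_perm (AA_perm (θ := θ) h) (fun w R => QQ θ O' w R)
    (fun w A B hAB => QQ_perm (List.Perm.refl _) w hAB)
  refine Eq.trans ?_ e2
  refine congrArg List.sum (List.map_congr_left fun q _ => ?_)
  exact QQ_perm h _ (List.Perm.refl _)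

/-- inner sum of `M2c` -/
def In (θ : ℂ) (b : Bool) (O P : List Ob) (w : ℂ) (R : List ℂ) : ℂ :=
  ((foc (AA (tb θ b) P)).map fun q' =>
    QQ θ O w R * QQ (tb θ b) P q'.1 q'.2 * CS θ b (w / q'.1)).sum

lemma M2c_In (b : Bool) (O P : List Ob) :
    M2c θ b O P = ((foc (AA θ O)).map fun q => In θ b O P q.1 q.2).sum := rfl

lemma In_perm (b : Bool) {O O' P P' : List Ob} (h : O.Perm O') (hP : P.Perm P') (w : ℂ)
    {R R' : List ℂ} (hR : R.Perm R') : In θ b O P w R = In θ b O' P' w R' := by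
  have e2 := foc_sum_perm (AA_perm (θ := tb θ b) hP)
    (fun v R'' => QQ θ O' w R' * QQ (tb θ b) P' v R'' * CS θ b (w / v))
    (fun v A B hAB => by rw [QQ_perm (List.Perm.refl P') v hAB])
  refine Eq.trans ?_ e2
  refine congrArg List.sum (List.map_congr_left fun q _ => ?_)
  rw [QQ_perm hP _ (List.Perm.refl _), QQ_perm h _ hR]

lemma M2c_perm (b : Bool) {O O' P P' : List Ob} (h : O.Perm O') (hP : P.Perm P') :
    M2c θ b O P = M2c θ b O' P' := by
  rw [M2c_In, M2c_In]
  have e2 := foc_sum_perm (AA_perm (θ := θ) h) (fun w R => In θ b O' P' w R)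
    (fun w A B hAB => In_perm b (List.Perm.refl _) (List.Perm.refl _) w hAB)
  refine Eq.trans ?_ e2
  refine congrArg List.sum (List.map_congr_left fun q _ => ?_)
  exact In_perm b h hP _ (List.Perm.refl _)

lemma tg_perm (b o : Bool) {e e' : Cf} (h : e.Perm e') : (tg b o e).Perm (tg b o e') := h.map _

lemma OO_perm (b : Bool) {e e' f f' : Cf} (h : e.Perm e') (h' : f.Perm f') :
    (OO b e f).Perm (OO b e' f') := (tg_perm b true h).append (tg_perm b false h')

lemma foc_pairwise {α : Type*} {R : α → α → Prop} (hs : ∀ x y, R x y → R y x) {L : List α}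
    (h : L.Pairwise R) : ∀ q ∈ foc L, ∀ d ∈ q.2, R q.1 d := by
  intro q hq d hd
  have h1 := ((foc_perm_cons hq).pairwise_iff (fun {x y} => hs x y)).1 h
  exact (List.pairwise_cons.1 h1).1 d hd

/-- hypotheses on the objects of the two worlds -/
structure Hyp (θ : ℂ) (b : Bool) (e f : Cf) : Prop where
  un : ∀ c ∈ e, Un c.2 = true
  unf : ∀ c ∈ f, Un c.2 = true
  ne : ∀ c ∈ e, c.1 ≠ 0
  rel : ∀ q ∈ foc e, ∀ d ∈ q.2, Rel θ b q.1 d
  crs : ∀ c ∈ e, ∀ d ∈ f, Nz θ (c.1 / d.1)

/-- **one current** -/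
lemma S1 (hθ : θ ^ 8 = -1) (h2 : sn θ 2 1 ≠ 0) {b : Bool} {e f : Cf} (h : Hyp θ b e f) :
    mrk (mks b) e (fun e' => ow θ e' * cr θ e' f) =
      ow θ e * cr θ e f * M1 (tb θ b) (OO b e f) := by
  unfold mrk
  rw [M1_eq, ← conv b e f (fun w R => QQ (tb θ b) (OO b e f) w R), ← sum_map_cmul]
  refine congrArg List.sum (List.map_congr_left fun q hq => ?_)
  have hp := foc_perm_cons hq
  have hc : q.1 ∈ e := foc_mem hq
  rw [← sum_map_cmul]
  refine congrArg List.sum (List.map_congr_left fun k' hk' => ?_)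
  refine (W1 hθ h2 hk' (h.ne _ hc) (fun d hd => ⟨h.un _ (foc_mem_rest hq hd), h.rel q hq d hd⟩)
    (fun d hd => ⟨h.unf d hd, h.crs _ hc d hd⟩)).trans ?_
  rw [Qv_eq, ← ow_perm hθ hp, ← cr_perm_left hp,
    QQ_perm (OO_perm b hp.symm (List.Perm.refl f)) _ (List.Perm.refl _)]

/-- **two currents** -/
lemma S2 (hθ : θ ^ 8 = -1) (h2 : sn θ 2 1 ≠ 0) {b : Bool} {e f : Cf} (h : Hyp θ true e f)
    (h' : Hyp θ b f e) :
    mrk mkR e (fun e' => mrk (mks b) f (fun f' => ow θ e' * ow θ f' * cr θ e' f')) =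
      ow θ e * ow θ f * cr θ e f * M2c θ b (OO true e f) (OO b f e) := by
  have key := conv (θ := θ) true e f (fun w R => ((foc (AA (tb θ b) (OO b f e))).map fun q' =>
    QQ θ (OO true e f) w R * QQ (tb θ b) (OO b f e) q'.1 q'.2 * CS θ b (w / q'.1)).sum)
  unfold mrk M2c
  have t1 : tb θ true = θ := rfl
  rw [t1] at key
  rw [← key, ← sum_map_cmul]
  refine congrArg List.sum (List.map_congr_left fun q hq => ?_)
  have hp := foc_perm_cons hq
  have hc : q.1 ∈ e := foc_mem hq
  rw [← sum_map_cmul]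
  refine congrArg List.sum (List.map_congr_left fun k' hk' => ?_)
  rw [← conv b f e (fun v R' => QQ θ (OO true e f) (wp θ true k' q.1.1) (q.2.flatMap (gn θ true)) *
    QQ (tb θ b) (OO b f e) v R' * CS θ b (wp θ true k' q.1.1 / v)), ← sum_map_cmul]
  refine congrArg List.sum (List.map_congr_left fun q' hq' => ?_)
  have hp' := foc_perm_cons hq'
  have hd : q'.1 ∈ f := foc_mem hq'
  rw [← sum_map_cmul]
  refine congrArg List.sum (List.map_congr_left fun l' hl' => ?_)
  refine (W2 hθ h2 hk' hl' (h.ne _ hc) (h'.ne _ hd)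
    (fun o ho => ⟨h.un _ (foc_mem_rest hq ho), h.rel q hq o ho⟩)
    (fun o ho => ⟨h'.un _ (foc_mem_rest hq' ho), h'.rel q' hq' o ho⟩) (h.crs _ hc _ hd)
    (fun o ho => h.crs _ hc _ (foc_mem_rest hq' ho))
    (fun o ho => h'.crs _ hd _ (foc_mem_rest hq ho))).trans ?_
  rw [Qv_eq, Qv_eq, ← ow_perm hθ hp,
    ← ow_perm hθ hp', ← cr_perm_left hp, ← cr_perm_right _ hp', t1,
    QQ_perm (OO_perm true hp.symm hp'.symm) _ (List.Perm.refl _),
    QQ_perm (OO_perm b hp'.symm hp.symm) _ (List.Perm.refl _)]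

/-- charge of the mark -/
def sh (b : Bool) : ℤ := if b then -1 else 1

lemma ch_mks {b : Bool} {k k' : K} (h : k' ∈ mks b k) : ch k' = ch k + sh b := by
  cases b <;> cases k <;> simp only [mks, mkR, mkL, Bool.false_eq_true, if_false, if_true,
    List.mem_cons, List.not_mem_nil, or_false] at h <;> subst h <;> rfl

lemma nl_mks {b : Bool} {k k' : K} (h : k' ∈ mks b k) : nl k' = nl k := by
  cases b <;> cases k <;> simp only [mks, mkR, mkL, Bool.false_eq_true, if_false, if_true,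
    List.mem_cons, List.not_mem_nil, or_false] at h <;> subst h <;> rfl

lemma mrk_congr {M : Type*} [AddCommMonoid M] {b : Bool} {e : Cf} {φ ψ : Cf → M}
    (h : ∀ e', tt ch e' = tt ch e + sh b → tt nl e' = tt nl e → φ e' = ψ e') :
    mrk (mks b) e φ = mrk (mks b) e ψ := by
  unfold mrk
  refine congrArg List.sum (List.map_congr_left fun q hq => ?_)
  refine congrArg List.sum (List.map_congr_left fun k' hk' => ?_)
  have hp := foc_perm_cons hq
  apply h
  · rw [tt_perm ch hp, tt_cons, tt_cons, ch_mks hk']; ring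
  · rw [tt_perm nl hp, tt_cons, tt_cons, nl_mks hk']

lemma mrk_cmul {b : Bool} {e : Cf} (c : ℂ) (φ : Cf → ℂ) :
    mrk (mks b) e (fun e' => c * φ e') = c * mrk (mks b) e φ := by
  unfold mrk
  simp only [sum_map_cmul]

lemma mrk_zero {b : Bool} {e : Cf} : mrk (mks b) e (fun _ => (0 : ℂ)) = 0 := by
  have := mrk_cmul (b := b) (e := e) 0 (fun _ => (0 : ℂ))
  simpa using this

/-- one term, conditions on the number of marks removed -/
def VV (θ χ : ℂ) (e f : Cf) : ℂ :=
  if tt ch e = tt ch f then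
    χ ^ (-1 + tt ch f + tt nl e + tt nl f) * (ow θ e * ow θ f * cr θ e f) else 0

lemma cr_comm (hθ : θ ^ 8 = -1) (e f : Cf) : cr θ f e = cr θ e f := by
  induction e with
  | nil => rw [cr_nil_left, cr_nil_right]
  | cons c e ih => rw [cr_cons_left, cr_cons_right hθ, ih]

/-- one current, in the second world -/
lemma V1 (hθ : θ ^ 8 = -1) (h2 : sn θ 2 1 ≠ 0) {b : Bool} {e f : Cf} (h : Hyp θ b f e) :
    mrk (mks b) f (fun f' => VV θ χ e f') =
      if tt ch e = tt ch f + sh b then χ ^ (-1 + (tt ch f + sh b) + tt nl e + tt nl f) *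
        (ow θ e * ow θ f * cr θ e f * M1 (tb θ b) (OO b f e)) else 0 := by
  split_ifs with hc
  · have e1 : mrk (mks b) f (fun f' => VV θ χ e f') = mrk (mks b) f (fun f' =>
        (χ ^ (-1 + (tt ch f + sh b) + tt nl e + tt nl f) * ow θ e) * (ow θ f' * cr θ f' e)) := by
      refine mrk_congr fun f' h1 h3 => ?_
      rw [VV, h1, h3, if_pos hc, cr_comm hθ e f']
      ring
    rw [e1, mrk_cmul, S1 hθ h2 h, cr_comm hθ e f]
    ring
  · refine Eq.trans ?_ (mrk_zero (b := b) (e := f))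
    refine mrk_congr fun f' h1 _ => ?_
    rw [VV, h1, if_neg hc]

/-- two currents -/
lemma V2 (hθ : θ ^ 8 = -1) (h2 : sn θ 2 1 ≠ 0) {b : Bool} {e f : Cf} (h : Hyp θ true e f)
    (h' : Hyp θ b f e) :
    mrk mkR e (fun e' => mrk (mks b) f (fun f' => VV θ χ e' f')) =
      if tt ch e + sh true = tt ch f + sh b then
        χ ^ (-1 + (tt ch f + sh b) + tt nl e + tt nl f) *
        (ow θ e * ow θ f * cr θ e f * M2c θ b (OO true e f) (OO b f e)) else 0 := by
  have hm : mkR = mks true := rfl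
  split_ifs with hc
  · have e1 : mrk mkR e (fun e' => mrk (mks b) f (fun f' => VV θ χ e' f')) =
        mrk mkR e (fun e' => χ ^ (-1 + (tt ch f + sh b) + tt nl e + tt nl f) *
          mrk (mks b) f (fun f' => ow θ e' * ow θ f' * cr θ e' f')) := by
      rw [hm]
      refine mrk_congr fun e' h1 h3 => ?_
      rw [← mrk_cmul]
      refine mrk_congr fun f' h4 h5 => ?_
      rw [VV, h1, h3, h4, h5, if_pos hc]
    rw [e1, hm, mrk_cmul, ← hm, S2 hθ h2 h h']
  · refine Eq.trans ?_ (mrk_zero (b := true) (e := e))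
    rw [hm]
    refine mrk_congr fun e' h1 _ => ?_
    refine Eq.trans ?_ (mrk_zero (b := b) (e := f))
    refine mrk_congr fun f' h4 _ => ?_
    rw [VV, h1, h4, if_neg hc]

end NUTP.Gas.UD

end
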