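import Pool.Agent.NUTP.Gas.UDf
import Pool.Agent.NUTP.Gas.UDbase

/-!
# Reflection of the gas, VII: the gas as a sum over the charges; reflected charges
-/

set_option autoImplicit false

noncomputable section

namespace NUTP.Gas.UD

open NUTG

variable {θ χ : ℂ}

/-- empty ended line -/
def em : Ty → ℤ
  | .re => 1
  | .le => 1
  | _ => 0

/-- number of empty ended lines -/
def nem (X : List (ℂ × Ty)) : ℤ := (X.map fun t => em t.2).sum

lemma mk_em {t : Ty} {k : K} (h : k ∈ t.st) : mk k = mu k - em t := by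
  cases t <;> cases k <;> first | rfl | (simp [Ty.st] at h)

lemma tt_mk {X : List (ℂ × Ty)} {e : Cf} (h : Cmp X e) : tt mk e = tt mu e - nem X := by
  induction h with
  | nil => rfl
  | @cons t c X e h _ ih =>
    rw [tt_cons, tt_cons, ih, mk_em h.2]
    simp only [nem, List.map_cons, List.sum_cons]
    ring

lemma VV_perm_right (hθ : θ ^ 8 = -1) (e : Cf) {f f' : Cf} (h : f.Perm f') :
    VV θ χ e f = VV θ χ e f' := by
  unfold VV
  rw [tt_perm ch h, tt_perm nl h, ow_perm hθ h, cr_perm_right e h]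

lemma VV_perm_left (hθ : θ ^ 8 = -1) {e e' : Cf} (h : e.Perm e') (f : Cf) :
    VV θ χ e f = VV θ χ e' f := by
  unfold VV
  rw [tt_perm ch h, tt_perm nl h, ow_perm hθ h, cr_perm_left h]

/-- the types which fit to a current of side `b` -/
def Fit (b : Bool) (X : List (ℂ × Ty)) : Prop := ∀ t ∈ X, (tun t.2).flatMap (mks b) = tmd t.2

lemma tm_VV {X Y : List (ℂ × Ty)} {e f : Cf} (he : Cmp X e) (hf : Cmp Y f) :
    tm θ χ 0 0 0 (-1) e f = if tt mu e = nem X then (if tt mu f = nem Y then VV θ χ e f else 0)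
      else 0 := by
  unfold tm VV
  rw [tt_mk he, tt_mk hf]
  simp only [zero_add]
  by_cases h1 : tt mu e = nem X
  · by_cases h2 : tt mu f = nem Y
    · rw [if_pos h1, if_pos h2]
      refine if_congr ?_ rfl rfl
      constructor
      · exact fun h => h.2.2
      · exact fun h => ⟨by omega, by omega, h⟩
    · rw [if_pos h1, if_neg h2]
      exact if_neg fun h => h2 (by omega)
  · rw [if_neg h1]
    exact if_neg fun h => h1 (by omega)

lemma sm_if {M : Type*} [AddCommMonoid M] (Y : List (ℂ × Ty)) (p : Prop) [Decidable p]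
    (φ : Cf → M) : sm Y (fun f => if p then φ f else 0) = if p then sm Y φ else 0 := by
  split_ifs
  · rfl
  · exact sm_zero Y

lemma su_comm {M : Type*} [AddCommMonoid M] (X Y : List (ℂ × Ty)) (φ : Cf → Cf → M) :
    su X (fun e => su Y (fun f => φ e f)) = su Y (fun f => su X (fun e => φ e f)) := by
  induction X generalizing φ with
  | nil => rfl
  | cons t X ih => simp only [su, ih, su_lsum]

lemma mrk_su {M : Type*} [AddCommMonoid M] (mks : K → List K) (e : Cf) (Y : List (ℂ × Ty))
    (φ : Cf → Cf → M) :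
    mrk mks e (fun e' => su Y (fun f => φ e' f)) = su Y (fun f => mrk mks e (fun e' => φ e' f)) := by
  unfold mrk
  simp only [su_lsum]

/-- one current -/
def T1 (θ χ : ℂ) (b : Bool) (e f : Cf) : ℂ := mrk (mks b) f (fun f' => VV θ χ e f')

/-- two currents -/
def T2 (θ χ : ℂ) (b : Bool) (e f : Cf) : ℂ :=
  mrk mkR e (fun e' => mrk (mks b) f (fun f' => VV θ χ e' f'))

/-- **one current** -/
theorem gas_1 (hθ : θ ^ 8 = -1) {b : Bool} {X Y : List (ℂ × Ty)} (hX : nem X = 0) (hY : nem Y = 1)
    (hYb : Fit b Y) : gas θ χ X Y = sn θ 1 1 * su X fun e => su Y fun f => T1 θ χ b e f := by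
  unfold gas
  congr 1
  have e1 : sm X (fun e => sm Y fun f => tm θ χ 0 0 0 (-1) e f) =
      sm X (fun e => if tt mu e = 0 then sm Y (fun f => if tt mu f = 1 then VV θ χ e f else 0)
        else 0) := by
    refine sm_congr fun e he => ?_
    rw [← sm_if]
    refine sm_congr fun f hf => ?_
    rw [tm_VV he hf, hX, hY]
  rw [e1, sm_0]
  refine su_congr fun e _ => ?_
  rw [sm_1 (mks b) Y hYb _ (fun f f' h => VV_perm_right hθ e h)]
  rfl

/-- **two currents** -/
theorem gas_2 (hθ : θ ^ 8 = -1) {b : Bool} {X Y : List (ℂ × Ty)} (hX : nem X = 1) (hY : nem Y = 1)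
    (hXb : Fit true X) (hYb : Fit b Y) :
    gas θ χ X Y = sn θ 1 1 * su X fun e => su Y fun f => T2 θ χ b e f := by
  unfold gas
  congr 1
  have e1 : sm X (fun e => sm Y fun f => tm θ χ 0 0 0 (-1) e f) =
      sm X (fun e => if tt mu e = 1 then sm Y (fun f => if tt mu f = 1 then VV θ χ e f else 0)
        else 0) := by
    refine sm_congr fun e he => ?_
    rw [← sm_if]
    refine sm_congr fun f hf => ?_
    rw [tm_VV he hf, hX, hY]
  rw [e1, sm_1 mkR X hXb _ (fun e e' h => sm_congr' fun f => by rw [VV_perm_left hθ h f])]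
  refine su_congr fun e _ => ?_
  have e2 : (fun e' => sm Y fun f => if tt mu f = 1 then VV θ χ e' f else 0) =
      fun e' => su Y fun f => mrk (mks b) f (fun f' => VV θ χ e' f') := by
    funext e'
    rw [sm_1 (mks b) Y hYb _ (fun f f' h => VV_perm_right hθ e' h)]
  rw [e2, mrk_su]
  rfl

/-! ### ended lines split off -/

/-- type of an unmarked state -/
def tyK : K → Ty
  | .ro => .ro
  | .rb => .rb
  | .re => .re
  | .lo => .lo
  | .lb => .lb
  | .le => .le
  | _ => .F

/-- types of ended lines -/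
def tE (E : Cf) : List (ℂ × Ty) := E.map fun c => (c.1, tyK c.2)

lemma su_E {M : Type*} [AddCommMonoid M] {E : Cf} (hE : ∀ c ∈ E, isE c.2) (X : List (ℂ × Ty))
    (φ : Cf → M) : su (tE E ++ X) φ = su X (fun e => φ (E ++ e)) := by
  induction E generalizing φ with
  | nil => rfl
  | cons c E ih =>
    have h1 : tun (tyK c.2) = [c.2] := by
      rcases hE c List.mem_cons_self with h | h | h | h | h | h <;> rw [h] <;> rfl
    have e1 : tE (c :: E) ++ X = (c.1, tyK c.2) :: (tE E ++ X) := rfl
    rw [e1, su]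
    simp only [h1, List.map_cons, List.map_nil, List.sum_cons, List.sum_nil, add_zero]
    rw [ih (fun c' hc' => hE c' (List.mem_cons_of_mem _ hc'))]
    rfl

lemma su_refl {M : Type*} [AddCommMonoid M] (I : List ℂ) (φ : Cf → M) :
    su (fl I) φ = su (fl I) (fun e => φ (rF e)) := by
  induction I generalizing φ with
  | nil => rfl
  | cons x I ih =>
    have e1 : fl (x :: I) = (x, Ty.F) :: fl I := rfl
    rw [e1, su, su]
    simp only [tun, List.map_cons, List.map_nil, List.sum_cons, List.sum_nil, add_zero]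
    rw [ih (fun e => φ ((x, .p) :: e)), ih (fun e => φ ((x, .z) :: e)),
      ih (fun e => φ ((x, .n) :: e))]
    have e2 : ∀ (k : K) (e : Cf), rF ((x, k) :: e) = (x, mir k) :: rF e := fun k e => rfl
    simp only [e2, mir]
    rw [add_comm, add_comm (su (fl I) fun e => φ ((x, K.z) :: rF e)), add_assoc]

/-- a list of unmarked full lines -/
lemma Cmu_F {I : List ℂ} {e : Cf} (h : Cmu (fl I) e) :
    (∀ c ∈ e, isF c.2) ∧ e.map Prod.fst = I := by
  induction I generalizing e with
  | nil =>
    cases h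
    exact ⟨by simp, rfl⟩
  | cons x I ih =>
    have e1 : fl (x :: I) = (x, Ty.F) :: fl I := rfl
    rw [e1] at h
    obtain ⟨c, e', hc, he', rfl⟩ := List.forall₂_cons_left_iff.1 h
    obtain ⟨h1, h2⟩ := ih he'
    refine ⟨fun d hd => ?_, ?_⟩
    · rcases List.mem_cons.1 hd with rfl | hd
      · have := hc.2
        simpa [tun, isF] using this
      · exact h1 d hd
    · rw [List.map_cons, h2, hc.1]

/-- the gas of both sides of the reflection -/
lemma assemble {T T' : Cf → Cf → ℂ} {E E' E₁ E₁' : Cf} (hE : ∀ c ∈ E, isE c.2)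
    (hE' : ∀ c ∈ E', isE c.2) (hE₁ : ∀ c ∈ E₁, isE c.2) (hE₁' : ∀ c ∈ E₁', isE c.2)
    (I J : List ℂ) (h : ∀ e f, Cmu (fl I) e → Cmu (fl J) f →
      T (E ++ e) (E' ++ f) = T' (E₁ ++ rF f) (E₁' ++ rF e)) :
    (su (tE E ++ fl I) fun e => su (tE E' ++ fl J) fun f => T e f) =
      su (tE E₁ ++ fl J) fun e => su (tE E₁' ++ fl I) fun f => T' e f := by
  rw [su_E hE, su_E hE₁]
  simp only [su_E hE', su_E hE₁']
  rw [su_refl J (fun e => su (fl I) fun f => T' (E₁ ++ e) (E₁' ++ f)), su_comm]
  refine su_congr fun f hf => ?_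
  rw [su_refl I (fun e => T' (E₁ ++ rF f) (E₁' ++ e))]
  exact su_congr fun e he => h e f he hf

/-! ### normalization of the states of ended lines -/

/-- below = occupied when there is no empty line of the same side -/
def nb : K → K
  | .rb => .ro
  | .lb => .lo
  | k => k

/-- with or without normalization -/
def gw (w : Bool) (k : K) : K := if w then nb k else k

/-- normalization of a world -/
def nmz (w : Bool) (E : Cf) : Cf := E.map fun c => (c.1, gw w c.2)

lemma mb_nb (b : Bool) (k : K) : mb b (nb k) = nb (mb b k) := by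
  cases b <;> cases k <;> rfl

lemma mb_gw (b w : Bool) (k : K) : mb b (gw w k) = gw w (mb b k) := by
  cases w
  · rfl
  · exact mb_nb b k

lemma gw_F (w : Bool) {k : K} (h : isF k) : gw w k = k := by
  cases w
  · rfl
  · rcases h with rfl | rfl | rfl <;> rfl

lemma gw_E (w : Bool) {k : K} (h : isE k) : isE (gw w k) := by
  cases w
  · exact h
  · rcases h with rfl | rfl | rfl | rfl | rfl | rfl <;> simp [isE, gw, nb]

lemma gw_ch (w : Bool) (k : K) : ch (gw w k) = ch k := by
  cases w
  · rfl
  · cases k <;> rfl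

lemma gw_nl (w : Bool) (k : K) : nl (gw w k) = nl k := by
  cases w
  · rfl
  · cases k <;> rfl

lemma gw_w1 (w : Bool) (k : K) : w1 θ (gw w k) = w1 θ k := by
  cases w
  · rfl
  · cases k <;> rfl

lemma gw_crs (w w' : Bool) {k l : K} (hk : Un k = true) (hl : Un l = true) (u : ℂ) :
    crs θ (gw w k) (gw w' l) u = crs θ k l u := by
  cases w <;> cases w' <;> cases k <;> simp only [Un, Bool.false_eq_true] at hk <;>
    cases l <;> simp only [Un, Bool.false_eq_true] at hl <;> rfl

/-- pairs of states whose coupling does not change -/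
def Pn (k l : K) : Prop :=
  ¬ (k = .rb ∧ l = .re) ∧ ¬ (k = .re ∧ l = .rb) ∧ ¬ (k = .lb ∧ l = .le) ∧ ¬ (k = .le ∧ l = .lb)

lemma gw_own (w : Bool) {k l : K} (hk : Un k = true) (hl : Un l = true)
    (h : w = true → Pn k l) (u : ℂ) : own θ (gw w k) (gw w l) u = own θ k l u := by
  cases w
  · rfl
  · obtain ⟨h1, h2, h3, h4⟩ := h rfl
    cases k <;> simp only [Un, Bool.false_eq_true] at hk <;>
      cases l <;> simp only [Un, Bool.false_eq_true] at hl <;>
      first
        | rfl
        | exact absurd ⟨rfl, rfl⟩ h1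
        | exact absurd ⟨rfl, rfl⟩ h2
        | exact absurd ⟨rfl, rfl⟩ h3
        | exact absurd ⟨rfl, rfl⟩ h4

/-- as seen by a current -/
lemma gw_nu (w o : Bool) {k : K} (hk : Un k = true) (h : w = true → o = true → k ≠ .rb) :
    nu θ o (gw w k) = nu θ o k ∧ nE o (gw w k) = nE o k ∧ fE o (gw w k) = fE o k := by
  cases w
  · exact ⟨rfl, rfl, rfl⟩
  · have h1 := h rfl
    cases o <;> cases k <;> simp only [Un, Bool.false_eq_true] at hk <;>
      first
        | exact ⟨rfl, rfl, rfl⟩
        | exact absurd rfl (h1 rfl)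

end NUTP.Gas.UD

end
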