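import Pool.Agent.NUTP.Gas.UDg
import Pool.Agent.NUTP.Gas.Asm

/-!
# Reflection of the gas, VIII: the worlds of the reflected charges
-/

set_option autoImplicit false

noncomputable section

namespace NUTP.Gas.UD

open NUTG

variable {θ χ : ℂ}

lemma M1_data {O O' : List Ob} (h1 : AA θ O = AA θ O') (h2 : BB θ O = BB θ O')
    (h3 : ∀ w, NN θ O w = NN θ O' w) : M1 θ O = M1 θ O' := by
  unfold M1
  rw [h1, h2]
  simp only [h3]

lemma M2c_data (b : Bool) {O O' P P' : List Ob} (h1 : AA θ O = AA θ O') (h2 : BB θ O = BB θ O')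
    (h3 : ∀ w, NN θ O w = NN θ O' w) (h4 : AA (tb θ b) P = AA (tb θ b) P')
    (h5 : BB (tb θ b) P = BB (tb θ b) P') (h6 : ∀ w, NN (tb θ b) P w = NN (tb θ b) P' w) :
    M2c θ b O P = M2c θ b O' P' := by
  unfold M2c QQ
  rw [h1, h2, h4, h5]
  simp only [h3, h6]

/-- states changed without change of the factors -/
lemma data_map (g : K → K) {O : List Ob} (H : ∀ o ∈ O, nu θ o.1 (g o.2.2) = nu θ o.1 o.2.2 ∧
    nE o.1 (g o.2.2) = nE o.1 o.2.2 ∧ fE o.1 (g o.2.2) = fE o.1 o.2.2) :
    AA θ (O.map fun o => (o.1, o.2.1, g o.2.2)) = AA θ O ∧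
    BB θ (O.map fun o => (o.1, o.2.1, g o.2.2)) = BB θ O ∧
    ∀ w, NN θ (O.map fun o => (o.1, o.2.1, g o.2.2)) w = NN θ O w := by
  induction O with
  | nil => exact ⟨rfl, rfl, fun _ => rfl⟩
  | cons o O ih =>
    obtain ⟨i1, i2, i3⟩ := ih fun o' ho' => H o' (List.mem_cons_of_mem _ ho')
    obtain ⟨h1, h2, h3⟩ := H o List.mem_cons_self
    unfold AA BB NN at *
    refine ⟨?_, ?_, fun w => ?_⟩
    · rw [List.map_cons, List.flatMap_cons, List.flatMap_cons, i1]
      congr 1
      simp only [nearO, h2]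
    · rw [List.map_cons, List.flatMap_cons, List.flatMap_cons, i2]
      congr 1
      simp only [farO, h3]
    · rw [List.map_cons, List.map_cons, List.prod_cons, List.map_cons, List.prod_cons, i3 w]
      simp only [h1]

lemma nmz_append (w : Bool) (E e : Cf) : nmz w (E ++ e) = nmz w E ++ nmz w e := List.map_append

lemma nmz_F (w : Bool) {e : Cf} (h : ∀ c ∈ e, isF c.2) : nmz w e = e := by
  induction e with
  | nil => rfl
  | cons c e ih =>
    unfold nmz at *
    rw [List.map_cons, ih fun c' hc' => h c' (List.mem_cons_of_mem _ hc'),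
      gw_F w (h c List.mem_cons_self)]

lemma tg_nmz (b o w : Bool) (e : Cf) :
    tg b o (nmz w e) = (tg b o e).map fun p => (p.1, p.2.1, gw w p.2.2) := by
  unfold tg nmz
  rw [List.map_map, List.map_map]
  refine List.map_congr_left fun c _ => ?_
  simp only [Function.comp_def, mb_gw]

/-- all states of a world are unmarked -/
def UnC (e : Cf) : Prop := ∀ c ∈ e, Un c.2 = true

lemma tg_data (b o w : Bool) {e : Cf} (hu : UnC e)
    (h : w = true → o = true → ∀ c ∈ e, mb b c.2 ≠ .rb) :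
    AA θ (tg b o (nmz w e)) = AA θ (tg b o e) ∧ BB θ (tg b o (nmz w e)) = BB θ (tg b o e) ∧
    ∀ v, NN θ (tg b o (nmz w e)) v = NN θ (tg b o e) v := by
  rw [tg_nmz]
  refine data_map (gw w) fun p hp => ?_
  unfold tg at hp
  obtain ⟨c, hc, rfl⟩ := List.mem_map.1 hp
  exact gw_nu w o (mb_un b (hu c hc)) fun h1 h2 => h h1 h2 c hc

lemma OO_data (b w w' : Bool) {e f : Cf} (hu : UnC e) (hv : UnC f)
    (h : w = true → ∀ c ∈ e, mb b c.2 ≠ .rb) :
    AA θ (OO b (nmz w e) (nmz w' f)) = AA θ (OO b e f) ∧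
    BB θ (OO b (nmz w e) (nmz w' f)) = BB θ (OO b e f) ∧
    ∀ v, NN θ (OO b (nmz w e) (nmz w' f)) v = NN θ (OO b e f) v := by
  obtain ⟨a1, a2, a3⟩ := tg_data (θ := θ) b true w hu fun h1 _ => h h1
  obtain ⟨b1, b2, b3⟩ := tg_data (θ := θ) b false w' hv fun _ h2 => absurd h2 (by simp)
  unfold OO
  refine ⟨?_, ?_, fun v => ?_⟩
  · rw [AA_append, AA_append, a1, b1]
  · rw [BB_append, BB_append, a2, b2]
  · rw [NN_append, NN_append, a3, b3]

lemma ow_nmz (w : Bool) {e : Cf} (hu : UnC e)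
    (hp : w = true → ∀ c ∈ e, ∀ d ∈ e, Pn c.2 d.2) : ow θ (nmz w e) = ow θ e :=
  ow_map (gw w) (fun c _ => gw_w1 w c.2) fun c hc d hd u =>
    gw_own w (hu c hc) (hu d hd) (fun hw => hp hw c hc d hd) u

lemma cr_nmz (w w' : Bool) {e f : Cf} (hu : UnC e) (hv : UnC f) :
    cr θ (nmz w e) (nmz w' f) = cr θ e f := by
  rw [cr_dp, cr_dp]
  unfold nmz
  rw [dp_map]
  exact dp_congr fun a ha b hb => gw_crs w w' (hu a ha) (hv b hb) _

lemma tt_map (q : K → ℤ) (g : K → K) (e : Cf) (h : ∀ c ∈ e, q (g c.2) = q c.2) :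
    tt q (e.map fun c => (c.1, g c.2)) = tt q e := by
  induction e with
  | nil => rfl
  | cons c e ih =>
    rw [List.map_cons, tt_cons, tt_cons, ih fun c' hc' => h c' (List.mem_cons_of_mem _ hc'),
      h c List.mem_cons_self]

lemma tt_nmz_ch (w : Bool) (e : Cf) : tt ch (nmz w e) = tt ch e :=
  tt_map ch (gw w) e fun c _ => gw_ch w c.2

lemma tt_nmz_nl (w : Bool) (e : Cf) : tt nl (nmz w e) = tt nl e :=
  tt_map nl (gw w) e fun c _ => gw_nl w c.2

lemma tt_append (q : K → ℤ) (e f : Cf) : tt q (e ++ f) = tt q e + tt q f := by simp [tt]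

lemma tt_sE_ch (E : Cf) : tt ch (sE E) = tt ch E :=
  tt_map ch sw E fun c _ => by cases c.2 <;> rfl

lemma tt_sE_nl (E : Cf) : tt nl (sE E) = tt nl E :=
  tt_map nl sw E fun c _ => by cases c.2 <;> rfl

lemma tt_rF_ch {e : Cf} (h : ∀ c ∈ e, isF c.2) : tt ch (rF e) = -tt ch e := by
  induction e with
  | nil => rfl
  | cons c e ih =>
    have e1 : rF (c :: e) = (c.1, mir c.2) :: rF e := rfl
    rw [e1, tt_cons, tt_cons, ih fun c' hc' => h c' (List.mem_cons_of_mem _ hc')]
    have : ch (mir c.2) = -ch c.2 := by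
      rcases h c List.mem_cons_self with h | h | h <;> rw [h] <;> rfl
    simp only [this]
    ring

lemma tt_F_nl {e : Cf} (h : ∀ c ∈ e, isF c.2) : tt nl e = 0 := by
  induction e with
  | nil => rfl
  | cons c e ih =>
    rw [tt_cons, ih fun c' hc' => h c' (List.mem_cons_of_mem _ hc')]
    have : nl c.2 = 0 := by
      rcases h c List.mem_cons_self with h | h | h <;> rw [h] <;> rfl
    rw [this, zero_add]

lemma rF_F {e : Cf} (h : ∀ c ∈ e, isF c.2) : ∀ c ∈ rF e, isF c.2 := by
  intro c hc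
  obtain ⟨d, hd, rfl⟩ := List.mem_map.1 hc
  exact (h d hd).mir

lemma sE_E {E : Cf} (h : ∀ c ∈ E, isE c.2) : ∀ c ∈ sE E, isE c.2 := by
  intro c hc
  obtain ⟨d, hd, rfl⟩ := List.mem_map.1 hc
  exact (h d hd).sw

lemma unC_EF {E e : Cf} (hE : ∀ c ∈ E, isE c.2) (he : ∀ c ∈ e, isF c.2) : UnC (E ++ e) := by
  intro c hc
  rcases List.mem_append.1 hc with hc | hc
  · exact (hE c hc).un
  · exact (he c hc).un

lemma UnO_tg (b o : Bool) {e : Cf} (h : UnC e) : UnO (tg b o e) := by
  intro p hp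
  obtain ⟨c, hc, rfl⟩ := List.mem_map.1 hp
  exact mb_un b (h c hc)

lemma UnO_OO (b : Bool) {e f : Cf} (h : UnC e) (h' : UnC f) : UnO (OO b e f) := by
  intro p hp
  rcases List.mem_append.1 hp with hp | hp
  · exact UnO_tg b true h p hp
  · exact UnO_tg b false h' p hp

/-! ### reflected objects -/

lemma isF_mb (b : Bool) {k : K} (h : isF k) : isF (mb b k) := by
  cases b
  · exact h.mir
  · exact h

lemma isE_mb (b : Bool) {k : K} (h : isE k) : isE (mb b k) := by
  cases b
  · exact h.mir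
  · exact h

lemma mb_mir (b : Bool) (k : K) : mb b (mir k) = mir (mb b k) := by
  cases b <;> rfl

lemma mb_sw (b : Bool) {k : K} (h : isE k) : mb b (sw k) = sw (mb b k) := by
  cases b
  · rcases h with rfl | rfl | rfl | rfl | rfl | rfl <;> rfl
  · rfl

lemma tg_im_E (b o : Bool) {E : Cf} (h : ∀ c ∈ E, isE c.2) :
    (tg b o E).map imO = tg b o (sE E) := by
  unfold tg sE
  rw [List.map_map, List.map_map]
  refine List.map_congr_left fun c hc => ?_
  simp only [Function.comp_def, imO, imk_E (isE_mb b (h c hc)), mb_sw b (h c hc)]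

lemma tg_im_F (b o : Bool) {e : Cf} (h : ∀ c ∈ e, isF c.2) :
    (tg b o e).map imO = tg b (!o) (rF e) := by
  unfold tg rF
  rw [List.map_map, List.map_map]
  refine List.map_congr_left fun c hc => ?_
  simp only [Function.comp_def, imO, imk_F (isF_mb b (h c hc)), mb_mir]

lemma tg_append (b o : Bool) (e f : Cf) : tg b o (e ++ f) = tg b o e ++ tg b o f := List.map_append

lemma OO_im (b : Bool) {E E' e f : Cf} (hE : ∀ c ∈ E, isE c.2) (hE' : ∀ c ∈ E', isE c.2)
    (he : ∀ c ∈ e, isF c.2) (hf : ∀ c ∈ f, isF c.2) :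
    ((OO b (E ++ e) (E' ++ f)).map imO).Perm (OO b (sE E ++ rF f) (sE E' ++ rF e)) := by
  unfold OO
  rw [tg_append, tg_append, tg_append, tg_append, List.map_append, List.map_append,
    List.map_append, tg_im_E b true hE, tg_im_F b true he, tg_im_E b false hE',
    tg_im_F b false hf]
  simp only [Bool.not_true, Bool.not_false, List.append_assoc]
  refine List.Perm.append_left _ ?_
  refine (List.perm_append_comm (l₁ := tg b false (rF e))).trans ?_
  rw [List.append_assoc]
  refine (List.perm_append_comm (l₁ := tg b false (sE E'))).trans ?_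
  rw [List.append_assoc]
  exact List.Perm.append_left _ List.perm_append_comm

lemma FL_OO (e f : Cf) : (FL (OO true e f)).Perm (OO true f e) := by
  unfold FL OO
  rw [List.map_append]
  have h1 : ∀ (o : Bool) (L : Cf), (tg true o L).map flO = tg true (!o) L := by
    intro o L
    unfold tg
    rw [List.map_map]
    exact List.map_congr_left fun c _ => rfl
  rw [h1, h1]
  exact List.perm_append_comm

/-! ### values -/

/-- ended line -/
def nn : K → ℤ
  | .ro => 1
  | .rb => 1
  | .re => 1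
  | .lo => 1
  | .lb => 1
  | .le => 1
  | _ => 0

/-- empty line of side `b` -/
def eb (b : Bool) (k : K) : ℤ := if mb b k = .re then 1 else 0

lemma vl_t (b : Bool) {k : K} (hk : Un k = true) :
    2 * vl true (mb b k) = -sh b * ch k + nn k + 2 * eb b k := by
  cases b <;> cases k <;> simp only [Un, Bool.false_eq_true] at hk <;>
    simp [vl, mb, mir, sh, ch, nn, eb]

lemma vl_f (b : Bool) {k : K} (hk : Un k = true) :
    2 * vl false (mb b k) = sh b * ch k - nn k := by
  cases b <;> cases k <;> simp only [Un, Bool.false_eq_true] at hk <;>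
    simp [vl, mb, mir, sh, ch, nn]

lemma vl_tg_t (b : Bool) {e : Cf} (h : UnC e) :
    2 * ((tg b true e).map fun o => vl o.1 o.2.2).sum =
      -sh b * tt ch e + tt nn e + 2 * tt (eb b) e := by
  induction e with
  | nil => simp [tg, tt]
  | cons c e ih =>
    have h1 := ih fun c' hc' => h c' (List.mem_cons_of_mem _ hc')
    have h2 := vl_t b (h c List.mem_cons_self)
    have e1 : tg b true (c :: e) = (true, c.1, mb b c.2) :: tg b true e := rfl
    rw [e1, List.map_cons, List.sum_cons, tt_cons, tt_cons, tt_cons]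
    linear_combination h1 + h2

lemma vl_tg_f (b : Bool) {e : Cf} (h : UnC e) :
    2 * ((tg b false e).map fun o => vl o.1 o.2.2).sum = sh b * tt ch e - tt nn e := by
  induction e with
  | nil => simp [tg, tt]
  | cons c e ih =>
    have h1 := ih fun c' hc' => h c' (List.mem_cons_of_mem _ hc')
    have h2 := vl_f b (h c List.mem_cons_self)
    have e1 : tg b false (c :: e) = (false, c.1, mb b c.2) :: tg b false e := rfl
    rw [e1, List.map_cons, List.sum_cons, tt_cons, tt_cons]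
    linear_combination h1 + h2

lemma vl_OO (b : Bool) {e f : Cf} (h : UnC e) (h' : UnC f) :
    2 * ((OO b e f).map fun o => vl o.1 o.2.2).sum =
      -sh b * (tt ch e - tt ch f) + (tt nn e - tt nn f) + 2 * tt (eb b) e := by
  unfold OO
  rw [List.map_append, List.sum_append]
  linear_combination vl_tg_t b h + vl_tg_f b h'

lemma tt_F_nn {e : Cf} (h : ∀ c ∈ e, isF c.2) : tt nn e = 0 := by
  induction e with
  | nil => rfl
  | cons c e ih =>
    rw [tt_cons, ih fun c' hc' => h c' (List.mem_cons_of_mem _ hc')]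
    have : nn c.2 = 0 := by
      rcases h c List.mem_cons_self with h | h | h <;> rw [h] <;> rfl
    rw [this, zero_add]

lemma tt_F_eb (b : Bool) {e : Cf} (h : ∀ c ∈ e, isF c.2) : tt (eb b) e = 0 := by
  induction e with
  | nil => rfl
  | cons c e ih =>
    rw [tt_cons, ih fun c' hc' => h c' (List.mem_cons_of_mem _ hc')]
    have : eb b c.2 = 0 := by
      rcases h c List.mem_cons_self with h | h | h <;> rw [h] <;> cases b <;> rfl
    rw [this, zero_add]

/-! ### hypotheses on the worlds -/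

/-- the ended lines of a world with a current of side `b` -/
def GE (b : Bool) (E : Cf) : Prop :=
  (∀ c ∈ E, isE c.2 ∧ mb b c.2 ≠ .lb ∧ mb b c.2 ≠ .le) ∧
    E.Pairwise fun c d => Okp (mb b c.2) (mb b d.2) ∧ Okp (mb b d.2) (mb b c.2)

lemma Okp_right {k l : K} (hl : isF l) : Okp k l := by
  rcases hl with rfl | rfl | rfl <;> simp [Okp]

lemma Okp_left {k l : K} (hk : isF k) (h1 : l ≠ .lb) (h2 : l ≠ .le) : Okp k l := by
  rcases hk with rfl | rfl | rfl <;> simp [Okp, h1, h2]

lemma GE.okp {b : Bool} {E e : Cf} (hE : GE b E) (he : ∀ c ∈ e, isF c.2) :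
    (E ++ e).Pairwise fun c d => Okp (mb b c.2) (mb b d.2) ∧ Okp (mb b d.2) (mb b c.2) := by
  rw [List.pairwise_append]
  refine ⟨hE.2, ?_, fun c hc d hd => ?_⟩
  · exact List.pairwise_of_forall_mem_list fun c hc d hd =>
      ⟨Okp_right (isF_mb b (he d hd)), Okp_right (isF_mb b (he c hc))⟩
  · exact ⟨Okp_right (isF_mb b (he d hd)),
      Okp_left (isF_mb b (he d hd)) (hE.1 c hc).2.1 (hE.1 c hc).2.2⟩

lemma nz_of_sep (hθ : θ ^ 8 = -1) {a c : ℂ} (ha : a ≠ 0) (hc : c ≠ 0)
    (h : NUGas.Sep (θ ^ 2) (a ^ 2) (c ^ 2)) : Nz θ (a / c) := fun k _ =>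
  As.sn_ne_of_sep hθ ha hc h k

lemma hyp_of (hθ : θ ^ 8 = -1) {b : Bool} {e f : Cf} (hu : UnC e) (hv : UnC f)
    (hG : G θ ((e ++ f).map Prod.fst))
    (hok : e.Pairwise fun c d => Okp (mb b c.2) (mb b d.2) ∧ Okp (mb b d.2) (mb b c.2)) :
    Hyp θ b e f := by
  have hne : ∀ c ∈ e ++ f, c.1 ≠ 0 := fun c hc =>
    hG.mem_ne0 (List.mem_map.2 ⟨c, hc, rfl⟩)
  have hp : (e ++ f).Pairwise fun c d => NUGas.Sep (θ ^ 2) (c.1 ^ 2) (d.1 ^ 2) := by
    have := hG.2
    rw [List.map_map, List.pairwise_map] at this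
    exact this
  rw [List.pairwise_append] at hp
  refine ⟨hu, hv, fun c hc => hne c (List.mem_append_left _ hc), ?_, fun c hc d hd =>
    nz_of_sep hθ (hne c (List.mem_append_left _ hc)) (hne d (List.mem_append_right _ hd))
      (hp.2.2 c hc d hd)⟩
  have h1 : e.Pairwise fun c d => Rel θ b c d ∧ Rel θ b d c := by
    refine (hok.and hp.1).imp_of_mem fun {c d} hc hd h => ?_
    have n1 : Nz θ (c.1 / d.1) := nz_of_sep hθ (hne c (List.mem_append_left _ hc))
      (hne d (List.mem_append_left _ hd)) h.2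
    refine ⟨⟨h.1.1, n1⟩, h.1.2, ?_⟩
    rw [← inv_div]
    exact n1.inv hθ
  intro q hq d hd
  exact (foc_pairwise (fun x y h => ⟨h.2, h.1⟩) h1 q hq d hd).1

end NUTP.Gas.UD

end
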