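import Pool.Agent.NUTP.Gas.UDc
import Pool.Agent.NUTP.Uniq

/-!
# Reflection of the gas: the poles are different
-/

set_option autoImplicit false

noncomputable section

namespace NUTP.Gas.UD

open NUTG

variable {θ : ℂ}

lemma prim16 (hθ : θ ^ 8 = -1) : IsPrimitiveRoot θ 16 := by
  have h : orderOf θ = 2 ^ (3 + 1) := by
    apply orderOf_eq_prime_pow
    · rw [show 2 ^ 3 = 8 from rfl, hθ]; norm_num
    · rw [show 2 ^ (3 + 1) = 8 * 2 from rfl, pow_mul, hθ]; norm_num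
  have := IsPrimitiveRoot.orderOf θ
  rwa [h] at this

/-- different exponents -/
lemma pow_ne (hθ : θ ^ 8 = -1) {i j : ℕ} (h : (2 * i) % 16 ≠ (2 * j) % 16) {c : ℂ} (hc : c ≠ 0) :
    (θ ^ i * c) ^ 2 ≠ (θ ^ j * c) ^ 2 := by
  have hp := prim16 hθ
  intro h1
  rw [mul_pow, mul_pow] at h1
  have h2 := mul_right_cancel₀ (pow_ne_zero 2 hc) h1
  rw [← pow_mul, ← pow_mul, mul_comm i, mul_comm j, ← pow_mod_orderOf, ← hp.eq_orderOf] at h2
  rw [← pow_mod_orderOf θ (2 * j), ← hp.eq_orderOf] at h2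
  exact h (hp.pow_inj (Nat.mod_lt _ (by norm_num)) (Nat.mod_lt _ (by norm_num)) h2)

/-- different lines -/
lemma sep_ne (hθ : θ ^ 8 = -1) {c d : ℂ} (h : NUGas.Sep (θ ^ 2) (c ^ 2) (d ^ 2)) (i j : ℕ) :
    (θ ^ i * c) ^ 2 ≠ (θ ^ j * d) ^ 2 := by
  intro h1
  apply h (i + 7 * j)
  have h16 : ((θ ^ 2) ^ j) ^ 8 = 1 := by
    rw [← pow_mul, ← pow_mul, show 2 * (j * 8) = 8 * (2 * j) by ring, pow_mul, hθ, pow_mul]
    norm_num
  rw [mul_pow, mul_pow, ← pow_mul, ← pow_mul, mul_comm i, mul_comm j, pow_mul, pow_mul] at h1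
  rw [pow_add, mul_comm 7 j, pow_mul (θ ^ 2) j 7]
  linear_combination (((θ ^ 2) ^ j) ^ 7) * h1 + d ^ 2 * h16

/-- all exponents of an object -/
def eA (s : Bool) (k : K) : List ℕ := nE s k ++ fE s k

/-- all poles -/
def PP (θ : ℂ) (O : List Ob) : List ℂ := O.flatMap fun o => pl θ o.2.1 (eA o.1 o.2.2)

lemma AB_perm (O : List Ob) : (AA θ O ++ BB θ O).Perm (PP θ O) := by
  induction O with
  | nil => exact List.Perm.refl _
  | cons o O ih =>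
    have e1 : AA θ (o :: O) = nearO θ o ++ AA θ O := rfl
    have e2 : BB θ (o :: O) = farO θ o ++ BB θ O := rfl
    have e3 : PP θ (o :: O) = (nearO θ o ++ farO θ o) ++ PP θ O := by
      simp [PP, nearO, farO, eA, pl]
    rw [e1, e2, e3, List.append_assoc, List.append_assoc]
    refine List.Perm.append_left _ ?_
    rw [← List.append_assoc]
    refine (List.Perm.append_right _ List.perm_append_comm).trans ?_
    rw [List.append_assoc]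
    exact List.Perm.append_left _ ih

lemma mem_pl {c w : ℂ} {E : List ℕ} (h : w ∈ pl θ c E) : ∃ j ∈ E, w = θ ^ j * c := by
  obtain ⟨j, hj, rfl⟩ := List.mem_map.1 h
  exact ⟨j, hj, rfl⟩

lemma mem_PP {O : List Ob} {w : ℂ} (h : w ∈ PP θ O) :
    ∃ o ∈ O, ∃ j ∈ eA o.1 o.2.2, w = θ ^ j * o.2.1 := by
  obtain ⟨o, ho, hw⟩ := List.mem_flatMap.1 h
  obtain ⟨j, hj, rfl⟩ := mem_pl hw
  exact ⟨o, ho, j, hj, rfl⟩

lemma eA_pair (s : Bool) (k : K) :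
    (eA s k).Pairwise fun i j => (2 * i) % 16 ≠ (2 * j) % 16 := by
  cases s <;> cases k <;> simp [eA, nE, fE]

lemma eA_fl (s : Bool) (k : K) : ∀ i ∈ eA s k, ∀ j ∈ eA (!s) k,
    (2 * i) % 16 ≠ (2 * (j + 13)) % 16 ∧ (2 * i) % 16 ≠ (2 * (j + 3)) % 16 := by
  cases s <;> cases k <;> simp [eA, nE, fE]

lemma pp_pair (hθ : θ ^ 8 = -1) {O : List Ob} (hG : G θ (O.map fun o => o.2.1)) :
    (PP θ O).Pairwise fun a b => a ^ 2 ≠ b ^ 2 := by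
  induction O with
  | nil => exact List.Pairwise.nil
  | cons o O ih =>
    have e3 : PP θ (o :: O) = pl θ o.2.1 (eA o.1 o.2.2) ++ PP θ O := rfl
    rw [List.map_cons] at hG
    have h0 := hG.ne0
    rw [e3, List.pairwise_append]
    refine ⟨?_, ih hG.tail, ?_⟩
    · unfold pl
      rw [List.pairwise_map]
      exact (eA_pair o.1 o.2.2).imp fun h => pow_ne hθ h h0
    · intro w hw v hv
      obtain ⟨j, -, rfl⟩ := mem_pl hw
      obtain ⟨o', ho', i, -, rfl⟩ := mem_PP hv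
      exact sep_ne hθ (G.sep' hG (List.mem_map.2 ⟨o', ho', rfl⟩)) j i

/-- **(g1)** -/
lemma dst_O (hθ : θ ^ 8 = -1) {O : List Ob} (hG : G θ (O.map fun o => o.2.1)) :
    Dst (AA θ O ++ BB θ O) := by
  have hp := AB_perm (θ := θ) O
  constructor
  · intro a ha
    obtain ⟨o, ho, j, -, rfl⟩ := mem_PP (hp.mem_iff.1 ha)
    exact mul_ne_zero (pow_ne_zero _ (th_ne hθ)) (hG.mem_ne0 (List.mem_map.2 ⟨o, ho, rfl⟩))
  · exact (hp.pairwise_iff (fun {_ _} h => h.symm)).2 (pp_pair hθ hG)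

lemma FL_lines (O : List Ob) : (FL O).map (fun o => o.2.1) = O.map fun o => o.2.1 := by
  unfold FL
  rw [List.map_map]
  rfl

/-- condition on two objects in the two worlds -/
def C3 (θ : ℂ) (o o' : Ob) : Prop := ∀ i ∈ eA o.1 o.2.2, ∀ j ∈ eA (!o'.1) o'.2.2,
  (θ ^ i * o.2.1) ^ 2 ≠ (θ ^ (j + 13) * o'.2.1) ^ 2 ∧ (θ ^ i * o.2.1) ^ 2 ≠ (θ ^ (j + 3) * o'.2.1) ^ 2

lemma c3_all (hθ : θ ^ 8 = -1) {O : List Ob} (hG : G θ (O.map fun o => o.2.1)) :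
    ∀ o ∈ O, ∀ o' ∈ O, C3 θ o o' := by
  have h1 : O.Pairwise fun o o' => C3 θ o o' ∧ C3 θ o' o := by
    have h2 := hG.2
    rw [List.map_map, List.pairwise_map] at h2
    refine h2.imp fun {o o'} h => ⟨fun i _ j _ => ⟨sep_ne hθ h _ _, sep_ne hθ h _ _⟩, ?_⟩
    have e13 : ∀ j : ℕ, θ ^ (j + 16) = θ ^ j := fun j => by
      rw [pow_add, show (16 : ℕ) = 8 * 2 from rfl, pow_mul, hθ]; norm_num
    intro i _ j _
    exact ⟨(sep_ne hθ h _ _).symm, (sep_ne hθ h _ _).symm⟩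
  intro o ho o' ho'
  have : Std.Symm (fun o o' => C3 θ o o' ∧ C3 θ o' o) := ⟨fun _ _ h => ⟨h.2, h.1⟩⟩
  refine (List.Pairwise.forall_of_forall (R := fun o o' => C3 θ o o' ∧ C3 θ o' o)
    (fun x hx => ?_) h1 ho ho').1
  · have h0 : x.2.1 ≠ 0 := hG.mem_ne0 (List.mem_map.2 ⟨x, hx, rfl⟩)
    have h3 : C3 θ x x := fun i hi j hj =>
      ⟨pow_ne hθ (eA_fl x.1 x.2.2 i hi j hj).1 h0, pow_ne hθ (eA_fl x.1 x.2.2 i hi j hj).2 h0⟩
    exact ⟨h3, h3⟩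

/-- **(g2), (g3)** -/
lemma sep_O (hθ : θ ^ 8 = -1) {O : List Ob} (hG : G θ (O.map fun o => o.2.1)) :
    ∀ w ∈ AA θ O ++ BB θ O, ∀ v ∈ AA θ (FL O) ++ BB θ (FL O),
      w ^ 2 ≠ (v / θ ^ 3) ^ 2 ∧ w ^ 2 ≠ (v * θ ^ 3) ^ 2 := by
  intro w hw v hv
  obtain ⟨o, ho, i, hi, rfl⟩ := mem_PP ((AB_perm (θ := θ) O).mem_iff.1 hw)
  obtain ⟨o₁, ho₁, j, hj, rfl⟩ := mem_PP ((AB_perm (θ := θ) (FL O)).mem_iff.1 hv)
  obtain ⟨o', ho', rfl⟩ := List.mem_map.1 ho₁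
  have h := c3_all hθ hG o ho o' ho' i hi j hj
  have e1 : θ ^ j * (flO o').2.1 / θ ^ 3 = θ ^ (j + 13) * o'.2.1 := by
    have h1 : (θ ^ 3)⁻¹ = θ ^ 13 :=
      (eq_inv_of_mul_eq_one_left (by rw [← pow_add]; exact th16 hθ)).symm
    rw [div_eq_mul_inv, h1, pow_add]
    change θ ^ j * o'.2.1 * θ ^ 13 = _
    ring
  have e2 : θ ^ j * (flO o').2.1 * θ ^ 3 = θ ^ (j + 3) * o'.2.1 := by
    rw [pow_add]
    change θ ^ j * o'.2.1 * θ ^ 3 = _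
    ring
  rw [e1, e2]
  exact h

end NUTP.Gas.UD

end
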