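import Pool.Agent.NUTP.Gas.UDh
import Pool.Agent.NUTP.Gas.UDsep

/-!
# Reflection of the gas, IX: reflection for fixed charges
-/

set_option autoImplicit false

noncomputable section

namespace NUTP.Gas.UD

open NUTG

variable {θ χ : ℂ}

lemma sn21 (hθ : θ ^ 8 = -1) : sn θ 2 1 ≠ 0 := by
  have h0 := th_ne hθ
  have h := prim16 hθ
  intro h1
  unfold sn at h1
  rw [div_eq_zero_iff] at h1
  rcases h1 with h1 | h1
  · have h2 : θ ^ 2 * 1 ≠ 0 := mul_ne_zero (pow_ne_zero _ h0) one_ne_zero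
    rw [sub_eq_zero, ← mul_eq_one_iff_eq_inv₀ h2] at h1
    have h3 : θ ^ 4 = 1 := by linear_combination h1
    have h4 : θ ^ 8 = 1 := by linear_combination (θ ^ 4 + 1) * h3
    rw [hθ] at h4
    norm_num at h4
  · exact mul_ne_zero two_ne_zero (pow_ne_zero _ h0) h1

lemma tb_inv (b : Bool) : tb θ⁻¹ b = (tb θ b)⁻¹ := by
  cases b
  · rfl
  · rfl

lemma G_tb (hθ : θ ^ 8 = -1) (b : Bool) {S : List ℂ} (h : G θ S) : G (tb θ b) S := by
  cases b
  · exact h.inv hθ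
  · exact h

lemma OO_lines (b : Bool) (e f : Cf) :
    (OO b e f).map (fun o => o.2.1) = (e ++ f).map Prod.fst := by
  unfold OO tg
  rw [List.map_append, List.map_append, List.map_map, List.map_map]
  rfl

lemma sh_sq (b : Bool) : sh b * sh b = 1 := by cases b <;> rfl

/-- reflection of the mark sum of one current -/
lemma M1_OO (hθ : θ ^ 8 = -1) (b : Bool) {w w' : Bool} {E E' e f : Cf}
    (hE : ∀ c ∈ E, isE c.2) (hE' : ∀ c ∈ E', isE c.2) (he : ∀ c ∈ e, isF c.2)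
    (hf : ∀ c ∈ f, isF c.2) (hG : G θ (((E ++ e) ++ (E' ++ f)).map Prod.fst))
    (hb : w = true → ∀ c ∈ sE E ++ rF f, mb b c.2 ≠ .rb)
    (hs : ((OO b (E ++ e) (E' ++ f)).map fun o => vl o.1 o.2.2).sum = 2) :
    M1 (tb θ⁻¹ b) (OO b (nmz w (sE E ++ rF f)) (nmz w' (sE E' ++ rF e))) =
      M1 (tb θ b) (OO b (E ++ e) (E' ++ f)) := by
  have u1 : UnC (E ++ e) := unC_EF hE he
  have u2 : UnC (E' ++ f) := unC_EF hE' hf
  have u3 : UnC (sE E ++ rF f) := unC_EF (sE_E hE) (rF_F hf)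
  have u4 : UnC (sE E' ++ rF e) := unC_EF (sE_E hE') (rF_F he)
  obtain ⟨d1, d2, d3⟩ := OO_data (θ := tb θ⁻¹ b) b w w' u3 u4 hb
  rw [M1_data d1 d2 d3, ← M1_perm (OO_im b hE hE' he hf), tb_inv]
  refine M1_refl (tb8 hθ b) (UnO_OO b u1 u2) (dst_O (tb8 hθ b) ?_) hs
  rw [OO_lines]
  exact G_tb hθ b hG

/-- reflection of the mark sum of two currents -/
lemma M2c_OO (hθ : θ ^ 8 = -1) (b : Bool) {w w' : Bool} {E E' e f : Cf}
    (hE : ∀ c ∈ E, isE c.2) (hE' : ∀ c ∈ E', isE c.2) (he : ∀ c ∈ e, isF c.2)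
    (hf : ∀ c ∈ f, isF c.2) (hG : G θ (((E ++ e) ++ (E' ++ f)).map Prod.fst))
    (hb : w = true → ∀ c ∈ sE E ++ rF f, c.2 ≠ .rb)
    (hb' : w' = true → ∀ c ∈ sE E' ++ rF e, mb b c.2 ≠ .rb)
    (hs : ((OO true (E ++ e) (E' ++ f)).map fun o => vl o.1 o.2.2).sum = if b then 1 else 2)
    (hs' : ((OO b (E' ++ f) (E ++ e)).map fun o => vl o.1 o.2.2).sum = if b then 1 else 2) :
    M2c θ⁻¹ b (OO true (nmz w (sE E ++ rF f)) (nmz w' (sE E' ++ rF e)))
      (OO b (nmz w' (sE E' ++ rF e)) (nmz w (sE E ++ rF f))) =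
      M2c θ b (OO true (E ++ e) (E' ++ f)) (OO b (E' ++ f) (E ++ e)) := by
  have hG' : G θ (((E' ++ f) ++ (E ++ e)).map Prod.fst) :=
    hG.perm hθ (List.perm_append_comm.map _)
  have u1 : UnC (E ++ e) := unC_EF hE he
  have u2 : UnC (E' ++ f) := unC_EF hE' hf
  have u3 : UnC (sE E ++ rF f) := unC_EF (sE_E hE) (rF_F hf)
  have u4 : UnC (sE E' ++ rF e) := unC_EF (sE_E hE') (rF_F he)
  cases b
  · rw [M2c_false, M2c_false, inv_inv]
    have k1 := M1_OO hθ true (w := w) (w' := w') hE hE' he hf hG hb hs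
    have k2 := M1_OO hθ false (w := w') (w' := w) hE' hE hf he hG' hb' hs'
    have t1 : tb θ⁻¹ true = θ⁻¹ := rfl
    have t2 : tb θ true = θ := rfl
    have t3 : tb θ⁻¹ false = θ := inv_inv θ
    have t4 : tb θ false = θ⁻¹ := rfl
    rw [t1, t2] at k1
    rw [t3, t4] at k2
    rw [k1, k2]
  · obtain ⟨d1, d2, d3⟩ := OO_data (θ := θ⁻¹) true w w' u3 u4 hb
    obtain ⟨c1, c2, c3⟩ := OO_data (θ := θ⁻¹) true w' w u4 u3 hb'
    rw [M2c_data true d1 d2 d3 c1 c2 c3]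
    have p1 := OO_im true hE hE' he hf
    have p2 : (FL ((OO true (E ++ e) (E' ++ f)).map imO)).Perm
        (OO true (sE E' ++ rF e) (sE E ++ rF f)) := (p1.map _).trans (FL_OO _ _)
    rw [← M2c_perm true p1 p2, ← M2c_perm true (List.Perm.refl _) (FL_OO (E ++ e) (E' ++ f)),
      M2c_true, M2c_true]
    have hl : G θ ((OO true (E ++ e) (E' ++ f)).map fun o => o.2.1) := by
      rw [OO_lines]; exact hG
    have hl' : G θ ((FL (OO true (E ++ e) (E' ++ f))).map fun o => o.2.1) := by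
      rw [FL_lines]; exact hl
    have h3 := sep_O hθ hl
    refine M2_refl hθ (UnO_OO true u1 u2)
      (fun o ho => hl.mem_ne0 (List.mem_map.2 ⟨o, ho, rfl⟩)) (dst_O hθ hl) (dst_O hθ hl') hs ?_
      (fun w hw v hv => (h3 w hw v hv).1) (fun w hw v hv => (h3 w hw v hv).2)
    have := ((FL_OO (E ++ e) (E' ++ f)).map fun o => vl o.1 o.2.2).sum_eq
    rw [this]
    exact hs'

lemma nmz_EF (w : Bool) {E f : Cf} (hf : ∀ c ∈ f, isF c.2) :
    nmz w E ++ rF f = nmz w (E ++ rF f) := by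
  rw [nmz_append, nmz_F w (rF_F hf)]

lemma Pn_F {k l : K} (h : isF k ∨ isF l) : Pn k l := by
  rcases h with h | h <;> rcases h with rfl | rfl | rfl <;> simp [Pn]

lemma Pn_all {E e : Cf} (he : ∀ c ∈ e, isF c.2) (h : ∀ c ∈ E, ∀ d ∈ E, Pn c.2 d.2) :
    ∀ c ∈ E ++ e, ∀ d ∈ E ++ e, Pn c.2 d.2 := by
  intro c hc d hd
  rcases List.mem_append.1 hc with hc | hc
  · rcases List.mem_append.1 hd with hd | hd
    · exact h c hc d hd
    · exact Pn_F (Or.inr (he d hd))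
  · exact Pn_F (Or.inl (he c hc))

lemma rb_all {b : Bool} {E e : Cf} (he : ∀ c ∈ e, isF c.2) (h : ∀ c ∈ E, mb b c.2 ≠ .rb) :
    ∀ c ∈ E ++ e, mb b c.2 ≠ .rb := by
  intro c hc
  rcases List.mem_append.1 hc with hc | hc
  · exact h c hc
  · have := isF_mb b (he c hc)
    intro h1
    rw [h1] at this
    rcases this with h | h | h <;> simp at h

lemma lines_perm (E E' : Cf) (e f : Cf) (w w' : Bool) :
    ((nmz w (sE E) ++ rF f ++ (nmz w' (sE E') ++ rF e)).map Prod.fst).Perm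
      ((E ++ e ++ (E' ++ f)).map Prod.fst) := by
  have h1 : ∀ (w : Bool) (E : Cf), (nmz w (sE E)).map Prod.fst = E.map Prod.fst := by
    intro w E
    unfold nmz sE
    rw [List.map_map, List.map_map]
    rfl
  have h2 : ∀ e : Cf, (rF e).map Prod.fst = e.map Prod.fst := by
    intro e
    unfold rF
    rw [List.map_map]
    rfl
  simp only [List.map_append, h1, h2, List.append_assoc]
  refine List.Perm.append_left _ ?_
  refine (List.perm_append_comm (l₁ := f.map Prod.fst)).trans ?_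
  rw [List.append_assoc]
  refine (List.Perm.append_left _ (List.Perm.refl _)).trans ?_
  refine (List.perm_append_comm (l₁ := E'.map Prod.fst)).trans ?_
  rw [List.append_assoc]
  exact List.Perm.append_left _ List.perm_append_comm

/-- **reflection for fixed charges, one current** -/
theorem T1_refl (hθ : θ ^ 8 = -1) {b w w' : Bool} {E E' e f : Cf}
    (hE : ∀ c ∈ E, isE c.2) (hE' : ∀ c ∈ E', isE c.2) (he : ∀ c ∈ e, isF c.2)
    (hf : ∀ c ∈ f, isF c.2) (hG : G θ (((E ++ e) ++ (E' ++ f)).map Prod.fst))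
    (g1 : GE b E') (g2 : GE b (nmz w' (sE E')))
    (hn : w = true → ∀ c ∈ sE E, ∀ d ∈ sE E, Pn c.2 d.2)
    (hn' : w' = true → ∀ c ∈ sE E', ∀ d ∈ sE E', Pn c.2 d.2)
    (hb : w' = true → ∀ c ∈ sE E', mb b c.2 ≠ .rb)
    (hnn : tt nn E' = tt nn E + 1) (heb : tt (eb b) E' = 1)
    (hx : -2 + tt ch E' + tt ch E + sh b + 2 * tt nl E + 2 * tt nl E' = 0) :
    T1 θ χ b (E ++ e) (E' ++ f) =
      T1 θ⁻¹ χ⁻¹ b (nmz w (sE E) ++ rF f) (nmz w' (sE E') ++ rF e) := by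
  have hθ' := th_inv8 hθ
  have u1 : UnC (E ++ e) := unC_EF hE he
  have u2 : UnC (E' ++ f) := unC_EF hE' hf
  have u3 : UnC (sE E ++ rF f) := unC_EF (sE_E hE) (rF_F hf)
  have u4 : UnC (sE E' ++ rF e) := unC_EF (sE_E hE') (rF_F he)
  have hG' : G θ (((E' ++ f) ++ (E ++ e)).map Prod.fst) :=
    hG.perm hθ (List.perm_append_comm.map _)
  have hGi : G θ⁻¹ ((nmz w (sE E) ++ rF f ++ (nmz w' (sE E') ++ rF e)).map Prod.fst) :=
    (hG.perm hθ (lines_perm E E' e f w w').symm).inv hθ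
  have hGi' : G θ⁻¹ ((nmz w' (sE E') ++ rF e ++ (nmz w (sE E) ++ rF f)).map Prod.fst) :=
    hGi.perm hθ' (List.perm_append_comm.map _)
  have un : ∀ (w : Bool) {L : Cf}, (∀ c ∈ L, isE c.2) → ∀ c ∈ nmz w L, isE c.2 := by
    intro w L hL c hc
    obtain ⟨d, hd, rfl⟩ := List.mem_map.1 hc
    exact gw_E w (hL d hd)
  have u5 : UnC (nmz w (sE E) ++ rF f) := unC_EF (un w (sE_E hE)) (rF_F hf)
  have u6 : UnC (nmz w' (sE E') ++ rF e) := unC_EF (un w' (sE_E hE')) (rF_F he)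
  unfold T1
  rw [V1 hθ (sn21 hθ) (hyp_of hθ u2 u1 hG' (g1.okp hf)),
    V1 hθ' (sn21 hθ') (hyp_of hθ' u6 u5 hGi' (g2.okp (rF_F he))),
    nmz_EF w hf, nmz_EF w' he, tt_nmz_ch, tt_nmz_ch, tt_nmz_nl, tt_nmz_nl]
  simp only [tt_append, tt_sE_ch, tt_sE_nl, tt_rF_ch he, tt_rF_ch hf, tt_F_nl he, tt_F_nl hf,
    tt_F_nl (rF_F he), tt_F_nl (rF_F hf)]
  by_cases hc : tt ch E + tt ch e = tt ch E' + tt ch f + sh b
  · rw [if_pos hc, if_pos (by linarith)]
    have hv := vl_OO b u2 u1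
    simp only [tt_append, tt_F_nn he, tt_F_nn hf, tt_F_eb b hf] at hv
    have hs : ((OO b (E' ++ f) (E ++ e)).map fun o => vl o.1 o.2.2).sum = 2 := by
      have e1 : tt ch E' + tt ch f - (tt ch E + tt ch e) = -sh b := by linarith
      rw [e1, hnn, heb] at hv
      have := sh_sq b
      linarith
    rw [M1_OO hθ b (w := w') (w' := w) hE' hE hf he hG' (fun h => rb_all (rF_F he) (hb h)) hs,
      ow_nmz w u3 (fun h => Pn_all (rF_F hf) (hn h)), ow_nmz w' u4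
        (fun h => Pn_all (rF_F he) (hn' h)), cr_nmz w w' u3 u4, base_refl hθ hE hE' he hf]
    congr 1
    rw [inv_zpow']
    congr 1
    linarith
  · rw [if_neg hc, if_neg]
    intro h
    apply hc
    linarith

/-- **reflection for fixed charges, two currents** -/
theorem T2_refl (hθ : θ ^ 8 = -1) {b w w' : Bool} {E E' e f : Cf}
    (hE : ∀ c ∈ E, isE c.2) (hE' : ∀ c ∈ E', isE c.2) (he : ∀ c ∈ e, isF c.2)
    (hf : ∀ c ∈ f, isF c.2) (hG : G θ (((E ++ e) ++ (E' ++ f)).map Prod.fst))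
    (g1 : GE b E') (g2 : GE b (nmz w' (sE E')))
    (g3 : GE true E) (g4 : GE true (nmz w (sE E)))
    (hn : w = true → ∀ c ∈ sE E, ∀ d ∈ sE E, Pn c.2 d.2)
    (hn' : w' = true → ∀ c ∈ sE E', ∀ d ∈ sE E', Pn c.2 d.2)
    (hb : w = true → ∀ c ∈ sE E, c.2 ≠ .rb)
    (hb' : w' = true → ∀ c ∈ sE E', mb b c.2 ≠ .rb)
    (hnn : tt nn E' = tt nn E) (heb : tt (eb true) E = 1) (heb' : tt (eb b) E' = 1)
    (hx : -3 + tt ch E' + tt ch E + sh b + 2 * tt nl E + 2 * tt nl E' = 0) :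
    T2 θ χ b (E ++ e) (E' ++ f) =
      T2 θ⁻¹ χ⁻¹ b (nmz w (sE E) ++ rF f) (nmz w' (sE E') ++ rF e) := by
  have hθ' := th_inv8 hθ
  have u1 : UnC (E ++ e) := unC_EF hE he
  have u2 : UnC (E' ++ f) := unC_EF hE' hf
  have u3 : UnC (sE E ++ rF f) := unC_EF (sE_E hE) (rF_F hf)
  have u4 : UnC (sE E' ++ rF e) := unC_EF (sE_E hE') (rF_F he)
  have hG' : G θ (((E' ++ f) ++ (E ++ e)).map Prod.fst) :=
    hG.perm hθ (List.perm_append_comm.map _)
  have hGi : G θ⁻¹ ((nmz w (sE E) ++ rF f ++ (nmz w' (sE E') ++ rF e)).map Prod.fst) :=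
    (hG.perm hθ (lines_perm E E' e f w w').symm).inv hθ
  have hGi' : G θ⁻¹ ((nmz w' (sE E') ++ rF e ++ (nmz w (sE E) ++ rF f)).map Prod.fst) :=
    hGi.perm hθ' (List.perm_append_comm.map _)
  have un : ∀ (w : Bool) {L : Cf}, (∀ c ∈ L, isE c.2) → ∀ c ∈ nmz w L, isE c.2 := by
    intro w L hL c hc
    obtain ⟨d, hd, rfl⟩ := List.mem_map.1 hc
    exact gw_E w (hL d hd)
  have u5 : UnC (nmz w (sE E) ++ rF f) := unC_EF (un w (sE_E hE)) (rF_F hf)
  have u6 : UnC (nmz w' (sE E') ++ rF e) := unC_EF (un w' (sE_E hE')) (rF_F he)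
  unfold T2
  rw [V2 hθ (sn21 hθ) (hyp_of hθ u1 u2 hG (g3.okp he)) (hyp_of hθ u2 u1 hG' (g1.okp hf)),
    V2 hθ' (sn21 hθ') (hyp_of hθ' u5 u6 hGi (g4.okp (rF_F hf)))
      (hyp_of hθ' u6 u5 hGi' (g2.okp (rF_F he))),
    nmz_EF w hf, nmz_EF w' he, tt_nmz_ch, tt_nmz_ch, tt_nmz_nl, tt_nmz_nl]
  simp only [tt_append, tt_sE_ch, tt_sE_nl, tt_rF_ch he, tt_rF_ch hf, tt_F_nl he, tt_F_nl hf,
    tt_F_nl (rF_F he), tt_F_nl (rF_F hf)]
  have sht : sh true = -1 := rfl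
  by_cases hc : tt ch E + tt ch e + sh true = tt ch E' + tt ch f + sh b
  · rw [if_pos hc, if_pos (by linarith)]
    have hv := vl_OO true u1 u2
    have hv' := vl_OO b u2 u1
    simp only [tt_append, tt_F_nn he, tt_F_nn hf, tt_F_eb b hf, tt_F_eb true he] at hv hv'
    have e1 : tt ch E' + tt ch f - (tt ch E + tt ch e) = -1 - sh b := by linarith
    have e2 : tt ch E + tt ch e - (tt ch E' + tt ch f) = 1 + sh b := by linarith
    rw [e2, hnn, heb, sht] at hv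
    rw [e1, hnn, heb'] at hv'
    have hs : ((OO true (E ++ e) (E' ++ f)).map fun o => vl o.1 o.2.2).sum =
        if b then 1 else 2 := by
      cases b <;> simp [sh] at hv ⊢ <;> linarith
    have hs' : ((OO b (E' ++ f) (E ++ e)).map fun o => vl o.1 o.2.2).sum =
        if b then 1 else 2 := by
      cases b <;> simp [sh] at hv' ⊢ <;> linarith
    rw [M2c_OO hθ b (w := w) (w' := w') hE hE' he hf hG (fun h => rb_all (b := true) (rF_F hf)
        (hb h)) (fun h => rb_all (rF_F he) (hb' h)) hs hs',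
      ow_nmz w u3 (fun h => Pn_all (rF_F hf) (hn h)), ow_nmz w' u4
        (fun h => Pn_all (rF_F he) (hn' h)), cr_nmz w w' u3 u4, base_refl hθ hE hE' he hf]
    congr 1
    rw [inv_zpow']
    congr 1
    linarith
  · rw [if_neg hc, if_neg]
    intro h
    apply hc
    linarith

end NUTP.Gas.UD

end
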